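import Mathlib

/-!
# Tilted Poisson-binomial data in the complex plane

For `y : Fin n → ℝ` (positive) and a complex tilt `z` with `|Im z| ≤ 1` we study
`LL = ∑ log (1 + y e^z)`, its derivatives `UU`, `VV`, `TT`, and the real versions `mu`, `vv`.
-/

open Finset Complex

namespace Pool.Agent.LExp

noncomputable def om (c : ℝ) (z : ℂ) : ℂ := c * cexp z / (1 + c * cexp z)

variable {n : ℕ} (y : Fin n → ℝ)

noncomputable def LL (z : ℂ) : ℂ := ∑ l, Complex.log (1 + y l * cexp z)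

noncomputable def UU (z : ℂ) : ℂ := ∑ l, om (y l) z

noncomputable def VV (z : ℂ) : ℂ := ∑ l, om (y l) z * (1 - om (y l) z)

noncomputable def TT (z : ℂ) : ℂ := ∑ l, om (y l) z * (1 - om (y l) z) * (1 - 2 * om (y l) z)

noncomputable def mu (x : ℝ) : ℝ := ∑ l, y l * Real.exp x / (1 + y l * Real.exp x)

noncomputable def vv (x : ℝ) : ℝ := ∑ l, y l * Real.exp x / (1 + y l * Real.exp x) ^ 2

/-! ### one factor -/

section one

variable {c : ℝ} (hc : 0 < c)

include hc

omit hc in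
lemma re_q (z : ℂ) : (1 + (c : ℂ) * cexp z).re = 1 + c * Real.exp z.re * Real.cos z.im := by
  simp only [add_re, one_re, mul_re, ofReal_re, ofReal_im, zero_mul, sub_zero, Complex.exp_re]
  ring

omit hc in
lemma im_q (z : ℂ) : (1 + (c : ℂ) * cexp z).im = c * Real.exp z.re * Real.sin z.im := by
  simp only [add_im, one_im, mul_im, ofReal_re, ofReal_im, zero_mul, add_zero, Complex.exp_im]
  ring

omit hc in
lemma cos_pos_of {t : ℝ} (ht : |t| ≤ 1) : 0 < Real.cos t := by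
  apply Real.cos_pos_of_mem_Ioo
  have := abs_le.1 ht
  have := Real.pi_gt_three
  constructor <;> linarith [(abs_le.1 ht).1, (abs_le.1 ht).2]

lemma re_q_pos {z : ℂ} (hz : |z.im| ≤ 1) : 0 < (1 + (c : ℂ) * cexp z).re := by
  rw [re_q]
  have h1 := cos_pos_of hz
  have h2 := Real.exp_pos z.re
  positivity

lemma q_ne {z : ℂ} (hz : |z.im| ≤ 1) : 1 + (c : ℂ) * cexp z ≠ 0 := by
  intro h
  have := re_q_pos hc hz
  rw [h] at this
  simp at this

lemma q_slit {z : ℂ} (hz : |z.im| ≤ 1) : 1 + (c : ℂ) * cexp z ∈ slitPlane :=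
  Or.inl (re_q_pos hc hz)

omit hc in
lemma normSq_q (z : ℂ) : normSq (1 + (c : ℂ) * cexp z) =
    1 + 2 * (c * Real.exp z.re) * Real.cos z.im + (c * Real.exp z.re) ^ 2 := by
  rw [normSq_apply, re_q, im_q]
  have := Real.sin_sq_add_cos_sq z.im
  nlinarith

lemma hasDerivAt_logq {z : ℂ} (hz : |z.im| ≤ 1) :
    HasDerivAt (fun z : ℂ => Complex.log (1 + c * cexp z)) (om c z) z := by
  have h1 : HasDerivAt (fun z : ℂ => 1 + (c : ℂ) * cexp z) ((c : ℂ) * cexp z) z :=
    ((Complex.hasDerivAt_exp z).const_mul (c : ℂ)).const_add 1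
  exact h1.clog (q_slit hc hz)

lemma one_sub_om {z : ℂ} (hz : |z.im| ≤ 1) : 1 - om c z = 1 / (1 + c * cexp z) := by
  have := q_ne hc hz
  unfold om
  field_simp
  ring

lemma hasDerivAt_om {z : ℂ} (hz : |z.im| ≤ 1) :
    HasDerivAt (om c) (om c z * (1 - om c z)) z := by
  have h0 := q_ne hc hz
  have h1 : HasDerivAt (fun z : ℂ => (c : ℂ) * cexp z) ((c : ℂ) * cexp z) z :=
    (Complex.hasDerivAt_exp z).const_mul (c : ℂ)
  have h2 := h1.div (h1.const_add 1) h0
  have e : om c = fun z : ℂ => (c : ℂ) * cexp z / (1 + (c : ℂ) * cexp z) := rfl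
  rw [e]
  refine h2.congr_deriv ?_
  beta_reduce
  field_simp

lemma hasDerivAt_w {z : ℂ} (hz : |z.im| ≤ 1) :
    HasDerivAt (fun z => om c z * (1 - om c z))
      (om c z * (1 - om c z) * (1 - 2 * om c z)) z := by
  have h1 := hasDerivAt_om hc hz
  have h2 := h1.mul (h1.const_sub 1)
  refine h2.congr_deriv ?_
  ring

lemma w_eq {z : ℂ} (hz : |z.im| ≤ 1) :
    om c z * (1 - om c z) = c * cexp z / (1 + c * cexp z) ^ 2 := by
  rw [one_sub_om hc hz]
  unfold om
  have := q_ne hc hz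
  field_simp

/-- real and imaginary part of the variance term -/
lemma w_re_im {z : ℂ} (hz : |z.im| ≤ 1) :
    (om c z * (1 - om c z)).re =
      c * Real.exp z.re * ((1 + (c * Real.exp z.re) ^ 2) * Real.cos z.im + 2 * (c * Real.exp z.re))
        / normSq (1 + c * cexp z) ^ 2 ∧
    (om c z * (1 - om c z)).im =
      c * Real.exp z.re * ((1 - (c * Real.exp z.re) ^ 2) * Real.sin z.im)
        / normSq (1 + c * cexp z) ^ 2 := by
  have h0 := q_ne hc hz
  have hN : normSq (1 + (c : ℂ) * cexp z) ≠ 0 := by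
    intro h
    exact h0 (normSq_eq_zero.1 h)
  have e1 : om c z * (1 - om c z) =
      (c * cexp z) * ((starRingEnd ℂ) (1 + c * cexp z)) ^ 2 /
        ((normSq (1 + c * cexp z) : ℝ) : ℂ) ^ 2 := by
    rw [w_eq hc hz]
    have h2 : ((normSq (1 + (c : ℂ) * cexp z) : ℝ) : ℂ) =
      (1 + c * cexp z) * (starRingEnd ℂ) (1 + c * cexp z) := (mul_conj _).symm
    have h3 : (starRingEnd ℂ) (1 + (c : ℂ) * cexp z) ≠ 0 := (map_ne_zero _).2 h0
    rw [h2]
    field_simp
  have hre := re_q (c := c) z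
  have him := im_q (c := c) z
  have hss := Real.sin_sq_add_cos_sq z.im
  set q := 1 + (c : ℂ) * cexp z with hq
  have hs1 : ((c : ℂ) * cexp z).re = c * Real.exp z.re * Real.cos z.im := by
    simp only [mul_re, ofReal_re, ofReal_im, zero_mul, sub_zero, Complex.exp_re]; ring
  have hs2 : ((c : ℂ) * cexp z).im = c * Real.exp z.re * Real.sin z.im := by
    simp only [mul_im, ofReal_re, ofReal_im, zero_mul, add_zero, Complex.exp_im]; ring
  set Y := c * Real.exp z.re with hY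
  have e2 : (c * cexp z) * ((starRingEnd ℂ) q) ^ 2 =
      ⟨Y * ((1 + Y ^ 2) * Real.cos z.im + 2 * Y), Y * ((1 - Y ^ 2) * Real.sin z.im)⟩ := by
    apply Complex.ext
    · simp only [pow_two, mul_re, mul_im, conj_re, conj_im, hre, him, hs1, hs2]
      have : Real.sin z.im ^ 2 = 1 - Real.cos z.im ^ 2 := by linarith
      ring_nf
      rw [show Real.sin z.im ^ 2 = 1 - Real.cos z.im ^ 2 by linarith]
      ring
    · simp only [pow_two, mul_re, mul_im, conj_re, conj_im, hre, him, hs1, hs2]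
      ring_nf
      rw [show Real.sin z.im ^ 3 = Real.sin z.im * (1 - Real.cos z.im ^ 2) by
        rw [show (1 : ℝ) - Real.cos z.im ^ 2 = Real.sin z.im ^ 2 by linarith]; ring]
      ring
  rw [e1, e2]
  rw [← ofReal_pow]
  constructor
  · rw [div_ofReal_re]
  · rw [div_ofReal_im]

/-- the real variance term -/
noncomputable def wr (c x : ℝ) : ℝ := c * Real.exp x / (1 + c * Real.exp x) ^ 2

lemma wr_pos (x : ℝ) : 0 < wr c x := by
  unfold wr
  have := Real.exp_pos x
  positivity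

lemma wr_le (x : ℝ) : wr c x ≤ 1 / 4 := by
  unfold wr
  have h1 := Real.exp_pos x
  have h2 : 0 < 1 + c * Real.exp x := by positivity
  rw [div_le_iff₀ (by positivity)]
  nlinarith [sq_nonneg (1 - c * Real.exp x)]

omit hc in
lemma half_le_cos {t : ℝ} (ht : |t| ≤ 1) : 1 / 2 ≤ Real.cos t := by
  have h1 := Real.one_sub_sq_div_two_le_cos (x := t)
  have h2 : t ^ 2 ≤ 1 := by
    rw [← sq_abs]
    have := abs_nonneg t
    nlinarith
  linarith

lemma normSq_q_le (z : ℂ) : normSq (1 + (c : ℂ) * cexp z) ≤ (1 + c * Real.exp z.re) ^ 2 := by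
  rw [normSq_q]
  have h1 := Real.exp_pos z.re
  have h2 : 0 < c * Real.exp z.re := by positivity
  nlinarith [Real.cos_le_one z.im]

lemma le_normSq_q {z : ℂ} (hz : |z.im| ≤ 1) :
    3 / 4 * (1 + c * Real.exp z.re) ^ 2 ≤ normSq (1 + (c : ℂ) * cexp z) := by
  rw [normSq_q]
  have h1 := Real.exp_pos z.re
  have h2 : 0 < c * Real.exp z.re := by positivity
  have h3 := half_le_cos hz
  nlinarith [sq_nonneg (1 - c * Real.exp z.re)]

lemma normSq_q_pos {z : ℂ} (hz : |z.im| ≤ 1) : 0 < normSq (1 + (c : ℂ) * cexp z) := by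
  have h1 := le_normSq_q hc hz
  have h2 := Real.exp_pos z.re
  have : 0 < (1 + c * Real.exp z.re) ^ 2 := by positivity
  linarith

lemma norm_w {z : ℂ} (hz : |z.im| ≤ 1) :
    ‖om c z * (1 - om c z)‖ = c * Real.exp z.re / normSq (1 + (c : ℂ) * cexp z) := by
  rw [w_eq hc hz, norm_div, norm_mul, norm_real, Complex.norm_exp, norm_pow, ← normSq_eq_norm_sq,
    Real.norm_of_nonneg hc.le]

lemma norm_w_le {z : ℂ} (hz : |z.im| ≤ 1) :
    ‖om c z * (1 - om c z)‖ ≤ 4 / 3 * wr c z.re := by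
  rw [norm_w hc hz]
  unfold wr
  have h1 := le_normSq_q hc hz
  have h2 := Real.exp_pos z.re
  have h3 := normSq_q_pos hc hz
  have h4 : 0 < c * Real.exp z.re := by positivity
  rw [← mul_div_assoc, div_le_div_iff₀ h3 (by positivity)]
  nlinarith

lemma le_re_w {z : ℂ} (hz : |z.im| ≤ 1) :
    Real.cos z.im * wr c z.re ≤ (om c z * (1 - om c z)).re := by
  rw [(w_re_im hc hz).1]
  unfold wr
  have h1 := normSq_q_le hc z
  have h2 := Real.exp_pos z.re
  have h3 := normSq_q_pos hc hz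
  have h4 : 0 < c * Real.exp z.re := by positivity
  have h5 := cos_pos_of hz
  have h6 := Real.cos_le_one z.im
  set N := normSq (1 + (c : ℂ) * cexp z)
  set Y := c * Real.exp z.re
  have h7 : N ^ 2 ≤ (1 + Y) ^ 2 * (1 + Y) ^ 2 := by
    rw [pow_two N]
    exact mul_le_mul h1 h1 h3.le (by positivity)
  rw [← mul_div_assoc, div_le_div_iff₀ (by positivity) (by positivity)]
  have h8 : Real.cos z.im * (1 + Y) ^ 2 ≤ (1 + Y ^ 2) * Real.cos z.im + 2 * Y := by nlinarith
  calc Real.cos z.im * Y * N ^ 2 ≤ Real.cos z.im * Y * ((1 + Y) ^ 2 * (1 + Y) ^ 2) :=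
        mul_le_mul_of_nonneg_left h7 (by positivity)
    _ = Y * (Real.cos z.im * (1 + Y) ^ 2) * (1 + Y) ^ 2 := by ring
    _ ≤ Y * ((1 + Y ^ 2) * Real.cos z.im + 2 * Y) * (1 + Y) ^ 2 := by
        refine mul_le_mul_of_nonneg_right (mul_le_mul_of_nonneg_left h8 h4.le) (by positivity)

lemma abs_im_w_le {z : ℂ} (hz : |z.im| ≤ 1) :
    |(om c z * (1 - om c z)).im| * Real.cos z.im ≤
      |Real.sin z.im| * (om c z * (1 - om c z)).re := by
  rw [(w_re_im hc hz).1, (w_re_im hc hz).2]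
  have h2 := Real.exp_pos z.re
  have h3 := normSq_q_pos hc hz
  have h4 : 0 < c * Real.exp z.re := by positivity
  have h5 := cos_pos_of hz
  generalize normSq (1 + (c : ℂ) * cexp z) = N at h3 ⊢
  generalize c * Real.exp z.re = Y at h4 ⊢
  rw [abs_div, abs_mul, abs_mul, abs_of_pos h4, abs_of_pos (show 0 < N ^ 2 by positivity),
    ← mul_div_assoc, div_mul_eq_mul_div, div_le_div_iff_of_pos_right (by positivity)]
  have h6 : |1 - Y ^ 2| ≤ 1 + Y ^ 2 := by
    rw [abs_le]; constructor <;> nlinarith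
  have h7 : |1 - Y ^ 2| * Real.cos z.im ≤ (1 + Y ^ 2) * Real.cos z.im + 2 * Y := by
    have := mul_le_mul_of_nonneg_right h6 h5.le
    linarith
  calc Y * (|1 - Y ^ 2| * |Real.sin z.im|) * Real.cos z.im
      = (Y * |Real.sin z.im|) * (|1 - Y ^ 2| * Real.cos z.im) := by ring
    _ ≤ (Y * |Real.sin z.im|) * ((1 + Y ^ 2) * Real.cos z.im + 2 * Y) :=
        mul_le_mul_of_nonneg_left h7 (by positivity)
    _ = |Real.sin z.im| * (Y * ((1 + Y ^ 2) * Real.cos z.im + 2 * Y)) := by ring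

lemma norm_one_sub_two_om {z : ℂ} (hz : |z.im| ≤ 1) : ‖1 - 2 * om c z‖ ≤ 1 := by
  have h0 := q_ne hc hz
  have e1 : 1 - 2 * om c z = (1 - c * cexp z) / (1 + c * cexp z) := by
    unfold om
    field_simp
    ring
  rw [e1, norm_div, div_le_one (norm_pos_iff.2 h0)]
  have e2 : normSq (1 - (c : ℂ) * cexp z) =
    1 - 2 * (c * Real.exp z.re) * Real.cos z.im + (c * Real.exp z.re) ^ 2 := by
    have e : 1 - (c : ℂ) * cexp z = 1 + ((-c : ℝ) : ℂ) * cexp z := by push_cast; ring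
    rw [e, normSq_q]
    ring
  have e3 := normSq_q (c := c) z
  have h5 := cos_pos_of hz
  have h2 := Real.exp_pos z.re
  have h4 : 0 < c * Real.exp z.re := by positivity
  have h6 : normSq (1 - (c : ℂ) * cexp z) ≤ normSq (1 + (c : ℂ) * cexp z) := by
    rw [e2, e3]
    have : 0 < (c * Real.exp z.re) * Real.cos z.im := by positivity
    linarith
  rw [normSq_eq_norm_sq, normSq_eq_norm_sq] at h6
  exact le_of_sq_le_sq h6 (norm_nonneg _)

lemma norm_t_le {z : ℂ} (hz : |z.im| ≤ 1) :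
    ‖om c z * (1 - om c z) * (1 - 2 * om c z)‖ ≤ 4 / 3 * wr c z.re := by
  rw [norm_mul]
  calc ‖om c z * (1 - om c z)‖ * ‖1 - 2 * om c z‖ ≤ ‖om c z * (1 - om c z)‖ * 1 :=
        mul_le_mul_of_nonneg_left (norm_one_sub_two_om hc hz) (norm_nonneg _)
    _ = ‖om c z * (1 - om c z)‖ := mul_one _
    _ ≤ _ := norm_w_le hc hz

lemma wr_shift (x h : ℝ) : wr c (x + h) ≤ Real.exp |h| * wr c x := by
  unfold wr
  have h1 := Real.exp_pos x
  have h2 : 0 < c * Real.exp x := by positivity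
  have h3 := Real.exp_pos h
  rw [Real.exp_add, ← mul_div_assoc, div_le_div_iff₀ (by positivity) (by positivity)]
  set Y := c * Real.exp x with hY
  have e1 : c * (Real.exp x * Real.exp h) = Y * Real.exp h := by rw [hY]; ring
  rw [e1]
  rcases le_total 0 h with hh | hh
  · rw [abs_of_nonneg hh]
    have h4 : 1 ≤ Real.exp h := Real.one_le_exp hh
    have h5 : (1 + Y) ^ 2 ≤ (1 + Y * Real.exp h) ^ 2 := by
      apply pow_le_pow_left₀ (by positivity)
      nlinarith
    calc Y * Real.exp h * (1 + Y) ^ 2 ≤ Y * Real.exp h * (1 + Y * Real.exp h) ^ 2 :=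
          mul_le_mul_of_nonneg_left h5 (by positivity)
      _ = Real.exp h * Y * (1 + Y * Real.exp h) ^ 2 := by ring
  · rw [abs_of_nonpos hh]
    have h4 : Real.exp h ≤ 1 := Real.exp_le_one_iff.2 hh
    have h5 : ((1 + Y) * Real.exp h) ^ 2 ≤ (1 + Y * Real.exp h) ^ 2 := by
      apply pow_le_pow_left₀ (by positivity)
      nlinarith
    have h6 : Real.exp (-h) * Real.exp h = 1 := by rw [← Real.exp_add]; simp
    calc Y * Real.exp h * (1 + Y) ^ 2 = (Real.exp (-h) * Real.exp h) * (Y * Real.exp h * (1 + Y) ^ 2) := by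
          rw [h6, one_mul]
      _ = Real.exp (-h) * Y * ((1 + Y) * Real.exp h) ^ 2 := by ring
      _ ≤ Real.exp (-h) * Y * (1 + Y * Real.exp h) ^ 2 :=
          mul_le_mul_of_nonneg_left h5 (by positivity)

omit hc in
lemma om_ofReal (x : ℝ) : om c (x : ℂ) = ((c * Real.exp x / (1 + c * Real.exp x) : ℝ) : ℂ) := by
  unfold om
  push_cast
  rfl

omit hc in
lemma om_conj (z : ℂ) : om c ((starRingEnd ℂ) z) = (starRingEnd ℂ) (om c z) := by
  unfold om
  rw [map_div₀, map_add, map_mul, ← Complex.exp_conj, Complex.conj_ofReal, map_one]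

end one

/-! ### the sums -/

lemma vv_eq (x : ℝ) : vv y x = ∑ l, wr (y l) x := rfl

section sums

variable {y}
variable (hy : ∀ l, 0 < y l)
include hy

lemma hasDerivAt_LL {z : ℂ} (hz : |z.im| ≤ 1) : HasDerivAt (LL y) (UU y z) z := by
  unfold UU
  have : LL y = fun z => ∑ l, Complex.log (1 + y l * cexp z) := rfl
  rw [this]
  exact HasDerivAt.fun_sum (fun l _ => hasDerivAt_logq (hy l) hz)

lemma hasDerivAt_UU {z : ℂ} (hz : |z.im| ≤ 1) : HasDerivAt (UU y) (VV y z) z := by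
  unfold VV
  have : UU y = fun z => ∑ l, om (y l) z := rfl
  rw [this]
  exact HasDerivAt.fun_sum (fun l _ => hasDerivAt_om (hy l) hz)

lemma hasDerivAt_VV {z : ℂ} (hz : |z.im| ≤ 1) : HasDerivAt (VV y) (TT y z) z := by
  unfold TT
  have : VV y = fun z => ∑ l, om (y l) z * (1 - om (y l) z) := rfl
  rw [this]
  exact HasDerivAt.fun_sum (fun l _ => hasDerivAt_w (hy l) hz)

lemma vv_nonneg (x : ℝ) : 0 ≤ vv y x := by
  rw [vv_eq]
  exact Finset.sum_nonneg (fun l _ => (wr_pos (hy l) x).le)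

lemma vv_shift (x h : ℝ) : vv y (x + h) ≤ Real.exp |h| * vv y x := by
  rw [vv_eq, vv_eq, Finset.mul_sum]
  exact Finset.sum_le_sum (fun l _ => wr_shift (hy l) x h)

lemma norm_VV_le {z : ℂ} (hz : |z.im| ≤ 1) : ‖VV y z‖ ≤ 4 / 3 * vv y z.re := by
  rw [vv_eq, Finset.mul_sum]
  exact (norm_sum_le _ _).trans (Finset.sum_le_sum (fun l _ => norm_w_le (hy l) hz))

lemma norm_TT_le {z : ℂ} (hz : |z.im| ≤ 1) : ‖TT y z‖ ≤ 4 / 3 * vv y z.re := by
  rw [vv_eq, Finset.mul_sum]
  exact (norm_sum_le _ _).trans (Finset.sum_le_sum (fun l _ => norm_t_le (hy l) hz))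

lemma le_re_VV {z : ℂ} (hz : |z.im| ≤ 1) : Real.cos z.im * vv y z.re ≤ (VV y z).re := by
  rw [vv_eq, Finset.mul_sum]
  unfold VV
  rw [Complex.re_sum]
  exact Finset.sum_le_sum (fun l _ => le_re_w (hy l) hz)

lemma abs_im_VV_le {z : ℂ} (hz : |z.im| ≤ 1) :
    |(VV y z).im| * Real.cos z.im ≤ |Real.sin z.im| * (VV y z).re := by
  unfold VV
  rw [Complex.re_sum, Complex.im_sum, Finset.mul_sum]
  refine (mul_le_mul_of_nonneg_right (Finset.abs_sum_le_sum_abs _ _) (cos_pos_of hz).le).trans ?_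
  rw [Finset.sum_mul]
  exact Finset.sum_le_sum (fun l _ => abs_im_w_le (hy l) hz)

omit hy in
lemma UU_ofReal (x : ℝ) : UU y (x : ℂ) = (mu y x : ℂ) := by
  unfold UU mu
  simp only [om_ofReal]
  push_cast
  rfl

lemma VV_ofReal (x : ℝ) : VV y (x : ℂ) = (vv y x : ℂ) := by
  unfold VV vv
  rw [Complex.ofReal_sum]
  refine Finset.sum_congr rfl (fun l _ => ?_)
  rw [w_eq (hy l) (by simp)]
  push_cast
  rfl

omit hy in
lemma UU_conj (z : ℂ) : UU y ((starRingEnd ℂ) z) = (starRingEnd ℂ) (UU y z) := by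
  unfold UU
  rw [map_sum]
  exact Finset.sum_congr rfl (fun l _ => om_conj z)

omit hy in
lemma VV_conj (z : ℂ) : VV y ((starRingEnd ℂ) z) = (starRingEnd ℂ) (VV y z) := by
  unfold VV
  rw [map_sum]
  refine Finset.sum_congr rfl (fun l _ => ?_)
  rw [om_conj, map_mul, map_sub, map_one]

lemma LL_conj {z : ℂ} (hz : |z.im| ≤ 1) : LL y ((starRingEnd ℂ) z) = (starRingEnd ℂ) (LL y z) := by
  unfold LL
  rw [map_sum]
  refine Finset.sum_congr rfl (fun l _ => ?_)
  have e : 1 + (y l : ℂ) * cexp ((starRingEnd ℂ) z) = (starRingEnd ℂ) (1 + (y l : ℂ) * cexp z) := by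
    rw [map_add, map_mul, map_one, ← Complex.exp_conj, Complex.conj_ofReal]
  rw [e, Complex.log_conj]
  exact (mem_slitPlane_iff_arg.1 (q_slit (hy l) hz)).1

lemma hasDerivAt_mu (x : ℝ) : HasDerivAt (mu y) (vv y x) x := by
  have h1 := (hasDerivAt_UU hy (z := (x : ℂ)) (by simp)).real_of_complex
  have e1 : (fun x : ℝ => (UU y (x : ℂ)).re) = mu y := by
    funext x
    rw [UU_ofReal, ofReal_re]
  rw [VV_ofReal hy, ofReal_re] at h1
  rw [← e1]
  exact h1

lemma exp_LL {z : ℂ} (hz : |z.im| ≤ 1) : cexp (LL y z) = ∏ l, (1 + (y l : ℂ) * cexp z) := by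
  unfold LL
  rw [Complex.exp_sum]
  exact Finset.prod_congr rfl (fun l _ => Complex.exp_log (q_ne (hy l) hz))

lemma LL_ofReal (x : ℝ) : LL y (x : ℂ) = ((∑ l, Real.log (1 + y l * Real.exp x) : ℝ) : ℂ) := by
  unfold LL
  rw [Complex.ofReal_sum]
  refine Finset.sum_congr rfl (fun l _ => ?_)
  have := hy l
  have h2 := Real.exp_pos x
  rw [Complex.ofReal_log (by positivity)]
  push_cast
  rfl

end sums

end Pool.Agent.LExp
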