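import Mathlib
import Pool.Agent.LExp.Basic

/-!
# Definitions for the theorem on large exponents

`cf y k` is the coefficient of `x ^ k` in `∏ (1 + y_l x)`, `ff y r s = ∑ (-1)^k (cf y k)^r e^{rks}`,
`Th y α s = arg ∏ (1 + y_l e^{s + iα})` (continuous branch), `JJ` is the Cauchy integral that
gives the coefficients, `KK = JJ * sqrt (2 π VV)`, `DD = log KK` and `Ph` the phase of the main
term of `ff`.
-/

open Finset Complex Polynomial

namespace Pool.Agent.LExp

variable {n : ℕ} (y : Fin n → ℝ)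

/-- coefficients of `∏ (1 + y_l x)` -/
noncomputable def cf (k : ℕ) : ℝ := (∏ l, (1 + C (y l) * X) : ℝ[X]).coeff k

/-- the alternating sum `∑ (-1)^k (cf k)^r e^{rks}` -/
noncomputable def ff (r s : ℝ) : ℝ :=
  ∑ k ∈ range (n + 1), (-1) ^ k * (cf y k ^ r * Real.exp (r * k * s))

/-- the argument of `∏ (1 + y_l e^{s + iα})` -/
noncomputable def Th (α s : ℝ) : ℝ := (LL y (s + α * I)).im

noncomputable def Jint (z : ℂ) (φ : ℝ) : ℂ :=
  cexp (-(I * φ * UU y z)) * ∏ l, ((1 + y l * cexp (z + I * φ)) / (1 + y l * cexp z))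

noncomputable def JJ (z : ℂ) : ℂ := (1 / (2 * Real.pi)) * ∫ φ in (-Real.pi)..Real.pi, Jint y z φ

noncomputable def KK (z : ℂ) : ℂ := JJ y z * cexp (Complex.log (2 * Real.pi * VV y z) / 2)

noncomputable def DD (z : ℂ) : ℂ := Complex.log (KK y z)

/-- the phase of the main term of `ff y r s`, with `α = π / r` -/
noncomputable def Ph (r s : ℝ) : ℝ :=
  r * Th y (Real.pi / r) s - (r / 2 - 1) * (Complex.log (VV y (s + (Real.pi / r : ℝ) * I))).im +
    r * (DD y (s + (Real.pi / r : ℝ) * I)).im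

/-- the integral of `F` over the boundary of the rectangle `[a,b] × [-h,h]` -/
noncomputable def rectInt (F : ℂ → ℂ) (a b h : ℝ) : ℂ :=
  (∫ x in a..b, F (x + (-h : ℝ) * I)) - (∫ x in a..b, F (x + (h : ℝ) * I)) +
    I * (∫ t in (-h)..h, F (b + t * I)) - I * (∫ t in (-h)..h, F (a + t * I))

end Pool.Agent.LExp
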