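import Mathlib
import Pool.Agent.LExp.Defs
import Pool.Agent.H62LR.Small
import Pool.Agent.H62LR.Homotopy

/-!
# Module CombBase: coefficients `cf y k` of `∏ (1 + y_l x)` and `ce y l k` of the product without
the factor `l`

Everything is elementary: coefficients of products, `Polynomial.derivative_prod` for `sum_ce`,
Newton's inequality for real-rooted polynomials (or a direct induction:
`∏ (1 + y_l x)` has log-concave coefficients; see also `MS.newton` in H62LR/Small), and the two ratio
inequalities follow from log-concavity of `ce`, e.g.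
`ce (j+1) * (ce j + y ce (j-1)) ≤ ce j * (ce (j+1) + y ce j)`.
-/

open Finset Complex Polynomial

namespace Pool.Agent.LExp

variable {n : ℕ} (y : Fin n → ℝ)

/-- coefficients of `∏_{m ≠ l} (1 + y_m x)` -/
noncomputable def ce (l : Fin n) (k : ℕ) : ℝ :=
  (∏ m ∈ Finset.univ.erase l, (1 + C (y m) * X) : ℝ[X]).coeff k

variable {y}

private lemma cb_coeff_zero (c : ℝ) (P : ℝ[X]) : ((1 + C c * X) * P).coeff 0 = P.coeff 0 := by
  rw [add_mul, one_mul, mul_assoc, coeff_add, coeff_C_mul, coeff_X_mul_zero, mul_zero, add_zero]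

private lemma cb_coeff_succ (c : ℝ) (P : ℝ[X]) (k : ℕ) :
    ((1 + C c * X) * P).coeff (k + 1) = P.coeff (k + 1) + c * P.coeff k := by
  rw [add_mul, one_mul, mul_assoc, coeff_add, coeff_C_mul, coeff_X_mul]

/-- positivity, vanishing and strong log-concavity of the coefficients -/
private lemma cb_main (hy : ∀ l, 0 < y l) (s : Finset (Fin n)) :
    (∀ k, k ≤ s.card → 0 < (∏ m ∈ s, (1 + C (y m) * X) : ℝ[X]).coeff k) ∧
    (∀ k, s.card < k → (∏ m ∈ s, (1 + C (y m) * X) : ℝ[X]).coeff k = 0) ∧
    (∀ j k, j ≤ k → (∏ m ∈ s, (1 + C (y m) * X) : ℝ[X]).coeff j *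
      (∏ m ∈ s, (1 + C (y m) * X) : ℝ[X]).coeff (k + 1) ≤
      (∏ m ∈ s, (1 + C (y m) * X) : ℝ[X]).coeff (j + 1) *
      (∏ m ∈ s, (1 + C (y m) * X) : ℝ[X]).coeff k) := by
  classical
  induction s using Finset.induction_on with
  | empty =>
    simp only [prod_empty, card_empty, coeff_one]
    refine ⟨fun k hk => ?_, fun k hk => ?_, fun j k hjk => ?_⟩
    · have : k = 0 := by omega
      subst this
      norm_num
    · rw [if_neg (by omega)]
    · rw [if_neg (show k + 1 ≠ 0 by omega), if_neg (show j + 1 ≠ 0 by omega), mul_zero, zero_mul]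
  | insert a s ha ih =>
    obtain ⟨ih1, ih2, ih3⟩ := ih
    rw [prod_insert ha, card_insert_of_notMem ha]
    set P : ℝ[X] := ∏ m ∈ s, (1 + C (y m) * X) with hP
    have hnn : ∀ k, 0 ≤ P.coeff k := by
      intro k
      rcases le_or_gt k s.card with hk | hk
      · exact (ih1 k hk).le
      · exact (ih2 k hk).ge
    have hya := hy a
    refine ⟨fun k hk => ?_, fun k hk => ?_, fun j k hjk => ?_⟩
    · rcases k with _ | k
      · rw [cb_coeff_zero]
        exact ih1 0 (Nat.zero_le _)
      · rw [cb_coeff_succ]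
        have h1 := hnn (k + 1)
        have h2 := ih1 k (by omega)
        positivity
    · rcases k with _ | k
      · omega
      · rw [cb_coeff_succ, ih2 k (by omega), ih2 (k + 1) (by omega)]
        ring
    · rcases j with _ | j
      · rcases k with _ | k
        · rw [mul_comm]
        · rw [cb_coeff_zero, cb_coeff_succ, cb_coeff_succ, cb_coeff_succ]
          -- P0 * (P(k+2) + y P(k+1)) ≤ (P1 + y P0) * (P(k+1) + y P k)
          have h1 := ih3 0 (k + 1) (by omega)
          have h2 : 0 ≤ y a * (P.coeff (0 + 1) * P.coeff k) :=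
            mul_nonneg hya.le (mul_nonneg (hnn _) (hnn _))
          have h3 : 0 ≤ y a ^ 2 * (P.coeff 0 * P.coeff k) :=
            mul_nonneg (sq_nonneg _) (mul_nonneg (hnn _) (hnn _))
          nlinarith
      · rcases k with _ | k
        · omega
        · rw [cb_coeff_succ, cb_coeff_succ, cb_coeff_succ, cb_coeff_succ]
          have hjk' : j ≤ k := by omega
          have h1 := ih3 (j + 1) (k + 1) (by omega)
          have h3 : 0 ≤ y a ^ 2 * (P.coeff (j + 1) * P.coeff k - P.coeff j * P.coeff (k + 1)) :=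
            mul_nonneg (sq_nonneg _) (by have := ih3 j k hjk'; linarith)
          have h2 : 0 ≤ y a * (P.coeff (j + 2) * P.coeff k - P.coeff j * P.coeff (k + 2)) := by
            refine mul_nonneg hya.le ?_
            rcases Nat.eq_or_lt_of_le hjk' with h | h
            · subst h
              exact le_of_eq (by ring)
            · have h4 := ih3 j (k + 1) (by omega)
              have h5 := ih3 (j + 1) k (by omega)
              have e1 : k + 1 + 1 = k + 2 := rfl
              have e2 : j + 1 + 1 = j + 2 := rfl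
              rw [e1] at h4
              rw [e2] at h5
              linarith
          have e1 : k + 1 + 1 = k + 2 := rfl
          have e2 : j + 1 + 1 = j + 2 := rfl
          rw [e1, e2] at h1
          rw [e1, e2]
          nlinarith

private lemma cb_cf (k : ℕ) :
    cf y k = (∏ m ∈ (Finset.univ : Finset (Fin n)), (1 + C (y m) * X) : ℝ[X]).coeff k := rfl

theorem cf_pos (hy : ∀ l, 0 < y l) {k : ℕ} (hk : k ≤ n) : 0 < cf y k := by
  rw [cb_cf]
  exact (cb_main hy univ).1 k (by simpa using hk)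

private lemma cb_natDegree (s : Finset (Fin n)) :
    (∏ m ∈ s, (1 + C (y m) * X) : ℝ[X]).natDegree ≤ s.card := by
  refine (natDegree_prod_le _ _).trans ?_
  refine (sum_le_card_nsmul s _ 1 fun m _ => ?_).trans (by simp)
  refine (natDegree_add_le _ _).trans ?_
  rw [natDegree_one]
  exact max_le (Nat.zero_le _) ((natDegree_C_mul_le _ _).trans natDegree_X_le)

theorem cf_eq_zero {k : ℕ} (hk : n < k) : cf y k = 0 := by
  rw [cb_cf]
  refine coeff_eq_zero_of_natDegree_lt (lt_of_le_of_lt (cb_natDegree _) ?_)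
  simpa using hk

theorem cf_zero : cf y 0 = 1 := by
  rw [cb_cf, coeff_zero_eq_eval_zero, eval_prod]
  simp

theorem ce_pos (hy : ∀ l, 0 < y l) (l : Fin n) {k : ℕ} (hk : k + 1 ≤ n) : 0 < ce y l k := by
  unfold ce
  refine (cb_main hy (univ.erase l)).1 k ?_
  rw [card_erase_of_mem (mem_univ l), card_univ, Fintype.card_fin]
  omega

theorem ce_eq_zero (l : Fin n) {k : ℕ} (hk : n ≤ k) : ce y l k = 0 := by
  unfold ce
  refine coeff_eq_zero_of_natDegree_lt (lt_of_le_of_lt (cb_natDegree _) ?_)
  rw [card_erase_of_mem (mem_univ l), card_univ, Fintype.card_fin]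
  have := l.pos
  omega

theorem cf_succ (l : Fin n) (k : ℕ) : cf y (k + 1) = ce y l (k + 1) + y l * ce y l k := by
  rw [cb_cf, ← mul_prod_erase univ _ (mem_univ l), cb_coeff_succ]
  rfl

theorem sum_ce (k : ℕ) : ∑ l, y l * ce y l k = (k + 1) * cf y (k + 1) := by
  have h1 : (derivative (∏ m ∈ (Finset.univ : Finset (Fin n)), (1 + C (y m) * X) : ℝ[X])).coeff k =
      cf y (k + 1) * (k + 1) := by
    rw [coeff_derivative, cb_cf]
  rw [mul_comm, ← h1, derivative_prod_finset, finsetSum_coeff]
  refine sum_congr rfl fun l _ => ?_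
  have h2 : derivative (1 + C (y l) * X : ℝ[X]) = C (y l) := by
    simp
  rw [h2, coeff_mul_C, mul_comm]
  rfl

theorem cf_newton (hy : ∀ l, 0 < y l) (k : ℕ) : cf y k * cf y (k + 2) ≤ cf y (k + 1) ^ 2 := by
  have h := (cb_main hy univ).2.2 k (k + 1) (by omega)
  rw [← cb_cf, ← cb_cf, ← cb_cf] at h
  rw [pow_two]
  exact h

theorem ce_newton (hy : ∀ l, 0 < y l) (l : Fin n) (k : ℕ) :
    ce y l k * ce y l (k + 2) ≤ ce y l (k + 1) ^ 2 := by
  have h := (cb_main hy (univ.erase l)).2.2 k (k + 1) (by omega)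
  rw [pow_two]
  exact h

private lemma cb_cf_zero' (l : Fin n) : cf y 0 = ce y l 0 := by
  rw [cb_cf, ← mul_prod_erase univ _ (mem_univ l), cb_coeff_zero]
  rfl

/-- `cf j / cf (j+1) ≤ ce j / ce (j+1)` -/
theorem cf_ce_le (hy : ∀ l, 0 < y l) (l : Fin n) (j : ℕ) :
    cf y j * ce y l (j + 1) ≤ cf y (j + 1) * ce y l j := by
  have hyl := hy l
  rcases j with _ | j
  · rw [cf_succ l 0, cb_cf_zero' l]
    have := mul_self_nonneg (ce y l 0)
    nlinarith
  · rw [cf_succ l j, cf_succ l (j + 1)]
    have := ce_newton hy l j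
    have h2 : 0 ≤ y l * (ce y l (j + 1) ^ 2 - ce y l j * ce y l (j + 2)) :=
      mul_nonneg hyl.le (by linarith)
    have e1 : j + 1 + 1 = j + 2 := rfl
    rw [e1]
    nlinarith

/-- `ce j / ce (j+1) ≤ cf (j+1) / cf (j+2)` -/
theorem ce_cf_le (hy : ∀ l, 0 < y l) (l : Fin n) (j : ℕ) :
    ce y l j * cf y (j + 2) ≤ cf y (j + 1) * ce y l (j + 1) := by
  have h := ce_newton hy l j
  rw [show j + 2 = (j + 1) + 1 from rfl, cf_succ l (j + 1), cf_succ l j]
  have e1 : j + 1 + 1 = j + 2 := rfl
  rw [e1]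
  nlinarith

end Pool.Agent.LExp
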