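import Mathlib
import Pool.Agent.LExp.Defs

/-!
# Module JEst: Gaussian approximation of `JJ`

PAPER PROOF.  Write `x = Re z`, `β = Im z`, `|β| ≤ 1/400`, `v = vv y x ≥ V₁`, `V = VV y z`.
Facts from `Basic`: `Re V ≥ cos β * v ≥ 0.999 v`, `‖V‖ ≤ 4/3 v`, `‖TT y w‖ ≤ 4/3 * vv y (Re w)`.

(near part) for `|φ| ≤ 1/4` put `k φ = LL y (z + Iφ) - LL y z - I φ UU y z + V φ²/2`.  Then
`Jint y z φ = exp (k φ - V φ²/2)` (`exp_LL`), `k 0 = 0`, `k' 0 = 0`, `k'' φ = -(VV y (z+Iφ) - V)`,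
`‖k''‖ ≤ 4/3 v |φ|`, so (mean value inequality twice) `‖k φ‖ ≤ 4/3 v |φ|³ ≤ v φ²/3` and
`‖Jint y z φ - exp(-Vφ²/2)‖ ≤ exp(-0.499 v φ²) ‖k‖ exp ‖k‖ ≤ 4/3 v |φ|³ exp (-0.16 v φ²)`.
With `(√v |φ|)³ ≤ 1000 * exp (0.08 v φ²)` this is `≤ C v^{-1/2} exp(-0.08 v φ²)`, whose integral over ℝ
is `≤ C'/v`  (`integral_gaussian`).

(far part) for `1/4 ≤ |φ| ≤ π`: with `Y = y_l e^x`, `|1 + Y e^{iθ}|² = (1+Y)² (1 - 2 w (1 - cos θ))`,
`w = wr (y_l) x = Y/(1+Y)² ≤ 1/4`; so the modulus squared of one factor of the product is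
`(1 - 2w(1 - cos(β+φ)))/(1 - 2w(1 - cos β)) ≤ exp(-2w(1-cos(β+φ)) + 4 w (1 - cos β))` and
`‖∏‖ ≤ exp(-v (1 - cos (β+φ)) + 2 v (1 - cos β))`, where `1 - cos(β+φ) ≥ 1 - cos(0.2475) ≥ 0.03`,
`2 (1 - cos β) ≤ β²`.  Also `‖exp(-iφU)‖ ≤ exp(π |Im U|)`, `|Im UU y z| ≤ |β| * 4/3 v` (mean value, `UU`
real at `x`), so `≤ exp (0.0105 v)`.  Hence `‖Jint‖ ≤ exp (-0.019 v)`.

(gaussian) `(1/2π) ∫_ℝ exp(-Vφ²/2) dφ = (2 π V)^{-1/2}` (`integral_gaussian_complex`; the tail
`|φ| ≥ 1/4` is `≤ C exp(-0.01 v)/√v`), and `exp (log (2πV)/2) * (2πV)^{-1/2} = 1`.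

So `‖JJ y z - (2πV)^{-1/2}‖ ≤ C/v`; multiply by `‖exp (log (2πV)/2)‖ = ‖2πV‖^{1/2} ≤ 3 √v`.
-/

open Finset Complex Polynomial

namespace Pool.Agent.LExp

section JEst

variable {n : ℕ} {y : Fin n → ℝ} (hy : ∀ l, 0 < y l)

private lemma je_im (z : ℂ) (t : ℝ) : (z + I * t).im = z.im + t := by simp

private lemma je_re (z : ℂ) (t : ℝ) : (z + I * t).re = z.re := by simp

private lemma je_dom {z : ℂ} (hz : |z.im| ≤ 1 / 400) {t : ℝ} (ht : |t| ≤ 1 / 4) :
    |(z + I * t).im| ≤ 1 := by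
  rw [je_im]
  have h := abs_add_le z.im t
  linarith

private lemma je_curve {F F' : ℂ → ℂ} {z : ℂ} {t : ℝ} (h : HasDerivAt F (F' (z + I * t)) (z + I * t)) :
    HasDerivAt (fun s : ℝ => F (z + I * s)) (I * F' (z + I * t)) t := by
  have h1 : HasDerivAt (fun w : ℂ => z + I * w) I (t : ℂ) := by
    simpa using ((hasDerivAt_id (t : ℂ)).const_mul I).const_add z
  have h2 := (HasDerivAt.comp (t : ℂ) h h1).comp_ofReal
  rw [mul_comm]
  exact h2

include hy

private lemma je_V {z : ℂ} (hz : |z.im| ≤ 1 / 400) {t : ℝ} (ht : |t| ≤ 1 / 4) :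
    ‖VV y (z + I * t) - VV y z‖ ≤ 4 / 3 * vv y z.re * |t| := by
  have hconv : Convex ℝ (Set.Icc (-(1 / 4 : ℝ)) (1 / 4)) := convex_Icc _ _
  have h0 : (0 : ℝ) ∈ Set.Icc (-(1 / 4 : ℝ)) (1 / 4) := by constructor <;> norm_num
  have ht' : t ∈ Set.Icc (-(1 / 4 : ℝ)) (1 / 4) := by
    have := abs_le.1 ht; exact ⟨this.1, this.2⟩
  have key := hconv.norm_image_sub_le_of_norm_hasDerivWithin_le
    (f := fun s : ℝ => VV y (z + I * s)) (f' := fun s : ℝ => I * TT y (z + I * s))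
    (C := 4 / 3 * vv y z.re) (fun s hs => (je_curve (F' := TT y) (hasDerivAt_VV hy
      (je_dom hz (abs_le.2 ⟨hs.1, hs.2⟩)))).hasDerivWithinAt)
    (fun s hs => by
      rw [norm_mul, norm_I, one_mul]
      have := norm_TT_le hy (je_dom hz (abs_le.2 ⟨hs.1, hs.2⟩))
      rwa [je_re] at this) h0 ht'
  simpa using key

private lemma je_U {z : ℂ} (hz : |z.im| ≤ 1 / 400) {t : ℝ} (ht : |t| ≤ 1 / 4) :
    ‖I * UU y (z + I * t) - I * UU y z + VV y z * t‖ ≤ 4 / 3 * vv y z.re * |t| * |t| := by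
  set a := |t| with ha
  have hconv : Convex ℝ (Set.Icc (-a) a) := convex_Icc _ _
  have ha0 : 0 ≤ a := abs_nonneg t
  have h0 : (0 : ℝ) ∈ Set.Icc (-a) a := by constructor <;> linarith
  have ht' : t ∈ Set.Icc (-a) a := ⟨neg_abs_le t, le_abs_self t⟩
  have hv := vv_nonneg hy z.re
  have key := hconv.norm_image_sub_le_of_norm_hasDerivWithin_le
    (f := fun s : ℝ => I * UU y (z + I * s) - I * UU y z + VV y z * s)
    (f' := fun s : ℝ => I * (I * VV y (z + I * s)) + VV y z)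
    (C := 4 / 3 * vv y z.re * a) (fun s hs => by
      have hs1 : |s| ≤ 1 / 4 := (abs_le.2 ⟨hs.1, hs.2⟩).trans ht
      have h1 := je_curve (F' := VV y) (hasDerivAt_UU hy (je_dom hz hs1))
      have h2 : HasDerivAt (fun s : ℝ => VV y z * (s : ℂ)) (VV y z) s := by
        simpa using (Complex.ofRealCLM.hasDerivAt (x := s)).const_mul (VV y z)
      exact (((h1.const_mul I).sub_const (I * UU y z)).add h2).hasDerivWithinAt)
    (fun s hs => by
      have hs1 : |s| ≤ a := abs_le.2 ⟨hs.1, hs.2⟩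
      have h1 := je_V hy hz (hs1.trans ht)
      have e : I * (I * VV y (z + I * s)) + VV y z = -(VV y (z + I * s) - VV y z) := by
        rw [← mul_assoc, I_mul_I]; ring
      rw [e, norm_neg]
      refine h1.trans (mul_le_mul_of_nonneg_left hs1 (by positivity))) h0 ht'
  simpa using key

private lemma je_L {z : ℂ} (hz : |z.im| ≤ 1 / 400) {t : ℝ} (ht : |t| ≤ 1 / 4) :
    ‖LL y (z + I * t) - LL y z - I * t * UU y z + VV y z * t ^ 2 / 2‖ ≤
      4 / 3 * vv y z.re * |t| ^ 3 := by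
  set a := |t| with ha
  have hconv : Convex ℝ (Set.Icc (-a) a) := convex_Icc _ _
  have ha0 : 0 ≤ a := abs_nonneg t
  have h0 : (0 : ℝ) ∈ Set.Icc (-a) a := by constructor <;> linarith
  have ht' : t ∈ Set.Icc (-a) a := ⟨neg_abs_le t, le_abs_self t⟩
  have hv := vv_nonneg hy z.re
  have key := hconv.norm_image_sub_le_of_norm_hasDerivWithin_le
    (f := fun s : ℝ => LL y (z + I * s) - LL y z - I * s * UU y z + VV y z * s ^ 2 / 2)
    (f' := fun s : ℝ => I * UU y (z + I * s) - I * UU y z + VV y z * s)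
    (C := 4 / 3 * vv y z.re * a * a) (fun s hs => by
      have hs1 : |s| ≤ 1 / 4 := (abs_le.2 ⟨hs.1, hs.2⟩).trans ht
      have h1 := je_curve (F' := UU y) (hasDerivAt_LL hy (je_dom hz hs1))
      have h2 : HasDerivAt (fun s : ℝ => (s : ℂ)) 1 s := (hasDerivAt_id s).ofReal_comp
      have h3 : HasDerivAt (fun s : ℝ => I * (s : ℂ) * UU y z) (I * UU y z) s := by
        have := (h2.const_mul I).mul_const (UU y z)
        simpa using this
      have h4 : HasDerivAt (fun s : ℝ => VV y z * (s : ℂ) ^ 2 / 2) (VV y z * s) s := by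
        have := ((h2.pow 2).const_mul (VV y z)).div_const 2
        refine this.congr_deriv ?_
        push_cast
        ring
      exact (((h1.sub_const (LL y z)).sub h3).add h4).hasDerivWithinAt)
    (fun s hs => by
      have hs1 : |s| ≤ a := abs_le.2 ⟨hs.1, hs.2⟩
      have h1 := je_U hy hz (hs1.trans ht)
      refine h1.trans ?_
      gcongr) h0 ht'
  have key2 : ‖LL y (z + I * t) - LL y z - I * t * UU y z + VV y z * t ^ 2 / 2‖ ≤
      4 / 3 * vv y z.re * a * a * a := by simpa using key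
  calc _ ≤ _ := key2
    _ = _ := by ring

private lemma je_VRe {z : ℂ} (hz : |z.im| ≤ 1 / 400) : 0.999 * vv y z.re ≤ (VV y z).re := by
  have h1 := le_re_VV hy (z := z) (by linarith)
  have h2 := Real.one_sub_sq_div_two_le_cos (x := z.im)
  have h3 : z.im ^ 2 ≤ (1 / 400) ^ 2 := by
    rw [← sq_abs]
    exact pow_le_pow_left₀ (abs_nonneg _) hz 2
  have h4 : 0.999 ≤ Real.cos z.im := by norm_num at h3 ⊢; linarith
  exact (mul_le_mul_of_nonneg_right h4 (vv_nonneg hy _)).trans h1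

private lemma je_gauss {z : ℂ} (hz : |z.im| ≤ 1 / 400) (t : ℝ) :
    ‖cexp (-(VV y z / 2) * t ^ 2)‖ ≤ Real.exp (-(0.4995 * vv y z.re * t ^ 2)) := by
  rw [Complex.norm_exp]
  apply Real.exp_le_exp.2
  have h1 := je_VRe hy hz
  have e : (-(VV y z / 2) * (t : ℂ) ^ 2).re = -((VV y z).re / 2 * t ^ 2) := by
    rw [← ofReal_pow, re_mul_ofReal]
    simp
  rw [e]
  have h2 := sq_nonneg t
  nlinarith

private lemma je_prod {z : ℂ} (hz : |z.im| ≤ 1 / 400) {t : ℝ} (ht : |t| ≤ 1 / 4) :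
    Jint y z t = cexp ((LL y (z + I * t) - LL y z - I * t * UU y z + VV y z * t ^ 2 / 2) +
      -(VV y z / 2) * t ^ 2) := by
  unfold Jint
  rw [Finset.prod_div_distrib, ← exp_LL hy (je_dom hz ht), ← exp_LL hy (z := z) (by linarith),
    ← Complex.exp_sub, ← Complex.exp_add]
  congr 1
  ring

omit hy in
private lemma je_cube {u : ℝ} (_hu : 0 ≤ u) : u ^ 3 ≤ 1000 * Real.exp (0.08 * u ^ 2) := by
  have h1 := Real.add_one_le_exp (0.04 * u ^ 2)
  have h2 : Real.exp (0.08 * u ^ 2) = Real.exp (0.04 * u ^ 2) ^ 2 := by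
    rw [← Real.exp_nat_mul]; congr 1; push_cast; ring
  have h3 : (0.04 * u ^ 2 + 1) ^ 2 ≤ Real.exp (0.04 * u ^ 2) ^ 2 :=
    pow_le_pow_left₀ (by positivity) h1 2
  rw [h2]
  nlinarith [sq_nonneg (u ^ 2 - u), sq_nonneg (u - 1), sq_nonneg u, sq_nonneg (u ^ 2)]

private lemma je_near {z : ℂ} (hz : |z.im| ≤ 1 / 400) (hv : 1 ≤ vv y z.re) {t : ℝ}
    (ht : |t| ≤ 1 / 4) :
    ‖Jint y z t - cexp (-(VV y z / 2) * t ^ 2)‖ ≤
      2000 / Real.sqrt (vv y z.re) * Real.exp (-(1 / 1000 * vv y z.re) * t ^ 2) := by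
  set v := vv y z.re with hvd
  have hv0 : 0 < v := by linarith
  rw [je_prod hy hz ht]
  set k := LL y (z + I * t) - LL y z - I * t * UU y z + VV y z * t ^ 2 / 2 with hk
  have hk1 : ‖k‖ ≤ 4 / 3 * v * |t| ^ 3 := je_L hy hz ht
  have hk2 : ‖k‖ ≤ v * t ^ 2 / 3 := by
    refine hk1.trans ?_
    have e : |t| ^ 3 = |t| * t ^ 2 := by rw [pow_succ, sq_abs]; ring
    rw [e]
    have := mul_le_mul_of_nonneg_right ht (sq_nonneg t)
    nlinarith
  rw [Complex.exp_add, ← sub_one_mul, norm_mul]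
  have h1 := je_gauss hy hz t
  rw [← hvd] at h1
  have h2 : ‖cexp k - 1‖ ≤ ‖k‖ * Real.exp ‖k‖ := by
    have := Complex.norm_exp_sub_sum_le_norm_mul_exp k 1
    simpa using this
  have h3 : ‖cexp k - 1‖ ≤ 4 / 3 * v * |t| ^ 3 * Real.exp (v * t ^ 2 / 3) :=
    h2.trans (mul_le_mul hk1 (Real.exp_le_exp.2 hk2) (Real.exp_pos _).le (by positivity))
  refine (mul_le_mul h3 h1 (norm_nonneg _) (by positivity)).trans ?_
  have hs := Real.sqrt_pos.2 hv0
  have hss : Real.sqrt v ^ 2 = v := Real.sq_sqrt hv0.le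
  have h4 := je_cube (u := Real.sqrt v * |t|) (by positivity)
  have e5 : (Real.sqrt v * |t|) ^ 2 = v * t ^ 2 := by rw [mul_pow, hss, sq_abs]
  rw [e5] at h4
  have e6 : 4 / 3 * v * |t| ^ 3 = 4 / 3 / Real.sqrt v * (Real.sqrt v * |t|) ^ 3 := by
    have h9 : Real.sqrt v ^ 3 = v * Real.sqrt v := by rw [pow_succ, hss]
    rw [mul_pow, h9]
    field_simp
  rw [e6]
  have h7 : 4 / 3 / Real.sqrt v * (Real.sqrt v * |t|) ^ 3 ≤
      4 / 3 / Real.sqrt v * (1000 * Real.exp (0.08 * (v * t ^ 2))) :=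
    mul_le_mul_of_nonneg_left h4 (by positivity)
  calc 4 / 3 / Real.sqrt v * (Real.sqrt v * |t|) ^ 3 * Real.exp (v * t ^ 2 / 3) *
        Real.exp (-(0.4995 * v * t ^ 2))
      ≤ 4 / 3 / Real.sqrt v * (1000 * Real.exp (0.08 * (v * t ^ 2))) * Real.exp (v * t ^ 2 / 3) *
        Real.exp (-(0.4995 * v * t ^ 2)) := by gcongr
    _ = 4000 / 3 / Real.sqrt v * (Real.exp (0.08 * (v * t ^ 2)) * Real.exp (v * t ^ 2 / 3) *
        Real.exp (-(0.4995 * v * t ^ 2))) := by ring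
    _ = 4000 / 3 / Real.sqrt v *
        Real.exp (0.08 * (v * t ^ 2) + v * t ^ 2 / 3 + -(0.4995 * v * t ^ 2)) := by
        rw [← Real.exp_add, ← Real.exp_add]
    _ ≤ 2000 / Real.sqrt v * Real.exp (-(1 / 1000 * v) * t ^ 2) := by
        have : 0 ≤ v * t ^ 2 := by positivity
        gcongr
        · norm_num
        · linarith

omit hy in
private lemma je_small {v : ℝ} (hv : 1 ≤ v) : Real.exp (-(0.006 * v)) ≤ 200 / Real.sqrt v := by
  have hv0 : 0 < v := by linarith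
  have h1 := Real.add_one_le_exp (0.006 * v)
  have hs := Real.sqrt_pos.2 hv0
  have hs2 : Real.sqrt v ≤ v := by
    rw [Real.sqrt_le_left hv0.le]
    nlinarith
  rw [Real.exp_neg, inv_eq_one_div, div_le_div_iff₀ (Real.exp_pos _) hs]
  linarith

private lemma je_gauss_far {z : ℂ} (hz : |z.im| ≤ 1 / 400) (hv : 1 ≤ vv y z.re) {t : ℝ}
    (ht : 1 / 4 ≤ |t|) :
    ‖cexp (-(VV y z / 2) * t ^ 2)‖ ≤
      200 / Real.sqrt (vv y z.re) * Real.exp (-(1 / 1000 * vv y z.re) * t ^ 2) := by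
  refine (je_gauss hy hz t).trans ?_
  have h1 := je_small hv
  have h2 : 1 / 16 ≤ t ^ 2 := by
    rw [← sq_abs]
    nlinarith
  calc Real.exp (-(0.4995 * vv y z.re * t ^ 2))
      ≤ Real.exp (-(0.006 * vv y z.re) + -(1 / 1000 * vv y z.re) * t ^ 2) := by
        apply Real.exp_le_exp.2
        nlinarith
    _ = Real.exp (-(0.006 * vv y z.re)) * Real.exp (-(1 / 1000 * vv y z.re) * t ^ 2) :=
        Real.exp_add _ _
    _ ≤ _ := mul_le_mul_of_nonneg_right h1 (Real.exp_pos _).le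

omit hy in
private lemma je_q (c x : ℝ) (hc : 0 < c) (z : ℂ) (hzx : z.re = x) :
    normSq (1 + (c : ℂ) * cexp z) =
      (1 + c * Real.exp x) ^ 2 * (1 - 2 * wr c x * (1 - Real.cos z.im)) := by
  rw [normSq_q, hzx]
  unfold wr
  have h1 : 0 < 1 + c * Real.exp x := by have := Real.exp_pos x; positivity
  field_simp
  ring

omit hy in
private lemma je_factor {c : ℝ} (hc : 0 < c) {z : ℂ} (hz : |z.im| ≤ 1 / 400) (t : ℝ) :
    ‖(1 + (c : ℂ) * cexp (z + I * t)) / (1 + c * cexp z)‖ ≤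
      Real.exp (-(wr c z.re * (1 - Real.cos (z.im + t))) + 2 * wr c z.re * (1 - Real.cos z.im)) := by
  have hw0 := wr_pos hc z.re
  have hw1 := wr_le hc z.re
  have h1 : 0 < 1 + c * Real.exp z.re := by have := Real.exp_pos z.re; positivity
  have hb := Real.one_sub_sq_div_two_le_cos (x := z.im)
  have hb1 := Real.cos_le_one z.im
  have hb2 : z.im ^ 2 ≤ (1 / 400) ^ 2 := by
    rw [← sq_abs]
    exact pow_le_pow_left₀ (abs_nonneg _) hz 2
  have hu0 : 0 ≤ 2 * wr c z.re * (1 - Real.cos z.im) := by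
    have : 0 ≤ 1 - Real.cos z.im := by linarith
    positivity
  have hu1 : 2 * wr c z.re * (1 - Real.cos z.im) ≤ 1 / 2 := by nlinarith
  set u := 2 * wr c z.re * (1 - Real.cos z.im) with hu
  set p := 2 * wr c z.re * (1 - Real.cos (z.im + t)) with hp
  have hsq : ‖(1 + (c : ℂ) * cexp (z + I * t)) / (1 + c * cexp z)‖ ^ 2 = (1 - p) / (1 - u) := by
    rw [norm_div, div_pow, ← normSq_eq_norm_sq, ← normSq_eq_norm_sq,
      je_q c z.re hc (z + I * t) (je_re z t), je_q c z.re hc z rfl, je_im]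
    rw [mul_div_mul_left _ _ (by positivity)]
  have hden : Real.exp (-(2 * u)) ≤ 1 - u := by
    have h2 := Real.add_one_le_exp (2 * u)
    rw [Real.exp_neg, inv_eq_one_div, div_le_iff₀ (Real.exp_pos _)]
    nlinarith
  have hnum : 1 - p ≤ Real.exp (-p) := by
    have := Real.add_one_le_exp (-p)
    linarith
  have hle : ‖(1 + (c : ℂ) * cexp (z + I * t)) / (1 + c * cexp z)‖ ^ 2 ≤
      Real.exp (-(wr c z.re * (1 - Real.cos (z.im + t))) + 2 * wr c z.re * (1 - Real.cos z.im)) ^ 2 := by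
    rw [hsq, ← Real.exp_nat_mul]
    rw [div_le_iff₀ (by linarith)]
    calc 1 - p ≤ Real.exp (-p) := hnum
      _ = Real.exp (-p + 2 * u) * Real.exp (-(2 * u)) := by rw [← Real.exp_add]; congr 1; ring
      _ ≤ Real.exp (-p + 2 * u) * (1 - u) := mul_le_mul_of_nonneg_left hden (Real.exp_pos _).le
      _ = _ := by
        congr 2
        rw [hp, hu]; push_cast; ring
  exact le_of_sq_le_sq hle (Real.exp_pos _).le

omit hy in
private lemma je_cos {θ : ℝ} (h1 : 0.2475 ≤ |θ|) (h2 : |θ| ≤ Real.pi + 1 / 400) :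
    Real.cos θ ≤ 0.97 := by
  rw [← Real.cos_abs]
  have hpi := Real.pi_gt_three
  rcases le_total |θ| Real.pi with h | h
  · have h3 : Real.cos |θ| ≤ Real.cos 0.2475 :=
      Real.cos_le_cos_of_nonneg_of_le_pi (by norm_num) h h1
    have h4 := Real.cos_bound (x := 0.2475) (by norm_num [abs_of_pos])
    have h5 := (abs_le.1 h4).2
    refine h3.trans ?_
    norm_num [abs_of_pos] at h5 ⊢
    linarith
  · have : Real.cos |θ| ≤ 0 := by
      apply Real.cos_nonpos_of_pi_div_two_le_of_le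
      · linarith
      · linarith
    linarith

private lemma je_far {z : ℂ} (hz : |z.im| ≤ 1 / 400) (hv : 1 ≤ vv y z.re) {t : ℝ}
    (ht : 1 / 4 ≤ |t|) (ht2 : |t| ≤ Real.pi) :
    ‖Jint y z t‖ ≤ 200 / Real.sqrt (vv y z.re) * Real.exp (-(1 / 1000 * vv y z.re) * t ^ 2) := by
  set v := vv y z.re with hvd
  have hpi := Real.pi_lt_d2
  have hpi0 := Real.pi_pos
  -- the product
  have hP : ‖∏ l, ((1 + (y l : ℂ) * cexp (z + I * t)) / (1 + y l * cexp z))‖ ≤
      Real.exp (-(v * (1 - Real.cos (z.im + t))) + 2 * v * (1 - Real.cos z.im)) := by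
    rw [norm_prod]
    refine (Finset.prod_le_prod (fun l _ => norm_nonneg _)
      (fun l _ => je_factor (hy l) hz t)).trans ?_
    rw [← Real.exp_sum]
    apply Real.exp_le_exp.2
    rw [hvd, vv_eq, Finset.sum_add_distrib, Finset.sum_neg_distrib, ← Finset.sum_mul,
      ← Finset.sum_mul, ← Finset.mul_sum]
  -- the exponential
  have hU : |(UU y z).im| ≤ v / 300 := by
    have h1 : ‖UU y z - UU y (z.re : ℂ)‖ ≤ 4 / 3 * v * |z.im| := by
      have hconv : Convex ℝ (Set.Icc (-(1 / 4 : ℝ)) (1 / 4)) := convex_Icc _ _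
      have h0 : (0 : ℝ) ∈ Set.Icc (-(1 / 4 : ℝ)) (1 / 4) := by constructor <;> norm_num
      have ht' : z.im ∈ Set.Icc (-(1 / 4 : ℝ)) (1 / 4) := by
        have := abs_le.1 hz; constructor <;> linarith [this.1, this.2]
      have key := hconv.norm_image_sub_le_of_norm_hasDerivWithin_le
        (f := fun s : ℝ => UU y ((z.re : ℂ) + I * s)) (f' := fun s : ℝ => I * VV y ((z.re : ℂ) + I * s))
        (C := 4 / 3 * v) (fun s hs => (je_curve (F' := VV y) (hasDerivAt_UU hy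
          (je_dom (z := (z.re : ℂ)) (by simp) (abs_le.2 ⟨hs.1, hs.2⟩)))).hasDerivWithinAt)
        (fun s hs => by
          rw [norm_mul, norm_I, one_mul]
          have := norm_VV_le hy (je_dom (z := (z.re : ℂ)) (by simp) (abs_le.2 ⟨hs.1, hs.2⟩))
          rwa [je_re, ofReal_re] at this) h0 ht'
      have e : (z.re : ℂ) + I * z.im = z := by rw [mul_comm]; exact re_add_im z
      simpa [e] using key
    have h2 : (UU y z - UU y (z.re : ℂ)).im = (UU y z).im := by
      rw [sub_im, UU_ofReal, ofReal_im, sub_zero]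
    have h3 := abs_im_le_norm (UU y z - UU y (z.re : ℂ))
    rw [h2] at h3
    have h4 : 0 ≤ v := by linarith
    nlinarith
  have hE : ‖cexp (-(I * t * UU y z))‖ ≤ Real.exp (v * 0.0106) := by
    rw [Complex.norm_exp]
    apply Real.exp_le_exp.2
    have e : (-(I * t * UU y z)).re = t * (UU y z).im := by
      simp [mul_comm I (t : ℂ), mul_assoc]
    rw [e]
    calc t * (UU y z).im ≤ |t * (UU y z).im| := le_abs_self _
      _ = |t| * |(UU y z).im| := abs_mul _ _
      _ ≤ Real.pi * (v / 300) := mul_le_mul ht2 hU (abs_nonneg _) hpi0.le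
      _ ≤ v * 0.0106 := by
        have h4 : 0 ≤ v := by linarith
        nlinarith
  have hcos : Real.cos (z.im + t) ≤ 0.97 := by
    apply je_cos
    · have := abs_sub_abs_le_abs_sub t (-z.im)
      rw [abs_neg, sub_neg_eq_add, add_comm t] at this
      norm_num
      linarith
    · have := abs_add_le z.im t
      linarith
  have hb := Real.one_sub_sq_div_two_le_cos (x := z.im)
  have hb2 : z.im ^ 2 ≤ (1 / 400) ^ 2 := by
    rw [← sq_abs]
    exact pow_le_pow_left₀ (abs_nonneg _) hz 2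
  have hmain : ‖Jint y z t‖ ≤ Real.exp (-(0.019 * v)) := by
    unfold Jint
    rw [norm_mul]
    refine (mul_le_mul hE hP (norm_nonneg _) (Real.exp_pos _).le).trans ?_
    rw [← Real.exp_add]
    apply Real.exp_le_exp.2
    have h4 : 0 ≤ v := by linarith
    have h5 : 0.03 * v ≤ v * (1 - Real.cos (z.im + t)) := by nlinarith
    have h6 : v * (1 - Real.cos z.im) ≤ v * 0.00001 := by
      apply mul_le_mul_of_nonneg_left _ h4
      norm_num at hb2 ⊢
      linarith
    linarith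
  refine hmain.trans ?_
  have ht3 : t ^ 2 ≤ 9.93 := by
    rw [← sq_abs]
    have : |t| ≤ 3.15 := by linarith
    nlinarith [abs_nonneg t]
  calc Real.exp (-(0.019 * v)) ≤ Real.exp (-(0.006 * v) + -(1 / 1000 * v) * t ^ 2) := by
        apply Real.exp_le_exp.2
        nlinarith
    _ = Real.exp (-(0.006 * v)) * Real.exp (-(1 / 1000 * v) * t ^ 2) := Real.exp_add _ _
    _ ≤ _ := mul_le_mul_of_nonneg_right (je_small hv) (Real.exp_pos _).le

omit hy in
private lemma je_cont {z : ℂ} (y : Fin n → ℝ) : Continuous (Jint y z) := by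
  unfold Jint
  refine Continuous.mul (by fun_prop) ?_
  refine continuous_finsetProd _ (fun l _ => ?_)
  exact Continuous.div_const (by fun_prop) _

private lemma je_pt {z : ℂ} (hz : |z.im| ≤ 1 / 400) (hv : 1 ≤ vv y z.re) (t : ℝ) :
    ‖(Set.Ioc (-Real.pi) Real.pi).indicator (fun s : ℝ => Jint y z s) t -
      cexp (-(VV y z / 2) * t ^ 2)‖ ≤
      2000 / Real.sqrt (vv y z.re) * Real.exp (-(1 / 1000 * vv y z.re) * t ^ 2) := by
  have hs : 0 < Real.sqrt (vv y z.re) := Real.sqrt_pos.2 (by linarith)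
  have he := Real.exp_pos (-(1 / 1000 * vv y z.re) * t ^ 2)
  have hbig : 200 / Real.sqrt (vv y z.re) * Real.exp (-(1 / 1000 * vv y z.re) * t ^ 2) +
      200 / Real.sqrt (vv y z.re) * Real.exp (-(1 / 1000 * vv y z.re) * t ^ 2) ≤
      2000 / Real.sqrt (vv y z.re) * Real.exp (-(1 / 1000 * vv y z.re) * t ^ 2) := by
    rw [← add_mul, ← add_div]
    gcongr
    norm_num
  have hbig0 : 0 ≤ 200 / Real.sqrt (vv y z.re) * Real.exp (-(1 / 1000 * vv y z.re) * t ^ 2) := by
    positivity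
  have hpi := Real.pi_gt_three
  by_cases hmem : t ∈ Set.Ioc (-Real.pi) Real.pi
  · rw [Set.indicator_of_mem hmem]
    rcases le_total |t| (1 / 4) with h | h
    · exact je_near hy hz hv h
    · refine (norm_sub_le _ _).trans ?_
      have h1 := je_far hy hz hv h (abs_le.2 ⟨hmem.1.le, hmem.2⟩)
      have h2 := je_gauss_far hy hz hv h
      linarith
  · rw [Set.indicator_of_notMem hmem, zero_sub, norm_neg]
    have h : 1 / 4 ≤ |t| := by
      by_contra hcon
      push Not at hcon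
      apply hmem
      have := abs_lt.1 hcon
      constructor <;> linarith [this.1, this.2]
    have h2 := je_gauss_far hy hz hv h
    linarith

private lemma je_main {z : ℂ} (hz : |z.im| ≤ 1 / 400) (hv : 1 ≤ vv y z.re) :
    ‖KK y z - 1‖ ≤ 100000 / Real.sqrt (vv y z.re) := by
  set v := vv y z.re with hvd
  have hv0 : 0 < v := by linarith
  have hVre := je_VRe hy hz
  rw [← hvd] at hVre
  have hVre0 : 0 < (VV y z).re := by linarith
  have hV0 : VV y z ≠ 0 := by
    intro h; rw [h] at hVre0; simp at hVre0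
  have hb : 0 < (VV y z / 2).re := by
    simpa using hVre0
  set g : ℝ → ℂ := fun t => cexp (-(VV y z / 2) * t ^ 2) with hg
  have hgi : MeasureTheory.Integrable g := integrable_cexp_neg_mul_sq hb
  have hgI : ∫ t, g t = (Real.pi / (VV y z / 2)) ^ (1 / 2 : ℂ) := integral_gaussian_complex hb
  have hJI : MeasureTheory.Integrable
      ((Set.Ioc (-Real.pi) Real.pi).indicator (fun s : ℝ => Jint y z s)) := by
    rw [MeasureTheory.integrable_indicator_iff measurableSet_Ioc]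
    exact ((je_cont y).continuousOn.integrableOn_Icc).mono_set Set.Ioc_subset_Icc_self
  have hJ : ∫ t in (-Real.pi)..Real.pi, Jint y z t =
      ∫ t, (Set.Ioc (-Real.pi) Real.pi).indicator (fun s : ℝ => Jint y z s) t := by
    rw [intervalIntegral.integral_of_le (by have := Real.pi_pos; linarith),
      MeasureTheory.integral_indicator measurableSet_Ioc]
  have hdiff : ‖(∫ t in (-Real.pi)..Real.pi, Jint y z t) - ∫ t, g t‖ ≤
      2000 / Real.sqrt v * Real.sqrt (Real.pi / (1 / 1000 * v)) := by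
    rw [hJ, ← MeasureTheory.integral_sub hJI hgi]
    have hb2 : 0 < 1 / 1000 * v := by positivity
    have h1 := MeasureTheory.norm_integral_le_of_norm_le
      ((integrable_exp_neg_mul_sq hb2).const_mul (2000 / Real.sqrt v))
      (Filter.Eventually.of_forall (fun t => je_pt hy hz hv t))
    rw [MeasureTheory.integral_const_mul, integral_gaussian] at h1
    exact h1
  -- the normalisation
  have h2pi : (2 * (Real.pi : ℂ)) ≠ 0 := by
    exact_mod_cast (by positivity : (2 * Real.pi : ℝ) ≠ 0)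
  have hnorm : (1 / (2 * (Real.pi : ℂ))) * (∫ t, g t) *
      cexp (Complex.log (2 * Real.pi * VV y z) / 2) = 1 := by
    rw [hgI]
    have harg : (VV y z).arg ≠ Real.pi := by
      intro h
      have := Complex.abs_arg_lt_pi_div_two_iff.2 (Or.inl hVre0)
      rw [h, abs_of_pos Real.pi_pos] at this
      have := Real.pi_pos
      linarith
    have e1 : (Real.pi : ℂ) / (VV y z / 2) = ((2 * Real.pi : ℝ) : ℂ) * (VV y z)⁻¹ := by
      push_cast; field_simp
    have e2 : (2 * (Real.pi : ℂ)) * VV y z = ((2 * Real.pi : ℝ) : ℂ) * VV y z := by push_cast; ring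
    have hinv : (VV y z)⁻¹ ≠ 0 := inv_ne_zero hV0
    have l1 : Complex.log (((2 * Real.pi : ℝ) : ℂ) * (VV y z)⁻¹) =
        ((Real.log (2 * Real.pi) : ℝ) : ℂ) - Complex.log (VV y z) := by
      rw [Complex.log_ofReal_mul (by positivity) hinv, Complex.log_inv _ harg]
      ring
    have l2 : Complex.log (((2 * Real.pi : ℝ) : ℂ) * VV y z) =
        ((Real.log (2 * Real.pi) : ℝ) : ℂ) + Complex.log (VV y z) := by
      rw [Complex.log_ofReal_mul (by positivity) hV0]
    have hne : ((2 * Real.pi : ℝ) : ℂ) * (VV y z)⁻¹ ≠ 0 :=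
      mul_ne_zero (by exact_mod_cast (by positivity : (2 * Real.pi : ℝ) ≠ 0)) hinv
    rw [e1, e2, Complex.cpow_def_of_ne_zero hne, l1, l2, mul_assoc, ← Complex.exp_add]
    have e3 : (((Real.log (2 * Real.pi) : ℝ) : ℂ) - Complex.log (VV y z)) * (1 / 2) +
        (((Real.log (2 * Real.pi) : ℝ) : ℂ) + Complex.log (VV y z)) / 2 =
        ((Real.log (2 * Real.pi) : ℝ) : ℂ) := by ring
    rw [e3, ← Complex.ofReal_exp, Real.exp_log (by positivity)]
    push_cast
    field_simp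
  have hKK : KK y z - 1 = (1 / (2 * (Real.pi : ℂ))) *
      ((∫ t in (-Real.pi)..Real.pi, Jint y z t) - ∫ t, g t) *
      cexp (Complex.log (2 * Real.pi * VV y z) / 2) := by
    rw [mul_sub, sub_mul, hnorm]
    rfl
  have hE : ‖cexp (Complex.log (2 * Real.pi * VV y z) / 2)‖ ≤ 3 * Real.sqrt v := by
    rw [Complex.norm_exp]
    have e1 : (Complex.log (2 * Real.pi * VV y z) / 2).re =
        Real.log ‖2 * Real.pi * VV y z‖ / 2 := by
      rw [← Complex.log_re]
      simp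
    have hpos : 0 < ‖2 * Real.pi * VV y z‖ := norm_pos_iff.2 (mul_ne_zero h2pi hV0)
    have hle : ‖2 * Real.pi * VV y z‖ ≤ 9 * v := by
      have h1 := norm_VV_le hy (z := z) (by linarith)
      have h3 := Real.pi_lt_d2
      have h4 := Real.pi_pos
      rw [norm_mul, norm_mul, Complex.norm_ofNat, Complex.norm_real, Real.norm_of_nonneg h4.le]
      calc 2 * Real.pi * ‖VV y z‖ ≤ 2 * 3.15 * (4 / 3 * v) := by
            gcongr
          _ ≤ 9 * v := by linarith
    rw [e1, ← Real.log_sqrt hpos.le, Real.exp_log (Real.sqrt_pos.2 hpos)]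
    calc Real.sqrt ‖2 * Real.pi * VV y z‖ ≤ Real.sqrt (9 * v) := Real.sqrt_le_sqrt hle
      _ = 3 * Real.sqrt v := by
        rw [Real.sqrt_mul (by norm_num), show (9 : ℝ) = 3 ^ 2 by norm_num,
          Real.sqrt_sq (by norm_num)]
  rw [hKK, norm_mul, norm_mul]
  have hpi3 := Real.pi_gt_three
  have hpi4 := Real.pi_lt_d2
  have hc : ‖(1 / (2 * (Real.pi : ℂ)))‖ ≤ 1 / 6 := by
    rw [norm_div, norm_mul, norm_one, Complex.norm_ofNat, Complex.norm_real,
      Real.norm_of_nonneg Real.pi_pos.le]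
    apply one_div_le_one_div_of_le (by norm_num)
    linarith
  have hsq : Real.sqrt (Real.pi / (1 / 1000 * v)) ≤ 60 / Real.sqrt v := by
    have e : Real.pi / (1 / 1000 * v) = 1000 * Real.pi / v := by field_simp
    rw [e, Real.sqrt_div' _ hv0.le]
    gcongr
    rw [Real.sqrt_le_left (by norm_num)]
    nlinarith
  have hs := Real.sqrt_pos.2 hv0
  calc ‖(1 / (2 * (Real.pi : ℂ)))‖ * ‖(∫ t in (-Real.pi)..Real.pi, Jint y z t) - ∫ t, g t‖ *
        ‖cexp (Complex.log (2 * Real.pi * VV y z) / 2)‖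
      ≤ 1 / 6 * (2000 / Real.sqrt v * (60 / Real.sqrt v)) * (3 * Real.sqrt v) := by
        gcongr
        exact hdiff.trans (mul_le_mul_of_nonneg_left hsq (by positivity))
    _ = 60000 / Real.sqrt v := by field_simp; norm_num
    _ ≤ 100000 / Real.sqrt v := by gcongr; norm_num

end JEst

/-- explicit form -/
theorem KK_est' : ∀ (n : ℕ) (y : Fin n → ℝ), (∀ l, 0 < y l) →
    ∀ z : ℂ, |z.im| ≤ 1 / 400 → 1 ≤ vv y z.re → ‖KK y z - 1‖ ≤ 100000 / Real.sqrt (vv y z.re) :=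
  fun _ _ hy _ hz hv => je_main hy hz hv

theorem KK_est : ∃ C > 0, ∃ V₁ > 0, ∀ (n : ℕ) (y : Fin n → ℝ), (∀ l, 0 < y l) →
    ∀ z : ℂ, |z.im| ≤ 1 / 400 → V₁ ≤ vv y z.re → ‖KK y z - 1‖ ≤ C / Real.sqrt (vv y z.re) :=
  ⟨100000, by norm_num, 1, by norm_num, KK_est'⟩

end Pool.Agent.LExp
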