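import Mathlib
import Pool.Agent.LExp.Defs

/-!
# Module JProp: analyticity, values and symmetry of `JJ`

PAPER PROOF.  Put `Sf w = ∫ φ in -π..π, exp (I w φ)`, which is `2 sin (π w) / w` for `w ≠ 0`
(`integral_exp_mul_complex`) and `2 π` for `w = 0`; hence `Sf w = 2 * dslope (fun w => sin (π w)) 0 w`
is differentiable everywhere, and for an integer `w ≠ 0` it is `0`.
Expanding the product, `∏ (1 + y_l e^{z + iφ}) = ∑_{k ≤ n} cf y k * e^{k z} e^{i k φ}`
(evaluate the polynomial `∏ (1 + y_l X)` at `e^{z + iφ}`), so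
`JJ y z = (1 / 2π) * (∏ (1 + y_l e^z))⁻¹ * ∑_k cf y k e^{kz} Sf (k - UU y z)`.
All three statements follow from this formula: `UU`, `exp` and the product are differentiable,
`1 + y_l e^z ≠ 0` for `|Im z| ≤ 1` (`q_ne`), `UU y x = mu y x` (`UU_ofReal`).  For the third one
use `Sf (conj w) = conj (Sf w)` (or substitute `φ → -φ`), `UU_conj`.
Note that `cf y k = 0` for `k > n`.
-/

open Finset Complex Polynomial

namespace Pool.Agent.LExp

variable {n : ℕ} {y : Fin n → ℝ}

private noncomputable def Sf (w : ℂ) : ℂ := ∫ φ in (-Real.pi)..Real.pi, cexp (I * w * φ)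

private lemma Sf_zero : Sf 0 = 2 * Real.pi := by
  unfold Sf
  simp
  push_cast
  ring

private lemma Sf_ne {w : ℂ} (hw : w ≠ 0) : Sf w = 2 * Complex.sin (Real.pi * w) / w := by
  unfold Sf
  have hc : I * w ≠ 0 := mul_ne_zero I_ne_zero hw
  rw [integral_exp_mul_complex hc]
  rw [Complex.sin]
  have e1 : -(Real.pi * w : ℂ) * I = I * w * ((-Real.pi : ℝ) : ℂ) := by push_cast; ring
  have e2 : (Real.pi * w : ℂ) * I = I * w * (Real.pi : ℂ) := by ring
  rw [e1, e2]
  rw [div_eq_div_iff hc hw]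
  have hI : I * I = -1 := I_mul_I
  linear_combination ((cexp (I * w * (Real.pi : ℂ)) - cexp (I * w * ((-Real.pi : ℝ) : ℂ))) * w) * hI

private lemma Sf_eq (w : ℂ) : Sf w = 2 * dslope (fun w : ℂ => Complex.sin (Real.pi * w)) 0 w := by
  by_cases hw : w = 0
  · subst hw
    rw [Sf_zero, dslope_same]
    have h1 : HasDerivAt (fun w : ℂ => Complex.sin (Real.pi * w))
        (Complex.cos (Real.pi * 0) * (Real.pi * 1)) 0 :=
      ((hasDerivAt_id (0 : ℂ)).const_mul (Real.pi : ℂ)).csin
    rw [h1.deriv]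
    simp
  · rw [Sf_ne hw, dslope_of_ne _ hw, slope_def_field]
    simp
    ring

private lemma differentiable_Sf : Differentiable ℂ Sf := by
  have h0 : Differentiable ℂ (fun w : ℂ => Complex.sin (Real.pi * w)) := by fun_prop
  have h1 : DifferentiableOn ℂ (dslope (fun w : ℂ => Complex.sin (Real.pi * w)) 0) Set.univ :=
    (Complex.differentiableOn_dslope (c := (0 : ℂ)) Filter.univ_mem).2 h0.differentiableOn
  have h2 : Sf = fun w => 2 * dslope (fun w : ℂ => Complex.sin (Real.pi * w)) 0 w := funext Sf_eq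
  rw [h2]
  exact (differentiableOn_univ.1 h1).const_mul 2

private lemma Sf_int {m : ℤ} (hm : m ≠ 0) : Sf (m : ℂ) = 0 := by
  have hw : (m : ℂ) ≠ 0 := by exact_mod_cast hm
  rw [Sf_ne hw]
  have : Complex.sin (Real.pi * (m : ℂ)) = 0 := by
    rw [mul_comm]
    exact Complex.sin_int_mul_pi m
  rw [this]
  simp

private lemma Sf_conj (w : ℂ) : Sf ((starRingEnd ℂ) w) = (starRingEnd ℂ) (Sf w) := by
  by_cases hw : w = 0
  · subst hw
    rw [map_zero, Sf_zero]
    rw [map_mul, Complex.conj_ofReal]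
    congr 1
    exact (Complex.conj_ofReal 2).symm
  · have hw' : (starRingEnd ℂ) w ≠ 0 := (_root_.map_ne_zero _).2 hw
    rw [Sf_ne hw, Sf_ne hw', map_div₀, map_mul, ← Complex.sin_conj, map_mul, Complex.conj_ofReal]
    congr 2
    exact (Complex.conj_ofReal 2).symm

private lemma cf_expand (u : ℂ) : ∏ l, (1 + (y l : ℂ) * u) =
    ∑ k ∈ range (n + 1), (cf y k : ℂ) * u ^ k := by
  have h1 : (Polynomial.aeval u) (∏ l, (1 + C (y l) * X) : ℝ[X]) = ∏ l, (1 + (y l : ℂ) * u) := by
    rw [map_prod]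
    refine prod_congr rfl fun l _ => ?_
    simp
  have hdeg : (∏ l, (1 + C (y l) * X) : ℝ[X]).natDegree < n + 1 := by
    have h2 := Polynomial.natDegree_prod_le (univ : Finset (Fin n)) (fun l => (1 + C (y l) * X : ℝ[X]))
    have h3 : ∑ l : Fin n, (1 + C (y l) * X : ℝ[X]).natDegree ≤ ∑ l : Fin n, 1 := by
      refine sum_le_sum fun l _ => ?_
      refine (Polynomial.natDegree_add_le _ _).trans ?_
      rw [Polynomial.natDegree_one]
      refine max_le (by norm_num) ?_
      exact (Polynomial.natDegree_C_mul_le _ _).trans Polynomial.natDegree_X_le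
    simp at h3
    omega
  rw [← h1, Polynomial.aeval_eq_sum_range' hdeg]
  refine sum_congr rfl fun k _ => ?_
  rw [Algebra.smul_def]
  rfl

private lemma cf_zero {k : ℕ} (hk : n < k) : cf y k = 0 := by
  unfold cf
  apply Polynomial.coeff_eq_zero_of_natDegree_lt
  have h2 := Polynomial.natDegree_prod_le (univ : Finset (Fin n)) (fun l => (1 + C (y l) * X : ℝ[X]))
  have h3 : ∑ l : Fin n, (1 + C (y l) * X : ℝ[X]).natDegree ≤ ∑ l : Fin n, 1 := by
    refine sum_le_sum fun l _ => ?_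
    refine (Polynomial.natDegree_add_le _ _).trans ?_
    rw [Polynomial.natDegree_one]
    refine max_le (by norm_num) ?_
    exact (Polynomial.natDegree_C_mul_le _ _).trans Polynomial.natDegree_X_le
  simp at h3
  omega

private lemma JJ_formula (z : ℂ) : JJ y z = (1 / (2 * Real.pi)) *
    ((∏ l, (1 + (y l : ℂ) * cexp z))⁻¹ *
      ∑ k ∈ range (n + 1), (cf y k : ℂ) * cexp z ^ k * Sf (k - UU y z)) := by
  unfold JJ
  congr 1
  have h1 : ∀ φ : ℝ, Jint y z φ = ∑ k ∈ range (n + 1),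
      ((∏ l, (1 + (y l : ℂ) * cexp z))⁻¹ * ((cf y k : ℂ) * cexp z ^ k)) *
        cexp (I * (k - UU y z) * φ) := by
    intro φ
    unfold Jint
    rw [prod_div_distrib, cf_expand (cexp (z + I * φ)), div_eq_mul_inv, sum_mul, mul_sum]
    refine sum_congr rfl fun k _ => ?_
    rw [Complex.exp_add, mul_pow, ← Complex.exp_nat_mul (I * φ)]
    have e : cexp (I * (k - UU y z) * φ) = cexp (-(I * φ * UU y z)) * cexp (k * (I * φ)) := by
      rw [← Complex.exp_add]
      congr 1
      ring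
    rw [e]
    ring
  rw [intervalIntegral.integral_congr (fun φ _ => h1 φ)]
  rw [intervalIntegral.integral_finsetSum]
  · rw [mul_sum]
    refine sum_congr rfl fun k _ => ?_
    rw [intervalIntegral.integral_const_mul]
    unfold Sf
    ring
  · intro k _
    apply Continuous.intervalIntegrable
    fun_prop

theorem differentiableAt_JJ (hy : ∀ l, 0 < y l) {z : ℂ} (hz : |z.im| < 1) :
    DifferentiableAt ℂ (JJ y) z := by
  have h0 : JJ y = fun z => (1 / (2 * Real.pi)) *
    ((∏ l, (1 + (y l : ℂ) * cexp z))⁻¹ *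
      ∑ k ∈ range (n + 1), (cf y k : ℂ) * cexp z ^ k * Sf (k - UU y z)) := funext JJ_formula
  rw [h0]
  have hU : DifferentiableAt ℂ (UU y) z := (hasDerivAt_UU hy hz.le).differentiableAt
  have hP : DifferentiableAt ℂ (fun z => ∏ l, (1 + (y l : ℂ) * cexp z)) z := by
    refine DifferentiableAt.fun_finsetProd fun l _ => ?_
    fun_prop
  have hPn : ∏ l, (1 + (y l : ℂ) * cexp z) ≠ 0 := prod_ne_zero_iff.2 fun l _ => q_ne (hy l) hz.le
  have hS : DifferentiableAt ℂ (fun z => ∑ k ∈ range (n + 1),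
      (cf y k : ℂ) * cexp z ^ k * Sf (k - UU y z)) z := by
    refine DifferentiableAt.fun_sum fun k _ => ?_
    have h1 : DifferentiableAt ℂ (fun z => Sf (k - UU y z)) z :=
      (differentiable_Sf _).comp z (hU.const_sub (k : ℂ))
    have h2 : DifferentiableAt ℂ (fun z => (cf y k : ℂ) * cexp z ^ k) z := by fun_prop
    exact h2.mul h1
  exact ((hP.inv hPn).mul hS).const_mul _

theorem JJ_of_mu_eq (hy : ∀ l, 0 < y l) {x : ℝ} {k : ℕ} (h : mu y x = k) :
    JJ y (x : ℂ) = ((cf y k * Real.exp (k * x) / ∏ l, (1 + y l * Real.exp x) : ℝ) : ℂ) := by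
  rw [JJ_formula, UU_ofReal, h]
  have h1 : ∑ j ∈ range (n + 1), (cf y j : ℂ) * cexp (x : ℂ) ^ j * Sf (j - ((k : ℝ) : ℂ)) =
      (cf y k : ℂ) * cexp (x : ℂ) ^ k * (2 * Real.pi) := by
    by_cases hk : k ∈ range (n + 1)
    · rw [sum_eq_single_of_mem k hk]
      · have : ((k : ℂ) - ((k : ℝ) : ℂ)) = 0 := by push_cast; ring
        rw [this, Sf_zero]
      · intro j _ hj
        have e : ((j : ℂ) - ((k : ℝ) : ℂ)) = (((j : ℤ) - (k : ℤ) : ℤ) : ℂ) := by push_cast; ring
        rw [e, Sf_int (by omega), mul_zero]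
    · have hk' : n < k := by simpa using hk
      rw [cf_zero hk']
      simp only [ofReal_zero, zero_mul]
      refine sum_eq_zero fun j hj => ?_
      have hj' : j < n + 1 := mem_range.1 hj
      have e : ((j : ℂ) - ((k : ℝ) : ℂ)) = (((j : ℤ) - (k : ℤ) : ℤ) : ℂ) := by push_cast; ring
      rw [e, Sf_int (by omega), mul_zero]
  rw [h1]
  have hpi : (Real.pi : ℂ) ≠ 0 := by exact_mod_cast Real.pi_ne_zero
  push_cast
  rw [← Complex.exp_nat_mul]
  field_simp
  congr 1
  exact prod_congr rfl fun l _ => by ring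

theorem JJ_conj (hy : ∀ l, 0 < y l) {z : ℂ} (hz : |z.im| ≤ 1) :
    JJ y ((starRingEnd ℂ) z) = (starRingEnd ℂ) (JJ y z) := by
  rw [JJ_formula, JJ_formula, UU_conj]
  rw [map_mul, map_mul, map_inv₀, map_prod, map_sum]
  have e0 : (starRingEnd ℂ) (1 / (2 * (Real.pi : ℂ))) = 1 / (2 * (Real.pi : ℂ)) := by
    rw [map_div₀, map_one, map_mul, Complex.conj_ofReal]
    congr 2
    exact Complex.conj_ofReal 2
  rw [e0]
  congr 2
  · congr 1
    refine prod_congr rfl fun l _ => ?_
    rw [map_add, map_one, map_mul, Complex.conj_ofReal, ← Complex.exp_conj]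
  · refine sum_congr rfl fun k _ => ?_
    rw [map_mul, map_mul, map_pow, Complex.conj_ofReal, ← Complex.exp_conj, ← Sf_conj, map_sub]
    congr 3
    exact (Complex.conj_ofReal (k : ℝ)).symm

end Pool.Agent.LExp
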