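import Mathlib
import Pool.Agent.LExp.JProp
import Pool.Agent.LExp.JEst
import Pool.Agent.LExp.CombBase

/-!
# Module BFun: the function `BB = DD - log (2 π VV) / 2`, an analytic logarithm of `JJ`
-/

open Finset Complex Polynomial Metric

namespace Pool.Agent.LExp

/-- an analytic logarithm of `JJ` -/
noncomputable def BB {n : ℕ} (y : Fin n → ℝ) (z : ℂ) : ℂ :=
  DD y z - Complex.log (2 * Real.pi * VV y z) / 2

section

variable {n : ℕ} {y : Fin n → ℝ}

lemma conj_two : (starRingEnd ℂ) 2 = 2 := map_ofNat _ 2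

lemma conj_two_pi_mul (w : ℂ) :
    (2 * Real.pi * (starRingEnd ℂ) w : ℂ) = (starRingEnd ℂ) (2 * Real.pi * w) := by
  rw [map_mul, map_mul, Complex.conj_ofReal, conj_two]

lemma abs_im_le_one_of_norm {z : ℂ} {ρ : ℝ} (hz : ‖z‖ ≤ ρ) (hρ : ρ ≤ 1) : |z.im| ≤ 1 :=
  (Complex.abs_im_le_norm z).trans (hz.trans hρ)

lemma vv_ge (hy : ∀ l, 0 < y l) (x h : ℝ) : Real.exp (-|h|) * vv y x ≤ vv y (x + h) := by
  have h1 := vv_shift hy (x + h) (-h)
  rw [add_neg_cancel_right, abs_neg] at h1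
  rw [Real.exp_neg, inv_mul_le_iff₀ (Real.exp_pos _)]
  exact h1

/-- near `0` the variance changes little -/
lemma vv_near (hy : ∀ l, 0 < y l) {x : ℝ} (hx : |x| ≤ 1 / 400) :
    99 / 100 * vv y 0 ≤ vv y x ∧ vv y x ≤ 101 / 100 * vv y 0 := by
  have h0 := vv_nonneg hy 0
  have h1 := vv_ge hy 0 x
  have h2 := vv_shift hy 0 x
  rw [zero_add] at h1 h2
  have h3 : (99 : ℝ) / 100 ≤ Real.exp (-|x|) := by
    have := Real.add_one_le_exp (-|x|)
    linarith
  have h4 : Real.exp |x| ≤ 101 / 100 := by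
    have h5 : Real.exp |x| * Real.exp (-|x|) = 1 := by rw [← Real.exp_add]; simp
    have h6 : (399 : ℝ) / 400 ≤ Real.exp (-|x|) := by
      have := Real.add_one_le_exp (-|x|)
      linarith
    have h7 := Real.exp_pos |x|
    nlinarith
  constructor
  · nlinarith
  · nlinarith

lemma good_of_large (n : ℕ) (y : Fin n → ℝ) (hy : ∀ l, 0 < y l) (hv : 2 * 10 ^ 22 ≤ vv y 0)
    (z : ℂ) (hz : ‖z‖ < 1 / 400) : ‖KK y z - 1‖ ≤ 1 / 1000000 := by
  have hre : |z.re| ≤ 1 / 400 := (Complex.abs_re_le_norm z).trans hz.le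
  have him : |z.im| ≤ 1 / 400 := (Complex.abs_im_le_norm z).trans hz.le
  have h3 := (vv_near hy hre).1
  have h4 : 1 ≤ vv y z.re := by linarith
  refine (KK_est' n y hy z him h4).trans ?_
  have h6 : 10 ^ 11 ≤ Real.sqrt (vv y z.re) := by
    apply Real.le_sqrt_of_sq_le
    linarith
  have h7 : 0 < Real.sqrt (vv y z.re) := lt_of_lt_of_le (by positivity) h6
  rw [div_le_iff₀ h7]
  linarith

variable (hy : ∀ l, 0 < y l) (hv : 1 ≤ vv y 0)

include hy hv

lemma re_VV_pos {z : ℂ} (hz : ‖z‖ < 1 / 400) : 0 < (VV y z).re := by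
  have hre : |z.re| ≤ 1 / 400 := (Complex.abs_re_le_norm z).trans hz.le
  have him : |z.im| ≤ 1 := abs_im_le_one_of_norm hz.le (by norm_num)
  have h1 := le_re_VV hy him
  have h2 := (vv_near hy hre).1
  have h3 := half_le_cos him
  have : 0 < vv y z.re := by linarith
  nlinarith

lemma le_re_VV' {z : ℂ} (hz : ‖z‖ < 1 / 400) : 98 / 100 * vv y 0 ≤ (VV y z).re := by
  have hre : |z.re| ≤ 1 / 400 := (Complex.abs_re_le_norm z).trans hz.le
  have him : |z.im| ≤ 1 := abs_im_le_one_of_norm hz.le (by norm_num)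
  have him' : |z.im| ≤ 1 / 400 := (Complex.abs_im_le_norm z).trans hz.le
  have h1 := le_re_VV hy him
  have h2 := (vv_near hy hre).1
  have h3 := Real.one_sub_sq_div_two_le_cos (x := z.im)
  have h4 : z.im ^ 2 ≤ (1 / 400) ^ 2 := sq_le_sq' (by linarith [(abs_le.1 him').1]) (abs_le.1 him').2
  have h5 : (99 : ℝ) / 100 ≤ Real.cos z.im := by nlinarith
  have : 0 < vv y z.re := by linarith
  nlinarith

lemma norm_VV_le' {z : ℂ} (hz : ‖z‖ < 1 / 400) : ‖VV y z‖ ≤ 14 / 10 * vv y 0 := by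
  have hre : |z.re| ≤ 1 / 400 := (Complex.abs_re_le_norm z).trans hz.le
  have him : |z.im| ≤ 1 := abs_im_le_one_of_norm hz.le (by norm_num)
  have h1 := norm_VV_le hy him
  have h2 := (vv_near hy hre).2
  nlinarith

lemma norm_TT_le' {z : ℂ} (hz : ‖z‖ < 1 / 400) : ‖TT y z‖ ≤ 14 / 10 * vv y 0 := by
  have hre : |z.re| ≤ 1 / 400 := (Complex.abs_re_le_norm z).trans hz.le
  have him : |z.im| ≤ 1 := abs_im_le_one_of_norm hz.le (by norm_num)
  have h1 := norm_TT_le hy him
  have h2 := (vv_near hy hre).2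
  nlinarith

lemma VV_slit {z : ℂ} (hz : ‖z‖ < 1 / 400) : 2 * Real.pi * VV y z ∈ slitPlane := by
  left
  have h1 := re_VV_pos hy hv hz
  have e : (2 * Real.pi * VV y z : ℂ) = ((2 * Real.pi : ℝ) : ℂ) * VV y z := by push_cast; rfl
  rw [e, Complex.re_ofReal_mul]
  have := Real.pi_pos
  positivity

lemma norm_TT_div_VV {z : ℂ} (hz : ‖z‖ < 1 / 400) : ‖TT y z / VV y z‖ ≤ 15 / 10 := by
  have h1 := norm_TT_le' hy hv hz
  have h2 := le_re_VV' hy hv hz
  have h3 : (VV y z).re ≤ ‖VV y z‖ := Complex.re_le_norm _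
  have h4 : 0 < ‖VV y z‖ := by linarith
  rw [norm_div, div_le_iff₀ h4]
  linarith

variable {η : ℝ} (hη : η ≤ 1 / 1000000) (hη0 : 0 < η)
  (hK : ∀ z : ℂ, ‖z‖ < 1 / 400 → ‖KK y z - 1‖ ≤ η)

include hη hη0 hK

omit hy hv in
lemma KK_slit {z : ℂ} (hz : ‖z‖ < 1 / 400) : KK y z ∈ slitPlane := by
  left
  have h1 := hK z hz
  have h2 : |(KK y z - 1).re| ≤ η := (Complex.abs_re_le_norm _).trans h1
  rw [Complex.sub_re, Complex.one_re] at h2
  have := (abs_le.1 h2).1
  linarith

omit hη hη0 hK in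
lemma differentiableAt_KK {z : ℂ} (hz : ‖z‖ < 1 / 400) : DifferentiableAt ℂ (KK y) z := by
  have him : |z.im| < 1 := lt_of_le_of_lt (Complex.abs_im_le_norm z) (by linarith)
  have h1 := differentiableAt_JJ hy him
  have h2 : DifferentiableAt ℂ (VV y) z := (hasDerivAt_VV hy him.le).differentiableAt
  have h3 : DifferentiableAt ℂ (fun z => Complex.log (2 * Real.pi * VV y z)) z :=
    (h2.const_mul _).clog (VV_slit hy hv hz)
  exact h1.mul (h3.div_const 2).cexp

lemma differentiableAt_DD {z : ℂ} (hz : ‖z‖ < 1 / 400) : DifferentiableAt ℂ (DD y) z :=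
  (differentiableAt_KK hy hv hz).clog (KK_slit hη hη0 hK hz)

lemma differentiableAt_BB {z : ℂ} (hz : ‖z‖ < 1 / 400) : DifferentiableAt ℂ (BB y) z := by
  have him : |z.im| < 1 := lt_of_le_of_lt (Complex.abs_im_le_norm z) (by linarith)
  have h2 : DifferentiableAt ℂ (VV y) z := (hasDerivAt_VV hy him.le).differentiableAt
  exact (differentiableAt_DD hy hv hη hη0 hK hz).sub
    (((h2.const_mul _).clog (VV_slit hy hv hz)).div_const 2)

omit hy hv in
lemma norm_DD_le {z : ℂ} (hz : ‖z‖ < 1 / 400) : ‖DD y z‖ ≤ 3 / 2 * η := by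
  unfold DD
  have h1 := hK z hz
  have h2 := Complex.norm_log_one_add_half_le_self (z := KK y z - 1) (by linarith)
  rw [add_sub_cancel] at h2
  linarith

lemma norm_deriv_DD_le {z : ℂ} (hz : ‖z‖ < 1 / 800) : ‖deriv (DD y) z‖ ≤ 1200 * η := by
  have h1 : DiffContOnCl ℂ (DD y) (ball z (1 / 800)) := by
    apply DifferentiableOn.diffContOnCl
    intro w hw
    have hw' : ‖w‖ < 1 / 400 := by
      have h2 := closure_ball_subset_closedBall hw
      rw [mem_closedBall, dist_eq_norm] at h2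
      have h3 : ‖w‖ ≤ ‖w - z‖ + ‖z‖ := by
        have := norm_add_le (w - z) z
        rwa [sub_add_cancel] at this
      linarith
    exact (differentiableAt_DD hy hv hη hη0 hK hw').differentiableWithinAt
  have h2 := Complex.norm_deriv_le_of_forall_mem_sphere_norm_le (by norm_num : (0 : ℝ) < 1 / 800) h1
    (C := 3 / 2 * η) (fun w hw => ?_)
  · refine h2.trans (le_of_eq ?_)
    ring
  · apply norm_DD_le hη hη0 hK
    rw [mem_sphere, dist_eq_norm] at hw
    have h3 : ‖w‖ ≤ ‖w - z‖ + ‖z‖ := by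
      have := norm_add_le (w - z) z
      rwa [sub_add_cancel] at this
    linarith

lemma deriv_BB {z : ℂ} (hz : ‖z‖ < 1 / 400) :
    deriv (BB y) z = deriv (DD y) z - TT y z / VV y z / 2 := by
  have him : |z.im| ≤ 1 := abs_im_le_one_of_norm hz.le (by norm_num)
  have h1 := hasDerivAt_VV hy him
  have h2 := ((h1.const_mul (2 * (Real.pi : ℂ))).clog (VV_slit hy hv hz)).div_const 2
  have h3 := (differentiableAt_DD hy hv hη hη0 hK hz).hasDerivAt.sub h2
  have h4 : HasDerivAt (BB y) (deriv (DD y) z - 2 * Real.pi * TT y z / (2 * Real.pi * VV y z) / 2) z := h3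
  rw [h4.deriv]
  have h5 : (Real.pi : ℂ) ≠ 0 := by exact_mod_cast Real.pi_ne_zero
  congr 2
  rw [mul_div_mul_left _ _ (by simp [h5])]

lemma norm_deriv_BB_le {z : ℂ} (hz : ‖z‖ < 1 / 800) : ‖deriv (BB y) z‖ ≤ 1 := by
  have hz' : ‖z‖ < 1 / 400 := by linarith
  rw [deriv_BB hy hv hη hη0 hK hz']
  have h1 := norm_deriv_DD_le hy hv hη hη0 hK hz
  have h2 := norm_TT_div_VV hy hv hz'
  have h3 : ‖TT y z / VV y z / 2‖ ≤ 15 / 20 := by
    rw [norm_div, Complex.norm_ofNat]
    linarith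
  have := norm_sub_le (deriv (DD y) z) (TT y z / VV y z / 2)
  linarith

lemma norm_deriv_BB_sub_le {z : ℂ} (hz : ‖z‖ < 1 / 800) :
    ‖deriv (BB y) z - deriv (BB y) 0‖ ≤ 1700 * ‖z‖ := by
  have hopen : IsOpen (ball (0 : ℂ) (1 / 400)) := isOpen_ball
  have hd : DifferentiableOn ℂ (deriv (BB y)) (ball (0 : ℂ) (1 / 400)) := by
    apply DifferentiableOn.deriv _ hopen
    intro w hw
    rw [mem_ball_zero_iff] at hw
    exact (differentiableAt_BB hy hv hη hη0 hK hw).differentiableWithinAt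
  have h0 : ‖deriv (BB y) 0‖ ≤ 1 := norm_deriv_BB_le hy hv hη hη0 hK (by simp)
  have h1 := Complex.dist_le_div_mul_dist_of_mapsTo_ball (f := deriv (BB y)) (c := 0) (z := z)
    (R₁ := 1 / 800) (R₂ := 2.1) (hd.mono (ball_subset_ball (by norm_num))) ?_ (by simpa using hz)
  · rw [dist_eq_norm, dist_eq_norm, sub_zero] at h1
    refine h1.trans ?_
    have := norm_nonneg z
    norm_num
    linarith
  · intro w hw
    rw [mem_ball_zero_iff] at hw
    rw [mem_closedBall, dist_eq_norm]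
    have h2 := norm_deriv_BB_le hy hv hη hη0 hK hw
    have h3 := norm_sub_le (deriv (BB y) w) (deriv (BB y) 0)
    norm_num
    linarith

omit hη hη0 hK in
lemma KK_conj {z : ℂ} (hz : ‖z‖ < 1 / 400) :
    KK y ((starRingEnd ℂ) z) = (starRingEnd ℂ) (KK y z) := by
  have him : |z.im| ≤ 1 := abs_im_le_one_of_norm hz.le (by norm_num)
  unfold KK
  rw [map_mul, JJ_conj hy him, VV_conj, ← Complex.exp_conj, map_div₀]
  congr 2
  rw [conj_two_pi_mul, Complex.log_conj _ (mem_slitPlane_iff_arg.1 (VV_slit hy hv hz)).1,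
    conj_two]

lemma DD_conj {z : ℂ} (hz : ‖z‖ < 1 / 400) :
    DD y ((starRingEnd ℂ) z) = (starRingEnd ℂ) (DD y z) := by
  unfold DD
  rw [KK_conj hy hv hz,
    Complex.log_conj _ (mem_slitPlane_iff_arg.1 (KK_slit hη hη0 hK hz)).1]

lemma BB_conj {z : ℂ} (hz : ‖z‖ < 1 / 400) :
    BB y ((starRingEnd ℂ) z) = (starRingEnd ℂ) (BB y z) := by
  unfold BB
  rw [map_sub, DD_conj hy hv hη hη0 hK hz, map_div₀, VV_conj]
  congr 1
  rw [conj_two_pi_mul, Complex.log_conj _ (mem_slitPlane_iff_arg.1 (VV_slit hy hv hz)).1,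
    conj_two]

/-- `BB` is real on the real axis -/
lemma BB_im {x : ℝ} (hx : |x| < 1 / 400) : (BB y x).im = 0 := by
  have h1 := BB_conj hy hv hη hη0 hK (z := (x : ℂ)) (by rwa [Complex.norm_real])
  rw [Complex.conj_ofReal] at h1
  exact (Complex.conj_eq_iff_im.1 h1.symm)

lemma le_re_BB {x : ℝ} (hx : |x| < 1 / 400) : -Real.log (vv y 0) - 2 ≤ (BB y x).re := by
  have hx' : ‖(x : ℂ)‖ < 1 / 400 := by rwa [Complex.norm_real]
  have h1 := norm_DD_le hη hη0 hK hx'
  have h2 : |(DD y x).re| ≤ ‖DD y x‖ := Complex.abs_re_le_norm _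
  have h3 := vv_near hy hx.le
  have h4 : 0 < vv y x := by linarith [h3.1]
  unfold BB
  have e : Complex.log (2 * Real.pi * VV y x) = ((Real.log (2 * Real.pi * vv y x) : ℝ) : ℂ) := by
    rw [VV_ofReal hy]
    have := Real.pi_pos
    rw [Complex.ofReal_log (by positivity)]
    push_cast
    rfl
  rw [e, Complex.sub_re]
  have e2 : (((Real.log (2 * Real.pi * vv y x) : ℝ) : ℂ) / 2).re = Real.log (2 * Real.pi * vv y x) / 2 := by
    rw [show ((Real.log (2 * Real.pi * vv y x) : ℝ) : ℂ) / 2 =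
      ((Real.log (2 * Real.pi * vv y x) / 2 : ℝ) : ℂ) by push_cast; rfl, Complex.ofReal_re]
  rw [e2]
  have hpi := Real.pi_lt_d2
  have hpi0 := Real.pi_pos
  have h5 : Real.log (2 * Real.pi * vv y x) ≤ Real.log (8 * vv y 0) := by
    apply Real.log_le_log (by positivity)
    nlinarith [h3.2]
  rw [Real.log_mul (x := 8) (by norm_num) (by linarith)] at h5
  have h6 : Real.log 8 ≤ 3 := by
    have : Real.log 8 = 3 * Real.log 2 := by
      rw [show (8 : ℝ) = 2 ^ 3 by norm_num, Real.log_pow]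
      norm_num
    rw [this]
    have := Real.log_two_lt_d9
    linarith
  have h7 : 0 ≤ Real.log (vv y 0) := Real.log_nonneg hv
  have h8 := (abs_le.1 (h2.trans h1)).1
  linarith

/-- the coefficients in terms of `BB` -/
lemma exp_eq_cf_rpow {x : ℝ} (hx : |x| < 1 / 400) {k : ℕ} (hk : mu y x = k) (hkn : k ≤ n)
    (r : ℝ) :
    cexp (r * (LL y x - x * UU y x + BB y x)) = ((cf y k ^ r : ℝ) : ℂ) := by
  have hx' : ‖(x : ℂ)‖ < 1 / 400 := by rwa [Complex.norm_real]
  have hc := cf_pos hy hkn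
  have hprod : 0 < ∏ l, (1 + y l * Real.exp x) :=
    Finset.prod_pos (fun l _ => by have := hy l; have := Real.exp_pos x; positivity)
  -- `exp BB = JJ`
  have hV := VV_slit hy hv hx'
  have hK1 : cexp (BB y x) = JJ y x := by
    unfold BB DD
    rw [Complex.exp_sub, Complex.exp_log (slitPlane_ne_zero (KK_slit hη hη0 hK hx'))]
    unfold KK
    rw [mul_div_assoc, div_self (Complex.exp_ne_zero _), mul_one]
  have hJ := JJ_of_mu_eq hy hk
  have hBre : cexp (BB y x) = ((Real.exp (BB y x).re : ℝ) : ℂ) := by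
    have : BB y x = (((BB y x).re : ℝ) : ℂ) := by
      apply Complex.ext
      · simp
      · simpa using BB_im hy hv hη hη0 hK hx
    conv_lhs => rw [this]
    push_cast
    rfl
  have hreal : Real.exp (BB y x).re = cf y k * Real.exp (k * x) / ∏ l, (1 + y l * Real.exp x) := by
    have := hBre.symm.trans (hK1.trans hJ)
    exact_mod_cast this
  have hBlog : (BB y x).re = Real.log (cf y k) + k * x - ∑ l, Real.log (1 + y l * Real.exp x) := by
    rw [← Real.log_exp (BB y x).re, hreal, Real.log_div (by positivity) hprod.ne',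
      Real.log_mul hc.ne' (Real.exp_pos _).ne', Real.log_exp,
      Real.log_prod (fun l _ => by have := hy l; have := Real.exp_pos x; positivity)]
  have hB : BB y x = ((Real.log (cf y k) + k * x - ∑ l, Real.log (1 + y l * Real.exp x) : ℝ) : ℂ) := by
    rw [← hBlog]
    apply Complex.ext
    · simp
    · simpa using BB_im hy hv hη hη0 hK hx
  rw [hB, LL_ofReal hy, UU_ofReal, hk, Real.rpow_def_of_pos hc]
  rw [Complex.ofReal_exp]
  congr 1
  push_cast
  ring

end

end Pool.Agent.LExp
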