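import Mathlib
import Pool.Agent.LExp.CombBase

/-!
# Module Comb: Darroch's inequalities and the sign given by a dominant term

PAPER PROOFS.
* `le_mu`, `mu_le` (Darroch): `(j+1) cf (j+1) = ∑_l y_l ce l j` (`sum_ce`), hence
  `j + 1 = ∑ π_l` with `π_l = y_l ce l j / (ce l (j+1) + y_l ce l j)` (`cf_succ`), and
  `cf_ce_le`, `ce_cf_le` give `cf j / cf (j+1) ≤ ce l j / ce l (j+1) ≤ cf (j+1) / cf (j+2)`;
  `t ↦ y t/(1+yt)` is increasing, `exp (log t) = t`.
  (If `ce l (j+1) = 0` then `π_l = 1`.)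
* `ff_sign_of_dominant`: the terms `R_k = cf_k^r e^{rks}` satisfy
  `R_{j}/R_{j+1} = exp(-(r(s - τ)))`, `R_{j+2}/R_{j+1} = exp(-(r(τ' - s)))`, both `< 1`;
  by log-concavity they increase up to `j+1` and decrease afterwards;
  `alt_inc`, `alt_dec` in `Pool.Agent.H62LR.Small` (compare `kurtz_sign` there).
-/

open Finset Complex Polynomial

namespace Pool.Agent.LExp

variable {n : ℕ} {y : Fin n → ℝ}

theorem mu_le (hy : ∀ l, 0 < y l) {j : ℕ} (hj : j + 1 ≤ n) :
    mu y (Real.log (cf y j / cf y (j + 1))) ≤ j + 1 := by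
  have p0 := cf_pos hy (show j ≤ n by omega)
  have p1 := cf_pos hy hj
  have hs := sum_ce (y := y) j
  have e1 : ((j : ℝ) + 1) = ∑ l, y l * ce y l j / cf y (j + 1) := by
    rw [← Finset.sum_div, hs]
    field_simp
  rw [e1]
  unfold mu
  rw [Real.exp_log (div_pos p0 p1)]
  refine Finset.sum_le_sum fun l _ => ?_
  have hyl := hy l
  have h1 := cf_ce_le hy l j
  have h2 := cf_succ (y := y) l j
  have h3 : 0 < cf y j / cf y (j + 1) := div_pos p0 p1
  rw [div_le_div_iff₀ (by positivity) p1]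
  have h4 : cf y j / cf y (j + 1) * ce y l (j + 1) ≤ ce y l j := by
    rw [div_mul_eq_mul_div, div_le_iff₀ p1]
    linarith
  set ρ := cf y j / cf y (j + 1) with hρ
  rw [h2]
  nlinarith [mul_le_mul_of_nonneg_left h4 hyl.le]

theorem le_mu (hy : ∀ l, 0 < y l) {j : ℕ} (hj : j + 1 ≤ n) :
    j ≤ mu y (Real.log (cf y j / cf y (j + 1))) := by
  have p0 := cf_pos hy (show j ≤ n by omega)
  have p1 := cf_pos hy hj
  have h3 : 0 < cf y j / cf y (j + 1) := div_pos p0 p1
  unfold mu
  rw [Real.exp_log h3]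
  rcases j with _ | i
  · rw [Nat.cast_zero]
    refine Finset.sum_nonneg fun l _ => ?_
    have hyl := hy l
    positivity
  · have hs := sum_ce (y := y) i
    have e1 : (((i + 1 : ℕ) : ℝ)) = ∑ l, y l * ce y l i / cf y (i + 1) := by
      rw [← Finset.sum_div, hs]
      push_cast
      field_simp
    rw [e1]
    refine Finset.sum_le_sum fun l _ => ?_
    have hyl := hy l
    have h1 := ce_cf_le hy l i
    have h2 := cf_succ (y := y) l i
    rw [div_le_div_iff₀ p0 (by positivity)]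
    have h4 : ce y l i ≤ cf y (i + 1) / cf y (i + 1 + 1) * ce y l (i + 1) := by
      rw [div_mul_eq_mul_div, le_div_iff₀ p1]
      exact h1
    set ρ := cf y (i + 1) / cf y (i + 1 + 1) with hρ
    rw [h2]
    nlinarith [mul_le_mul_of_nonneg_left h4 hyl.le]

/-- `τ_j ≤ τ_{j+1}` -/
theorem log_ratio_mono (hy : ∀ l, 0 < y l) {j : ℕ} (hj : j + 2 ≤ n) :
    Real.log (cf y j / cf y (j + 1)) ≤ Real.log (cf y (j + 1) / cf y (j + 2)) := by
  have p0 := cf_pos hy (show j ≤ n by omega)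
  have p1 := cf_pos hy (show j + 1 ≤ n by omega)
  have p2 := cf_pos hy hj
  refine Real.log_le_log (div_pos p0 p1) ?_
  rw [div_le_div_iff₀ p1 p2]
  have := cf_newton hy j
  nlinarith

/-- the sign of an alternating sum of a log-concave sequence with a dominating term -/
private lemma comb_alt_sign {n : ℕ} {T : ℕ → ℝ} (hpos : ∀ k ≤ n, 0 < T k)
    (hlc : ∀ k, k + 2 ≤ n → T k * T (k + 2) ≤ T (k + 1) ^ 2) {k : ℕ} (hk : k + 2 ≤ n)
    (h : T k + T (k + 2) < T (k + 1)) :
    0 < (-1 : ℝ) ^ (k + 1) * ∑ j ∈ range (n + 1), (-1) ^ j * T j := by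
  have hinc : ∀ i, ∀ j, j + i = k → T j ≤ T (j + 1) := by
    intro i
    induction i with
    | zero =>
      intro j hj
      rw [add_zero] at hj
      subst hj
      have := hpos (j + 2) hk
      linarith
    | succ i ih =>
      intro j hj
      have h1 := ih (j + 1) (by omega)
      have h2 := hlc j (by omega)
      have h3 := hpos (j + 1) (by omega)
      have h4 := hpos j (by omega)
      have h5 := hpos (j + 2) (by omega)
      have h6 : T j * T (j + 2) ≤ T (j + 1) * T (j + 2) := by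
        refine h2.trans ?_
        rw [pow_two]
        exact mul_le_mul_of_nonneg_left h1 h3.le
      exact le_of_mul_le_mul_right h6 h5
  have hdec : ∀ i, k + 1 + i + 1 ≤ n → T (k + 1 + i + 1) ≤ T (k + 1 + i) := by
    intro i
    induction i with
    | zero =>
      intro _
      have := hpos k (by omega)
      rw [add_zero, show k + 1 + 1 = k + 2 by ring]
      linarith
    | succ i ih =>
      intro hi
      have h1 := ih (by omega)
      have h2 := hlc (k + 1 + i) (by omega)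
      have h3 := hpos (k + 1 + i + 1) (by omega)
      have h4 := hpos (k + 1 + i) (by omega)
      have h6 : T (k + 1 + i) * T (k + 1 + i + 2) ≤ T (k + 1 + i) * T (k + 1 + i + 1) := by
        refine h2.trans ?_
        rw [pow_two]
        exact mul_le_mul_of_nonneg_right h1 h3.le
      exact le_of_mul_le_mul_left h6 h4
  have hA := H62LR.alt_inc T k (hpos 0 (by omega)).le (fun j hj => hinc (k - j) j (by omega))
  have hB := H62LR.alt_dec T (k + 2) (n - (k + 2)) (by
      rw [show k + 2 + (n - (k + 2)) = n by omega]; exact (hpos n le_rfl).le) (fun j hj hj' => by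
        have := hdec (j - (k + 1)) (by omega)
        rw [show k + 1 + (j - (k + 1)) = j by omega] at this
        exact this)
  rw [show k + 2 + (n - (k + 2)) + 1 = n + 1 by omega] at hB
  have hsum : ∑ j ∈ range (n + 1), (-1 : ℝ) ^ j * T j = ∑ j ∈ range (k + 1), (-1) ^ j * T j +
      ((-1) ^ (k + 1) * T (k + 1) + ∑ j ∈ Finset.Ico (k + 2) (n + 1), (-1) ^ j * T j) := by
    rw [← Finset.sum_range_add_sum_Ico _ (show k + 1 ≤ n + 1 by omega),
      Finset.sum_eq_sum_Ico_succ_bot (show k + 1 < n + 1 by omega)]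
  rw [hsum, mul_add, mul_add]
  have e1 : (-1 : ℝ) ^ (k + 1) * ((-1) ^ (k + 1) * T (k + 1)) = T (k + 1) := by
    rw [← mul_assoc, ← mul_pow]
    norm_num
  have e2 : (-1 : ℝ) ^ (k + 1) = -((-1) ^ k) := by rw [pow_succ]; ring
  have e3 : (-1 : ℝ) ^ (k + 1) = -((-1) ^ (k + 2)) := by rw [pow_succ _ (k + 1)]; ring
  rw [e1]
  have f1 : (-1 : ℝ) ^ (k + 1) * ∑ j ∈ range (k + 1), (-1) ^ j * T j =
      -((-1) ^ k * ∑ j ∈ range (k + 1), (-1) ^ j * T j) := by rw [e2]; ring
  have f2 : (-1 : ℝ) ^ (k + 1) * ∑ j ∈ Finset.Ico (k + 2) (n + 1), (-1) ^ j * T j =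
      -((-1) ^ (k + 2) * ∑ j ∈ Finset.Ico (k + 2) (n + 1), (-1) ^ j * T j) := by
    conv_lhs => rw [e3]
    ring
  rw [f1, f2]
  linarith [hA.2, hB.2]

/-- one dominating term gives the sign -/
theorem ff_sign_of_dominant (hy : ∀ l, 0 < y l) {r s : ℝ} (hr : 0 < r) {j : ℕ} (hj : j + 2 ≤ n)
    (h : Real.exp (-(r * (s - Real.log (cf y j / cf y (j + 1))))) +
      Real.exp (-(r * (Real.log (cf y (j + 1) / cf y (j + 2)) - s))) < 1) :
    0 < (-1) ^ (j + 1) * ff y r s := by
  have hT : ∀ k, k ≤ n → cf y k ^ r * Real.exp (r * k * s) =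
      Real.exp (r * (Real.log (cf y k) + k * s)) := by
    intro k hk
    rw [Real.rpow_def_of_pos (cf_pos hy hk), ← Real.exp_add]
    congr 1
    ring
  have p0 := cf_pos hy (show j ≤ n by omega)
  have p1 := cf_pos hy (show j + 1 ≤ n by omega)
  have p2 := cf_pos hy hj
  unfold ff
  refine comb_alt_sign (T := fun k => cf y k ^ r * Real.exp (r * k * s)) (fun k hk => ?_)
    (fun k hk => ?_) hj ?_
  · exact mul_pos (Real.rpow_pos_of_pos (cf_pos hy hk) r) (Real.exp_pos _)
  · rw [hT k (by omega), hT (k + 1) (by omega), hT (k + 2) hk, ← Real.exp_add, ← Real.exp_nat_mul,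
      Real.exp_le_exp]
    have q0 := cf_pos hy (show k ≤ n by omega)
    have q1 := cf_pos hy (show k + 1 ≤ n by omega)
    have q2 := cf_pos hy hk
    have h1 := Real.log_le_log (mul_pos q0 q2) (cf_newton hy k)
    rw [Real.log_mul q0.ne' q2.ne', Real.log_pow] at h1
    push_cast at h1 ⊢
    nlinarith
  · rw [hT j (by omega), hT (j + 1) (by omega), hT (j + 2) hj]
    rw [Real.log_div p0.ne' p1.ne', Real.log_div p1.ne' p2.ne'] at h
    have h1 := mul_lt_mul_of_pos_right h
      (Real.exp_pos (r * (Real.log (cf y (j + 1)) + ((j + 1 : ℕ) : ℝ) * s)))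
    rw [add_mul, ← Real.exp_add, ← Real.exp_add, one_mul] at h1
    refine lt_of_eq_of_lt ?_ h1
    congr 1
    · congr 1
      push_cast
      ring
    · congr 1
      push_cast
      ring

/-- the terms outside a window `[A, B]`: if `τ_k ≤ 0` for `k < A` and `τ_k ≥ 0` for `k ≥ B`
(`τ_k = log (cf k / cf (k+1))`), then the two outer alternating sums are bounded by their terms next
to the window. -/
theorem outer_sums_le (hy : ∀ l, 0 < y l) {r : ℝ} (hr : 0 < r) {A B : ℕ} (hA : 1 ≤ A) (hAB : A ≤ B)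
    (hB : B + 1 ≤ n)
    (h1 : ∀ k, k + 1 < A → cf y k ≤ cf y (k + 1))
    (h2 : ∀ k, B < k → k + 1 ≤ n → cf y (k + 1) ≤ cf y k) :
    |ff y r 0 - ∑ k ∈ Finset.Icc A B, (-1) ^ k * cf y k ^ r| ≤
      cf y (A - 1) ^ r + cf y (B + 1) ^ r := by
  obtain ⟨a, rfl⟩ : ∃ a, A = a + 1 := ⟨A - 1, by omega⟩
  rw [Nat.add_sub_cancel]
  have hpos : ∀ k, k ≤ n → 0 < cf y k ^ r := fun k hk => Real.rpow_pos_of_pos (cf_pos hy hk) r
  have hff : ff y r 0 = ∑ k ∈ range (n + 1), (-1 : ℝ) ^ k * cf y k ^ r := by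
    unfold ff
    refine Finset.sum_congr rfl fun k _ => ?_
    rw [mul_zero, Real.exp_zero, mul_one]
  have hL := H62LR.alt_inc (fun k => cf y k ^ r) a (hpos 0 (by omega)).le (fun k hk =>
    Real.rpow_le_rpow (cf_pos hy (by omega)).le (h1 k (by omega)) hr.le)
  have hR := H62LR.alt_dec (fun k => cf y k ^ r) (B + 1) (n - (B + 1)) (by
      rw [show B + 1 + (n - (B + 1)) = n by omega]; exact (hpos n le_rfl).le) (fun k hk hk' =>
    Real.rpow_le_rpow (cf_pos hy (by omega)).le (h2 k (by omega) (by omega)) hr.le)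
  rw [show B + 1 + (n - (B + 1)) + 1 = n + 1 by omega] at hR
  have hsum : ff y r 0 - ∑ k ∈ Finset.Icc (a + 1) B, (-1) ^ k * cf y k ^ r =
      ∑ k ∈ range (a + 1), (-1 : ℝ) ^ k * cf y k ^ r +
        ∑ k ∈ Finset.Ico (B + 1) (n + 1), (-1 : ℝ) ^ k * cf y k ^ r := by
    have e1 : Finset.Icc (a + 1) B = Finset.Ico (a + 1) (B + 1) := by
      ext k
      simp only [Finset.mem_Icc, Finset.mem_Ico]
      omega
    rw [hff, e1, ← Finset.sum_range_add_sum_Ico _ (show a + 1 ≤ n + 1 by omega),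
      ← Finset.sum_Ico_consecutive _ (show a + 1 ≤ B + 1 by omega) (show B + 1 ≤ n + 1 by omega)]
    ring
  rw [hsum]
  refine (abs_add_le _ _).trans ?_
  have g : ∀ (m : ℕ) (x c : ℝ), 0 ≤ (-1 : ℝ) ^ m * x → (-1 : ℝ) ^ m * x ≤ c → |x| ≤ c := by
    intro m x c hx hxc
    have : |(-1 : ℝ) ^ m * x| = |x| := by
      rw [abs_mul, abs_pow, abs_neg, abs_one, one_pow, one_mul]
    rw [← this, abs_of_nonneg hx]
    exact hxc
  exact add_le_add (g a _ _ hL.1 hL.2) (g (B + 1) _ _ hR.1 hR.2)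

end Pool.Agent.LExp
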