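import Mathlib
import Pool.Agent.LExp.CombBase

/-!
# Module Newton: quantitative Newton inequality

PAPER PROOF.  Let `S, T` be independent random `(j+1)`-subsets of `Fin n` with weights
`w(S) = ∏_{l ∈ S} y_l` (`cf y k = ∑_{|S| = k} w(S)`, `Finset.prod_one_add` / `coeff_prod_one_add` /
`Finset.prod_add`).  Double counting of triples `(S,T,e)`, `e ∈ T \ S`, against `(S',T',e)`,
`S' = S ∪ e`, `T' = T \ e`, `e ∈ S' \ T'`, gives
`cf j * cf (j+2) = ∑_{S,T} w(S) w(T) D/(D+1)`, `D = |S \ T| = |T \ S|`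
(for `|S'| = j+2`, `|T'| = j`: `∑_{e ∈ S' \ T'} 1/|S' \ T'| = 1`, and `|S' \ T'| = D + 1`).
So `1 - cf j cf (j+2)/cf (j+1)² = E[1/(D+1)] ≥ 1/(1 + E D)` (Cauchy-Schwarz) and
`E D = ∑_l P(l ∈ S) P(l ∉ T) = ∑_l π_l (1 - π_l)`, `π_l = P(l ∈ S) = y_l ce l j / cf (j+1)`
`= Y/(1+Y)` with `Y = y_l τ_l`, `τ_l = ce l j / ce l (j+1)` (if `j + 2 ≤ n`, `ce l (j+1) > 0`), i.e.
`π_l (1 - π_l) = wr (y_l) (log τ_l) ≤ exp |log τ_l - x| * wr (y_l) x` (`wr_shift`), where
`log τ_l, x ∈ [τ, τ']` by `cf_ce_le`, `ce_cf_le`.  Finally `t ↦ t/(1+t)` is increasing.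
Any other proof of the inequality is welcome.
-/

open Finset Complex Polynomial

namespace Pool.Agent.LExp

variable {n : ℕ} {y : Fin n → ℝ}

/-- the weight of a set -/
private noncomputable def nwW (y : Fin n → ℝ) (A : Finset (Fin n)) : ℝ := ∏ l ∈ A, y l

private lemma nw_coeff (s : Finset (Fin n)) (k : ℕ) :
    (∏ l ∈ s, (1 + C (y l) * X) : ℝ[X]).coeff k = ∑ A ∈ s.powersetCard k, nwW y A := by
  rw [Finset.prod_one_add, Polynomial.finsetSum_coeff, Finset.powersetCard_eq_filter,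
    Finset.sum_filter]
  refine sum_congr rfl fun t _ => ?_
  rw [prod_mul_distrib, prod_const, ← map_prod, Polynomial.coeff_C_mul_X_pow]
  by_cases h : t.card = k
  · rw [if_pos h, if_pos h.symm]
    rfl
  · rw [if_neg h, if_neg (Ne.symm h)]

private lemma nw_cf (k : ℕ) : cf y k = ∑ A ∈ (univ : Finset (Fin n)).powersetCard k, nwW y A :=
  nw_coeff _ _

private lemma nw_ce (l : Fin n) (k : ℕ) :
    ce y l k = ∑ A ∈ (univ : Finset (Fin n)).powersetCard k with l ∉ A, nwW y A := by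
  unfold ce
  rw [nw_coeff]
  refine sum_congr ?_ fun _ _ => rfl
  ext A
  simp only [mem_powersetCard, mem_filter, subset_univ, true_and, Finset.subset_erase]
  tauto

private lemma nw_ce' (l : Fin n) (k : ℕ) :
    y l * ce y l k = ∑ A ∈ (univ : Finset (Fin n)).powersetCard (k + 1) with l ∈ A, nwW y A := by
  have h1 := cf_succ (y := y) l k
  rw [nw_ce l (k + 1), nw_cf (k + 1)] at h1
  have h2 := Finset.sum_filter_add_sum_filter_not ((univ : Finset (Fin n)).powersetCard (k + 1))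
    (fun A => l ∈ A) (nwW y)
  linarith

private lemma nw_W (j : ℕ) :
    ∑ l, y l * ce y l j * ce y l (j + 1) =
      ∑ p ∈ (univ : Finset (Fin n)).powersetCard (j + 1) ×ˢ
        (univ : Finset (Fin n)).powersetCard (j + 1),
        nwW y p.1 * nwW y p.2 * ((p.2 \ p.1).card : ℝ) := by
  have h1 : ∀ l, y l * ce y l j * ce y l (j + 1) =
      ∑ p ∈ (univ : Finset (Fin n)).powersetCard (j + 1) ×ˢ
        (univ : Finset (Fin n)).powersetCard (j + 1),
        nwW y p.1 * nwW y p.2 * (if l ∈ p.2 \ p.1 then 1 else 0) := by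
    intro l
    rw [nw_ce', nw_ce, sum_filter, sum_filter, mul_comm, sum_mul_sum, ← sum_product']
    refine sum_congr rfl fun p _ => ?_
    simp only [mem_sdiff]
    by_cases ha : l ∈ p.1 <;> by_cases hb : l ∈ p.2 <;> simp [ha, hb]
  rw [sum_congr rfl fun l _ => h1 l, sum_comm]
  refine sum_congr rfl fun p _ => ?_
  rw [← mul_sum]
  congr 1
  rw [Finset.sum_boole]
  congr 2
  ext l
  simp

private lemma nw_N (j : ℕ) :
    cf y j * cf y (j + 2) =
      ∑ p ∈ (univ : Finset (Fin n)).powersetCard (j + 1) ×ˢ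
        (univ : Finset (Fin n)).powersetCard (j + 1),
        nwW y p.1 * nwW y p.2 * (((p.2 \ p.1).card : ℝ) / (((p.2 \ p.1).card : ℝ) + 1)) := by
  have h1 : cf y j * cf y (j + 2) =
      ∑ q ∈ ((univ : Finset (Fin n)).powersetCard (j + 2) ×ˢ
        (univ : Finset (Fin n)).powersetCard j).sigma (fun p => p.1 \ p.2),
        nwW y q.1.1 * nwW y q.1.2 / ((q.1.1 \ q.1.2).card : ℝ) := by
    rw [sum_sigma, mul_comm, nw_cf, nw_cf, sum_mul_sum, ← sum_product']
    refine sum_congr rfl fun p hp => ?_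
    rw [mem_product, mem_powersetCard, mem_powersetCard] at hp
    simp only
    rw [sum_const, nsmul_eq_mul]
    have hc : 0 < (p.1 \ p.2).card := by
      have := Finset.le_card_sdiff p.2 p.1
      omega
    have hc' : ((p.1 \ p.2).card : ℝ) ≠ 0 := by positivity
    field_simp
  have h2 : ∑ p ∈ (univ : Finset (Fin n)).powersetCard (j + 1) ×ˢ
        (univ : Finset (Fin n)).powersetCard (j + 1),
        nwW y p.1 * nwW y p.2 * (((p.2 \ p.1).card : ℝ) / (((p.2 \ p.1).card : ℝ) + 1)) =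
      ∑ q ∈ ((univ : Finset (Fin n)).powersetCard (j + 1) ×ˢ
        (univ : Finset (Fin n)).powersetCard (j + 1)).sigma (fun p => p.2 \ p.1),
        nwW y q.1.1 * nwW y q.1.2 / (((q.1.1 \ q.1.2).card : ℝ) + 1) := by
    rw [sum_sigma]
    refine sum_congr rfl fun p hp => ?_
    rw [mem_product, mem_powersetCard, mem_powersetCard] at hp
    simp only
    rw [sum_const, nsmul_eq_mul]
    have hc : (p.1 \ p.2).card = (p.2 \ p.1).card :=
      Finset.card_sdiff_comm (hp.1.2.trans hp.2.2.symm)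
    rw [hc]
    ring
  rw [h1, h2]
  refine sum_bij' (fun q _ => ⟨(q.1.1.erase q.2, insert q.2 q.1.2), q.2⟩)
    (fun q _ => ⟨(insert q.2 q.1.1, q.1.2.erase q.2), q.2⟩) ?_ ?_ ?_ ?_ ?_
  · rintro ⟨⟨S, T⟩, e⟩ hq
    simp only [mem_sigma, mem_product, mem_powersetCard, mem_sdiff, subset_univ, true_and] at hq ⊢
    obtain ⟨⟨hS, hT⟩, heS, heT⟩ := hq
    refine ⟨⟨?_, ?_⟩, mem_insert_self _ _, notMem_erase _ _⟩
    · rw [card_erase_of_mem heS, hS]
      rfl
    · rw [card_insert_of_notMem heT, hT]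
  · rintro ⟨⟨S, T⟩, e⟩ hq
    simp only [mem_sigma, mem_product, mem_powersetCard, mem_sdiff, subset_univ, true_and] at hq ⊢
    obtain ⟨⟨hS, hT⟩, heT, heS⟩ := hq
    refine ⟨⟨?_, ?_⟩, mem_insert_self _ _, notMem_erase _ _⟩
    · rw [card_insert_of_notMem heS, hS]
    · rw [card_erase_of_mem heT, hT]
      rfl
  · rintro ⟨⟨S, T⟩, e⟩ hq
    simp only [mem_sigma, mem_product, mem_powersetCard, mem_sdiff, subset_univ, true_and] at hq ⊢
    obtain ⟨⟨hS, hT⟩, heS, heT⟩ := hq
    rw [insert_erase heS, erase_insert heT]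
  · rintro ⟨⟨S, T⟩, e⟩ hq
    simp only [mem_sigma, mem_product, mem_powersetCard, mem_sdiff, subset_univ, true_and] at hq ⊢
    obtain ⟨⟨hS, hT⟩, heT, heS⟩ := hq
    rw [insert_erase heT, erase_insert heS]
  · rintro ⟨⟨S, T⟩, e⟩ hq
    simp only [mem_sigma, mem_product, mem_powersetCard, mem_sdiff, subset_univ, true_and] at hq ⊢
    obtain ⟨⟨hS, hT⟩, heS, heT⟩ := hq
    have hs : S.erase e \ insert e T = (S \ T).erase e := by
      ext a
      simp only [mem_sdiff, mem_erase, mem_insert]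
      tauto
    have hmem : e ∈ S \ T := mem_sdiff.2 ⟨heS, heT⟩
    have hcard : ((S \ T).erase e).card + 1 = (S \ T).card := card_erase_add_one hmem
    have hcard' : ((S.erase e \ insert e T).card : ℝ) + 1 = ((S \ T).card : ℝ) := by
      rw [hs, ← hcard]
      push_cast
      rfl
    rw [hcard']
    congr 1
    unfold nwW
    rw [prod_insert heT, ← mul_prod_erase S y heS]
    ring

private lemma nw_main (hy : ∀ l, 0 < y l) (j : ℕ) :
    (cf y (j + 1) ^ 2) ^ 2 ≤ (cf y (j + 1) ^ 2 - cf y j * cf y (j + 2)) *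
      (cf y (j + 1) ^ 2 + ∑ l, y l * ce y l j * ce y l (j + 1)) := by
  set P := (univ : Finset (Fin n)).powersetCard (j + 1) ×ˢ
        (univ : Finset (Fin n)).powersetCard (j + 1) with hP
  have hw : ∀ A, 0 < nwW y A := fun A => prod_pos fun l _ => hy l
  have hb : cf y (j + 1) ^ 2 = ∑ p ∈ P, nwW y p.1 * nwW y p.2 := by
    rw [sq, nw_cf, sum_mul_sum, ← sum_product']
  have h1 : cf y (j + 1) ^ 2 - cf y j * cf y (j + 2) =
      ∑ p ∈ P, nwW y p.1 * nwW y p.2 / (((p.2 \ p.1).card : ℝ) + 1) := by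
    rw [hb, nw_N, ← sum_sub_distrib]
    refine sum_congr rfl fun p _ => ?_
    have : (((p.2 \ p.1).card : ℝ) + 1) ≠ 0 := by positivity
    field_simp
    ring
  have h2 : cf y (j + 1) ^ 2 + ∑ l, y l * ce y l j * ce y l (j + 1) =
      ∑ p ∈ P, nwW y p.1 * nwW y p.2 * (((p.2 \ p.1).card : ℝ) + 1) := by
    rw [hb, nw_W, ← sum_add_distrib]
    refine sum_congr rfl fun p _ => ?_
    ring
  rw [h1, h2, hb]
  refine Finset.sum_sq_le_sum_mul_sum_of_sq_le_mul P (fun p _ => ?_) (fun p _ => ?_)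
    fun p _ => ?_
  · have := hw p.1
    have := hw p.2
    positivity
  · have := hw p.1
    have := hw p.2
    positivity
  · have : (((p.2 \ p.1).card : ℝ) + 1) ≠ 0 := by positivity
    refine le_of_eq ?_
    field_simp

/-- quantitative Newton inequality: with `τ = log (cf j / cf (j+1))`,
`τ' = log (cf (j+1) / cf (j+2))` and any `x ∈ [τ, τ']` -/
theorem newton_var (hy : ∀ l, 0 < y l) {j : ℕ} (hj : j + 2 ≤ n) {τ τ' x : ℝ}
    (hτ : τ = Real.log (cf y j / cf y (j + 1))) (hτ' : τ' = Real.log (cf y (j + 1) / cf y (j + 2)))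
    (hx : τ ≤ x) (hx' : x ≤ τ') :
    (1 + Real.exp (τ' - τ) * vv y x) * Real.exp (-(τ' - τ)) ≤ Real.exp (τ' - τ) * vv y x := by
  have b0 : 0 < cf y j := cf_pos hy (by omega)
  have b1 : 0 < cf y (j + 1) := cf_pos hy (by omega)
  have b2 : 0 < cf y (j + 2) := cf_pos hy hj
  have hR : Real.exp (τ' - τ) = cf y (j + 1) ^ 2 / (cf y j * cf y (j + 2)) := by
    rw [Real.exp_sub, hτ, hτ', Real.exp_log (div_pos b1 b2), Real.exp_log (div_pos b0 b1)]
    field_simp
  have hRinv : Real.exp (-(τ' - τ)) = cf y j * cf y (j + 2) / cf y (j + 1) ^ 2 := by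
    rw [Real.exp_neg, hR, inv_div]
  have hsum : (∑ l, y l * ce y l j * ce y l (j + 1)) / cf y (j + 1) ^ 2 ≤
      Real.exp (τ' - τ) * vv y x := by
    rw [sum_div, vv_eq, mul_sum]
    refine sum_le_sum fun l _ => ?_
    have c0 : 0 < ce y l j := ce_pos hy l (by omega)
    have c1 : 0 < ce y l (j + 1) := ce_pos hy l (by omega)
    have hs := cf_succ (y := y) l j
    have e1 : y l * ce y l j * ce y l (j + 1) / cf y (j + 1) ^ 2 =
        wr (y l) (x + (Real.log (ce y l j / ce y l (j + 1)) - x)) := by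
      unfold wr
      rw [show x + (Real.log (ce y l j / ce y l (j + 1)) - x) =
        Real.log (ce y l j / ce y l (j + 1)) by ring, Real.exp_log (div_pos c0 c1), hs]
      have : ce y l (j + 1) + y l * ce y l j ≠ 0 := by rw [← hs]; exact b1.ne'
      have h3 : 1 + y l * (ce y l j / ce y l (j + 1)) =
          (ce y l (j + 1) + y l * ce y l j) / ce y l (j + 1) := by
        field_simp
      rw [h3]
      field_simp
    rw [e1]
    refine (wr_shift (hy l) _ _).trans ?_
    refine mul_le_mul_of_nonneg_right ?_ (wr_pos (hy l) _).le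
    refine Real.exp_le_exp.2 ?_
    have g1 : τ ≤ Real.log (ce y l j / ce y l (j + 1)) := by
      rw [hτ]
      refine Real.log_le_log (div_pos b0 b1) ?_
      rw [div_le_div_iff₀ b1 c1]
      have := cf_ce_le hy l j
      linarith
    have g2 : Real.log (ce y l j / ce y l (j + 1)) ≤ τ' := by
      rw [hτ']
      refine Real.log_le_log (div_pos c0 c1) ?_
      rw [div_le_div_iff₀ c1 b2]
      exact ce_cf_le hy l j
    rw [abs_le]
    constructor <;> linarith
  have hm := nw_main hy j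
  set R := Real.exp (τ' - τ) * vv y x with hRdef
  rw [hRinv]
  have hb2 : 0 < cf y (j + 1) ^ 2 := by positivity
  set B := cf y (j + 1) ^ 2 with hB
  set N := cf y j * cf y (j + 2) with hN
  set W := ∑ l, y l * ce y l j * ce y l (j + 1) with hW
  have hW0 : 0 ≤ W := sum_nonneg fun l _ => by
    have c0 : 0 < ce y l j := ce_pos hy l (by omega)
    have c1 : 0 < ce y l (j + 1) := ce_pos hy l (by omega)
    have := hy l
    positivity
  have hWR : W ≤ R * B := (div_le_iff₀ hb2).1 hsum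
  have hBN : 0 ≤ B - N := by
    by_contra hneg
    push Not at hneg
    have : (B - N) * (B + W) < 0 := mul_neg_of_neg_of_pos hneg (by linarith)
    nlinarith [sq_nonneg B]
  have h5 : B ^ 2 ≤ (B - N) * (B + R * B) := hm.trans
    (mul_le_mul_of_nonneg_left (by linarith) hBN)
  have h6 : B ≤ (B - N) * (1 + R) := by
    have : B * B ≤ B * ((B - N) * (1 + R)) := by nlinarith
    exact le_of_mul_le_mul_left this hb2
  rw [mul_div_assoc', div_le_iff₀ hb2]
  nlinarith

end Pool.Agent.LExp
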