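import Mathlib
import Pool.Agent.LExp.Defs

/-!
# Module ThProp: properties of the argument function `Th`

PAPER PROOFS.  `Th y α s = ∑_l arg (1 + y_l e^{s+iα}) = Im LL (s + iα)`.
* derivative `Im UU (s + iα) = ∫_0^α Re VV (s + ib) db ≥ sin α * vv s` (`le_re_VV`; `UU` is real
  at `s`); you may use the mean value theorem for `b ↦ Im UU (s+ib) - sin b * vv s` instead of an
  integral.
* `|Th - α mu| ≤ α³ vv/3`: `Im LL (s+iα) = ∫_0^α Re UU (s+ib) db` and
  `|Re UU (s+ib) - mu s| ≤ ∫_0^b |Im VV (s+ib')| db' ≤ ∫_0^b tan b' * 4/3 vv s db'`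
  (`abs_im_VV_le`, `norm_VV_le`; better `|Im VV| ≤ |sin b| * ‖VV‖`), monotonicity argument in `b` twice.
* limits: each `arg (1 + Y e^{iα})` tends to `0` as `Y → 0` and to `α` as `Y → ∞`.
* `|arg VV (s+iα)| ≤ α`: from `|Im| cos α ≤ sin α Re`, `Re > 0`.
* tilt: `y_l e^{s}` instead of `y_l` shifts all arguments by `s`.
-/

open Finset Complex Polynomial

namespace Pool.Agent.LExp

variable {n : ℕ} {y : Fin n → ℝ}

/-! ### auxiliary -/

private lemma tp_mono {f f' : ℝ → ℝ} {a b : ℝ} (hab : a ≤ b)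
    (h : ∀ x ∈ Set.Icc a b, HasDerivAt f (f' x) x) (h0 : ∀ x ∈ Set.Icc a b, 0 ≤ f' x) :
    f a ≤ f b := by
  have h1 : MonotoneOn f (Set.Icc a b) := by
    apply monotoneOn_of_deriv_nonneg (convex_Icc a b)
    · exact fun x hx => (h x hx).continuousAt.continuousWithinAt
    · exact fun x hx => (h x (interior_subset hx)).differentiableAt.differentiableWithinAt
    · intro x hx
      rw [(h x (interior_subset hx)).deriv]
      exact h0 x (interior_subset hx)
  exact h1 (Set.left_mem_Icc.2 hab) (Set.right_mem_Icc.2 hab) hab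

private lemma tp_vert (s b : ℝ) : HasDerivAt (fun b : ℝ => (s : ℂ) + b * I) I b := by
  have h1 : HasDerivAt (fun b : ℝ => (b : ℂ)) 1 b := Complex.ofRealCLM.hasDerivAt
  have h2 := (h1.mul_const I).const_add (s : ℂ)
  rwa [one_mul] at h2

private lemma tp_hor (a s : ℝ) : HasDerivAt (fun s : ℝ => (s : ℂ) + a * I) 1 s := by
  have h1 : HasDerivAt (fun b : ℝ => (b : ℂ)) 1 s := Complex.ofRealCLM.hasDerivAt
  exact h1.add_const _

private lemma tp_vert_im {f : ℂ → ℂ} {f' : ℂ} {s b : ℝ} (h : HasDerivAt f f' ((s : ℂ) + b * I)) :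
    HasDerivAt (fun b : ℝ => (f ((s : ℂ) + b * I)).im) f'.re b := by
  have h1 := HasDerivAt.scomp b h (tp_vert s b)
  have h2 := Complex.imCLM.hasFDerivAt.comp_hasDerivAt b h1
  have e : Complex.imCLM (I • f') = f'.re := by
    simp [smul_eq_mul]
  rw [e] at h2
  exact h2

private lemma tp_vert_re {f : ℂ → ℂ} {f' : ℂ} {s b : ℝ} (h : HasDerivAt f f' ((s : ℂ) + b * I)) :
    HasDerivAt (fun b : ℝ => (f ((s : ℂ) + b * I)).re) (-f'.im) b := by
  have h1 := HasDerivAt.scomp b h (tp_vert s b)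
  have h2 := Complex.reCLM.hasFDerivAt.comp_hasDerivAt b h1
  have e : Complex.reCLM (I • f') = -f'.im := by
    simp [smul_eq_mul]
  rw [e] at h2
  exact h2

private lemma tp_im (s b : ℝ) : ((s : ℂ) + b * I).im = b := by simp

private lemma tp_re (s b : ℝ) : ((s : ℂ) + b * I).re = s := by simp

private lemma tp_abs {s b : ℝ} (hb : b ∈ Set.Icc (0 : ℝ) 1) : |((s : ℂ) + b * I).im| ≤ 1 := by
  rw [tp_im, abs_of_nonneg hb.1]
  exact hb.2

private lemma tp_zero (s : ℝ) : (s : ℂ) + ((0 : ℝ) : ℂ) * I = (s : ℂ) := by simp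

theorem hasDerivAt_Th (hy : ∀ l, 0 < y l) {α : ℝ} (hα : 0 < α) (hα1 : α ≤ 1) (s : ℝ) :
    HasDerivAt (Th y α) (UU y (s + α * I)).im s := by
  have h := hasDerivAt_LL hy (z := (s : ℂ) + α * I) (tp_abs ⟨hα.le, hα1⟩)
  have h1 := HasDerivAt.scomp s h (tp_hor α s)
  have h2 := Complex.imCLM.hasFDerivAt.comp_hasDerivAt s h1
  have e : Complex.imCLM ((1 : ℂ) • UU y ((s : ℂ) + α * I)) = (UU y ((s : ℂ) + α * I)).im := by
    simp
  rw [e] at h2
  exact h2

private lemma tp_icc {α b : ℝ} (hα1 : α ≤ 1) (hb : b ∈ Set.Icc (0 : ℝ) α) :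
    b ∈ Set.Icc (0 : ℝ) 1 := ⟨hb.1, hb.2.trans hα1⟩

theorem le_im_UU (hy : ∀ l, 0 < y l) {α : ℝ} (hα : 0 < α) (hα1 : α ≤ 1) (s : ℝ) :
    Real.sin α * vv y s ≤ (UU y (s + α * I)).im := by
  have h := tp_mono (f := fun b : ℝ => (UU y ((s : ℂ) + b * I)).im - Real.sin b * vv y s)
    (f' := fun b : ℝ => (VV y ((s : ℂ) + b * I)).re - Real.cos b * vv y s) hα.le
    (fun b hb => (tp_vert_im (hasDerivAt_UU hy (tp_abs (tp_icc hα1 hb)))).sub
      ((Real.hasDerivAt_sin b).mul_const _))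
    (fun b hb => by
      have := le_re_VV hy (z := (s : ℂ) + b * I) (tp_abs (tp_icc hα1 hb))
      rw [tp_im, tp_re] at this
      linarith)
  simp only [tp_zero, UU_ofReal, ofReal_im, Real.sin_zero, zero_mul, sub_zero] at h
  linarith

theorem im_UU_le (hy : ∀ l, 0 < y l) {α : ℝ} (hα : 0 < α) (hα1 : α ≤ 1) (s : ℝ) :
    (UU y (s + α * I)).im ≤ 4 / 3 * α * vv y s := by
  have h := tp_mono (f := fun b : ℝ => 4 / 3 * vv y s * b - (UU y ((s : ℂ) + b * I)).im)
    (f' := fun b : ℝ => 4 / 3 * vv y s * 1 - (VV y ((s : ℂ) + b * I)).re) hα.le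
    (fun b hb => ((hasDerivAt_id' b).const_mul _).sub
      (tp_vert_im (hasDerivAt_UU hy (tp_abs (tp_icc hα1 hb)))))
    (fun b hb => by
      have := norm_VV_le hy (z := (s : ℂ) + b * I) (tp_abs (tp_icc hα1 hb))
      rw [tp_re] at this
      have h2 := Complex.re_le_norm (VV y ((s : ℂ) + b * I))
      linarith)
  simp only [tp_zero, UU_ofReal, ofReal_im, mul_zero, sub_zero] at h
  linarith

private lemma tp_im_VV (hy : ∀ l, 0 < y l) {s b : ℝ} (hb : b ∈ Set.Icc (0 : ℝ) 1) :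
    |(VV y ((s : ℂ) + b * I)).im| ≤ 2 * b * vv y s := by
  have h1 := abs_im_VV_le hy (z := (s : ℂ) + b * I) (tp_abs hb)
  have h2 := norm_VV_le hy (z := (s : ℂ) + b * I) (tp_abs hb)
  rw [tp_im] at h1
  rw [tp_re] at h2
  set W := VV y ((s : ℂ) + b * I)
  have h3 := Real.sin_sq_add_cos_sq b
  have hs0 : 0 ≤ Real.sin b := Real.sin_nonneg_of_nonneg_of_le_pi hb.1
    (hb.2.trans (by linarith [Real.pi_gt_three]))
  have hc0 : 0 ≤ Real.cos b := by
    have := cos_pos_of (t := b) (by rw [abs_of_nonneg hb.1]; exact hb.2)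
    exact this.le
  have hsb : Real.sin b ≤ b := Real.sin_le hb.1
  rw [abs_of_nonneg hs0] at h1
  have h4 : |W.im| ≤ Real.sin b * ‖W‖ := by
    apply le_of_sq_le_sq _ (by positivity)
    have h5 : (|W.im| * Real.cos b) ^ 2 ≤ (Real.sin b * W.re) ^ 2 :=
      pow_le_pow_left₀ (by positivity) h1 2
    have h6 : ‖W‖ ^ 2 = W.re ^ 2 + W.im ^ 2 := by
      rw [← normSq_eq_norm_sq, normSq_apply]; ring
    rw [mul_pow, h6, sq_abs]
    rw [mul_pow, mul_pow, sq_abs] at h5
    nlinarith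
  have h7 := vv_nonneg hy s
  calc |W.im| ≤ Real.sin b * ‖W‖ := h4
    _ ≤ b * (4 / 3 * vv y s) := by
        apply mul_le_mul hsb h2 (norm_nonneg _) hb.1
    _ ≤ 2 * b * vv y s := by
        have := mul_nonneg hb.1 h7
        linarith

private lemma tp_re_UU (hy : ∀ l, 0 < y l) {s a : ℝ} (ha : a ∈ Set.Icc (0 : ℝ) 1) :
    |(UU y ((s : ℂ) + a * I)).re - mu y s| ≤ a ^ 2 * vv y s := by
  rw [abs_le]
  constructor
  · have h := tp_mono (f := fun b : ℝ => b ^ 2 * vv y s + (UU y ((s : ℂ) + b * I)).re)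
      (f' := fun b : ℝ => (2 : ℕ) * b ^ (2 - 1) * vv y s + -(VV y ((s : ℂ) + b * I)).im) ha.1
      (fun b hb => ((hasDerivAt_pow 2 b).mul_const _).add
        (tp_vert_re (hasDerivAt_UU hy (tp_abs (tp_icc ha.2 hb)))))
      (fun b hb => by
        have := (abs_le.1 (tp_im_VV hy (s := s) (tp_icc ha.2 hb))).2
        push_cast
        rw [pow_one]
        linarith)
    simp only [tp_zero, UU_ofReal, ofReal_re] at h
    linarith
  · have h := tp_mono (f := fun b : ℝ => b ^ 2 * vv y s - (UU y ((s : ℂ) + b * I)).re)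
      (f' := fun b : ℝ => (2 : ℕ) * b ^ (2 - 1) * vv y s - -(VV y ((s : ℂ) + b * I)).im) ha.1
      (fun b hb => ((hasDerivAt_pow 2 b).mul_const _).sub
        (tp_vert_re (hasDerivAt_UU hy (tp_abs (tp_icc ha.2 hb)))))
      (fun b hb => by
        have := (abs_le.1 (tp_im_VV hy (s := s) (tp_icc ha.2 hb))).1
        push_cast
        rw [pow_one]
        linarith)
    simp only [tp_zero, UU_ofReal, ofReal_re] at h
    linarith

theorem abs_Th_sub_le (hy : ∀ l, 0 < y l) {α : ℝ} (hα : 0 < α) (hα1 : α ≤ 1) (s : ℝ) :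
    |Th y α s - α * mu y s| ≤ α ^ 3 * vv y s / 3 := by
  have e0 : Th y α s = (LL y ((s : ℂ) + α * I)).im := rfl
  rw [e0, abs_le]
  constructor
  · have h := tp_mono
      (f := fun b : ℝ => b ^ 3 * (vv y s / 3) + ((LL y ((s : ℂ) + b * I)).im - b * mu y s))
      (f' := fun b : ℝ => (3 : ℕ) * b ^ (3 - 1) * (vv y s / 3) +
        ((UU y ((s : ℂ) + b * I)).re - 1 * mu y s)) hα.le
      (fun b hb => ((hasDerivAt_pow 3 b).mul_const _).add
        ((tp_vert_im (hasDerivAt_LL hy (tp_abs (tp_icc hα1 hb)))).sub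
          ((hasDerivAt_id' b).mul_const _)))
      (fun b hb => by
        have := (abs_le.1 (tp_re_UU hy (s := s) (tp_icc hα1 hb))).1
        push_cast
        linarith)
    simp only [tp_zero, LL_ofReal hy, ofReal_im] at h
    linarith
  · have h := tp_mono
      (f := fun b : ℝ => b ^ 3 * (vv y s / 3) - ((LL y ((s : ℂ) + b * I)).im - b * mu y s))
      (f' := fun b : ℝ => (3 : ℕ) * b ^ (3 - 1) * (vv y s / 3) -
        ((UU y ((s : ℂ) + b * I)).re - 1 * mu y s)) hα.le
      (fun b hb => ((hasDerivAt_pow 3 b).mul_const _).sub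
        ((tp_vert_im (hasDerivAt_LL hy (tp_abs (tp_icc hα1 hb)))).sub
          ((hasDerivAt_id' b).mul_const _)))
      (fun b hb => by
        have := (abs_le.1 (tp_re_UU hy (s := s) (tp_icc hα1 hb))).2
        push_cast
        linarith)
    simp only [tp_zero, LL_ofReal hy, ofReal_im] at h
    linarith

theorem tendsto_Th_atBot (hy : ∀ l, 0 < y l) {α : ℝ} (hα : 0 < α) (hα1 : α ≤ 1) :
    Filter.Tendsto (Th y α) Filter.atBot (nhds 0) := by
  have h1 : Filter.Tendsto (fun s : ℝ => cexp ((s : ℂ) + α * I)) Filter.atBot (nhds 0) := by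
    rw [tendsto_zero_iff_norm_tendsto_zero]
    have e : (fun s : ℝ => ‖cexp ((s : ℂ) + α * I)‖) = Real.exp := by
      funext s
      rw [Complex.norm_exp, tp_re]
    rw [e]
    exact Real.tendsto_exp_atBot
  have h2 : Filter.Tendsto (fun s : ℝ => LL y ((s : ℂ) + α * I)) Filter.atBot (nhds 0) := by
    have h3 : Filter.Tendsto (fun s : ℝ => ∑ l, Complex.log (1 + y l * cexp ((s : ℂ) + α * I)))
        Filter.atBot (nhds (∑ l : Fin n, (0 : ℂ))) := by
      apply tendsto_finsetSum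
      intro l _
      have h4 : Filter.Tendsto (fun s : ℝ => 1 + (y l : ℂ) * cexp ((s : ℂ) + α * I))
          Filter.atBot (nhds 1) := by
        have := (h1.const_mul (y l : ℂ)).const_add 1
        simpa using this
      have h5 : ContinuousAt Complex.log 1 := continuousAt_clog (by simp)
      have h6 := h5.tendsto.comp h4
      rw [Complex.log_one] at h6
      exact h6
    rw [Finset.sum_const_zero] at h3
    exact h3
  have h7 := (Complex.continuous_im.tendsto 0).comp h2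
  rw [Complex.zero_im] at h7
  exact h7

theorem tendsto_Th_atTop (hy : ∀ l, 0 < y l) {α : ℝ} (hα : 0 < α) (hα1 : α ≤ 1) :
    Filter.Tendsto (Th y α) Filter.atTop (nhds (n * α)) := by
  have hpi := Real.pi_gt_three
  have e : Th y α = fun s : ℝ => ∑ l, (1 + (y l : ℂ) * cexp ((s : ℂ) + α * I)).arg := by
    funext s
    unfold Th LL
    rw [Complex.im_sum]
    exact Finset.sum_congr rfl fun l _ => Complex.log_im _
  rw [e]
  have e2 : (n : ℝ) * α = ∑ _l : Fin n, α := by simp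
  rw [e2]
  apply tendsto_finsetSum
  intro l _
  have e3 : (fun s : ℝ => (1 + (y l : ℂ) * cexp ((s : ℂ) + α * I)).arg) =
      fun s : ℝ => ((((y l * Real.exp s)⁻¹ : ℝ) : ℂ) + cexp (α * I)).arg := by
    funext s
    have hY : 0 < y l * Real.exp s := mul_pos (hy l) (Real.exp_pos s)
    have e4 : 1 + (y l : ℂ) * cexp ((s : ℂ) + α * I) =
        ((y l * Real.exp s : ℝ) : ℂ) * ((((y l * Real.exp s)⁻¹ : ℝ) : ℂ) + cexp (α * I)) := by
      rw [mul_add, ← ofReal_mul, mul_inv_cancel₀ hY.ne', ofReal_one, Complex.exp_add]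
      push_cast
      ring
    rw [e4, Complex.arg_real_mul _ hY]
  rw [e3]
  have h1 : Filter.Tendsto (fun s : ℝ => (y l * Real.exp s)⁻¹) Filter.atTop (nhds 0) := by
    apply Filter.Tendsto.inv_tendsto_atTop
    exact Real.tendsto_exp_atTop.const_mul_atTop (hy l)
  have h2 : Filter.Tendsto (fun s : ℝ => (((y l * Real.exp s)⁻¹ : ℝ) : ℂ) + cexp (α * I))
      Filter.atTop (nhds (cexp (α * I))) := by
    have h3 := (Complex.continuous_ofReal.tendsto 0).comp h1
    have h4 := h3.add_const (cexp (α * I))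
    rw [ofReal_zero, zero_add] at h4
    exact h4
  have h5 : (cexp (α * I)).arg = α := by
    rw [Complex.arg_exp_mul_I]
    exact (toIocMod_eq_self _).2 ⟨by linarith, by linarith⟩
  have h6 : cexp (α * I) ∈ slitPlane := by
    left
    rw [Complex.exp_ofReal_mul_I_re]
    exact cos_pos_of (by rw [abs_of_pos hα]; exact hα1)
  have h7 := (Complex.continuousAt_arg h6).tendsto.comp h2
  rw [h5] at h7
  exact h7

private lemma tp_vv_pos (hn : 0 < n) (hy : ∀ l, 0 < y l) (s : ℝ) : 0 < vv y s := by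
  rw [vv_eq]
  have : Nonempty (Fin n) := ⟨⟨0, hn⟩⟩
  exact Finset.sum_pos (fun l _ => wr_pos (hy l) s) Finset.univ_nonempty

private lemma tp_sin_pos {α : ℝ} (hα : 0 < α) (hα1 : α ≤ 1) : 0 < Real.sin α :=
  Real.sin_pos_of_pos_of_lt_pi hα (hα1.trans_lt (by linarith [Real.pi_gt_three]))

theorem strictMono_Th (hn : 0 < n) (hy : ∀ l, 0 < y l) {α : ℝ} (hα : 0 < α) (hα1 : α ≤ 1) :
    StrictMono (Th y α) := by
  apply strictMono_of_deriv_pos
  intro s
  rw [(hasDerivAt_Th hy hα hα1 s).deriv]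
  exact lt_of_lt_of_le (mul_pos (tp_sin_pos hα hα1) (tp_vv_pos hn hy s)) (le_im_UU hy hα hα1 s)

/-- every value strictly between `0` and `n α` is attained -/
theorem exists_Th_eq (hy : ∀ l, 0 < y l) {α : ℝ} (hα : 0 < α) (hα1 : α ≤ 1) {t : ℝ}
    (ht : 0 < t) (ht' : t < n * α) : ∃ s : ℝ, Th y α s = t := by
  have hc : Continuous (Th y α) :=
    continuous_iff_continuousAt.2 fun s => (hasDerivAt_Th hy hα hα1 s).continuousAt
  obtain ⟨a, ha⟩ := ((tendsto_Th_atBot hy hα hα1).eventually (gt_mem_nhds ht)).exists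
  obtain ⟨b, hb⟩ := ((tendsto_Th_atTop hy hα hα1).eventually (lt_mem_nhds ht')).exists
  exact mem_range_of_exists_le_of_exists_ge hc ⟨a, ha.le⟩ ⟨b, hb.le⟩

theorem abs_arg_VV_le (hn : 0 < n) (hy : ∀ l, 0 < y l) {α : ℝ} (hα : 0 < α) (hα1 : α ≤ 1) (s : ℝ) :
    |(Complex.log (VV y (s + α * I))).im| ≤ α := by
  have hpi := Real.pi_gt_three
  have hcos : 0 < Real.cos α := cos_pos_of (by rw [abs_of_pos hα]; exact hα1)
  have h1 := abs_im_VV_le hy (z := (s : ℂ) + α * I) (tp_abs ⟨hα.le, hα1⟩)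
  have h2 := le_re_VV hy (z := (s : ℂ) + α * I) (tp_abs ⟨hα.le, hα1⟩)
  rw [tp_im] at h1 h2
  rw [tp_re] at h2
  have hv := tp_vv_pos hn hy s
  rw [Complex.log_im]
  set W := VV y ((s : ℂ) + α * I)
  have hre : 0 < W.re := lt_of_lt_of_le (mul_pos hcos hv) h2
  rw [abs_of_pos (tp_sin_pos hα hα1)] at h1
  have h3 : |W.im| ≤ Real.tan α * W.re := by
    rw [Real.tan_eq_sin_div_cos, div_mul_eq_mul_div, le_div_iff₀ hcos]
    exact h1
  have h4 : Real.tan W.arg = W.im / W.re := Complex.tan_arg W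
  have h5 := Complex.abs_arg_lt_pi_div_two_iff.2 (Or.inl hre)
  rw [abs_lt] at h5
  rw [abs_le] at h3 ⊢
  constructor
  · by_contra hcon
    push Not at hcon
    have h6 := Real.tan_lt_tan_of_lt_of_lt_pi_div_two h5.1 (by linarith) hcon
    rw [h4, Real.tan_neg, div_lt_iff₀ hre] at h6
    linarith [h3.1]
  · by_contra hcon
    push Not at hcon
    have h6 := Real.tan_lt_tan_of_lt_of_lt_pi_div_two (by linarith) h5.2 hcon
    rw [h4, lt_div_iff₀ hre] at h6
    linarith [h3.2]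

/-! ### tilting -/

private lemma tp_factor (c s : ℝ) (z : ℂ) :
    ((c * Real.exp s : ℝ) : ℂ) * cexp z = (c : ℂ) * cexp (s + z) := by
  rw [Complex.exp_add]
  push_cast
  ring

private lemma tp_om (c s : ℝ) (z : ℂ) : om (c * Real.exp s) z = om c (s + z) := by
  unfold om
  rw [tp_factor]

theorem LL_tilt (s : ℝ) (z : ℂ) : LL (fun l => y l * Real.exp s) z = LL y (s + z) := by
  unfold LL
  exact Finset.sum_congr rfl fun l _ => by rw [tp_factor]

theorem UU_tilt (s : ℝ) (z : ℂ) : UU (fun l => y l * Real.exp s) z = UU y (s + z) := by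
  unfold UU
  exact Finset.sum_congr rfl fun l _ => by rw [tp_om]

theorem VV_tilt (s : ℝ) (z : ℂ) : VV (fun l => y l * Real.exp s) z = VV y (s + z) := by
  unfold VV
  exact Finset.sum_congr rfl fun l _ => by rw [tp_om]

private lemma tp_real (c s x : ℝ) : c * Real.exp s * Real.exp x = c * Real.exp (s + x) := by
  rw [Real.exp_add]
  ring

theorem vv_tilt (s x : ℝ) : vv (fun l => y l * Real.exp s) x = vv y (s + x) := by
  unfold vv
  exact Finset.sum_congr rfl fun l _ => by rw [tp_real]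

theorem mu_tilt (s x : ℝ) : mu (fun l => y l * Real.exp s) x = mu y (s + x) := by
  unfold mu
  exact Finset.sum_congr rfl fun l _ => by rw [tp_real]

private lemma tp_Jint (s : ℝ) (z : ℂ) (φ : ℝ) :
    Jint (fun l => y l * Real.exp s) z φ = Jint y (s + z) φ := by
  unfold Jint
  rw [UU_tilt]
  congr 1
  refine Finset.prod_congr rfl fun l _ => ?_
  rw [tp_factor, tp_factor, add_assoc]

private lemma tp_JJ (s : ℝ) (z : ℂ) :
    JJ (fun l => y l * Real.exp s) z = JJ y (s + z) := by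
  unfold JJ
  simp only [tp_Jint]

theorem KK_tilt (s : ℝ) (z : ℂ) : KK (fun l => y l * Real.exp s) z = KK y (s + z) := by
  unfold KK
  rw [tp_JJ, VV_tilt]

theorem cf_tilt (s : ℝ) (k : ℕ) : cf (fun l => y l * Real.exp s) k = cf y k * Real.exp (k * s) := by
  unfold cf
  have e : (∏ l, (1 + C (y l * Real.exp s) * X) : ℝ[X]) =
      (∏ l, (1 + C (y l) * X) : ℝ[X]).comp (C (Real.exp s) * X) := by
    rw [Polynomial.prod_comp]
    refine Finset.prod_congr rfl fun l _ => ?_
    simp only [add_comp, one_comp, mul_comp, C_comp, X_comp, C_mul]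
    ring
  rw [e, Polynomial.comp_C_mul_X_coeff, ← Real.exp_nat_mul]

private lemma tp_coeff_nonneg (hy : ∀ l, 0 < y l) (k : ℕ) : 0 ≤ cf y k := by
  unfold cf
  have key : ∀ T : Finset (Fin n), ∀ k, 0 ≤ (∏ l ∈ T, (1 + C (y l) * X) : ℝ[X]).coeff k := by
    intro T
    induction T using Finset.induction_on with
    | empty =>
      intro k
      rw [Finset.prod_empty, Polynomial.coeff_one]
      split_ifs <;> norm_num
    | insert a T ha ih =>
      intro k
      rw [Finset.prod_insert ha, Polynomial.coeff_mul]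
      refine Finset.sum_nonneg fun p _ => mul_nonneg ?_ (ih _)
      rw [Polynomial.coeff_add, Polynomial.coeff_one, Polynomial.coeff_C_mul, Polynomial.coeff_X]
      have := hy a
      split_ifs <;> (simp [this.le]; try linarith)
  exact key Finset.univ k

theorem ff_tilt (hy : ∀ l, 0 < y l) (s r x : ℝ) :
    ff (fun l => y l * Real.exp s) r x = ff y r (s + x) := by
  unfold ff
  refine Finset.sum_congr rfl fun k _ => ?_
  rw [cf_tilt, Real.mul_rpow (tp_coeff_nonneg hy k) (Real.exp_pos _).le, ← Real.exp_mul,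
    mul_assoc (cf y k ^ r), ← Real.exp_add]
  congr 3
  ring

theorem Th_tilt (s α x : ℝ) : Th (fun l => y l * Real.exp s) α x = Th y α (s + x) := by
  unfold Th
  rw [LL_tilt]
  congr 2
  push_cast
  ring

theorem Ph_tilt (s r x : ℝ) : Ph (fun l => y l * Real.exp s) r x = Ph y r (s + x) := by
  unfold Ph DD
  rw [Th_tilt, VV_tilt, KK_tilt]
  have e : (s : ℂ) + (x + ((Real.pi / r : ℝ) : ℂ) * I) =
      ((s + x : ℝ) : ℂ) + ((Real.pi / r : ℝ) : ℂ) * I := by
    push_cast
    ring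
  rw [e]

end Pool.Agent.LExp
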