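import Mathlib
import Pool.Agent.LExp.Comb
import Pool.Agent.LExp.Newton
import Pool.Agent.LExp.ThProp

/-!
# Module CaseA: small variance, one term dominates

PAPER PROOF.  `α = π/r`, `τ = log (cf j/cf (j+1)) ≤ τ' = log (cf (j+1)/cf (j+2))`, `m = (τ+τ')/2`.
`Th` is continuous, strictly increasing, from `0` to `n α` (`ThProp`), so there are
`s₋ < s₀ < s₊` with `Th s_± = (j+1) α ± α/2`.  For real `s`: `|Th s/α - mu s| ≤ α² vv s / 3`
(`abs_Th_sub_le`), `Th` has derivative `≥ sin α * vv s` (`le_deriv_Th`), `mu' = vv`,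
`vv (s+h) ≤ e^{|h|} vv s`.
Choose `s = m` if `m ∈ [s₋,s₊]`, else the nearer end point.  Let `q₋ = exp(-r(s-τ))`, `q₊ = exp(-r(τ'-s))`;
`ff_sign_of_dominant` needs `q₋ + q₊ < 1`.
1. `s = m`: `q₋ = q₊ = exp(-r(τ'-τ)/2)`.  If `τ' - τ ≥ 2/r` then `2/e < 1`.  Otherwise `τ' - τ < 2/r`.  By
  `mu_le`, `le_mu`: `mu τ ≤ j+1 ≤ mu τ'`, so `|mu m - (j+1)| ≤ (e^{1/r}/r) vv m`, and
  `|mu s₀ - (j+1)| ≤ α² vv s₀/3 ≤ 2/r`.  If `vv m > 0.6 r` then, as `vv` changes by at most `e^{|h|}`,
  `|m - s₀| ≤ 4/r` and `vv m ≤ e^{4/r} vv s₀ ≤ 0.51 r`, contradiction; so `vv m ≤ 0.6 r`.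
  `newton_var` (x = m): with `W = e^{2/r} vv m ≤ 0.61 r`: `exp(-(τ'-τ)) ≤ W/(1+W)`, hence
  `exp(-r(τ'-τ)/2) ≤ exp(-(r/2)/(1+W)) ≤ exp (-0.8) < 1/2`.
2. `m > s₊`, `s = s₊`: `τ' - s₊ ≥ τ' - m = m - τ ≥ s₊ - τ`, so `q₋ + q₊ ≤ 2 exp(-r(s₊-τ))` and it suffices
  `s₊ - τ ≥ 0.75/r` (as `2 exp(-0.75) < 1`).  Suppose not.  `mu τ ≤ j+1`, `mu s₊ ≥ j + 3/2 - α² vv s₊/3`; so
  `1/2 - α² vv s₊/3 ≤ vv s₊ (e^{0.75/r} - 1)`, which forces `vv s₊ ≥ 0.6 r`; then going left from `s₊`
  `Th` decreases by `α/2` within distance `≤ 1/r`, so `s₀ ≥ s₊ - 1/r` and `vv s₀ ≥ 0.6 r e^{-1/r} > r/2`.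
  (For `τ ≥ s₊` use monotonicity of `mu`.)
3. `m < s₋` symmetric.
All this for `r ≥ R` large (e.g. `R = 1000`).
-/

open Finset Complex Polynomial

namespace Pool.Agent.LExp

namespace CaseA

variable {n : ℕ} {y : Fin n → ℝ}

private lemma exp_neg_lt_half {x : ℝ} (h : 3 / 4 ≤ x) : Real.exp (-x) < 1 / 2 := by
  have h1 := Real.quadratic_le_exp_of_nonneg (show (0 : ℝ) ≤ x by linarith)
  have h2 : 2 < Real.exp x := by nlinarith
  rw [Real.exp_neg, inv_lt_comm₀ (Real.exp_pos x) (by norm_num)]
  norm_num
  exact h2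

private lemma mu_cont (hy : ∀ l, 0 < y l) : Continuous (mu y) :=
  continuous_iff_continuousAt.2 fun x => (hasDerivAt_mu hy x).continuousAt

private lemma mu_mono (hy : ∀ l, 0 < y l) : Monotone (mu y) := by
  apply monotone_of_deriv_nonneg
  · exact fun x => (hasDerivAt_mu hy x).differentiableAt
  · intro x
    rw [(hasDerivAt_mu hy x).deriv]
    exact vv_nonneg hy x

/-- `vv x ≤ e^{b-x} vv b` for `x ≤ b` -/
private lemma vv_le_right (hy : ∀ l, 0 < y l) {x b : ℝ} (h : x ≤ b) :
    vv y x ≤ Real.exp (b - x) * vv y b := by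
  have h1 := vv_shift hy b (x - b)
  rw [show b + (x - b) = x by ring, abs_of_nonpos (by linarith),
    show -(x - b) = b - x by ring] at h1
  exact h1

private lemma vv_le_left (hy : ∀ l, 0 < y l) {x b : ℝ} (h : x ≤ b) :
    vv y b ≤ Real.exp (b - x) * vv y x := by
  have h1 := vv_shift hy x (b - x)
  rw [show x + (b - x) = b by ring, abs_of_nonneg (by linarith)] at h1
  exact h1

/-- upper bound, with the value of `vv` at the right end point -/
private lemma mu_sub_le_right (hy : ∀ l, 0 < y l) {a b : ℝ} (hab : a ≤ b) :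
    mu y b - mu y a ≤ vv y b * (Real.exp (b - a) - 1) := by
  have hd : ∀ x, HasDerivAt (fun x => mu y x + vv y b * Real.exp (b - x))
      (vv y x + vv y b * (Real.exp (b - x) * (-1))) x := by
    intro x
    have h1 : HasDerivAt (fun x => b - x) (-1) x := by
      simpa using (hasDerivAt_id x).const_sub b
    exact (hasDerivAt_mu hy x).add ((h1.exp).const_mul _)
  have h2 : AntitoneOn (fun x => mu y x + vv y b * Real.exp (b - x)) (Set.Icc a b) := by
    apply antitoneOn_of_deriv_nonpos (convex_Icc a b)
    · exact fun x _ => (hd x).continuousAt.continuousWithinAt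
    · exact fun x _ => (hd x).differentiableAt.differentiableWithinAt
    · intro x hx
      rw [interior_Icc] at hx
      rw [(hd x).deriv]
      have := vv_le_right hy hx.2.le
      linarith
  have h3 := h2 (Set.left_mem_Icc.2 hab) (Set.right_mem_Icc.2 hab) hab
  beta_reduce at h3
  rw [sub_self, Real.exp_zero] at h3
  linarith

/-- upper bound, with the value of `vv` at the left end point -/
private lemma mu_sub_le_left (hy : ∀ l, 0 < y l) {a b : ℝ} (hab : a ≤ b) :
    mu y b - mu y a ≤ vv y a * (Real.exp (b - a) - 1) := by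
  have hd : ∀ x, HasDerivAt (fun x => mu y x - vv y a * Real.exp (x - a))
      (vv y x - vv y a * (Real.exp (x - a) * 1)) x := by
    intro x
    have h1 : HasDerivAt (fun x => x - a) 1 x := by
      simpa using (hasDerivAt_id x).sub_const a
    exact (hasDerivAt_mu hy x).sub ((h1.exp).const_mul _)
  have h2 : AntitoneOn (fun x => mu y x - vv y a * Real.exp (x - a)) (Set.Icc a b) := by
    apply antitoneOn_of_deriv_nonpos (convex_Icc a b)
    · exact fun x _ => (hd x).continuousAt.continuousWithinAt
    · exact fun x _ => (hd x).differentiableAt.differentiableWithinAt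
    · intro x hx
      rw [interior_Icc] at hx
      rw [(hd x).deriv]
      have := vv_le_left hy hx.1.le
      linarith
  have h3 := h2 (Set.left_mem_Icc.2 hab) (Set.right_mem_Icc.2 hab) hab
  beta_reduce at h3
  rw [sub_self, Real.exp_zero] at h3
  linarith

/-- lower bound, with the value of `vv` at the right end point -/
private lemma le_mu_sub_right (hy : ∀ l, 0 < y l) {a b : ℝ} (hab : a ≤ b) :
    vv y b * (1 - Real.exp (-(b - a))) ≤ mu y b - mu y a := by
  have hd : ∀ x, HasDerivAt (fun x => mu y x - vv y b * Real.exp (x - b))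
      (vv y x - vv y b * (Real.exp (x - b) * 1)) x := by
    intro x
    have h1 : HasDerivAt (fun x => x - b) 1 x := by
      simpa using (hasDerivAt_id x).sub_const b
    exact (hasDerivAt_mu hy x).sub ((h1.exp).const_mul _)
  have h2 : MonotoneOn (fun x => mu y x - vv y b * Real.exp (x - b)) (Set.Icc a b) := by
    apply monotoneOn_of_deriv_nonneg (convex_Icc a b)
    · exact fun x _ => (hd x).continuousAt.continuousWithinAt
    · exact fun x _ => (hd x).differentiableAt.differentiableWithinAt
    · intro x hx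
      rw [interior_Icc] at hx
      rw [(hd x).deriv]
      have h4 := vv_le_left hy hx.2.le
      have h5 : Real.exp (x - b) * Real.exp (b - x) = 1 := by
        rw [← Real.exp_add]; simp
      have h6 := mul_le_mul_of_nonneg_left h4 (Real.exp_pos (x - b)).le
      rw [← mul_assoc, h5, one_mul] at h6
      linarith
  have h3 := h2 (Set.left_mem_Icc.2 hab) (Set.right_mem_Icc.2 hab) hab
  beta_reduce at h3
  rw [sub_self, Real.exp_zero] at h3
  rw [show -(b - a) = a - b by ring]
  linarith

/-- lower bound, with the value of `vv` at the left end point -/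
private lemma le_mu_sub_left (hy : ∀ l, 0 < y l) {a b : ℝ} (hab : a ≤ b) :
    vv y a * (1 - Real.exp (-(b - a))) ≤ mu y b - mu y a := by
  have hd : ∀ x, HasDerivAt (fun x => mu y x + vv y a * Real.exp (a - x))
      (vv y x + vv y a * (Real.exp (a - x) * (-1))) x := by
    intro x
    have h1 : HasDerivAt (fun x => a - x) (-1) x := by
      simpa using (hasDerivAt_id x).const_sub a
    exact (hasDerivAt_mu hy x).add ((h1.exp).const_mul _)
  have h2 : MonotoneOn (fun x => mu y x + vv y a * Real.exp (a - x)) (Set.Icc a b) := by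
    apply monotoneOn_of_deriv_nonneg (convex_Icc a b)
    · exact fun x _ => (hd x).continuousAt.continuousWithinAt
    · exact fun x _ => (hd x).differentiableAt.differentiableWithinAt
    · intro x hx
      rw [interior_Icc] at hx
      rw [(hd x).deriv]
      have h4 := vv_le_right hy hx.1.le
      have h5 : Real.exp (a - x) * Real.exp (x - a) = 1 := by
        rw [← Real.exp_add]; simp
      have h6 := mul_le_mul_of_nonneg_left h4 (Real.exp_pos (a - x)).le
      rw [← mul_assoc, h5, one_mul] at h6
      linarith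
  have h3 := h2 (Set.left_mem_Icc.2 hab) (Set.right_mem_Icc.2 hab) hab
  beta_reduce at h3
  rw [sub_self, Real.exp_zero] at h3
  rw [show -(b - a) = a - b by ring]
  linarith

/-- `Th` increases at least `sin α` times as fast as `mu` -/
private lemma sin_mul_le (hy : ∀ l, 0 < y l) {α : ℝ} (hα : 0 < α) (hα1 : α ≤ 1) {a b : ℝ}
    (hab : a ≤ b) : Real.sin α * (mu y b - mu y a) ≤ Th y α b - Th y α a := by
  have hd : ∀ x : ℝ, HasDerivAt (fun x : ℝ => Th y α x - Real.sin α * mu y x)
      ((UU y ((x : ℂ) + α * I)).im - Real.sin α * vv y x) x := fun x =>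
    (hasDerivAt_Th hy hα hα1 x).sub ((hasDerivAt_mu hy x).const_mul _)
  have h2 : Monotone (fun x => Th y α x - Real.sin α * mu y x) := by
    apply monotone_of_deriv_nonneg
    · exact fun x => (hd x).differentiableAt
    · intro x
      rw [(hd x).deriv]
      have := le_im_UU hy hα hα1 x
      linarith
  have h3 := h2 hab
  beta_reduce at h3
  linarith

/-- elementary estimates for `r ≥ 1000` -/
private lemma basic_r {r : ℝ} (hr : 1000 ≤ r) :
    0 < Real.pi / r ∧ Real.pi / r ≤ 1 ∧ (Real.pi / r) ^ 2 ≤ 10 / r ^ 2 ∧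
      99 / 100 * (Real.pi / r) ≤ Real.sin (Real.pi / r) ∧
      Real.exp (1 / r) ≤ 1 + 1 / r + (1 / r) ^ 2 ∧
      Real.exp (2 / r) ≤ 1 + 2 / r + (2 / r) ^ 2 ∧
      Real.exp (3 / 4 / r) ≤ 1 + 3 / 4 / r + (3 / 4 / r) ^ 2 := by
  have hr0 : 0 < r := by linarith
  have hpi := Real.pi_gt_three
  have hpi2 : Real.pi < 3.15 := Real.pi_lt_d2
  have hα : 0 < Real.pi / r := by positivity
  have hα1 : Real.pi / r ≤ 1 / 100 := by
    rw [div_le_div_iff₀ hr0 (by norm_num)]
    linarith
  have hexp : ∀ x : ℝ, 0 ≤ x → x ≤ 1 → Real.exp x ≤ 1 + x + x ^ 2 := by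
    intro x h0 h1
    have := (abs_le.1 (Real.abs_exp_sub_one_sub_id_le (x := x) (by rw [abs_of_nonneg h0]; exact h1))).2
    linarith
  refine ⟨hα, by linarith, ?_, ?_, ?_, ?_, ?_⟩
  · rw [div_pow, div_le_div_iff_of_pos_right (by positivity)]
    nlinarith
  · have := Real.sin_gt_sub_cube hα
    have h2 : (Real.pi / r) ^ 3 ≤ (Real.pi / r) * (1 / 100) ^ 2 := by
      rw [pow_succ, pow_two]
      have h3 : Real.pi / r * (Real.pi / r) ≤ (1 / 100) ^ 2 := by nlinarith
      nlinarith
    linarith
  · exact hexp _ (by positivity) (by rw [div_le_iff₀ hr0]; linarith)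
  · exact hexp _ (by positivity) (by rw [div_le_iff₀ hr0]; linarith)
  · exact hexp _ (by positivity) (by rw [div_le_iff₀ hr0]; linarith)

end CaseA

open CaseA in
/-- explicit form -/
theorem caseA' (r : ℝ) (hr : 1000 ≤ r) (n : ℕ) (y : Fin n → ℝ) (hy : ∀ l, 0 < y l)
    (j : ℕ) (hj : j + 2 ≤ n) (s₀ : ℝ) (hs₀ : Th y (Real.pi / r) s₀ = (j + 1) * (Real.pi / r))
    (hv₀ : vv y s₀ ≤ r / 2) :
    ∃ s : ℝ, |Th y (Real.pi / r) s - (j + 1) * (Real.pi / r)| ≤ Real.pi / r / 2 ∧
      0 < (-1) ^ (j + 1) * ff y r s := by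
  have hr0 : 0 < r := by linarith
  obtain ⟨hα, hα1, hα2, hsin, he1, he2, he3⟩ := basic_r hr
  set α := Real.pi / r with hαdef
  set τ := Real.log (cf y j / cf y (j + 1)) with hτdef
  set τ' := Real.log (cf y (j + 1) / cf y (j + 2)) with hτ'def
  have hττ' : τ ≤ τ' := log_ratio_mono hy hj
  have hmuτ : mu y τ ≤ j + 1 := mu_le hy (by omega)
  have hmuτ' : (j : ℝ) + 1 ≤ mu y τ' := by
    have := le_mu hy (j := j + 1) (by omega)
    push_cast at this
    exact this
  have hn : 0 < n := by omega
  have hnr : ((j : ℝ) + 2) ≤ n := by exact_mod_cast hj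
  have hmono := strictMono_Th hn hy hα hα1
  obtain ⟨sp, hsp⟩ := exists_Th_eq hy hα hα1 (t := ((j : ℝ) + 3 / 2) * α) (by positivity)
    (mul_lt_mul_of_pos_right (by linarith) hα)
  obtain ⟨sm, hsm⟩ := exists_Th_eq hy hα hα1 (t := ((j : ℝ) + 1 / 2) * α) (by positivity)
    (mul_lt_mul_of_pos_right (by linarith) hα)
  have hm0 : sm < s₀ := by
    rw [← hmono.lt_iff_lt, hsm, hs₀]
    exact mul_lt_mul_of_pos_right (by linarith) hα
  have h0p : s₀ < sp := by
    rw [← hmono.lt_iff_lt, hsp, hs₀]
    exact mul_lt_mul_of_pos_right (by linarith) hα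
  have hrinv : 1 / r ≤ 1 / 1000 := one_div_le_one_div_of_le (by norm_num) hr
  have hrinv0 : 0 < 1 / r := by positivity
  have hVr : ∀ s, α ^ 2 * vv y s ≤ 10 / r ^ 2 * vv y s := fun s =>
    mul_le_mul_of_nonneg_right hα2 (vv_nonneg hy s)
  -- comparison of `Th` and `mu`
  have hTm : ∀ s c : ℝ, Th y α s = c * α → |mu y s - c| ≤ 10 / (3 * r ^ 2) * vv y s := by
    intro s c hc
    have h1 := abs_Th_sub_le hy hα hα1 s
    rw [hc, show c * α - α * mu y s = -(α * (mu y s - c)) by ring, abs_neg, abs_mul,
      abs_of_pos hα] at h1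
    have h2 : α * |mu y s - c| ≤ α * (α ^ 2 * vv y s / 3) := by
      calc α * |mu y s - c| ≤ α ^ 3 * vv y s / 3 := h1
        _ = _ := by ring
    have h3 := le_of_mul_le_mul_left h2 hα
    calc |mu y s - c| ≤ α ^ 2 * vv y s / 3 := h3
      _ ≤ (10 / r ^ 2 * vv y s) / 3 := by linarith [hVr s]
      _ = _ := by field_simp
  have hr2 : 10 / (3 * r ^ 2) = 10 / 3 * (1 / r) * (1 / r) := by field_simp
  have hrr : r * (1 / r) = 1 := by field_simp
  by_cases hc2 : sp < (τ + τ') / 2
  · -- right of the interval
    refine ⟨sp, ?_, ?_⟩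
    · rw [hsp, show ((j : ℝ) + 3 / 2) * α - (j + 1) * α = α / 2 by ring, abs_of_pos (by positivity)]
    · apply ff_sign_of_dominant hy hr0 hj
      rw [← hτdef, ← hτ'def]
      have key : 3 / 4 ≤ r * (sp - τ) := by
        by_contra hcon
        push Not at hcon
        set V := vv y sp with hV
        have hV0 : 0 ≤ V := vv_nonneg hy sp
        have h1 : sp - τ ≤ 3 / 4 / r := by
          rw [le_div_iff₀ hr0]
          linarith
        have h2 := abs_le.1 (hTm sp _ hsp)
        have h3 : mu y sp - mu y τ ≤ V * (Real.exp (3 / 4 / r) - 1) := by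
          rcases le_total τ sp with h | h
          · refine (mu_sub_le_right hy h).trans ?_
            refine mul_le_mul_of_nonneg_left ?_ hV0
            have := Real.exp_le_exp.2 h1
            linarith
          · have h4 := mu_mono hy h
            have h5 : 1 ≤ Real.exp (3 / 4 / r) := Real.one_le_exp (by positivity)
            have h6 : 0 ≤ V * (Real.exp (3 / 4 / r) - 1) := mul_nonneg hV0 (by linarith)
            linarith
        have h4 : V * (Real.exp (3 / 4 / r) - 1) ≤ V * (3 / 4 / r + (3 / 4 / r) ^ 2) :=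
          mul_le_mul_of_nonneg_left (by linarith) hV0
        have h5 : 1 / 2 ≤ V * (3 / 4 / r + (3 / 4 / r) ^ 2) + 10 / (3 * r ^ 2) * V := by
          linarith [h2.1]
        have h6 : V * (3 / 4 / r + (3 / 4 / r) ^ 2) + 10 / (3 * r ^ 2) * V ≤
            V * (1 / r) * (76 / 100) := by
          have e : V * (3 / 4 / r + (3 / 4 / r) ^ 2) + 10 / (3 * r ^ 2) * V =
            V * (1 / r) * (3 / 4 + 9 / 16 * (1 / r) + 10 / 3 * (1 / r)) := by
            field_simp
            ring
          rw [e]
          refine mul_le_mul_of_nonneg_left (by linarith) (by positivity)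
        have h7 : 65 / 100 * r ≤ V := by
          have h8 : 1 / 2 ≤ V * (1 / r) * (76 / 100) := h5.trans h6
          have h9 := mul_le_mul_of_nonneg_left h8 hr0.le
          have h10 : r * (V * (1 / r) * (76 / 100)) = V * (76 / 100) := by
            field_simp
          rw [h10] at h9
          linarith
        have h8 := sin_mul_le hy hα hα1 h0p.le
        have h9 := le_mu_sub_right hy h0p.le
        rw [hsp, hs₀, show ((j : ℝ) + 3 / 2) * α - (j + 1) * α = α / 2 by ring] at h8
        have h10 : 99 / 100 * α * (mu y sp - mu y s₀) ≤ α / 2 := by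
          refine le_trans ?_ h8
          refine mul_le_mul_of_nonneg_right hsin ?_
          linarith [mu_mono hy h0p.le]
        have h11 : mu y sp - mu y s₀ ≤ 51 / 100 := by
          have : α * (99 / 100 * (mu y sp - mu y s₀)) ≤ α * (1 / 2) := by linarith
          have := le_of_mul_le_mul_left this hα
          linarith
        have h12 := vv_le_left hy h0p.le
        have h13 : Real.exp (-(sp - s₀)) * Real.exp (sp - s₀) = 1 := by
          rw [← Real.exp_add]; simp
        have h14 := mul_le_mul_of_nonneg_left h12 (Real.exp_pos (-(sp - s₀))).le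
        rw [← mul_assoc, h13, one_mul] at h14
        rw [← hV] at h9 h14
        linarith
      have hA : Real.exp (-(r * (sp - τ))) < 1 / 2 := exp_neg_lt_half key
      have hB : Real.exp (-(r * (τ' - sp))) < 1 / 2 := by
        refine exp_neg_lt_half (key.trans ?_)
        exact mul_le_mul_of_nonneg_left (by linarith) hr0.le
      linarith
  by_cases hc3 : (τ + τ') / 2 < sm
  · -- left of the interval
    refine ⟨sm, ?_, ?_⟩
    · rw [hsm, show ((j : ℝ) + 1 / 2) * α - (j + 1) * α = -(α / 2) by ring, abs_neg,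
        abs_of_pos (by positivity)]
    · apply ff_sign_of_dominant hy hr0 hj
      rw [← hτdef, ← hτ'def]
      have key : 3 / 4 ≤ r * (τ' - sm) := by
        by_contra hcon
        push Not at hcon
        set V := vv y sm with hV
        have hV0 : 0 ≤ V := vv_nonneg hy sm
        have h1 : τ' - sm ≤ 3 / 4 / r := by
          rw [le_div_iff₀ hr0]
          linarith
        have h2 := abs_le.1 (hTm sm _ hsm)
        have h3 : mu y τ' - mu y sm ≤ V * (Real.exp (3 / 4 / r) - 1) := by
          rcases le_total sm τ' with h | h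
          · refine (mu_sub_le_left hy h).trans ?_
            refine mul_le_mul_of_nonneg_left ?_ hV0
            have := Real.exp_le_exp.2 h1
            linarith
          · have h4 := mu_mono hy h
            have h5 : 1 ≤ Real.exp (3 / 4 / r) := Real.one_le_exp (by positivity)
            have h6 : 0 ≤ V * (Real.exp (3 / 4 / r) - 1) := mul_nonneg hV0 (by linarith)
            linarith
        have h4 : V * (Real.exp (3 / 4 / r) - 1) ≤ V * (3 / 4 / r + (3 / 4 / r) ^ 2) :=
          mul_le_mul_of_nonneg_left (by linarith) hV0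
        have h5 : 1 / 2 ≤ V * (3 / 4 / r + (3 / 4 / r) ^ 2) + 10 / (3 * r ^ 2) * V := by
          linarith [h2.2]
        have h6 : V * (3 / 4 / r + (3 / 4 / r) ^ 2) + 10 / (3 * r ^ 2) * V ≤
            V * (1 / r) * (76 / 100) := by
          have e : V * (3 / 4 / r + (3 / 4 / r) ^ 2) + 10 / (3 * r ^ 2) * V =
            V * (1 / r) * (3 / 4 + 9 / 16 * (1 / r) + 10 / 3 * (1 / r)) := by
            field_simp
            ring
          rw [e]
          refine mul_le_mul_of_nonneg_left (by linarith) (by positivity)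
        have h7 : 65 / 100 * r ≤ V := by
          have h8 : 1 / 2 ≤ V * (1 / r) * (76 / 100) := h5.trans h6
          have h9 := mul_le_mul_of_nonneg_left h8 hr0.le
          have h10 : r * (V * (1 / r) * (76 / 100)) = V * (76 / 100) := by
            field_simp
          rw [h10] at h9
          linarith
        have h8 := sin_mul_le hy hα hα1 hm0.le
        have h9 := le_mu_sub_left hy hm0.le
        rw [hsm, hs₀, show ((j : ℝ) + 1) * α - (j + 1 / 2) * α = α / 2 by ring] at h8
        have h10 : 99 / 100 * α * (mu y s₀ - mu y sm) ≤ α / 2 := by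
          refine le_trans ?_ h8
          refine mul_le_mul_of_nonneg_right hsin ?_
          linarith [mu_mono hy hm0.le]
        have h11 : mu y s₀ - mu y sm ≤ 51 / 100 := by
          have : α * (99 / 100 * (mu y s₀ - mu y sm)) ≤ α * (1 / 2) := by linarith
          have := le_of_mul_le_mul_left this hα
          linarith
        have h12 := vv_le_right hy hm0.le
        have h13 : Real.exp (-(s₀ - sm)) * Real.exp (s₀ - sm) = 1 := by
          rw [← Real.exp_add]; simp
        have h14 := mul_le_mul_of_nonneg_left h12 (Real.exp_pos (-(s₀ - sm))).le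
        rw [← mul_assoc, h13, one_mul] at h14
        rw [← hV] at h9 h14
        linarith
      have hA : Real.exp (-(r * (τ' - sm))) < 1 / 2 := exp_neg_lt_half key
      have hB : Real.exp (-(r * (sm - τ))) < 1 / 2 := by
        refine exp_neg_lt_half (key.trans ?_)
        exact mul_le_mul_of_nonneg_left (by linarith) hr0.le
      linarith
  -- the middle point
  push Not at hc2 hc3
  set m := (τ + τ') / 2 with hm
  refine ⟨m, ?_, ?_⟩
  · have h1 := hmono.monotone hc2
    have h2 := hmono.monotone hc3
    rw [hsp] at h1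
    rw [hsm] at h2
    rw [abs_le]
    constructor
    · linarith
    · linarith
  · apply ff_sign_of_dominant hy hr0 hj
    rw [← hτdef, ← hτ'def]
    have key : 3 / 4 ≤ r * ((τ' - τ) / 2) := by
      by_cases hbig : 2 / r ≤ τ' - τ
      · have := mul_le_mul_of_nonneg_left hbig hr0.le
        have e : r * (2 / r) = 2 := by field_simp
        rw [e] at this
        linarith
      push Not at hbig
      set V := vv y m with hV
      have hV0 : 0 ≤ V := vv_nonneg hy m
      have hV₀0 : 0 ≤ vv y s₀ := vv_nonneg hy s₀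
      have hτm : τ ≤ m := by rw [hm]; linarith
      have hmτ' : m ≤ τ' := by rw [hm]; linarith
      have hd1 : m - τ ≤ 1 / r := by
        have : (2 : ℝ) / r = 2 * (1 / r) := by ring
        rw [hm]; linarith
      have hd2 : τ' - m ≤ 1 / r := by
        have : (2 : ℝ) / r = 2 * (1 / r) := by ring
        rw [hm]; linarith
      have hu : mu y m - (j + 1) ≤ V * (1 / r + (1 / r) ^ 2) := by
        have h1 := mu_sub_le_right hy hτm
        have h2 := Real.exp_le_exp.2 hd1
        have h3 : V * (Real.exp (m - τ) - 1) ≤ V * (1 / r + (1 / r) ^ 2) :=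
          mul_le_mul_of_nonneg_left (by linarith) hV0
        linarith
      have hl : (j + 1 : ℝ) - mu y m ≤ V * (1 / r + (1 / r) ^ 2) := by
        have h1 := mu_sub_le_left hy hmτ'
        have h2 := Real.exp_le_exp.2 hd2
        have h3 : V * (Real.exp (τ' - m) - 1) ≤ V * (1 / r + (1 / r) ^ 2) :=
          mul_le_mul_of_nonneg_left (by linarith) hV0
        linarith
      have h₀ := abs_le.1 (hTm s₀ _ hs₀)
      have h₀' : 10 / (3 * r ^ 2) * vv y s₀ ≤ 2 / r := by
        have h1 : 10 / (3 * r ^ 2) * vv y s₀ ≤ 10 / (3 * r ^ 2) * (r / 2) :=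
          mul_le_mul_of_nonneg_left hv₀ (by positivity)
        refine h1.trans ?_
        have e : 10 / (3 * r ^ 2) * (r / 2) = 5 / 3 * (1 / r) := by
          field_simp
          norm_num
        have e2 : (2 : ℝ) / r = 2 * (1 / r) := by ring
        rw [e, e2]
        exact mul_le_mul_of_nonneg_right (by norm_num) hrinv0.le
      have hV6 : V ≤ 6 / 10 * r := by
        by_contra hcon
        push Not at hcon
        -- lower bound for the difference of `mu`
        have h5 : V - vv y s₀ ≤ |mu y m - mu y s₀| := by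
          rcases le_total s₀ m with h | h
          · have h1 := le_mu_sub_right hy h
            have h2 := vv_le_left hy h
            have h13 : Real.exp (-(m - s₀)) * Real.exp (m - s₀) = 1 := by
              rw [← Real.exp_add]; simp
            have h14 := mul_le_mul_of_nonneg_left h2 (Real.exp_pos (-(m - s₀))).le
            rw [← mul_assoc, h13, one_mul] at h14
            rw [← hV] at h1 h14
            have := le_abs_self (mu y m - mu y s₀)
            linarith
          · have h1 := le_mu_sub_left hy h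
            have h2 := vv_le_right hy h
            have h13 : Real.exp (-(s₀ - m)) * Real.exp (s₀ - m) = 1 := by
              rw [← Real.exp_add]; simp
            have h14 := mul_le_mul_of_nonneg_left h2 (Real.exp_pos (-(s₀ - m))).le
            rw [← mul_assoc, h13, one_mul] at h14
            rw [← hV] at h1 h14
            have := neg_abs_le (mu y m - mu y s₀)
            linarith
        have h6 : |mu y m - mu y s₀| ≤ V * (1 / r + (1 / r) ^ 2) + 2 / r := by
          rw [abs_le]
          constructor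
          · linarith [h₀.1, h₀.2]
          · linarith [h₀.1, h₀.2]
        have h7 : V * (1 / r + (1 / r) ^ 2) ≤ V * (2 / 1000) := by
          refine mul_le_mul_of_nonneg_left ?_ hV0
          nlinarith
        have h8 : (2 : ℝ) / r ≤ 2 / 1000 := by
          have : (2 : ℝ) / r = 2 * (1 / r) := by ring
          rw [this]; linarith
        linarith
      have hN := newton_var hy hj hτdef hτ'def hτm hmτ'
      rw [← hV] at hN
      set W := Real.exp (τ' - τ) * V with hW
      have hW0 : 0 ≤ W := by positivity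
      have hWle : W ≤ 61 / 100 * r := by
        have h1 : Real.exp (τ' - τ) ≤ Real.exp (2 / r) := Real.exp_le_exp.2 hbig.le
        have h2 : Real.exp (τ' - τ) ≤ 101 / 100 := by
          have e2 : (2 : ℝ) / r = 2 * (1 / r) := by ring
          rw [e2] at he2 h1
          nlinarith
        calc W ≤ 101 / 100 * (6 / 10 * r) := mul_le_mul h2 hV6 hV0 (by norm_num)
          _ ≤ 61 / 100 * r := by linarith
      have h1W : 0 < 1 + W := by linarith
      have h3 : Real.exp (-(τ' - τ)) ≤ Real.exp (-(1 / (1 + W))) := by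
        have h4 : Real.exp (-(τ' - τ)) ≤ W / (1 + W) := by
          rw [le_div_iff₀ h1W]
          linarith
        have h5 : W / (1 + W) = 1 - 1 / (1 + W) := by field_simp; ring
        have h6 := Real.add_one_le_exp (-(1 / (1 + W)))
        linarith
      have h4 : 1 / (1 + W) ≤ τ' - τ := by
        have := Real.exp_le_exp.1 h3
        linarith
      have h5 : 1 / (62 / 100 * r) ≤ 1 / (1 + W) :=
        one_div_le_one_div_of_le h1W (by linarith)
      have h6 : 1 / (62 / 100 * r) ≤ τ' - τ := h5.trans h4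
      have h7 := mul_le_mul_of_nonneg_left h6 hr0.le
      have h8 : r * (1 / (62 / 100 * r)) = 100 / 62 := by field_simp
      rw [h8] at h7
      linarith
    have hA := exp_neg_lt_half key
    have e1 : m - τ = (τ' - τ) / 2 := by rw [hm]; ring
    have e2 : τ' - m = (τ' - τ) / 2 := by rw [hm]; ring
    rw [e1, e2]
    linarith

theorem caseA : ∃ R : ℝ, ∀ r : ℝ, R ≤ r → ∀ (n : ℕ) (y : Fin n → ℝ), (∀ l, 0 < y l) →
    ∀ j : ℕ, j + 2 ≤ n → ∀ s₀ : ℝ, Th y (Real.pi / r) s₀ = (j + 1) * (Real.pi / r) →
    vv y s₀ ≤ r / 2 →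
    ∃ s : ℝ, |Th y (Real.pi / r) s - (j + 1) * (Real.pi / r)| ≤ Real.pi / r / 2 ∧
      0 < (-1) ^ (j + 1) * ff y r s := ⟨1000, caseA'⟩

end Pool.Agent.LExp
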