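import Mathlib
import Pool.Agent.LExp.Defs

/-!
# Module Contour: the alternating sum as a contour integral

PAPER PROOF.  `U` is injective on the open rectangle `(a',b') × (-h',h')` (convex, `Re U' > 0`), real on
the real axis, strictly increasing there, and `Im U(x + it)` has the sign of `t` (`Im U(x+it) =
∫_0^t Re U'`).  So for each integer `m` between `U a` and `U b` there is exactly one `ζ m` in
`(a,b)` with `U (ζ m) = m`, and `U z = m` has no other solution in the closed rectangle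
`[a,b] × [-h,h]`; for the other integers `U z ≠ m` on the closed rectangle.

(1) For an integer `m` outside, `rectInt (H U' / (U - m)) = 0` by
`Complex.integral_boundary_rect_eq_zero_of_differentiableOn` (note `U'` is differentiable: it is the
derivative of a function that is differentiable on an open set).
(2) For `m` inside, `U z - m = (z - ζ) * dslope U ζ z` and `dslope U ζ z ≠ 0` on the rectangle, so
`H U'/(U - m) = G z / (z - ζ)`, `G = H * U' / dslope U ζ` differentiable, `G ζ = H ζ`; and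
`G z/(z - ζ) = dslope G ζ z + G ζ / (z - ζ)`; the first part has integral `0`, and
`rectInt (1/(z-ζ)) a b h = 2 π I` by direct computation (`arctan t + arctan (1/t) = π/2`) .
So `1/(2πI) * rectInt (H U'/(U-m)) = H (ζ m)` or `0`.
(3) COT LEMMA: for any `U` as above with `U a, U b` not integers,
`∑_{m : ζ m ∈ (a,b)} H (ζ m) = 1/(2πI) * rectInt (H U' * π cot (π U))`:
`π cot (π u) = 1/u + ∑_{m ≥ 1} (1/(u-m) + 1/(u+m))` (`Complex.cot_series_rep`), partial sums are
constant for large `N` by (1),(2); pass to the limit by dominated convergence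
(`|1/(u-m) + 1/(u+m)| ≤ C/m²` for `|u| ≤ m/2`).
(4) Apply (3) to `U/2` (even `k`) and to `(U-1)/2` (odd `k`) and subtract:
`(π/2) (cot (πU/2) - cot (π(U-1)/2)) = (π/2) (cot (πU/2) + tan (πU/2)) = π / sin (πU)`.
(Alternatively prove the expansion of `π / sin (πu)` first and do (3) directly with signs.)
-/

open Finset Complex Polynomial

namespace Pool.Agent.LExp

/-- the boundary of the rectangle -/
private def ct_bd (a b h : ℝ) (z : ℂ) : Prop :=
  a ≤ z.re ∧ z.re ≤ b ∧ |z.im| ≤ h ∧ (z.re = a ∨ z.re = b ∨ |z.im| = h)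

private lemma ct_hbd {a b h x s : ℝ} (hx : x ∈ Set.Icc a b) (hs : |s| = h) :
    ct_bd a b h ((x : ℂ) + (s : ℂ) * I) := by
  have h1 : ((x : ℂ) + (s : ℂ) * I).re = x := by simp
  have h2 : ((x : ℂ) + (s : ℂ) * I).im = s := by simp
  refine ⟨?_, ?_, ?_, Or.inr (Or.inr ?_)⟩
  · rw [h1]; exact hx.1
  · rw [h1]; exact hx.2
  · rw [h2]; exact hs.le
  · rw [h2]; exact hs

private lemma ct_vbd {a b h c t : ℝ} (hab : a ≤ b) (hc : c = a ∨ c = b)
    (ht : t ∈ Set.Icc (-h) h) : ct_bd a b h ((c : ℂ) + (t : ℂ) * I) := by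
  have h1 : ((c : ℂ) + (t : ℂ) * I).re = c := by simp
  have h2 : ((c : ℂ) + (t : ℂ) * I).im = t := by simp
  refine ⟨?_, ?_, ?_, ?_⟩
  · rw [h1]; rcases hc with h | h <;> rw [h]
    exact hab
  · rw [h1]; rcases hc with h | h <;> rw [h]
    exact hab
  · rw [h2]; exact abs_le.2 ht
  · rw [h1]; tauto

private lemma ct_rect_zero {f : ℂ → ℂ} {a b h : ℝ} (hab : a ≤ b) (hh : 0 ≤ h)
    (hf : ∀ z : ℂ, a ≤ z.re → z.re ≤ b → |z.im| ≤ h → DifferentiableAt ℂ f z) :
    rectInt f a b h = 0 := by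
  have h1 := Complex.integral_boundary_rect_eq_zero_of_differentiableOn f (⟨a, -h⟩ : ℂ) ⟨b, h⟩
    (by
      intro z hz
      rw [Complex.mem_reProdIm] at hz
      simp only [Set.uIcc_of_le hab, Set.uIcc_of_le (show -h ≤ h by linarith)] at hz
      exact (hf z hz.1.1 hz.1.2 (abs_le.2 hz.2)).differentiableWithinAt)
  simpa only [rectInt, smul_eq_mul] using h1

private lemma ct_congr {f g : ℂ → ℂ} {a b h : ℝ} (hab : a ≤ b) (hh : 0 ≤ h)
    (hfg : ∀ z, ct_bd a b h z → f z = g z) : rectInt f a b h = rectInt g a b h := by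
  have hu : Set.uIcc a b = Set.Icc a b := Set.uIcc_of_le hab
  have hv : Set.uIcc (-h) h = Set.Icc (-h) h := Set.uIcc_of_le (by linarith)
  have e1 : ∫ x in a..b, f (x + (-h : ℝ) * I) = ∫ x in a..b, g (x + (-h : ℝ) * I) := by
    refine intervalIntegral.integral_congr fun x hx => hfg _ (ct_hbd (hu ▸ hx) ?_)
    rw [abs_neg, abs_of_nonneg hh]
  have e2 : ∫ x in a..b, f (x + (h : ℝ) * I) = ∫ x in a..b, g (x + (h : ℝ) * I) := by
    refine intervalIntegral.integral_congr fun x hx => hfg _ (ct_hbd (hu ▸ hx) ?_)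
    rw [abs_of_nonneg hh]
  have e3 : ∫ t in (-h)..h, f (b + t * I) = ∫ t in (-h)..h, g (b + t * I) :=
    intervalIntegral.integral_congr fun t ht => hfg _ (ct_vbd hab (Or.inr rfl) (hv ▸ ht))
  have e4 : ∫ t in (-h)..h, f (a + t * I) = ∫ t in (-h)..h, g (a + t * I) :=
    intervalIntegral.integral_congr fun t ht => hfg _ (ct_vbd hab (Or.inl rfl) (hv ▸ ht))
  rw [rectInt, rectInt, e1, e2, e3, e4]

private lemma ct_hint {f : ℂ → ℂ} {a b h s : ℝ} (hab : a ≤ b)
    (hf : ∀ z, ct_bd a b h z → ContinuousAt f z) (hs : |s| = h) :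
    IntervalIntegrable (fun x : ℝ => f ((x : ℂ) + (s : ℂ) * I)) MeasureTheory.volume a b := by
  refine ContinuousOn.intervalIntegrable fun x hx => ?_
  rw [Set.uIcc_of_le hab] at hx
  exact (ContinuousAt.comp (g := f) (f := fun x : ℝ => (x : ℂ) + (s : ℂ) * I) (x := x)
    (hf _ (ct_hbd hx hs)) (by fun_prop)).continuousWithinAt

private lemma ct_vint {f : ℂ → ℂ} {a b h c : ℝ} (hab : a ≤ b) (hh : 0 ≤ h)
    (hf : ∀ z, ct_bd a b h z → ContinuousAt f z) (hc : c = a ∨ c = b) :
    IntervalIntegrable (fun t : ℝ => f ((c : ℂ) + (t : ℂ) * I)) MeasureTheory.volume (-h) h := by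
  refine ContinuousOn.intervalIntegrable fun t ht => ?_
  rw [Set.uIcc_of_le (by linarith)] at ht
  exact (ContinuousAt.comp (g := f) (f := fun t : ℝ => (c : ℂ) + (t : ℂ) * I) (x := t)
    (hf _ (ct_vbd hab hc ht)) (by fun_prop)).continuousWithinAt

private lemma ct_add {f g : ℂ → ℂ} {a b h : ℝ} (hab : a ≤ b) (hh : 0 ≤ h)
    (hf : ∀ z, ct_bd a b h z → ContinuousAt f z) (hg : ∀ z, ct_bd a b h z → ContinuousAt g z) :
    rectInt (fun z => f z + g z) a b h = rectInt f a b h + rectInt g a b h := by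
  have hm : |-h| = h := by rw [abs_neg, abs_of_nonneg hh]
  have hp : |h| = h := abs_of_nonneg hh
  rw [rectInt, intervalIntegral.integral_add (ct_hint hab hf hm) (ct_hint hab hg hm),
    intervalIntegral.integral_add (ct_hint hab hf hp) (ct_hint hab hg hp),
    intervalIntegral.integral_add (ct_vint hab hh hf (Or.inr rfl)) (ct_vint hab hh hg (Or.inr rfl)),
    intervalIntegral.integral_add (ct_vint hab hh hf (Or.inl rfl)) (ct_vint hab hh hg (Or.inl rfl)),
    rectInt, rectInt]
  ring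

private lemma ct_mul (f : ℂ → ℂ) (a b h : ℝ) (c : ℂ) :
    rectInt (fun z => c * f z) a b h = c * rectInt f a b h := by
  rw [rectInt, intervalIntegral.integral_const_mul, intervalIntegral.integral_const_mul,
    intervalIntegral.integral_const_mul, intervalIntegral.integral_const_mul, rectInt]
  ring

private lemma ct_logneg {w : ℂ} (hw : 0 < w.im) :
    Complex.log (-w) = Complex.log w - Real.pi * I := by
  rw [Complex.log, Complex.log, norm_neg, Complex.arg_neg_eq_arg_sub_pi_of_im_pos hw]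
  push_cast
  ring

private lemma ct_seg (p q : ℂ) (α β : ℝ)
    (hs : ∀ t ∈ Set.uIcc α β, p + (t : ℂ) * q ∈ Complex.slitPlane) :
    ∫ t in α..β, q / (p + (t : ℂ) * q) =
      Complex.log (p + (β : ℂ) * q) - Complex.log (p + (α : ℂ) * q) := by
  refine intervalIntegral.integral_eq_sub_of_hasDerivAt
    (f := fun t : ℝ => Complex.log (p + (t : ℂ) * q)) (fun t ht => ?_) ?_
  · have h1 : HasDerivAt (fun t : ℝ => p + (t : ℂ) * q) q t := by
      have := ((hasDerivAt_id t).ofReal_comp.mul_const q).const_add p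
      simpa using this
    exact h1.clog_real (hs t ht)
  · refine ContinuousOn.intervalIntegrable fun t ht => ?_
    refine ContinuousAt.continuousWithinAt ?_
    have h0 : p + (t : ℂ) * q ≠ 0 := Complex.slitPlane_ne_zero (hs t ht)
    exact ContinuousAt.div (by fun_prop) (by fun_prop) h0

private lemma ct_one {a b h ζ : ℝ} (ha : a < ζ) (hb : ζ < b) (hh : 0 < h) :
    rectInt (fun z => 1 / (z - ζ)) a b h = 2 * Real.pi * I := by
  have e1 : ∫ x in a..b, (1 / ((x : ℂ) + (-h : ℝ) * I - ζ) : ℂ) =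
      Complex.log ((-h : ℝ) * I - ζ + b * 1) - Complex.log ((-h : ℝ) * I - ζ + a * 1) := by
    rw [← ct_seg ((-h : ℝ) * I - ζ) 1 a b]
    · refine intervalIntegral.integral_congr fun x _ => ?_
      congr 1
      ring
    · intro x _
      right
      simp [hh.ne']
  have e2 : ∫ x in a..b, (1 / ((x : ℂ) + (h : ℝ) * I - ζ) : ℂ) =
      Complex.log ((h : ℝ) * I - ζ + b * 1) - Complex.log ((h : ℝ) * I - ζ + a * 1) := by
    rw [← ct_seg ((h : ℝ) * I - ζ) 1 a b]
    · refine intervalIntegral.integral_congr fun x _ => ?_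
      congr 1
      ring
    · intro x _
      right
      simp [hh.ne']
  have e3 : I * ∫ t in (-h)..h, (1 / ((b : ℂ) + t * I - ζ) : ℂ) =
      Complex.log (b - ζ + h * I) - Complex.log (b - ζ + (-h : ℝ) * I) := by
    rw [← ct_seg (b - ζ) I (-h) h, ← intervalIntegral.integral_const_mul]
    · refine intervalIntegral.integral_congr fun x _ => ?_
      rw [mul_one_div]
      congr 1
      ring
    · intro x _
      left
      simp [hb]
  have e4 : I * ∫ t in (-h)..h, (1 / ((a : ℂ) + t * I - ζ) : ℂ) =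
      Complex.log (ζ - a + h * (-I)) - Complex.log (ζ - a + (-h : ℝ) * (-I)) := by
    rw [← ct_seg (ζ - a) (-I) (-h) h, ← intervalIntegral.integral_const_mul]
    · refine intervalIntegral.integral_congr fun x _ => ?_
      rw [mul_one_div, ← neg_div_neg_eq]
      congr 1
      ring
    · intro x _
      left
      simp [ha]
  rw [rectInt, e1, e2, e3, e4]
  have k1 : Complex.log (ζ - a + h * (-I)) =
      Complex.log ((h : ℝ) * I - ζ + a * 1) - Real.pi * I := by
    rw [← ct_logneg (w := (h : ℝ) * I - ζ + a * 1) (by simp [hh])]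
    congr 1
    ring
  have k2 : Complex.log ((-h : ℝ) * I - ζ + a * 1) =
      Complex.log (ζ - a + (-h : ℝ) * (-I)) - Real.pi * I := by
    rw [← ct_logneg (w := ζ - a + (-h : ℝ) * (-I)) (by simp [hh])]
    congr 1
    push_cast
    ring
  have k3 : (h : ℂ) * I - ζ + b * 1 = b - ζ + h * I := by ring
  have k4 : ((-h : ℝ) : ℂ) * I - ζ + b * 1 = b - ζ + (-h : ℝ) * I := by ring
  rw [k1, k2, k3, k4]
  ring

private lemma ct_cos (k : ℕ) : Complex.cos (Real.pi * (k : ℂ)) = (-1) ^ k := by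
  have h : (Real.pi : ℂ) * k = ((k * Real.pi : ℝ) : ℂ) := by push_cast; ring
  rw [h, ← Complex.ofReal_cos, Real.cos_nat_mul_pi]
  push_cast
  rfl

private theorem ct_res {a b h : ℝ} (hab : a < b) (hh : 0 < h) (c : ℝ → ℂ) :
    ∀ (S : Finset ℝ) (f : ℂ → ℂ), (∀ ζ ∈ S, a < ζ ∧ ζ < b) →
      (∀ z : ℂ, a ≤ z.re → z.re ≤ b → |z.im| ≤ h → (∀ ζ ∈ S, z ≠ (ζ : ℂ)) →
        DifferentiableAt ℂ f z) →
      (∀ ζ ∈ S, Filter.Tendsto (fun z => (z - ζ) * f z) (nhdsWithin (ζ : ℂ) {(ζ : ℂ)}ᶜ)
        (nhds (c ζ))) →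
      rectInt f a b h = 2 * Real.pi * I * ∑ ζ ∈ S, c ζ := by
  intro S
  induction S using Finset.induction_on with
  | empty =>
    intro f _ hf _
    rw [Finset.sum_empty, mul_zero]
    exact ct_rect_zero hab.le hh.le fun z h1 h2 h3 => hf z h1 h2 h3 (by simp)
  | insert ζ S hζ ih =>
    intro f hS hf hc
    obtain ⟨hζa, hζb⟩ := hS ζ (Finset.mem_insert_self _ _)
    set g : ℂ → ℂ := fun z => f z - c ζ / (z - ζ) with hg
    set g1 : ℂ → ℂ := Function.update g ζ (Filter.limUnder (nhdsWithin (ζ : ℂ) {(ζ : ℂ)}ᶜ) g) with hg1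
    -- the open set
    set s : Set ℂ := {z | (a < z.re ∧ z.re < b ∧ |z.im| < h) ∧ ∀ ζ' ∈ S, z ≠ (ζ' : ℂ)} with hs
    have hsn : s ∈ nhds (ζ : ℂ) := by
      have h1 : ∀ᶠ z : ℂ in nhds (ζ : ℂ), a < z.re :=
        (Complex.continuous_re.tendsto _).eventually (lt_mem_nhds (by simpa using hζa))
      have h2 : ∀ᶠ z : ℂ in nhds (ζ : ℂ), z.re < b :=
        (Complex.continuous_re.tendsto _).eventually (gt_mem_nhds (by simpa using hζb))
      have h3 : ∀ᶠ z : ℂ in nhds (ζ : ℂ), |z.im| < h :=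
        ((continuous_abs.comp Complex.continuous_im).tendsto _).eventually
          (gt_mem_nhds (by simpa using hh))
      have h4 : ∀ᶠ z : ℂ in nhds (ζ : ℂ), ∀ ζ' ∈ S, z ≠ (ζ' : ℂ) := by
        refine (Filter.eventually_all_finset S).2 fun ζ' hζ' => ?_
        refine isOpen_ne.eventually_mem ?_
        intro he
        apply hζ
        rw [Complex.ofReal_inj.1 he]
        exact hζ'
      filter_upwards [h1, h2, h3, h4] with z z1 z2 z3 z4
      exact ⟨⟨z1, z2, z3⟩, z4⟩
    have hgd : ∀ z : ℂ, a ≤ z.re → z.re ≤ b → |z.im| ≤ h → (∀ ζ' ∈ S, z ≠ (ζ' : ℂ)) →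
        z ≠ ζ → DifferentiableAt ℂ g z := by
      intro z z1 z2 z3 z4 z5
      have h1 : DifferentiableAt ℂ f z := hf z z1 z2 z3 fun ζ' hζ' => by
        rcases Finset.mem_insert.1 hζ' with rfl | h
        · exact z5
        · exact z4 ζ' h
      have h2 : DifferentiableAt ℂ (fun z : ℂ => c ζ / (z - ζ)) z :=
        (differentiableAt_const _).div (by fun_prop) (sub_ne_zero.2 z5)
      exact h1.sub h2
    have hlim : Filter.Tendsto (fun z => (z - ζ) * g z) (nhdsWithin (ζ : ℂ) {(ζ : ℂ)}ᶜ)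
        (nhds 0) := by
      have h1 := (hc ζ (Finset.mem_insert_self _ _)).sub_const (c ζ)
      rw [sub_self] at h1
      refine h1.congr' ?_
      filter_upwards [self_mem_nhdsWithin] with z hz
      have hz' : z - ζ ≠ 0 := sub_ne_zero.2 hz
      rw [hg]
      field_simp
    have hdζ : DifferentiableAt ℂ g1 ζ := by
      have h1 : DifferentiableOn ℂ g1 s := by
        refine Complex.differentiableOn_update_limUnder_of_isLittleO hsn ?_ ?_
        · intro z hz
          obtain ⟨⟨⟨z1, z2, z3⟩, z4⟩, z5⟩ := hz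
          exact (hgd z z1.le z2.le z3.le z4 z5).differentiableWithinAt
        · refine (Asymptotics.isLittleO_iff_tendsto' ?_).2 ?_
          · filter_upwards [self_mem_nhdsWithin] with z hz h0
            exact absurd (inv_eq_zero.1 h0) (sub_ne_zero.2 hz)
          · have h2 : Filter.Tendsto (fun z : ℂ => (z - ζ) * g ζ)
                (nhdsWithin (ζ : ℂ) {(ζ : ℂ)}ᶜ) (nhds 0) := by
              have h3 : ContinuousAt (fun z : ℂ => (z - ζ) * g ζ) ζ := by fun_prop
              have h4 := h3.tendsto.mono_left (nhdsWithin_le_nhds (s := {(ζ : ℂ)}ᶜ))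
              simpa using h4
            have h3 := hlim.sub h2
            rw [sub_zero] at h3
            refine h3.congr fun z => ?_
            rw [div_inv_eq_mul]
            ring
      exact h1.differentiableAt hsn
    have hd1 : ∀ z : ℂ, a ≤ z.re → z.re ≤ b → |z.im| ≤ h → (∀ ζ' ∈ S, z ≠ (ζ' : ℂ)) →
        DifferentiableAt ℂ g1 z := by
      intro z z1 z2 z3 z4
      by_cases z5 : z = ζ
      · rw [z5]; exact hdζ
      · refine (hgd z z1 z2 z3 z4 z5).congr_of_eventuallyEq ?_
        filter_upwards [isOpen_ne.mem_nhds z5] with w hw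
        exact Function.update_of_ne hw _ _
    have hc1 : ∀ ζ' ∈ S, Filter.Tendsto (fun z => (z - ζ') * g1 z)
        (nhdsWithin (ζ' : ℂ) {(ζ' : ℂ)}ᶜ) (nhds (c ζ')) := by
      intro ζ' hζ'
      have hne : (ζ' : ℂ) ≠ ζ := by
        intro he
        apply hζ
        rw [← Complex.ofReal_inj.1 he]
        exact hζ'
      have h1 := hc ζ' (Finset.mem_insert_of_mem hζ')
      have h2 : Filter.Tendsto (fun z : ℂ => (z - ζ') * (c ζ / (z - ζ)))
          (nhdsWithin (ζ' : ℂ) {(ζ' : ℂ)}ᶜ) (nhds 0) := by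
        have h3 : ContinuousAt (fun z : ℂ => (z - ζ') * (c ζ / (z - ζ))) ζ' := by
          refine ContinuousAt.mul (by fun_prop) ?_
          exact ContinuousAt.div (by fun_prop) (by fun_prop) (sub_ne_zero.2 hne)
        have h4 := h3.tendsto.mono_left (nhdsWithin_le_nhds (s := {(ζ' : ℂ)}ᶜ))
        simpa using h4
      have h3 := h1.sub h2
      rw [sub_zero] at h3
      refine h3.congr' ?_
      filter_upwards [nhdsWithin_le_nhds (isOpen_ne.mem_nhds hne)] with z hz
      rw [hg1, Function.update_of_ne hz, hg]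
      ring
    have h1 := ih g1 (fun ζ' hζ' => hS ζ' (Finset.mem_insert_of_mem hζ')) hd1 hc1
    have hbd : ∀ z, ct_bd a b h z → z ≠ ζ ∧ ∀ ζ' ∈ S, z ≠ (ζ' : ℂ) := by
      intro z hz
      have key : ∀ w ∈ insert ζ S, z ≠ (w : ℂ) := by
        intro w hw he
        obtain ⟨w1, w2⟩ := hS w hw
        rcases hz.2.2.2 with h | h | h
        · rw [he, Complex.ofReal_re] at h; linarith
        · rw [he, Complex.ofReal_re] at h; linarith
        · rw [he, Complex.ofReal_im, abs_zero] at h; linarith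
      exact ⟨key ζ (Finset.mem_insert_self _ _), fun w hw => key w (Finset.mem_insert_of_mem hw)⟩
    have h2 : rectInt f a b h = rectInt (fun z => g1 z + c ζ * (1 / (z - ζ))) a b h := by
      refine ct_congr hab.le hh.le fun z hz => ?_
      rw [hg1, Function.update_of_ne (hbd z hz).1, hg]
      ring
    rw [h2, ct_add (f := g1) (g := fun z => c ζ * (1 / (z - ζ))) hab.le hh.le
      (fun z hz => (hd1 z hz.1 hz.2.1 hz.2.2.1 (hbd z hz).2).continuousAt) (fun z hz => ?_),
      ct_mul, ct_one hζa hζb hh, h1, Finset.sum_insert hζ]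
    · ring
    · refine ContinuousAt.mul (by fun_prop) ?_
      exact ContinuousAt.div (by fun_prop) (by fun_prop) (sub_ne_zero.2 (hbd z hz).1)


theorem contour {U U' H : ℂ → ℂ} {a b a' b' h h' : ℝ} (haa : a' < a) (hab : a < b) (hbb : b < b')
    (hh : 0 < h) (hhh : h < h')
    (hU : ∀ z : ℂ, a' < z.re → z.re < b' → |z.im| < h' → HasDerivAt U (U' z) z)
    (hH : ∀ z : ℂ, a' < z.re → z.re < b' → |z.im| < h' → DifferentiableAt ℂ H z)
    (hpos : ∀ z : ℂ, a' < z.re → z.re < b' → |z.im| < h' → 0 < (U' z).re)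
    (hreal : ∀ x : ℝ, a' < x → x < b' → (U x).im = 0)
    {A B : ℕ} (hA : U a = A - 1 / 2) (hB : U b = B + 1 / 2) :
    ∃ ζ : ℕ → ℝ, (∀ k ∈ Finset.Icc A B, a < ζ k ∧ ζ k < b ∧ U (ζ k) = k) ∧
      ∑ k ∈ Finset.Icc A B, (-1) ^ k * H (ζ k) =
        1 / (2 * Real.pi * I) *
          rectInt (fun z => H z * U' z * (Real.pi / Complex.sin (Real.pi * U z))) a b h := by
  classical
  have hπ : (Real.pi : ℂ) ≠ 0 := Complex.ofReal_ne_zero.2 Real.pi_ne_zero
  -- the real axis
  set u : ℝ → ℝ := fun x => (U x).re with hu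
  have hud : ∀ x : ℝ, a' < x → x < b' → HasDerivAt u (U' x).re x := by
    intro x h1 h2
    have h3 : HasDerivAt U (U' x) (x : ℂ) :=
      hU x (by simpa using h1) (by simpa using h2) (by simpa using hh.trans hhh)
    exact h3.real_of_complex
  have hup : ∀ x : ℝ, a' < x → x < b' → 0 < (U' x).re := fun x h1 h2 =>
    hpos x (by simpa using h1) (by simpa using h2) (by simpa using hh.trans hhh)
  have humono : StrictMonoOn u (Set.Ioo a' b') := by
    refine strictMonoOn_of_deriv_pos (convex_Ioo a' b')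
      (fun x hx => (hud x hx.1 hx.2).continuousAt.continuousWithinAt) fun x hx => ?_
    rw [interior_Ioo] at hx
    rw [(hud x hx.1 hx.2).deriv]
    exact hup x hx.1 hx.2
  have hUx : ∀ x : ℝ, a' < x → x < b' → U x = (u x : ℂ) := by
    intro x h1 h2
    apply Complex.ext
    · simp [hu]
    · simpa using hreal x h1 h2
  -- points with real value are real
  have him : ∀ z : ℂ, a' < z.re → z.re < b' → |z.im| < h' → (U z).im = 0 → z.im = 0 := by
    intro z h1 h2 h3 h4
    set v : ℝ → ℝ := fun t => (U ((z.re : ℂ) + (t : ℂ) * I)).im with hv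
    have hvd : ∀ t : ℝ, |t| < h' → HasDerivAt v (U' ((z.re : ℂ) + (t : ℂ) * I)).re t := by
      intro t ht
      have e1 : HasDerivAt (fun t : ℝ => (z.re : ℂ) + (t : ℂ) * I) I t := by
        have := ((hasDerivAt_id t).ofReal_comp.mul_const I).const_add (z.re : ℂ)
        simpa using this
      have e2 : HasDerivAt U (U' ((z.re : ℂ) + (t : ℂ) * I)) ((z.re : ℂ) + (t : ℂ) * I) :=
        hU _ (by simpa using h1) (by simpa using h2) (by simpa using ht)
      have e3 := HasDerivAt.scomp (h := fun t : ℝ => (z.re : ℂ) + (t : ℂ) * I) t e2 e1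
      have e4 := Complex.imCLM.hasFDerivAt.comp_hasDerivAt t e3
      have e5 : Complex.imCLM (I • U' ((z.re : ℂ) + (t : ℂ) * I)) =
          (U' ((z.re : ℂ) + (t : ℂ) * I)).re := by
        rw [Complex.imCLM_apply, smul_eq_mul, Complex.I_mul_im]
      rw [e5] at e4
      exact e4
    have hvm : StrictMonoOn v (Set.Ioo (-h') h') := by
      refine strictMonoOn_of_deriv_pos (convex_Ioo (-h') h')
        (fun x hx => (hvd x (abs_lt.2 hx)).continuousAt.continuousWithinAt) fun x hx => ?_
      rw [interior_Ioo] at hx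
      rw [(hvd x (abs_lt.2 hx)).deriv]
      exact hpos _ (by simpa using h1) (by simpa using h2) (by simpa using abs_lt.2 hx)
    have h0 : (0 : ℝ) ∈ Set.Ioo (-h') h' := ⟨by linarith, by linarith⟩
    refine hvm.injOn (abs_lt.1 h3) h0 ?_
    have e1 : v z.im = 0 := by
      show (U ((z.re : ℂ) + ((z.im : ℝ) : ℂ) * I)).im = 0
      rw [Complex.re_add_im]
      exact h4
    have e2 : v 0 = 0 := by
      show (U ((z.re : ℂ) + ((0 : ℝ) : ℂ) * I)).im = 0
      rw [Complex.ofReal_zero, zero_mul, add_zero]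
      exact hreal z.re h1 h2
    rw [e1, e2]
  have hua : u a = A - 1 / 2 := by
    rw [hu]
    simp only
    rw [hA]
    simp
  have hub : u b = B + 1 / 2 := by
    rw [hu]
    simp only
    rw [hB]
    simp
  -- the points
  have hex : ∀ k : ℕ, k ∈ Finset.Icc A B → ∃ x : ℝ, a < x ∧ x < b ∧ u x = k := by
    intro k hk
    rw [Finset.mem_Icc] at hk
    have hk1 : (A : ℝ) ≤ k := by exact_mod_cast hk.1
    have hk2 : (k : ℝ) ≤ B := by exact_mod_cast hk.2
    have hcont : ContinuousOn u (Set.Icc a b) := fun x hx =>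
      (hud x (haa.trans_le hx.1) (hx.2.trans_lt hbb)).continuousAt.continuousWithinAt
    obtain ⟨x, hx, hxk⟩ := intermediate_value_Icc hab.le hcont
      (show (k : ℝ) ∈ Set.Icc (u a) (u b) by rw [hua, hub]; constructor <;> linarith)
    refine ⟨x, lt_of_le_of_ne hx.1 ?_, lt_of_le_of_ne hx.2 ?_, hxk⟩
    · rintro rfl
      linarith
    · rintro rfl
      linarith
  choose! ζ hζ using hex
  have hζU : ∀ k ∈ Finset.Icc A B, U (ζ k) = k := by
    intro k hk
    obtain ⟨h1, h2, h3⟩ := hζ k hk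
    rw [hUx _ (haa.trans h1) (h2.trans hbb), h3]
    simp
  refine ⟨ζ, fun k hk => ⟨(hζ k hk).1, (hζ k hk).2.1, hζU k hk⟩, ?_⟩
  have hinj : Set.InjOn ζ (Finset.Icc A B) := by
    intro k hk l hl hkl
    have h1 := (hζ k hk).2.2
    have h2 := (hζ l hl).2.2
    rw [hkl, h2] at h1
    exact_mod_cast h1.symm
  -- zeros of the sine
  have hsin : ∀ z : ℂ, a ≤ z.re → z.re ≤ b → |z.im| ≤ h → Complex.sin (Real.pi * U z) = 0 →
      ∃ k ∈ Finset.Icc A B, z = (ζ k : ℂ) := by
    intro z h1 h2 h3 h4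
    obtain ⟨m, hm⟩ := Complex.sin_eq_zero_iff.1 h4
    have hUm : U z = m := by
      apply mul_left_cancel₀ hπ
      rw [hm]; ring
    have hz0 : z.im = 0 := him z (haa.trans_le h1) (h2.trans_lt hbb) (h3.trans_lt hhh)
      (by rw [hUm]; simp)
    have hzr : z = (z.re : ℂ) := Complex.ext (by simp) (by simpa using hz0)
    have hum : u z.re = m := by
      have h5 := hUx z.re (haa.trans_le h1) (h2.trans_lt hbb)
      rw [← hzr, hUm] at h5
      exact_mod_cast h5.symm
    have ha' : a ∈ Set.Ioo a' b' := ⟨haa, hab.trans hbb⟩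
    have hb' : b ∈ Set.Ioo a' b' := ⟨haa.trans hab, hbb⟩
    have hz' : z.re ∈ Set.Ioo a' b' := ⟨haa.trans_le h1, h2.trans_lt hbb⟩
    have h6 : u a ≤ u z.re := humono.monotoneOn ha' hz' h1
    have h7 : u z.re ≤ u b := humono.monotoneOn hz' hb' h2
    rw [hua, hum] at h6
    rw [hub, hum] at h7
    have h8 : (A : ℤ) ≤ m := by
      have : ((A : ℤ) : ℝ) - 1 < m := by push_cast; linarith
      have h9 : (A : ℤ) - 1 < m := by exact_mod_cast this
      omega
    have h9 : m ≤ (B : ℤ) := by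
      have : (m : ℝ) < ((B : ℤ) : ℝ) + 1 := by push_cast; linarith
      have h9 : m < (B : ℤ) + 1 := by exact_mod_cast this
      omega
    obtain ⟨k, rfl⟩ := Int.eq_ofNat_of_zero_le ((Int.natCast_nonneg A).trans h8)
    have hk : k ∈ Finset.Icc A B := Finset.mem_Icc.2 ⟨by exact_mod_cast h8, by exact_mod_cast h9⟩
    refine ⟨k, hk, ?_⟩
    rw [hzr]
    congr 1
    obtain ⟨k1, k2, k3⟩ := hζ k hk
    refine humono.injOn hz' ⟨haa.trans k1, k2.trans hbb⟩ ?_
    rw [k3, hum]
    simp
  -- differentiability of the derivative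
  have hopen : IsOpen {z : ℂ | a' < z.re ∧ z.re < b' ∧ |z.im| < h'} := by
    refine (isOpen_lt continuous_const Complex.continuous_re).inter
      ((isOpen_lt Complex.continuous_re continuous_const).inter
      (isOpen_lt (continuous_abs.comp Complex.continuous_im) continuous_const))
  have hU'd : ∀ z : ℂ, a' < z.re → z.re < b' → |z.im| < h' → DifferentiableAt ℂ U' z := by
    intro z h1 h2 h3
    have hmem : {z : ℂ | a' < z.re ∧ z.re < b' ∧ |z.im| < h'} ∈ nhds z :=
      hopen.mem_nhds ⟨h1, h2, h3⟩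
    have hd : DifferentiableOn ℂ U {z : ℂ | a' < z.re ∧ z.re < b' ∧ |z.im| < h'} :=
      fun w hw => (hU w hw.1 hw.2.1 hw.2.2).differentiableAt.differentiableWithinAt
    have hd2 := (hd.deriv hopen).differentiableAt hmem
    refine hd2.congr_of_eventuallyEq ?_
    filter_upwards [hmem] with w hw
    exact (hU w hw.1 hw.2.1 hw.2.2).deriv.symm
  set f : ℂ → ℂ := fun z => H z * U' z * (Real.pi / Complex.sin (Real.pi * U z)) with hf
  set S : Finset ℝ := (Finset.Icc A B).image ζ with hS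
  have hres := ct_res hab hh (fun x => H x / Complex.cos (Real.pi * U x)) S f ?_ ?_ ?_
  · rw [hres, hS, Finset.sum_image hinj]
    have h2πI : (2 * Real.pi * I : ℂ) ≠ 0 := Complex.two_pi_I_ne_zero
    rw [← mul_assoc, one_div, inv_mul_cancel₀ h2πI, one_mul]
    refine Finset.sum_congr rfl fun k hk => ?_
    rw [hζU k hk]
    rw [ct_cos k]
    rcases neg_one_pow_eq_or ℂ k with h | h <;> rw [h]
    · rw [one_mul, div_one]
    · rw [div_neg, div_one, neg_one_mul]
  · intro w hw
    obtain ⟨k, hk, rfl⟩ := Finset.mem_image.1 hw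
    exact ⟨(hζ k hk).1, (hζ k hk).2.1⟩
  · intro z h1 h2 h3 h4
    have hz1 := haa.trans_le h1
    have hz2 := h2.trans_lt hbb
    have hz3 := h3.trans_lt hhh
    have hs0 : Complex.sin (Real.pi * U z) ≠ 0 := by
      intro h0
      obtain ⟨k, hk, hzk⟩ := hsin z h1 h2 h3 h0
      exact h4 (ζ k) (Finset.mem_image_of_mem _ hk) hzk
    have hUd : DifferentiableAt ℂ (fun z => Complex.sin (Real.pi * U z)) z :=
      ((hU z hz1 hz2 hz3).differentiableAt.const_mul _).csin
    exact ((hH z hz1 hz2 hz3).mul (hU'd z hz1 hz2 hz3)).mul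
      ((differentiableAt_const _).div hUd hs0)
  · intro w hw
    obtain ⟨k, hk, rfl⟩ := Finset.mem_image.1 hw
    obtain ⟨k1, k2, k3⟩ := hζ k hk
    have hz1 : a' < ((ζ k : ℝ) : ℂ).re := by simpa using haa.trans k1
    have hz2 : ((ζ k : ℝ) : ℂ).re < b' := by simpa using k2.trans hbb
    have hz3 : |((ζ k : ℝ) : ℂ).im| < h' := by simpa using hh.trans hhh
    have hUd := hU _ hz1 hz2 hz3
    have hsd : HasDerivAt (fun z => Complex.sin (Real.pi * U z))
        (Complex.cos (Real.pi * U (ζ k)) * (Real.pi * U' (ζ k))) (ζ k) :=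
      (hUd.const_mul (Real.pi : ℂ)).csin
    have hcos : Complex.cos (Real.pi * U (ζ k)) ≠ 0 := by
      rw [hζU k hk, ct_cos k]
      exact pow_ne_zero _ (by norm_num)
    have hU'0 : U' (ζ k) ≠ 0 := by
      intro h0
      have := hpos _ hz1 hz2 hz3
      rw [h0] at this
      simp at this
    have hD : Complex.cos (Real.pi * U (ζ k)) * (Real.pi * U' (ζ k)) ≠ 0 :=
      mul_ne_zero hcos (mul_ne_zero hπ hU'0)
    have hsl := (hasDerivAt_iff_tendsto_slope.1 hsd).inv₀ hD
    have hHU : Filter.Tendsto (fun z => H z * U' z * Real.pi)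
        (nhdsWithin ((ζ k : ℝ) : ℂ) {((ζ k : ℝ) : ℂ)}ᶜ)
        (nhds (H (ζ k) * U' (ζ k) * Real.pi)) := by
      have h1 : ContinuousAt (fun z => H z * U' z * (Real.pi : ℂ)) (ζ k : ℂ) :=
        ((hH _ hz1 hz2 hz3).continuousAt.mul (hU'd _ hz1 hz2 hz3).continuousAt).mul
          continuousAt_const
      exact h1.tendsto.mono_left nhdsWithin_le_nhds
    have hmul := hHU.mul hsl
    have e1 : H (ζ k) * U' (ζ k) * Real.pi *
        (Complex.cos (Real.pi * U (ζ k)) * (Real.pi * U' (ζ k)))⁻¹ =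
        H (ζ k) / Complex.cos (Real.pi * U (ζ k)) := by
      field_simp
    rw [e1] at hmul
    refine hmul.congr fun z => ?_
    have hs0 : Complex.sin (Real.pi * U (ζ k)) = 0 := by
      rw [hζU k hk]
      have := Complex.sin_nat_mul_pi k
      rw [mul_comm] at this
      exact this
    rw [slope_def_field, hs0, sub_zero, inv_div, hf]
    simp only
    ring

end Pool.Agent.LExp
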