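import Mathlib
import Pool.Agent.LExp.BFun

/-!
# Module Main1: the exponent `Lam` and its quadratic approximation
-/

open Finset Complex Polynomial Metric

namespace Pool.Agent.LExp

/-- the exponent -/
noncomputable def EE {n : ℕ} (y : Fin n → ℝ) (r : ℝ) (z : ℂ) : ℂ :=
  r * (LL y z - z * UU y z + BB y z)

/-- exponent of the integrand in the upper half plane -/
noncomputable def Lam {n : ℕ} (y : Fin n → ℝ) (r : ℝ) (z : ℂ) : ℂ :=
  EE y r z + I * Real.pi * UU y z + Complex.log (VV y z)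

section

variable {n : ℕ} {y : Fin n → ℝ}
variable (hy : ∀ l, 0 < y l) (hv : 1 ≤ vv y 0)

include hy hv

lemma VV_slit' {z : ℂ} (hz : ‖z‖ < 1 / 400) : VV y z ∈ slitPlane :=
  Or.inl (re_VV_pos hy hv hz)

lemma norm_VV_sub_le {z : ℂ} (hz : ‖z‖ < 1 / 400) : ‖VV y z - vv y 0‖ ≤ 14 / 10 * vv y 0 * ‖z‖ := by
  have h1 : ∀ w ∈ ball (0 : ℂ) (1 / 400), HasDerivWithinAt (VV y) (TT y w) (ball (0 : ℂ) (1 / 400)) w := by
    intro w hw
    rw [mem_ball_zero_iff] at hw
    exact (hasDerivAt_VV hy (abs_im_le_one_of_norm hw.le (by norm_num))).hasDerivWithinAt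
  have h2 := (convex_ball (0 : ℂ) (1 / 400)).norm_image_sub_le_of_norm_hasDerivWithin_le
    (C := 14 / 10 * vv y 0) h1 (fun w hw => norm_TT_le' hy hv (by rwa [mem_ball_zero_iff] at hw))
    (x := 0) (y := z) (by simp) (by simpa using hz)
  rw [sub_zero] at h2
  have h3 : VV y 0 = (vv y 0 : ℂ) := by
    have := VV_ofReal hy 0
    simpa using this
  rwa [h3] at h2

variable {η : ℝ} (hη : η ≤ 1 / 1000000) (hη0 : 0 < η)
  (hK : ∀ z : ℂ, ‖z‖ < 1 / 400 → ‖KK y z - 1‖ ≤ η)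

include hη hη0 hK

lemma hasDerivAt_EE (r : ℝ) {z : ℂ} (hz : ‖z‖ < 1 / 400) :
    HasDerivAt (EE y r) (r * (deriv (BB y) z - z * VV y z)) z := by
  have him : |z.im| ≤ 1 := abs_im_le_one_of_norm hz.le (by norm_num)
  have h1 := hasDerivAt_LL hy him
  have h2 := (hasDerivAt_id z).mul (hasDerivAt_UU hy him)
  have h3 := (differentiableAt_BB hy hv hη hη0 hK hz).hasDerivAt
  have h4 := ((h1.sub h2).add h3).const_mul (r : ℂ)
  refine h4.congr_deriv ?_
  simp only [id]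
  ring

lemma hasDerivAt_Lam {r : ℝ} (hr : 0 < r) {z : ℂ} (hz : ‖z‖ < 1 / 400) :
    HasDerivAt (Lam y r)
      (r * (deriv (BB y) z - (z - (Real.pi / r : ℝ) * I) * VV y z) + TT y z / VV y z) z := by
  have him : |z.im| ≤ 1 := abs_im_le_one_of_norm hz.le (by norm_num)
  have h1 := hasDerivAt_EE hy hv hη hη0 hK r hz
  have h2 := (hasDerivAt_UU hy him).const_mul (I * Real.pi)
  have h3 := (hasDerivAt_VV hy him).clog (VV_slit' hy hv hz)
  refine ((h1.add h2).add h3).congr_deriv ?_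
  have hr' : (r : ℂ) ≠ 0 := by exact_mod_cast hr.ne'
  push_cast
  field_simp
  ring

/-- `b` is real -/
lemma deriv_BB_zero_im : (deriv (BB y) 0).im = 0 := by
  have h1 : HasDerivAt (BB y) (deriv (BB y) 0) ((0 : ℝ) : ℂ) := by
    rw [ofReal_zero]
    exact (differentiableAt_BB hy hv hη hη0 hK (by simp)).hasDerivAt
  have h2 : HasDerivAt (fun x : ℝ => BB y x) (deriv (BB y) 0) 0 := h1.comp_ofReal
  have h3 : HasDerivAt (fun x : ℝ => (BB y x).im) (deriv (BB y) 0).im 0 :=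
    (Complex.imCLM.hasFDerivAt.comp_hasDerivAt (0 : ℝ) h2)
  have h4 : (fun x : ℝ => (BB y x).im) =ᶠ[nhds 0] fun _ => (0 : ℝ) := by
    have : ∀ᶠ x : ℝ in nhds 0, |x| < 1 / 400 := by
      have h5 : Filter.Tendsto (fun x : ℝ => |x|) (nhds 0) (nhds |0|) := continuous_abs.tendsto 0
      rw [abs_zero] at h5
      exact h5.eventually_lt_const (by norm_num)
    filter_upwards [this] with x hx
    exact BB_im hy hv hη hη0 hK hx
  have h5 : HasDerivAt (fun x : ℝ => (BB y x).im) 0 0 :=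
    (hasDerivAt_const (0 : ℝ) (0 : ℝ)).congr_of_eventuallyEq h4
  exact h3.unique h5

/-- quadratic approximation of `Lam` near `i α` -/
lemma Lam_est {r : ℝ} (hr : 0 < r) {h : ℂ} (hα : Real.pi / r < 1 / 800)
    (hh : ‖(Real.pi / r : ℝ) * I + h‖ < 1 / 800) :
    ‖Lam y r ((Real.pi / r : ℝ) * I + h) - Lam y r ((Real.pi / r : ℝ) * I) -
        (-(r * vv y 0 * h ^ 2 / 2) + r * deriv (BB y) 0 * h)‖ ≤
      ‖h‖ * (r * (Real.pi / r + ‖h‖) * (14 / 10 * vv y 0 * ‖h‖ + 1700) + 15 / 10) := by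
  set α : ℝ := Real.pi / r with hαdef
  have hα0 : 0 < α := div_pos Real.pi_pos hr
  have hnα : ‖(α : ℂ) * I‖ = α := by
    rw [norm_mul, Complex.norm_I, mul_one, Complex.norm_real, Real.norm_of_nonneg hα0.le]
  set S : Set ℂ := {w | ‖w‖ ≤ ‖h‖ ∧ ‖(α : ℂ) * I + w‖ < 1 / 800} with hS
  have hconv : Convex ℝ S := by
    have h1 : Convex ℝ (closedBall (0 : ℂ) ‖h‖) := convex_closedBall _ _
    have h2 : Convex ℝ (ball (-((α : ℂ) * I)) (1 / 800)) := convex_ball _ _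
    have h3 : S = closedBall (0 : ℂ) ‖h‖ ∩ ball (-((α : ℂ) * I)) (1 / 800) := by
      ext w
      simp only [hS, Set.mem_ofPred_eq, Set.mem_inter_iff, mem_closedBall_zero_iff, mem_ball,
        dist_eq_norm, sub_neg_eq_add]
      rw [add_comm w]
    rw [h3]
    exact h1.inter h2
  set Φ : ℂ → ℂ := fun w => Lam y r ((α : ℂ) * I + w) - (-(r * vv y 0 * w ^ 2 / 2) +
    r * deriv (BB y) 0 * w) with hΦ
  set C : ℝ := r * (α + ‖h‖) * (14 / 10 * vv y 0 * ‖h‖ + 1700) + 15 / 10 with hC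
  have hder : ∀ w ∈ S, HasDerivWithinAt Φ
      ((r * (deriv (BB y) ((α : ℂ) * I + w) - w * VV y ((α : ℂ) * I + w)) +
        TT y ((α : ℂ) * I + w) / VV y ((α : ℂ) * I + w)) -
        (-(r * vv y 0 * w) + r * deriv (BB y) 0)) S w := by
    intro w hw
    have hw1 : ‖(α : ℂ) * I + w‖ < 1 / 400 := lt_trans hw.2 (by norm_num)
    have h1 := (hasDerivAt_Lam hy hv hη hη0 hK hr hw1)
    have h2 : HasDerivAt (fun w : ℂ => (α : ℂ) * I + w) 1 w := (hasDerivAt_id w).const_add _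
    have h3 := HasDerivAt.comp w h1 h2
    have h4 : HasDerivAt (fun w : ℂ => -(r * vv y 0 * w ^ 2 / 2) + r * deriv (BB y) 0 * w)
        (-(r * vv y 0 * w) + r * deriv (BB y) 0) w := by
      have h5 := (((hasDerivAt_pow 2 w).const_mul ((r : ℂ) * vv y 0)).div_const 2).neg
      have h6 := (hasDerivAt_id w).const_mul ((r : ℂ) * deriv (BB y) 0)
      refine (h5.add h6).congr_deriv ?_
      simp only [Nat.cast_ofNat]
      ring
    refine HasDerivAt.hasDerivWithinAt ((h3.sub h4).congr_deriv ?_)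
    rw [mul_one, add_sub_cancel_left]
  have hbd : ∀ w ∈ S, ‖(r * (deriv (BB y) ((α : ℂ) * I + w) - w * VV y ((α : ℂ) * I + w)) +
        TT y ((α : ℂ) * I + w) / VV y ((α : ℂ) * I + w)) -
        (-(r * vv y 0 * w) + r * deriv (BB y) 0)‖ ≤ C := by
    intro w hw
    have hw1 : ‖(α : ℂ) * I + w‖ < 1 / 400 := lt_trans hw.2 (by norm_num)
    have hnw : ‖(α : ℂ) * I + w‖ ≤ α + ‖h‖ := by
      refine (norm_add_le _ _).trans ?_
      rw [hnα]
      linarith [hw.1]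
    have e : (r * (deriv (BB y) ((α : ℂ) * I + w) - w * VV y ((α : ℂ) * I + w)) +
        TT y ((α : ℂ) * I + w) / VV y ((α : ℂ) * I + w)) -
        (-(r * vv y 0 * w) + r * deriv (BB y) 0) =
        r * ((deriv (BB y) ((α : ℂ) * I + w) - deriv (BB y) 0) -
          w * (VV y ((α : ℂ) * I + w) - vv y 0)) +
        TT y ((α : ℂ) * I + w) / VV y ((α : ℂ) * I + w) := by ring
    rw [e]
    have h1 := norm_deriv_BB_sub_le hy hv hη hη0 hK hw.2
    have h2 := norm_VV_sub_le hy hv hw1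
    have h3 := norm_TT_div_VV hy hv hw1
    have hv0 : 0 ≤ vv y 0 := by linarith
    have h4 : ‖w * (VV y ((α : ℂ) * I + w) - vv y 0)‖ ≤ ‖h‖ * (14 / 10 * vv y 0 * (α + ‖h‖)) := by
      rw [norm_mul]
      refine mul_le_mul hw.1 (h2.trans ?_) (norm_nonneg _) (norm_nonneg _)
      exact mul_le_mul_of_nonneg_left hnw (by positivity)
    have h5 : ‖deriv (BB y) ((α : ℂ) * I + w) - deriv (BB y) 0‖ ≤ 1700 * (α + ‖h‖) :=
      h1.trans (mul_le_mul_of_nonneg_left hnw (by norm_num))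
    refine (norm_add_le _ _).trans ?_
    rw [norm_mul, Complex.norm_real, Real.norm_of_nonneg hr.le, hC]
    have h6 := norm_sub_le (deriv (BB y) ((α : ℂ) * I + w) - deriv (BB y) 0)
      (w * (VV y ((α : ℂ) * I + w) - vv y 0))
    have h7 : ‖(deriv (BB y) ((α : ℂ) * I + w) - deriv (BB y) 0) -
      w * (VV y ((α : ℂ) * I + w) - vv y 0)‖ ≤ (α + ‖h‖) * (14 / 10 * vv y 0 * ‖h‖ + 1700) := by
      refine h6.trans ((add_le_add h5 h4).trans (le_of_eq ?_))
      ring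
    have h8 := mul_le_mul_of_nonneg_left h7 hr.le
    linarith
  have hmem0 : (0 : ℂ) ∈ S := by
    refine ⟨by simp, ?_⟩
    rw [add_zero, hnα]
    exact hα
  have hmemh : h ∈ S := ⟨le_rfl, hh⟩
  have hfin := hconv.norm_image_sub_le_of_norm_hasDerivWithin_le hder hbd hmem0 hmemh
  rw [sub_zero] at hfin
  have e1 : Φ h - Φ 0 = Lam y r ((α : ℂ) * I + h) - Lam y r ((α : ℂ) * I) -
        (-(r * vv y 0 * h ^ 2 / 2) + r * deriv (BB y) 0 * h) := by
    simp only [hΦ]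
    rw [add_zero]
    ring
  rw [e1] at hfin
  rw [mul_comm ‖h‖]
  exact hfin

end

end Pool.Agent.LExp
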