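import Mathlib
import Pool.Agent.LExp.Main1
import Pool.Agent.LExp.ThProp

/-!
# Module Main2: pointwise bounds on the top side and on the vertical sides
-/

open Finset Complex Polynomial Metric

namespace Pool.Agent.LExp

section

variable {n : ℕ} {y : Fin n → ℝ}
variable (hy : ∀ l, 0 < y l) (hv : 1 ≤ vv y 0)
variable {η : ℝ} (hη : η ≤ 1 / 1000000) (hη0 : 0 < η)
  (hK : ∀ z : ℂ, ‖z‖ < 1 / 400 → ‖KK y z - 1‖ ≤ η)
variable {r : ℝ} (hr : 10 ^ 18 ≤ r) (hv2 : 49 / 100 * r ≤ vv y 0)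

/-- the phase at `i α` -/
lemma Lam_im (hy : ∀ l, 0 < y l) (hv : 1 ≤ vv y 0) (hr : 10 ^ 18 ≤ r) :
    (Lam y r ((Real.pi / r : ℝ) * I)).im = Ph y r 0 := by
  have hr0 : 0 < r := lt_of_lt_of_le (by norm_num) hr
  have hα : Real.pi / r < 1 / 400 := by
    rw [div_lt_div_iff₀ hr0 (by norm_num)]
    have := Real.pi_lt_d2
    linarith
  have hα0 : 0 < Real.pi / r := div_pos Real.pi_pos hr0
  have hnα : ‖((Real.pi / r : ℝ) : ℂ) * I‖ < 1 / 400 := by
    rw [norm_mul, Complex.norm_I, mul_one, Complex.norm_real, Real.norm_of_nonneg hα0.le]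
    exact hα
  unfold Lam EE Ph Th BB
  set z : ℂ := ((Real.pi / r : ℝ) : ℂ) * I with hz
  have e0 : ((0 : ℝ) : ℂ) + z = z := by simp
  rw [e0]
  have hre := re_VV_pos hy hv hnα
  have hlog : (Complex.log (2 * Real.pi * VV y z)).im = (Complex.log (VV y z)).im := by
    have e1 : (2 * Real.pi * VV y z : ℂ) = ((2 * Real.pi : ℝ) : ℂ) * VV y z := by push_cast; rfl
    rw [e1, Complex.log_im, Complex.log_im, Complex.arg_real_mul _ (by have := Real.pi_pos; positivity)]
  have hcancel : (r : ℂ) * (z * UU y z) = I * Real.pi * UU y z := by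
    rw [hz]
    have hr' : (r : ℂ) ≠ 0 := by exact_mod_cast hr0.ne'
    push_cast
    field_simp
  have e2 : (r : ℂ) * (LL y z - z * UU y z + (DD y z - Complex.log (2 * Real.pi * VV y z) / 2)) +
      I * Real.pi * UU y z + Complex.log (VV y z) =
      r * (LL y z + DD y z - Complex.log (2 * Real.pi * VV y z) / 2) + Complex.log (VV y z) := by
    rw [← hcancel]
    ring
  rw [e2]
  have e3 : (Complex.log (2 * Real.pi * VV y z) / 2).im = (Complex.log (VV y z)).im / 2 := by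
    rw [← hlog]
    have : (Complex.log (2 * Real.pi * VV y z) / 2) = Complex.log (2 * Real.pi * VV y z) / ((2 : ℝ) : ℂ) := by
      norm_num
    rw [this, Complex.div_ofReal_im]
  rw [Complex.add_im, Complex.im_ofReal_mul, Complex.sub_im, Complex.add_im, e3]
  ring

lemma exp_lin_le {m : ℝ} (hm : 0 ≤ m) : (1 + m) ^ 2 ≤ 256 * Real.exp (m / 8) := by
  have h1 := Real.add_one_le_exp (m / 16)
  have h2 : 1 + m ≤ 16 * Real.exp (m / 16) := by linarith
  have h3 : (1 + m) ^ 2 ≤ (16 * Real.exp (m / 16)) ^ 2 := pow_le_pow_left₀ (by linarith) h2 2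
  refine h3.trans (le_of_eq ?_)
  have h4 : ((2 : ℕ) : ℝ) * (m / 16) = m / 8 := by push_cast; ring
  rw [mul_pow, ← Real.exp_nat_mul, h4]
  norm_num

include hy hv hη hη0 hK hr hv2

/-- the real coefficient of the linear term -/
lemma deriv_BB_real : deriv (BB y) 0 = (((deriv (BB y) 0).re : ℝ) : ℂ) := by
  apply Complex.ext
  · simp
  · simpa using deriv_BB_zero_im hy hv hη hη0 hK

lemma abs_re_deriv_BB : |(deriv (BB y) 0).re| ≤ 1 :=
  (Complex.abs_re_le_norm _).trans (norm_deriv_BB_le hy hv hη hη0 hK (by simp))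

/-- error estimate on the top side -/
lemma top_X {x : ℝ} (hx : |x| ≤ 1 / 2000) :
    ‖Lam y r ((Real.pi / r : ℝ) * I + x) - Lam y r ((Real.pi / r : ℝ) * I) -
        ((-(r * vv y 0) * x ^ 2 / 2 + r * (deriv (BB y) 0).re * x : ℝ) : ℂ)‖ ≤
      1 / 10 ^ 8 * (1 + r * vv y 0 * x ^ 2) ^ 2 ∧
    ‖Lam y r ((Real.pi / r : ℝ) * I + x) - Lam y r ((Real.pi / r : ℝ) * I) -
        ((-(r * vv y 0) * x ^ 2 / 2 + r * (deriv (BB y) 0).re * x : ℝ) : ℂ)‖ ≤
      1 / 1000 * (1 + r * vv y 0 * x ^ 2) := by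
  have hr0 : 0 < r := lt_of_lt_of_le (by norm_num) hr
  have hα0 : 0 < Real.pi / r := div_pos Real.pi_pos hr0
  have hpi := Real.pi_lt_d2
  have hαs : Real.pi / r ≤ 1 / 10 ^ 17 := by
    rw [div_le_div_iff₀ hr0 (by norm_num)]
    linarith
  have hnx : ‖(x : ℂ)‖ = |x| := by rw [Complex.norm_real, Real.norm_eq_abs]
  have hbd : ‖((Real.pi / r : ℝ) : ℂ) * I + x‖ < 1 / 800 := by
    refine lt_of_le_of_lt (norm_add_le _ _) ?_
    rw [norm_mul, Complex.norm_I, mul_one, Complex.norm_real, Real.norm_of_nonneg hα0.le, hnx]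
    linarith
  have h1 := Lam_est hy hv hη hη0 hK hr0 (by linarith) hbd
  rw [hnx] at h1
  have e1 : (-(r * vv y 0 * (x : ℂ) ^ 2 / 2) + r * deriv (BB y) 0 * x : ℂ) =
      ((-(r * vv y 0) * x ^ 2 / 2 + r * (deriv (BB y) 0).re * x : ℝ) : ℂ) := by
    rw [deriv_BB_real hy hv hη hη0 hK hr hv2]
    push_cast
    simp only [Complex.ofReal_re]
    ring
  rw [e1] at h1
  set N : ℝ := r * vv y 0 with hN
  set u : ℝ := |x| with hu
  have hu0 : 0 ≤ u := abs_nonneg x
  have hx2 : x ^ 2 = u ^ 2 := (sq_abs x).symm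
  rw [hx2] at h1 ⊢
  -- `rα = π`
  have hrα : r * (Real.pi / r) = Real.pi := by field_simp
  have hv0 : 0 < vv y 0 := by linarith
  have hNr : 49 / 100 * r ^ 2 ≤ N := by rw [hN]; nlinarith
  -- bound of the right-hand side
  have h2 : u * (r * (Real.pi / r + u) * (14 / 10 * vv y 0 * u + 1700) + 15 / 10) =
      14 / 10 * (Real.pi / r) * (N * u ^ 2) + 14 / 10 * N * u ^ 3 + (1700 * Real.pi + 15 / 10) * u +
        1700 * (r * u ^ 2) := by
    rw [hN]
    have : r * (Real.pi / r + u) = Real.pi + r * u := by rw [mul_add, hrα]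
    rw [this]
    have h3 : Real.pi * (14 / 10 * vv y 0 * u) * u = 14 / 10 * (Real.pi / r) * (r * vv y 0 * u ^ 2) := by
      field_simp
    calc u * ((Real.pi + r * u) * (14 / 10 * vv y 0 * u + 1700) + 15 / 10)
        = Real.pi * (14 / 10 * vv y 0 * u) * u + 14 / 10 * (r * vv y 0) * u ^ 3 +
          (1700 * Real.pi + 15 / 10) * u + 1700 * (r * u ^ 2) := by ring
      _ = _ := by rw [h3]
  rw [h2] at h1
  set m : ℝ := N * u ^ 2 with hm
  have hm0 : 0 ≤ m := by
    rw [hm]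
    have : 0 ≤ N := by nlinarith
    positivity
  -- `r u ≤ 1.5 √m ≤ (1 + m)`
  have hru : r * u ≤ 1 + m := by
    have h3 : (r * u) ^ 2 ≤ 100 / 49 * m := by
      rw [hm]
      nlinarith [sq_nonneg u]
    nlinarith [sq_nonneg (r * u - 1)]
  have hu1 : u ≤ 1 / 10 ^ 18 * (1 + m) := by
    have : 10 ^ 18 * u ≤ r * u := mul_le_mul_of_nonneg_right hr hu0
    have h10 : (10 : ℝ) ^ 18 * u ≤ 1 + m := by linarith
    have : u = 1 / 10 ^ 18 * (10 ^ 18 * u) := by ring
    rw [this]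
    exact mul_le_mul_of_nonneg_left h10 (by norm_num)
  have hru2 : r * u ^ 2 ≤ 1 / 10 ^ 17 * m := by
    have h3 : r * u ^ 2 * r ≤ 100 / 49 * m := by rw [hm]; nlinarith [sq_nonneg u]
    have h4 : r * u ^ 2 * 10 ^ 18 ≤ r * u ^ 2 * r := mul_le_mul_of_nonneg_left hr (by positivity)
    linarith
  have hNu3 : N * u ^ 3 = m * u := by rw [hm]; ring
  have hNu3' : 14 / 10 * N * u ^ 3 = 14 / 10 * (m * u) := by rw [← hNu3]; ring
  rw [hNu3'] at h1
  have hpi0 := Real.pi_pos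
  have t1 : 14 / 10 * (Real.pi / r) * m ≤ 1 / 10 ^ 16 * m := by
    apply mul_le_mul_of_nonneg_right _ hm0
    linarith
  have t3 : (1700 * Real.pi + 15 / 10) * u ≤ 6000 * (1 / 10 ^ 18 * (1 + m)) := by
    refine mul_le_mul (by linarith) hu1 hu0 (by norm_num)
  constructor
  · refine h1.trans ?_
    have t2 : 14 / 10 * (m * u) ≤ 14 / 10 * (m * (1 / 10 ^ 18 * (1 + m))) :=
      mul_le_mul_of_nonneg_left (mul_le_mul_of_nonneg_left hu1 hm0) (by norm_num)
    nlinarith
  · refine h1.trans ?_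
    have t2 : 14 / 10 * (m * u) ≤ 14 / 10 * (m * (1 / 2000)) :=
      mul_le_mul_of_nonneg_left (mul_le_mul_of_nonneg_left hx hm0) (by norm_num)
    nlinarith

/-- the kernel on the top side is close to `1` -/
lemma top_kernel {x : ℝ} (hx : |x| ≤ 1 / 2000) :
    ‖cexp (2 * Real.pi * I * UU y ((Real.pi / r : ℝ) * I + x))‖ ≤ 1 / 8000 := by
  have hr0 : 0 < r := lt_of_lt_of_le (by norm_num) hr
  have hα0 : 0 < Real.pi / r := div_pos Real.pi_pos hr0
  have hpi := Real.pi_lt_d2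
  have hpi0 := Real.pi_gt_d2
  have hαs : Real.pi / r ≤ 1 / 10 ^ 17 := by
    rw [div_le_div_iff₀ hr0 (by norm_num)]
    linarith
  have h1 := le_im_UU hy hα0 (by linarith) x
  rw [add_comm] at h1
  have h2 := (vv_near hy (hx.trans (by norm_num))).1
  have h3 : 99 / 100 * (Real.pi / r) ≤ Real.sin (Real.pi / r) := by
    have := Real.sin_gt_sub_cube hα0
    have h4 : (Real.pi / r) ^ 3 ≤ 1 / 100 * (Real.pi / r) := by
      have h5 : (Real.pi / r) ^ 2 ≤ 1 / 100 := by
        have : (Real.pi / r) ^ 2 ≤ (1 / 10 ^ 17) ^ 2 := pow_le_pow_left₀ hα0.le hαs 2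
        refine this.trans (by norm_num)
      have : (Real.pi / r) ^ 3 = (Real.pi / r) ^ 2 * (Real.pi / r) := by ring
      rw [this]
      exact mul_le_mul_of_nonneg_right h5 hα0.le
    linarith
  have hrα : r * (Real.pi / r) = Real.pi := by field_simp
  have h6 : 15 / 10 ≤ (UU y ((Real.pi / r : ℝ) * I + x)).im := by
    refine le_trans ?_ h1
    have h7 : 99 / 100 * (Real.pi / r) * (99 / 100 * (49 / 100 * r)) ≤
      Real.sin (Real.pi / r) * vv y x := by
      refine mul_le_mul h3 (by linarith) (by positivity) (by linarith)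
    refine le_trans ?_ h7
    have h8 : 99 / 100 * (Real.pi / r) * (99 / 100 * (49 / 100 * r)) =
      99 / 100 * (99 / 100) * (49 / 100) * (r * (Real.pi / r)) := by ring
    rw [h8, hrα]
    nlinarith
  rw [Complex.norm_exp]
  have h9 : (2 * Real.pi * I * UU y ((Real.pi / r : ℝ) * I + x)).re =
      -(2 * Real.pi * (UU y ((Real.pi / r : ℝ) * I + x)).im) := by
    have : (2 * Real.pi * I * UU y ((Real.pi / r : ℝ) * I + x) : ℂ) =
      ((2 * Real.pi : ℝ) : ℂ) * (I * UU y ((Real.pi / r : ℝ) * I + x)) := by push_cast; ring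
    rw [this, Complex.re_ofReal_mul, Complex.I_mul_re]
    ring
  rw [h9]
  have h10 : 9 ≤ 2 * Real.pi * (UU y ((Real.pi / r : ℝ) * I + x)).im := by nlinarith
  have h11 : Real.exp (-(2 * Real.pi * (UU y ((Real.pi / r : ℝ) * I + x)).im)) ≤ Real.exp (-9) :=
    Real.exp_le_exp.2 (by linarith)
  refine h11.trans ?_
  have h12 : (8000 : ℝ) ≤ Real.exp 9 := by
    have h13 := Real.exp_one_gt_d9
    have h14 : Real.exp 9 = Real.exp 1 ^ 9 := by rw [← Real.exp_nat_mul]; norm_num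
    rw [h14]
    calc (8000 : ℝ) ≤ 2.7182818283 ^ 9 := by norm_num
      _ ≤ Real.exp 1 ^ 9 := pow_le_pow_left₀ (by norm_num) h13.le 9
  rw [Real.exp_neg, one_div]
  exact inv_anti₀ (by norm_num) h12

/-- the integrand on the top side against the Gaussian -/
lemma top_main {x : ℝ} (hx : |x| ≤ 1 / 2000) :
    ‖cexp (Lam y r ((Real.pi / r : ℝ) * I + x)) /
        (1 - cexp (2 * Real.pi * I * UU y ((Real.pi / r : ℝ) * I + x))) -
      cexp (Lam y r ((Real.pi / r : ℝ) * I)) *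
        ((Real.exp (-(r * vv y 0) * x ^ 2 / 2 + r * (deriv (BB y) 0).re * x) : ℝ) : ℂ)‖ ≤
      ‖cexp (Lam y r ((Real.pi / r : ℝ) * I))‖ *
        (6 / 1000 * Real.exp (-(r * vv y 0 / 5) * x ^ 2)) := by
  have hr0 : 0 < r := lt_of_lt_of_le (by norm_num) hr
  obtain ⟨hX1, hX2⟩ := top_X hy hv hη hη0 hK hr hv2 hx
  have hk := top_kernel hy hv hη hη0 hK hr hv2 hx
  set q : ℂ := cexp (2 * Real.pi * I * UU y ((Real.pi / r : ℝ) * I + x)) with hq
  set N : ℝ := r * vv y 0 with hN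
  set Q : ℝ := -N * x ^ 2 / 2 + r * (deriv (BB y) 0).re * x with hQ
  set X : ℂ := Lam y r ((Real.pi / r : ℝ) * I + x) - Lam y r ((Real.pi / r : ℝ) * I) - (Q : ℂ)
    with hX
  set m : ℝ := N * x ^ 2 with hm
  have hv0 : 0 < vv y 0 := by linarith
  have hN0 : 0 ≤ N := by positivity
  have hm0 : 0 ≤ m := by positivity
  have e1 : cexp (Lam y r ((Real.pi / r : ℝ) * I + x)) =
      cexp (Lam y r ((Real.pi / r : ℝ) * I)) * ((Real.exp Q : ℝ) : ℂ) * cexp X := by
    rw [Complex.ofReal_exp, ← Complex.exp_add, ← Complex.exp_add]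
    congr 1
    rw [hX]
    ring
  have hq1 : ‖(1 - q)⁻¹ - 1‖ ≤ 1 / 7999 ∧ ‖(1 - q)⁻¹‖ ≤ 8000 / 7999 := by
    have h1 : 7999 / 8000 ≤ ‖1 - q‖ := by
      have := norm_sub_norm_le (1 : ℂ) q
      rw [norm_one] at this
      linarith
    have h2 : (1 - q) ≠ 0 := by
      intro h
      rw [h, norm_zero] at h1
      linarith
    have h3 : 0 < ‖1 - q‖ := by linarith
    constructor
    · have : (1 - q)⁻¹ - 1 = q * (1 - q)⁻¹ := by
        field_simp
        ring
      rw [this, norm_mul, norm_inv, ← div_eq_mul_inv, div_le_iff₀ h3]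
      linarith
    · rw [norm_inv, inv_le_comm₀ h3 (by norm_num)]
      linarith
  have hX3 : ‖cexp X - 1‖ ≤ 3 / 10 ^ 6 * Real.exp (13 / 100 * m) := by
    have h1 := Complex.norm_exp_sub_sum_le_norm_mul_exp X 1
    simp only [Finset.range_one, Finset.sum_singleton, pow_zero, Nat.factorial_zero, Nat.cast_one,
      div_one, pow_one] at h1
    refine h1.trans ?_
    have h2 : Real.exp ‖X‖ ≤ Real.exp (1 / 1000 * (1 + m)) := Real.exp_le_exp.2 hX2
    have h3 : ‖X‖ ≤ 1 / 10 ^ 8 * (256 * Real.exp (m / 8)) :=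
      hX1.trans (mul_le_mul_of_nonneg_left (exp_lin_le hm0) (by norm_num))
    have h4 : Real.exp (1 / 1000 * (1 + m)) ≤ 11 / 10 * Real.exp (m / 1000) := by
      have : 1 / 1000 * (1 + m) = 1 / 1000 + m / 1000 := by ring
      rw [this, Real.exp_add]
      apply mul_le_mul_of_nonneg_right _ (Real.exp_pos _).le
      have h5 : Real.exp (1 / 1000) * Real.exp (-(1 / 1000)) = 1 := by rw [← Real.exp_add]; simp
      have h6 := Real.add_one_le_exp (-(1 / 1000 : ℝ))
      have h7 := Real.exp_pos (1 / 1000 : ℝ)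
      nlinarith
    calc ‖X‖ * Real.exp ‖X‖ ≤ (1 / 10 ^ 8 * (256 * Real.exp (m / 8))) *
          (11 / 10 * Real.exp (m / 1000)) :=
          mul_le_mul h3 (h2.trans h4) (Real.exp_pos _).le (by positivity)
      _ = (1 / 10 ^ 8 * 256 * (11 / 10)) * (Real.exp (m / 8) * Real.exp (m / 1000)) := by ring
      _ = (1 / 10 ^ 8 * 256 * (11 / 10)) * Real.exp (m / 8 + m / 1000) := by rw [Real.exp_add]
      _ ≤ 3 / 10 ^ 6 * Real.exp (13 / 100 * m) := by
          refine mul_le_mul (by norm_num) (Real.exp_le_exp.2 (by linarith)) (Real.exp_pos _).le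
            (by norm_num)
  have hQ1 : Real.exp Q ≤ 34 * Real.exp (-(35 / 100 * m)) := by
    have hb := abs_re_deriv_BB hy hv hη hη0 hK hr hv2
    have h1 : r * (deriv (BB y) 0).re * x ≤ r * |x| := by
      have h2 : (deriv (BB y) 0).re * x ≤ |x| := by
        refine (le_abs_self _).trans ?_
        rw [abs_mul]
        have := abs_nonneg x
        nlinarith
      calc r * (deriv (BB y) 0).re * x = r * ((deriv (BB y) 0).re * x) := by ring
        _ ≤ r * |x| := mul_le_mul_of_nonneg_left h2 hr0.le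
    have h3 : r * |x| ≤ 15 / 100 * m + 35 / 10 := by
      have h4 : (r * |x|) ^ 2 ≤ 100 / 49 * m := by
        rw [hm, mul_pow, sq_abs, hN]
        nlinarith [sq_nonneg x]
      nlinarith [sq_nonneg (15 / 100 * m - 35 / 10), mul_nonneg hr0.le (abs_nonneg x)]
    have h5 : Q ≤ 35 / 10 + -(35 / 100 * m) := by
      have : Q = -m / 2 + r * (deriv (BB y) 0).re * x := by rw [hQ, hm]; ring
      rw [this]
      linarith
    refine (Real.exp_le_exp.2 h5).trans ?_
    rw [Real.exp_add]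
    apply mul_le_mul_of_nonneg_right _ (Real.exp_pos _).le
    have h6 : Real.exp (35 / 10) ^ 2 ≤ 34 ^ 2 := by
      rw [← Real.exp_nat_mul]
      have h7 : Real.exp (((2 : ℕ) : ℝ) * (35 / 10)) = Real.exp 1 ^ 7 := by
        rw [← Real.exp_nat_mul]; norm_num
      rw [h7]
      calc Real.exp 1 ^ 7 ≤ 2.7182818286 ^ 7 :=
            pow_le_pow_left₀ (Real.exp_pos 1).le Real.exp_one_lt_d9.le 7
        _ ≤ 34 ^ 2 := by norm_num
    exact le_of_sq_le_sq h6 (by norm_num)
  have e2 : cexp (Lam y r ((Real.pi / r : ℝ) * I + x)) / (1 - q) -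
      cexp (Lam y r ((Real.pi / r : ℝ) * I)) * ((Real.exp Q : ℝ) : ℂ) =
      cexp (Lam y r ((Real.pi / r : ℝ) * I)) *
        (((Real.exp Q : ℝ) : ℂ) * ((cexp X - 1) * (1 - q)⁻¹ + ((1 - q)⁻¹ - 1))) := by
    rw [e1, div_eq_mul_inv]
    ring
  rw [e2, norm_mul]
  refine mul_le_mul_of_nonneg_left ?_ (norm_nonneg _)
  rw [norm_mul, Complex.norm_real, Real.norm_of_nonneg (Real.exp_pos _).le]
  have h1 : ‖(cexp X - 1) * (1 - q)⁻¹ + ((1 - q)⁻¹ - 1)‖ ≤
      3 / 10 ^ 6 * Real.exp (13 / 100 * m) * (8000 / 7999) + 1 / 7999 := by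
    refine (norm_add_le _ _).trans (add_le_add ?_ hq1.1)
    rw [norm_mul]
    exact mul_le_mul hX3 hq1.2 (norm_nonneg _) (by positivity)
  have h2 : (1 : ℝ) ≤ Real.exp (13 / 100 * m) := Real.one_le_exp (by positivity)
  have h3 : ‖(cexp X - 1) * (1 - q)⁻¹ + ((1 - q)⁻¹ - 1)‖ ≤ 15 / 10 ^ 5 * Real.exp (13 / 100 * m) := by
    refine h1.trans ?_
    nlinarith
  calc Real.exp Q * ‖(cexp X - 1) * (1 - q)⁻¹ + ((1 - q)⁻¹ - 1)‖
      ≤ (34 * Real.exp (-(35 / 100 * m))) * (15 / 10 ^ 5 * Real.exp (13 / 100 * m)) :=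
        mul_le_mul hQ1 h3 (norm_nonneg _) (by positivity)
    _ = (34 * (15 / 10 ^ 5)) * (Real.exp (-(35 / 100 * m)) * Real.exp (13 / 100 * m)) := by ring
    _ = (34 * (15 / 10 ^ 5)) * Real.exp (-(35 / 100 * m) + 13 / 100 * m) := by rw [Real.exp_add]
    _ ≤ 6 / 1000 * Real.exp (-(N / 5) * x ^ 2) := by
        refine mul_le_mul (by norm_num) (Real.exp_le_exp.2 ?_) (Real.exp_pos _).le (by norm_num)
        have : -(N / 5) * x ^ 2 = -(m / 5) := by rw [hm]; ring
        rw [this]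
        linarith

/-- the integrand on the vertical sides -/
lemma side_bound {x β : ℝ} (hx : 1 / 4000 ≤ |x|) (hx' : |x| ≤ 1 / 2000) (hβ : 0 ≤ β)
    (hβ' : β ≤ Real.pi / r) :
    ‖cexp (Lam y r (x + β * I))‖ ≤
      ‖cexp (Lam y r ((Real.pi / r : ℝ) * I))‖ * Real.exp (-(r * vv y 0 * x ^ 2 / 4)) := by
  have hr0 : 0 < r := lt_of_lt_of_le (by norm_num) hr
  have hα0 : 0 < Real.pi / r := div_pos Real.pi_pos hr0
  have hpi := Real.pi_lt_d2
  have hαs : Real.pi / r ≤ 1 / 10 ^ 17 := by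
    rw [div_le_div_iff₀ hr0 (by norm_num)]
    linarith
  set α : ℝ := Real.pi / r with hα
  set h : ℂ := x + (β - α : ℝ) * I with hh
  have ez : (x : ℂ) + β * I = α * I + h := by
    rw [hh]
    push_cast
    ring
  have hnh : ‖h‖ ≤ |x| + α := by
    rw [hh]
    refine (norm_add_le _ _).trans ?_
    rw [norm_mul, Complex.norm_I, mul_one, Complex.norm_real, Complex.norm_real, Real.norm_eq_abs,
      Real.norm_eq_abs]
    have : |β - α| ≤ α := by rw [abs_le]; constructor <;> linarith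
    linarith
  have hbd : ‖(α : ℂ) * I + h‖ < 1 / 800 := by
    refine lt_of_le_of_lt (norm_add_le _ _) ?_
    rw [norm_mul, Complex.norm_I, mul_one, Complex.norm_real, Real.norm_of_nonneg hα0.le]
    linarith
  have h1 := Lam_est hy hv hη hη0 hK hr0 (by linarith) hbd
  rw [← hα] at h1
  have h2 : (Lam y r (α * I + h) - Lam y r (α * I) -
      (-(r * vv y 0 * h ^ 2 / 2) + r * deriv (BB y) 0 * h)).re ≤
      ‖h‖ * (r * (α + ‖h‖) * (14 / 10 * vv y 0 * ‖h‖ + 1700) + 15 / 10) :=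
    (Complex.re_le_norm _).trans h1
  have h3 : (-(r * vv y 0 * h ^ 2 / 2) + r * deriv (BB y) 0 * h).re =
      -(r * vv y 0) * (x ^ 2 - (β - α) ^ 2) / 2 + r * (deriv (BB y) 0).re * x := by
    rw [deriv_BB_real hy hv hη hη0 hK hr hv2]
    have e1 : (-(r * vv y 0 * h ^ 2 / 2) + r * (((deriv (BB y) 0).re : ℝ) : ℂ) * h : ℂ) =
      ((-(r * vv y 0) / 2 : ℝ) : ℂ) * h ^ 2 + ((r * (deriv (BB y) 0).re : ℝ) : ℂ) * h := by
      push_cast
      ring
    rw [e1, Complex.add_re, Complex.re_ofReal_mul, Complex.re_ofReal_mul]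
    have e2 : (h ^ 2).re = x ^ 2 - (β - α) ^ 2 := by
      rw [hh, pow_two]
      simp only [Complex.mul_re, Complex.add_re, Complex.add_im, Complex.ofReal_re, Complex.ofReal_im,
        Complex.mul_im, Complex.I_re, Complex.I_im]
      ring
    have e3 : h.re = x := by
      rw [hh]
      simp
    rw [e2, e3]
    simp only [Complex.ofReal_re]
    ring
  have hb := abs_re_deriv_BB hy hv hη hη0 hK hr hv2
  set N : ℝ := r * vv y 0 with hN
  set u : ℝ := |x| with hu
  have hx2 : x ^ 2 = u ^ 2 := (sq_abs x).symm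
  have hv0 : 0 < vv y 0 := by linarith
  have hv1 : 10 ^ 17 ≤ vv y 0 := by linarith
  have hNpos : 0 < N := by positivity
  have hNu : r * 10 ^ 17 ≤ N := mul_le_mul_of_nonneg_left hv1 hr0.le
  -- errors
  have hα2 : α ≤ u / 1000 := by linarith
  have hw : ‖h‖ ≤ 1001 / 1000 * u := by linarith
  have h4 : ‖h‖ * (r * (α + ‖h‖) * (14 / 10 * vv y 0 * ‖h‖ + 1700) + 15 / 10) ≤
      (1001 / 1000 * u) * (r * (1002 / 1000 * u) * (14 / 10 * vv y 0 * (1001 / 1000 * u) + 1700) + 15 / 10) := by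
    have hn := norm_nonneg h
    have hu0 : 0 ≤ u := abs_nonneg x
    gcongr
    linarith
  have h5 : (1001 / 1000 * u) * (r * (1002 / 1000 * u) * (14 / 10 * vv y 0 * (1001 / 1000 * u) + 1700) + 15 / 10)
      ≤ N * u ^ 2 / 100 := by
    have hu0 : 0 < u := by linarith
    have e : (1001 / 1000 * u) * (r * (1002 / 1000 * u) * (14 / 10 * vv y 0 * (1001 / 1000 * u) + 1700) + 15 / 10)
        = (1001 / 1000 * (1002 / 1000) * (14 / 10) * (1001 / 1000)) * (N * u ^ 2 * u) +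
          (1001 / 1000 * (1002 / 1000) * 1700) * (r * u ^ 2) + (1001 / 1000 * (15 / 10)) * u := by
      rw [hN]; ring
    rw [e]
    have f1 : N * u ^ 2 * u ≤ N * u ^ 2 * (1 / 2000) := mul_le_mul_of_nonneg_left hx' (by positivity)
    have f2 : r * u ^ 2 * 10 ^ 17 ≤ N * u ^ 2 := by
      have := mul_le_mul_of_nonneg_right hNu (show 0 ≤ u ^ 2 by positivity)
      linarith
    have f3 : u * 10 ^ 6 ≤ N * u ^ 2 := by
      have h10 : 10 ^ 10 ≤ N := by
        have : (10 : ℝ) ^ 18 * 10 ^ 17 ≤ r * 10 ^ 17 := mul_le_mul_of_nonneg_right hr (by norm_num)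
        refine le_trans (by norm_num) (this.trans hNu)
      have h11 : 10 ^ 6 ≤ N * u := by nlinarith
      have : N * u ^ 2 = (N * u) * u := by ring
      rw [this]
      nlinarith
    nlinarith
  have h6 : -N * (x ^ 2 - (β - α) ^ 2) / 2 + r * (deriv (BB y) 0).re * x ≤ -(N * u ^ 2) * (49 / 100) := by
    have f1 : (β - α) ^ 2 ≤ u ^ 2 / 1000 := by
      have h10 : (β - α) ^ 2 ≤ α ^ 2 := by nlinarith
      have h11 : α ^ 2 ≤ (u / 1000) ^ 2 := pow_le_pow_left₀ hα0.le hα2 2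
      nlinarith [sq_nonneg u]
    have f2 : r * (deriv (BB y) 0).re * x ≤ r * u := by
      have h2 : (deriv (BB y) 0).re * x ≤ |x| := by
        refine (le_abs_self _).trans ?_
        rw [abs_mul]
        have := abs_nonneg x
        nlinarith
      calc r * (deriv (BB y) 0).re * x = r * ((deriv (BB y) 0).re * x) := by ring
        _ ≤ r * |x| := mul_le_mul_of_nonneg_left h2 hr0.le
    have f3 : r * u ≤ N * u ^ 2 / 1000 := by
      have h10 : r * 10 ^ 17 * u ≤ N * u := mul_le_mul_of_nonneg_right hNu (abs_nonneg x)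
      have h11 : r * 10 ^ 10 ≤ N * u := by nlinarith
      have h12 : r * 1000 * u ≤ N * u * u := by
        apply mul_le_mul_of_nonneg_right _ (abs_nonneg x)
        linarith
      have h13 : N * u ^ 2 = N * u * u := by ring
      rw [h13]
      linarith
    rw [hx2]
    have f4 := mul_le_mul_of_nonneg_left f1 hNpos.le
    nlinarith
  have h7 : (Lam y r (α * I + h)).re ≤ (Lam y r (α * I)).re + -(N * x ^ 2 / 4) := by
    rw [Complex.sub_re, Complex.sub_re, h3] at h2
    have h8 := h2.trans (h4.trans h5)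
    have h9 : N * x ^ 2 = N * u ^ 2 := by rw [hx2]
    rw [h9]
    have : 0 ≤ N * u ^ 2 := by positivity
    linarith
  rw [ez, Complex.norm_exp, Complex.norm_exp, ← Real.exp_add]
  exact Real.exp_le_exp.2 h7

end

end Pool.Agent.LExp
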