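import Mathlib
import Pool.Agent.LExp.Main2
import Pool.Agent.LExp.Contour

/-!
# Module Main3: evaluation of the contour integral
-/

open Finset Complex Polynomial Metric MeasureTheory

namespace Pool.Agent.LExp

/-- the integrand of the contour integral -/
noncomputable def FF {n : ℕ} (y : Fin n → ℝ) (r : ℝ) (z : ℂ) : ℂ :=
  cexp (EE y r z) * VV y z * (Real.pi / Complex.sin (Real.pi * UU y z))

/-- the integrand on the top side, without the factor `-2πi` -/
noncomputable def GG {n : ℕ} (y : Fin n → ℝ) (r : ℝ) (z : ℂ) : ℂ :=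
  cexp (Lam y r z) / (1 - cexp (2 * Real.pi * I * UU y z))

lemma pi_div_sin (u : ℂ) : (Real.pi : ℂ) / Complex.sin (Real.pi * u) =
    -(2 * Real.pi * I) * (cexp (I * Real.pi * u) / (1 - cexp (2 * Real.pi * I * u))) := by
  have e1 : cexp (2 * Real.pi * I * u) = cexp (I * Real.pi * u) * cexp (I * Real.pi * u) := by
    rw [← Complex.exp_add]
    congr 1
    ring
  have e2 : cexp (-(I * Real.pi * u)) * cexp (I * Real.pi * u) = 1 := by
    rw [← Complex.exp_add]; simp
  have h1 : Complex.sin (Real.pi * u) =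
      cexp (-(I * Real.pi * u)) * (1 - cexp (2 * Real.pi * I * u)) * (I / 2) := by
    unfold Complex.sin
    have e3 : -(Real.pi * u : ℂ) * I = -(I * Real.pi * u) := by ring
    have e4 : (Real.pi * u : ℂ) * I = I * Real.pi * u := by ring
    rw [e3, e4, e1, mul_sub, mul_one, ← mul_assoc, e2]
    ring
  have h2 : cexp (-(I * Real.pi * u)) = (cexp (I * Real.pi * u))⁻¹ := Complex.exp_neg _
  rw [h1, h2]
  rw [div_eq_mul_inv, mul_inv, mul_inv, inv_inv, inv_div]
  have h3 : (2 : ℂ) / I = -(2 * I) := by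
    rw [div_eq_iff Complex.I_ne_zero]
    have := Complex.I_mul_I
    linear_combination (2 : ℂ) * this
  rw [h3]
  ring

lemma mono_of_hasDerivAt {f f' : ℝ → ℝ} {a b : ℝ} (hab : a ≤ b)
    (h : ∀ x ∈ Set.Icc a b, HasDerivAt f (f' x) x) (h0 : ∀ x ∈ Set.Icc a b, 0 ≤ f' x) :
    f a ≤ f b := by
  have h1 : MonotoneOn f (Set.Icc a b) := by
    apply monotoneOn_of_deriv_nonneg (convex_Icc a b)
    · intro x hx
      exact (h x hx).continuousAt.continuousWithinAt
    · intro x hx
      rw [interior_Icc] at hx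
      exact (h x (Set.Ioo_subset_Icc_self hx)).differentiableAt.differentiableWithinAt
    · intro x hx
      rw [interior_Icc] at hx
      rw [(h x (Set.Ioo_subset_Icc_self hx)).deriv]
      exact h0 x (Set.Ioo_subset_Icc_self hx)
  exact h1 (Set.left_mem_Icc.2 hab) (Set.right_mem_Icc.2 hab) hab

lemma hasDerivAt_vert {f : ℂ → ℂ} {f' : ℂ} {x t : ℝ} (h : HasDerivAt f f' ((x : ℂ) + t * I)) :
    HasDerivAt (fun t : ℝ => f ((x : ℂ) + t * I)) (I * f') t := by
  have e1 : HasDerivAt (fun t : ℝ => (x : ℂ) + (t : ℂ) * I) I t := by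
    have := ((hasDerivAt_id t).ofReal_comp.mul_const I).const_add (x : ℂ)
    simpa using this
  have e3 := HasDerivAt.scomp (h := fun t : ℝ => (x : ℂ) + (t : ℂ) * I) t h e1
  exact e3

section

variable {n : ℕ} {y : Fin n → ℝ}
variable (hy : ∀ l, 0 < y l) (hv : 1 ≤ vv y 0)

/-- real displacement of `UU` on a vertical line -/
lemma re_UU_vert (hy : ∀ l, 0 < y l) {x β α : ℝ} (hβ : 0 ≤ β) (hβ' : β ≤ α) (hα : α ≤ 1 / 100) :
    |(UU y (x + β * I)).re - mu y x| ≤ 2 * α * (UU y (x + β * I)).im := by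
  have him : ∀ t ∈ Set.Icc 0 β, |((x : ℂ) + (t : ℂ) * I).im| ≤ 1 := by
    intro t ht
    simp only [add_im, ofReal_im, mul_im, ofReal_re, I_im, mul_one, I_re, mul_zero, add_zero,
      zero_add]
    rw [abs_of_nonneg ht.1]
    linarith [ht.2]
  have hd : ∀ t ∈ Set.Icc 0 β, HasDerivAt (fun t : ℝ => UU y ((x : ℂ) + t * I))
      (I * VV y ((x : ℂ) + t * I)) t := fun t ht => hasDerivAt_vert (hasDerivAt_UU hy (him t ht))
  have hre : ∀ t ∈ Set.Icc 0 β, HasDerivAt (fun t : ℝ => (UU y ((x : ℂ) + t * I)).re)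
      (-(VV y ((x : ℂ) + t * I)).im) t := by
    intro t ht
    have := Complex.reCLM.hasFDerivAt.comp_hasDerivAt t (hd t ht)
    have e : Complex.reCLM (I * VV y ((x : ℂ) + t * I)) = -(VV y ((x : ℂ) + t * I)).im := by
      rw [Complex.reCLM_apply, Complex.I_mul_re]
    rw [e] at this
    exact this
  have him2 : ∀ t ∈ Set.Icc 0 β, HasDerivAt (fun t : ℝ => (UU y ((x : ℂ) + t * I)).im)
      (VV y ((x : ℂ) + t * I)).re t := by
    intro t ht
    have := Complex.imCLM.hasFDerivAt.comp_hasDerivAt t (hd t ht)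
    have e : Complex.imCLM (I * VV y ((x : ℂ) + t * I)) = (VV y ((x : ℂ) + t * I)).re := by
      rw [Complex.imCLM_apply, Complex.I_mul_im]
    rw [e] at this
    exact this
  have hkey : ∀ t ∈ Set.Icc 0 β, |(VV y ((x : ℂ) + t * I)).im| ≤
      2 * α * (VV y ((x : ℂ) + t * I)).re := by
    intro t ht
    have h1 := abs_im_VV_le hy (him t ht)
    have h2 := le_re_VV hy (him t ht)
    have e : ((x : ℂ) + (t : ℂ) * I).im = t := by simp
    rw [e] at h1 h2
    have h3 : 1 / 2 ≤ Real.cos t := half_le_cos (by rw [abs_of_nonneg ht.1]; linarith [ht.2])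
    have h4 : |Real.sin t| ≤ α := by
      have h5 := Real.abs_sin_le_abs (x := t)
      rw [abs_of_nonneg ht.1] at h5
      linarith [ht.2]
    have h5 := vv_nonneg hy ((x : ℂ) + (t : ℂ) * I).re
    have h6 : 0 ≤ (VV y ((x : ℂ) + t * I)).re := le_trans (by positivity) h2
    have h7 := mul_le_mul_of_nonneg_right h4 h6
    have h8 := mul_le_mul_of_nonneg_left h3 (abs_nonneg (VV y ((x : ℂ) + t * I)).im)
    linarith
  have h0 : UU y ((x : ℂ) + ((0 : ℝ) : ℂ) * I) = (mu y x : ℂ) := by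
    rw [ofReal_zero, zero_mul, add_zero, UU_ofReal]
  rw [abs_le]
  constructor
  · have h := mono_of_hasDerivAt (f := fun t : ℝ => 2 * α * (UU y ((x : ℂ) + t * I)).im +
      (UU y ((x : ℂ) + t * I)).re)
      (f' := fun t : ℝ => 2 * α * (VV y ((x : ℂ) + t * I)).re + -(VV y ((x : ℂ) + t * I)).im) hβ
      (fun t ht => ((him2 t ht).const_mul _).add (hre t ht))
      (fun t ht => by
        have := (abs_le.1 (hkey t ht)).2
        show 0 ≤ 2 * α * (VV y ((x : ℂ) + t * I)).re + -(VV y ((x : ℂ) + t * I)).im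
        linarith)
    rw [h0, ofReal_im, ofReal_re] at h
    linarith
  · have h := mono_of_hasDerivAt (f := fun t : ℝ => 2 * α * (UU y ((x : ℂ) + t * I)).im -
      (UU y ((x : ℂ) + t * I)).re)
      (f' := fun t : ℝ => 2 * α * (VV y ((x : ℂ) + t * I)).re - -(VV y ((x : ℂ) + t * I)).im) hβ
      (fun t ht => ((him2 t ht).const_mul _).sub (hre t ht))
      (fun t ht => by
        have := (abs_le.1 (hkey t ht)).1
        show 0 ≤ 2 * α * (VV y ((x : ℂ) + t * I)).re - -(VV y ((x : ℂ) + t * I)).im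
        linarith)
    rw [h0, ofReal_im, ofReal_re] at h
    linarith

/-- the denominator on a vertical side through a half integer -/
lemma side_den (hy : ∀ l, 0 < y l) {x β α : ℝ} (hβ : 0 ≤ β) (hβ' : β ≤ α) (hα0 : 0 < α)
    (hα : α ≤ 1 / 100) {k : ℤ} (hk : mu y x = k + 1 / 2) :
    1 / 2 ≤ ‖1 - cexp (2 * Real.pi * I * UU y (x + β * I))‖ := by
  have h1 := re_UU_vert hy (x := x) hβ hβ' hα
  set u := UU y (x + β * I) with hu
  have him0 : 0 ≤ u.im := by
    have := (abs_nonneg _).trans h1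
    by_contra h
    push Not at h
    nlinarith
  have hpi := Real.pi_gt_three
  have e1 : (2 * Real.pi * I * u : ℂ).re = -(2 * Real.pi * u.im) := by
    have : (2 * Real.pi * I * u : ℂ) = ((2 * Real.pi : ℝ) : ℂ) * (I * u) := by push_cast; ring
    rw [this, Complex.re_ofReal_mul, Complex.I_mul_re]
    ring
  have e2 : (2 * Real.pi * I * u : ℂ).im = 2 * Real.pi * u.re := by
    have : (2 * Real.pi * I * u : ℂ) = ((2 * Real.pi : ℝ) : ℂ) * (I * u) := by push_cast; ring
    rw [this, Complex.im_ofReal_mul, Complex.I_mul_im]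
  rcases le_total u.im 1 with h2 | h2
  · -- small imaginary part
    have h3 : |u.re - mu y x| ≤ 1 / 4 := h1.trans (by nlinarith)
    rw [hk] at h3
    have h4 : Real.cos (2 * Real.pi * u.re) ≤ 0 := by
      have e3 : 2 * Real.pi * u.re = (2 * Real.pi * (u.re - (k + 1 / 2)) + Real.pi) +
          k * (2 * Real.pi) := by ring
      rw [e3, Real.cos_add_int_mul_two_pi, Real.cos_add_pi, neg_nonpos]
      apply Real.cos_nonneg_of_mem_Icc
      have := abs_le.1 h3
      constructor <;> nlinarith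
    have h5 : (1 - cexp (2 * Real.pi * I * u)).re = 1 - Real.exp (-(2 * Real.pi * u.im)) *
        Real.cos (2 * Real.pi * u.re) := by
      rw [Complex.sub_re, Complex.one_re, Complex.exp_re, e1, e2]
    have h6 : 1 ≤ (1 - cexp (2 * Real.pi * I * u)).re := by
      rw [h5]
      have := Real.exp_pos (-(2 * Real.pi * u.im))
      nlinarith
    have h7 := Complex.re_le_norm (1 - cexp (2 * Real.pi * I * u))
    linarith
  · have h3 : ‖cexp (2 * Real.pi * I * u)‖ ≤ 1 / 2 := by
      rw [Complex.norm_exp, e1]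
      have h4 : Real.exp (-(2 * Real.pi * u.im)) ≤ Real.exp (-1) := by
        apply Real.exp_le_exp.2
        nlinarith
      refine h4.trans ?_
      rw [Real.exp_neg, one_div]
      apply inv_anti₀ (by norm_num)
      have := Real.exp_one_gt_d9
      linarith
    have := norm_sub_norm_le (1 : ℂ) (cexp (2 * Real.pi * I * u))
    rw [norm_one] at this
    linarith

lemma FF_eq (hy : ∀ l, 0 < y l) (hv : 1 ≤ vv y 0) (r : ℝ) {z : ℂ} (hz : ‖z‖ < 1 / 400) :
    FF y r z = -(2 * Real.pi * I) * GG y r z := by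
  have hV : VV y z ≠ 0 := slitPlane_ne_zero (VV_slit' hy hv hz)
  unfold FF GG Lam
  rw [pi_div_sin, Complex.exp_add, Complex.exp_add, Complex.exp_log hV]
  ring

variable {η : ℝ} (hη : η ≤ 1 / 1000000) (hη0 : 0 < η)
  (hK : ∀ z : ℂ, ‖z‖ < 1 / 400 → ‖KK y z - 1‖ ≤ η)

include hy hv hη hη0 hK

lemma FF_conj (r : ℝ) {z : ℂ} (hz : ‖z‖ < 1 / 400) :
    FF y r ((starRingEnd ℂ) z) = (starRingEnd ℂ) (FF y r z) := by
  have him : |z.im| ≤ 1 := abs_im_le_one_of_norm hz.le (by norm_num)
  unfold FF EE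
  rw [LL_conj hy him, UU_conj, BB_conj hy hv hη hη0 hK hz, VV_conj]
  rw [map_mul, map_mul, map_div₀, ← Complex.exp_conj, ← Complex.sin_conj, map_mul, map_mul, map_add,
    map_sub, map_mul]
  simp only [Complex.conj_ofReal]

end

lemma alpha_bounds {r : ℝ} (hr : 10 ^ 18 ≤ r) : 0 < Real.pi / r ∧ Real.pi / r ≤ 1 / 10 ^ 17 := by
  have hr0 : 0 < r := lt_of_lt_of_le (by norm_num) hr
  have hα0 : 0 < Real.pi / r := div_pos Real.pi_pos hr0
  have hpi := Real.pi_lt_d2
  refine ⟨hα0, ?_⟩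
  rw [div_le_div_iff₀ hr0 (by norm_num)]
  linarith

end Pool.Agent.LExp
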