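import Mathlib
import Pool.Agent.LExp.Main3

/-!
# Module Main4: the top integral, the sides, and the contour integral
-/

open Finset Complex Polynomial Metric MeasureTheory

namespace Pool.Agent.LExp

lemma norm_alpha_I_add {α x : ℝ} (hα0 : 0 < α) (hα : α ≤ 1 / 10 ^ 17) (hx : |x| ≤ 1 / 2000) :
    ‖(α : ℂ) * I + x‖ < 1 / 400 := by
  refine lt_of_le_of_lt (norm_add_le _ _) ?_
  rw [norm_mul, Complex.norm_I, mul_one, Complex.norm_real, Real.norm_of_nonneg hα0.le,
    Complex.norm_real, Real.norm_eq_abs]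
  linarith

section

variable {n : ℕ} {y : Fin n → ℝ}
variable (hy : ∀ l, 0 < y l) (hv : 1 ≤ vv y 0)
variable {η : ℝ} (hη : η ≤ 1 / 1000000) (hη0 : 0 < η)
  (hK : ∀ z : ℂ, ‖z‖ < 1 / 400 → ‖KK y z - 1‖ ≤ η)
variable {r : ℝ} (hr : 10 ^ 18 ≤ r) (hv2 : 49 / 100 * r ≤ vv y 0)

include hy hv hη hη0 hK hr hv2

lemma continuous_top {a b : ℝ} (ha : -(1 / 2000) ≤ a) (hab : a ≤ b) (hb : b ≤ 1 / 2000) :
    IntervalIntegrable (fun x : ℝ => GG y r ((Real.pi / r : ℝ) * I + x)) volume a b := by
  obtain ⟨hα0, hα⟩ := alpha_bounds hr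
  have hr0 : 0 < r := lt_of_lt_of_le (by norm_num) hr
  apply ContinuousOn.intervalIntegrable
  rw [Set.uIcc_of_le hab]
  intro x hx
  apply ContinuousAt.continuousWithinAt
  have hx' : |x| ≤ 1 / 2000 := abs_le.2 ⟨by linarith [hx.1], by linarith [hx.2]⟩
  have hz := norm_alpha_I_add hα0 hα hx'
  have h1 := (hasDerivAt_Lam hy hv hη hη0 hK hr0 hz).continuousAt
  have h2 := (hasDerivAt_UU hy (abs_im_le_one_of_norm hz.le (by norm_num))).continuousAt
  have h3 : ContinuousAt (fun x : ℝ => ((Real.pi / r : ℝ) : ℂ) * I + (x : ℂ)) x := by fun_prop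
  have h4 := top_kernel hy hv hη hη0 hK hr hv2 hx'
  have h5 : (1 : ℂ) - cexp (2 * Real.pi * I * UU y ((Real.pi / r : ℝ) * I + x)) ≠ 0 := by
    intro h
    have h6 : cexp (2 * Real.pi * I * UU y ((Real.pi / r : ℝ) * I + x)) = 1 := by
      linear_combination -h
    rw [h6, norm_one] at h4
    norm_num at h4
  have h6 : ContinuousAt (GG y r) (((Real.pi / r : ℝ) : ℂ) * I + (x : ℂ)) := by
    unfold GG
    refine ContinuousAt.div (Complex.continuous_exp.continuousAt.comp h1) ?_ h5
    exact continuousAt_const.sub (Complex.continuous_exp.continuousAt.comp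
      (continuousAt_const.mul h2))
  exact ContinuousAt.comp (f := fun x : ℝ => ((Real.pi / r : ℝ) : ℂ) * I + (x : ℂ)) h6 h3

/-- the integral on the top side -/
lemma top_int {a b : ℝ} (ha : -(1 / 2000) ≤ a) (ha' : a ≤ -(1 / 4000)) (hb' : 1 / 4000 ≤ b)
    (hb : b ≤ 1 / 2000) :
    ∃ G : ℝ, 27 / 100 / Real.sqrt (r * vv y 0) ≤ G ∧
      ‖(∫ x in a..b, GG y r ((Real.pi / r : ℝ) * I + x)) -
        cexp (Lam y r ((Real.pi / r : ℝ) * I)) * G‖ ≤
      ‖cexp (Lam y r ((Real.pi / r : ℝ) * I))‖ * (24 / 1000 / Real.sqrt (r * vv y 0)) := by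
  have hr0 : 0 < r := lt_of_lt_of_le (by norm_num) hr
  have hv0 : 0 < vv y 0 := by linarith
  have hab : a ≤ b := by linarith
  have hbeta := abs_re_deriv_BB hy hv hη hη0 hK hr hv2
  have hmain := fun x hx => top_main hy hv hη hη0 hK hr hv2 (x := x) hx
  have hint := continuous_top hy hv hη hη0 hK hr hv2 ha hab hb
  set N : ℝ := r * vv y 0 with hN
  set g0 : ℂ := cexp (Lam y r ((Real.pi / r : ℝ) * I)) with hg0
  set β : ℝ := (deriv (BB y) 0).re with hβ
  have hNr : 49 / 100 * r ^ 2 ≤ N := by rw [hN]; nlinarith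
  have hNpos : 0 < N := by positivity
  have hsN : 0 < Real.sqrt N := Real.sqrt_pos.2 hNpos
  have hsN2 : Real.sqrt N ^ 2 = N := Real.sq_sqrt hNpos.le
  have hrs : r ≤ 15 / 10 * Real.sqrt N := by
    have h1 : r ^ 2 ≤ (15 / 10 * Real.sqrt N) ^ 2 := by rw [mul_pow, hsN2]; nlinarith
    exact le_of_sq_le_sq h1 (by positivity)
  have hsbig : 4000 ≤ Real.sqrt N := by linarith
  set c : ℝ := 1 / Real.sqrt N with hc
  have hc0 : 0 < c := by positivity
  have hc4 : c ≤ 1 / 4000 := by
    rw [hc]
    exact one_div_le_one_div_of_le (by norm_num) hsbig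
  set Q : ℝ → ℝ := fun x => -N * x ^ 2 / 2 + r * β * x with hQ
  have hQc : Continuous fun x : ℝ => Real.exp (Q x) := by
    rw [hQ]
    fun_prop
  refine ⟨∫ x in a..b, Real.exp (Q x), ?_, ?_⟩
  · -- lower bound
    have h1 : (∫ x in (-c)..c, Real.exp (Q x)) ≤ ∫ x in a..b, Real.exp (Q x) := by
      apply intervalIntegral.integral_mono_interval (by linarith) (by linarith) (by linarith)
      · exact Filter.Eventually.of_forall fun x => (Real.exp_pos _).le
      · exact hQc.intervalIntegrable _ _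
    refine le_trans ?_ h1
    have h2 : (∫ x in (-c)..c, Real.exp (-2)) ≤ ∫ x in (-c)..c, Real.exp (Q x) := by
      apply intervalIntegral.integral_mono_on (by linarith)
      · exact continuous_const.intervalIntegrable _ _
      · exact hQc.intervalIntegrable _ _
      · intro x hx
        apply Real.exp_le_exp.2
        have hx' : |x| ≤ c := abs_le.2 ⟨hx.1, hx.2⟩
        have h3 : N * x ^ 2 ≤ 1 := by
          have : x ^ 2 ≤ c ^ 2 := by rw [← sq_abs x]; exact pow_le_pow_left₀ (abs_nonneg x) hx' 2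
          have h4 : N * c ^ 2 = 1 := by
            rw [hc, div_pow, hsN2]
            field_simp
          have := mul_le_mul_of_nonneg_left this hNpos.le
          linarith
        have h5 : -(15 / 10) ≤ r * β * x := by
          have h6 : |r * β * x| ≤ 15 / 10 := by
            rw [abs_mul, abs_mul, abs_of_pos hr0]
            calc r * |β| * |x| ≤ (15 / 10 * Real.sqrt N) * 1 * c :=
                  mul_le_mul (mul_le_mul hrs hbeta (abs_nonneg _) (by positivity)) hx' (abs_nonneg _)
                    (by positivity)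
              _ = 15 / 10 := by
                  rw [hc]
                  field_simp
          exact (abs_le.1 h6).1
        show -2 ≤ -N * x ^ 2 / 2 + r * β * x
        linarith
    refine le_trans ?_ h2
    rw [intervalIntegral.integral_const, smul_eq_mul]
    have h7 : (135 : ℝ) / 1000 ≤ Real.exp (-2) := by
      rw [Real.exp_neg]
      have h8 : Real.exp 2 ≤ 74 / 10 := by
        have h9 : Real.exp 2 = Real.exp 1 ^ 2 := by rw [← Real.exp_nat_mul]; norm_num
        rw [h9]
        calc Real.exp 1 ^ 2 ≤ 2.7182818286 ^ 2 :=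
              pow_le_pow_left₀ (Real.exp_pos 1).le Real.exp_one_lt_d9.le 2
          _ ≤ 74 / 10 := by norm_num
      rw [le_inv_comm₀ (by norm_num) (Real.exp_pos _)]
      refine h8.trans (by norm_num)
    have h10 : 27 / 100 / Real.sqrt N = (c - -c) * (135 / 1000) := by rw [hc]; ring
    rw [h10]
    exact mul_le_mul_of_nonneg_left h7 (by linarith)
  · -- error
    have e1 : cexp (Lam y r ((Real.pi / r : ℝ) * I)) * ((∫ x in a..b, Real.exp (Q x) : ℝ) : ℂ) =
        ∫ x in a..b, g0 * ((Real.exp (Q x) : ℝ) : ℂ) := by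
      rw [intervalIntegral.integral_const_mul, intervalIntegral.integral_ofReal]
    have hint2 : IntervalIntegrable (fun x : ℝ => g0 * ((Real.exp (Q x) : ℝ) : ℂ)) volume a b :=
      (continuous_const.mul (Complex.continuous_ofReal.comp hQc)).intervalIntegrable _ _
    rw [← hg0] at e1
    rw [e1, ← intervalIntegral.integral_sub hint hint2]
    have hgc : Continuous fun x : ℝ => ‖g0‖ * (6 / 1000 * Real.exp (-(N / 5) * x ^ 2)) := by fun_prop
    have h1 : ‖∫ x in a..b, (GG y r ((Real.pi / r : ℝ) * I + x) - g0 * ((Real.exp (Q x) : ℝ) : ℂ))‖ ≤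
        ∫ x in a..b, ‖g0‖ * (6 / 1000 * Real.exp (-(N / 5) * x ^ 2)) := by
      apply intervalIntegral.norm_integral_le_of_norm_le hab _ (hgc.intervalIntegrable _ _)
      refine Filter.Eventually.of_forall fun x hx => ?_
      exact hmain x (abs_le.2 ⟨by linarith [hx.1], by linarith [hx.2]⟩)
    refine h1.trans ?_
    rw [intervalIntegral.integral_const_mul]
    apply mul_le_mul_of_nonneg_left _ (norm_nonneg _)
    rw [intervalIntegral.integral_const_mul]
    have h2 : (∫ x in a..b, Real.exp (-(N / 5) * x ^ 2)) ≤ ∫ x : ℝ, Real.exp (-(N / 5) * x ^ 2) := by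
      rw [intervalIntegral.integral_of_le hab]
      apply setIntegral_le_integral (integrable_exp_neg_mul_sq (by positivity))
      exact Filter.Eventually.of_forall fun x => (Real.exp_pos _).le
    rw [integral_gaussian] at h2
    have h3 : Real.sqrt (Real.pi / (N / 5)) ≤ 4 / Real.sqrt N := by
      rw [div_div_eq_mul_div, Real.sqrt_div (by have := Real.pi_pos; positivity)]
      apply div_le_div_of_nonneg_right _ hsN.le
      rw [Real.sqrt_le_left (by norm_num)]
      have := Real.pi_lt_d2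
      linarith
    have h4 : 24 / 1000 / Real.sqrt N = 6 / 1000 * (4 / Real.sqrt N) := by ring
    rw [h4]
    exact mul_le_mul_of_nonneg_left (h2.trans h3) (by norm_num)

/-- the vertical sides -/
lemma side_int {x : ℝ} (hx : 1 / 4000 ≤ |x|) (hx' : |x| ≤ 1 / 2000) {k : ℤ}
    (hk : mu y x = k + 1 / 2) :
    ‖∫ t in (-(Real.pi / r))..(Real.pi / r), FF y r (x + t * I)‖ ≤
      8 * Real.pi * (Real.pi / r) * (‖cexp (Lam y r ((Real.pi / r : ℝ) * I))‖ *
        Real.exp (-(r * vv y 0 * x ^ 2 / 4))) := by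
  obtain ⟨hα0, hα⟩ := alpha_bounds hr
  have hpi := Real.pi_pos
  set S : ℝ := ‖cexp (Lam y r ((Real.pi / r : ℝ) * I))‖ * Real.exp (-(r * vv y 0 * x ^ 2 / 4)) with hS
  have hpos : ∀ t : ℝ, 0 ≤ t → t ≤ Real.pi / r → ‖FF y r (x + t * I)‖ ≤ 4 * Real.pi * S := by
    intro t ht ht'
    have hz : ‖(x : ℂ) + t * I‖ < 1 / 400 := by
      refine lt_of_le_of_lt (norm_add_le _ _) ?_
      rw [norm_mul, Complex.norm_I, mul_one, Complex.norm_real, Complex.norm_real,
        Real.norm_eq_abs, Real.norm_of_nonneg ht]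
      linarith
    rw [FF_eq hy hv r hz, norm_mul]
    have h1 : ‖(-(2 * Real.pi * I) : ℂ)‖ = 2 * Real.pi := by
      rw [norm_neg, norm_mul, norm_mul, Complex.norm_I, Complex.norm_real,
        Real.norm_of_nonneg hpi.le, Complex.norm_ofNat, mul_one]
    rw [h1]
    unfold GG
    rw [norm_div]
    have h2 := side_bound hy hv hη hη0 hK hr hv2 hx hx' ht ht'
    have h3 := side_den hy (x := x) ht ht' hα0 (hα.trans (by norm_num)) hk
    have h4 : ‖cexp (Lam y r (x + t * I))‖ / ‖1 - cexp (2 * Real.pi * I * UU y (x + t * I))‖ ≤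
        2 * S := by
      rw [div_le_iff₀ (by linarith)]
      have hS0 : 0 ≤ S := by positivity
      have h5 := mul_le_mul_of_nonneg_left h3 hS0
      rw [← hS] at h2
      linarith
    calc 2 * Real.pi * (‖cexp (Lam y r (x + t * I))‖ /
          ‖1 - cexp (2 * Real.pi * I * UU y (x + t * I))‖) ≤ 2 * Real.pi * (2 * S) :=
          mul_le_mul_of_nonneg_left h4 (by positivity)
      _ = 4 * Real.pi * S := by ring
  have hall : ∀ t ∈ Set.uIoc (-(Real.pi / r)) (Real.pi / r), ‖FF y r (x + t * I)‖ ≤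
      4 * Real.pi * S := by
    intro t ht
    rw [Set.uIoc_of_le (by linarith)] at ht
    rcases le_total 0 t with h | h
    · exact hpos t h ht.2
    · have h1 := hpos (-t) (by linarith) (by linarith [ht.1])
      have hz : ‖(x : ℂ) + ((-t : ℝ) : ℂ) * I‖ < 1 / 400 := by
        refine lt_of_le_of_lt (norm_add_le _ _) ?_
        rw [norm_mul, Complex.norm_I, mul_one, Complex.norm_real, Complex.norm_real,
          Real.norm_eq_abs, Real.norm_of_nonneg (by linarith : (0 : ℝ) ≤ -t)]
        linarith [ht.1]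
      have h2 := FF_conj hy hv hη hη0 hK r hz
      have e : (starRingEnd ℂ) ((x : ℂ) + ((-t : ℝ) : ℂ) * I) = (x : ℂ) + t * I := by
        rw [map_add, map_mul, Complex.conj_ofReal, Complex.conj_ofReal, Complex.conj_I]
        push_cast
        ring
      rw [e] at h2
      rw [h2, Complex.norm_conj]
      exact h1
  refine (intervalIntegral.norm_integral_le_of_norm_le_const hall).trans (le_of_eq ?_)
  rw [abs_of_nonneg (by linarith)]
  ring

/-- the contour integral -/
lemma rect_eval {a b : ℝ} (ha : -(1 / 2000) ≤ a) (hab : a ≤ b) (hb : b ≤ 1 / 2000) :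
    1 / (2 * Real.pi * I) * rectInt (FF y r) a b (Real.pi / r) =
      ((2 * (∫ x in a..b, GG y r ((Real.pi / r : ℝ) * I + x)).re : ℝ) : ℂ) +
      1 / (2 * Real.pi) * ((∫ t in (-(Real.pi / r))..(Real.pi / r), FF y r (b + t * I)) -
        (∫ t in (-(Real.pi / r))..(Real.pi / r), FF y r (a + t * I))) := by
  obtain ⟨hα0, hα⟩ := alpha_bounds hr
  have hpi : (Real.pi : ℂ) ≠ 0 := Complex.ofReal_ne_zero.2 Real.pi_ne_zero
  set M : ℂ := ∫ x in a..b, GG y r ((Real.pi / r : ℝ) * I + x) with hM
  have hz : ∀ x ∈ Set.uIcc a b, ‖((Real.pi / r : ℝ) : ℂ) * I + x‖ < 1 / 400 := by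
    intro x hx
    rw [Set.uIcc_of_le hab] at hx
    exact norm_alpha_I_add hα0 hα (abs_le.2 ⟨by linarith [hx.1], by linarith [hx.2]⟩)
  have e1 : (∫ x in a..b, FF y r (x + (Real.pi / r : ℝ) * I)) = -(2 * Real.pi * I) * M := by
    rw [hM, ← intervalIntegral.integral_const_mul]
    apply intervalIntegral.integral_congr
    intro x hx
    simp only
    rw [add_comm (x : ℂ), FF_eq hy hv r (hz x hx)]
  have e2 : (∫ x in a..b, FF y r (x + (-(Real.pi / r) : ℝ) * I)) =
      (starRingEnd ℂ) (-(2 * Real.pi * I) * M) := by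
    rw [← e1]
    have e3 : (∫ x in a..b, FF y r (x + (-(Real.pi / r) : ℝ) * I)) =
        ∫ x in a..b, (starRingEnd ℂ) (FF y r (x + (Real.pi / r : ℝ) * I)) := by
      apply intervalIntegral.integral_congr
      intro x hx
      simp only
      have h1 := hz x hx
      rw [add_comm] at h1
      rw [← FF_conj hy hv hη hη0 hK r h1]
      congr 1
      rw [map_add, map_mul, Complex.conj_ofReal, Complex.conj_ofReal, Complex.conj_I]
      push_cast
      ring
    rw [e3, intervalIntegral.integral_of_le hab, intervalIntegral.integral_of_le hab,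
      integral_conj]
  unfold rectInt
  rw [e1, e2]
  have e4 : (starRingEnd ℂ) (-(2 * Real.pi * I) * M) - -(2 * Real.pi * I) * M =
      2 * Real.pi * I * ((2 * M.re : ℝ) : ℂ) := by
    rw [map_mul, map_neg, map_mul, map_mul, Complex.conj_ofReal, Complex.conj_I, conj_two]
    have h2 : (starRingEnd ℂ) M + M = ((2 * M.re : ℝ) : ℂ) := by
      rw [add_comm, Complex.add_conj]
    rw [← h2]
    ring
  rw [e4]
  field_simp
  ring

end

end Pool.Agent.LExp
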