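import Mathlib
import Pool.Agent.LExp.Main4
import Pool.Agent.LExp.Comb

/-!
# Module Main5: the window and the tails
-/

open Finset Complex Polynomial Metric MeasureTheory

namespace Pool.Agent.LExp

section

variable {n : ℕ} {y : Fin n → ℝ}

lemma vv_pos_all (hy : ∀ l, 0 < y l) (hv : 1 ≤ vv y 0) (x : ℝ) : 0 < vv y x := by
  have h1 := vv_ge hy 0 x
  rw [zero_add] at h1
  have := Real.exp_pos (-|x|)
  nlinarith

lemma strictMono_mu (hy : ∀ l, 0 < y l) (hv : 1 ≤ vv y 0) : StrictMono (mu y) := by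
  apply strictMono_of_deriv_pos
  intro x
  rw [(hasDerivAt_mu hy x).deriv]
  exact vv_pos_all hy hv x

lemma mu_nonneg (hy : ∀ l, 0 < y l) (x : ℝ) : 0 ≤ mu y x := by
  unfold mu
  refine Finset.sum_nonneg fun l _ => ?_
  have := hy l
  have := Real.exp_pos x
  positivity

lemma mu_lt (hy : ∀ l, 0 < y l) (hv : 1 ≤ vv y 0) (x : ℝ) : mu y x < n := by
  have hn : (Finset.univ : Finset (Fin n)).Nonempty := by
    by_contra h
    rw [Finset.not_nonempty_iff_eq_empty] at h
    have : vv y 0 = 0 := by unfold vv; rw [h, sum_empty]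
    linarith
  unfold mu
  calc ∑ l, y l * Real.exp x / (1 + y l * Real.exp x) < ∑ l : Fin n, (1 : ℝ) := by
        refine Finset.sum_lt_sum_of_nonempty hn fun l _ => ?_
        have := hy l
        have := Real.exp_pos x
        rw [div_lt_one (by positivity)]
        linarith
    _ = n := by simp

lemma mu_incr (hy : ∀ l, 0 < y l) {a b : ℝ} (ha : -(1 / 400) ≤ a) (hab : a ≤ b)
    (hb : b ≤ 1 / 400) : mu y a + 99 / 100 * vv y 0 * (b - a) ≤ mu y b := by
  have h := mono_of_hasDerivAt (f := fun x => mu y x - 99 / 100 * vv y 0 * x)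
    (f' := fun x => vv y x - 99 / 100 * vv y 0 * 1) hab
    (fun x _ => (hasDerivAt_mu hy x).sub ((hasDerivAt_id x).const_mul _))
    (fun x hx => by
      have := (vv_near hy (x := x) (abs_le.2 ⟨by linarith [hx.1], by linarith [hx.2]⟩)).1
      show 0 ≤ vv y x - 99 / 100 * vv y 0 * 1
      linarith)
  linarith

lemma exists_window (hy : ∀ l, 0 < y l) (hv : 8000 ≤ vv y 0) : ∃ a b : ℝ, ∃ A B : ℕ,
    -(1 / 2000) ≤ a ∧ a ≤ -(1 / 4000) ∧ 1 / 4000 ≤ b ∧ b ≤ 1 / 2000 ∧
    mu y a = A - 1 / 2 ∧ mu y b = B + 1 / 2 ∧ 1 ≤ A ∧ A ≤ B ∧ B + 1 ≤ n := by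
  have hv1 : 1 ≤ vv y 0 := by linarith
  have hcont : Continuous (mu y) :=
    continuous_iff_continuousAt.2 fun x => (hasDerivAt_mu hy x).continuousAt
  have h1 := mu_incr hy (a := -(1 / 2000)) (b := -(1 / 4000)) (by norm_num) (by norm_num)
    (by norm_num)
  have h2 := mu_incr hy (a := 1 / 4000) (b := 1 / 2000) (by norm_num) (by norm_num) (by norm_num)
  have h3 := mu_incr hy (a := -(1 / 4000)) (b := 1 / 4000) (by norm_num) (by norm_num)
    (by norm_num)
  have h4 := mu_nonneg hy (-(1 / 2000))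
  have h5 := mu_nonneg hy (1 / 4000)
  have hA1 := Nat.lt_floor_add_one (mu y (-(1 / 2000)) + 1 / 2)
  have hA2 := Nat.floor_le (show 0 ≤ mu y (-(1 / 2000)) + 1 / 2 by linarith)
  have hB1 := Nat.lt_floor_add_one (mu y (1 / 4000) + 1 / 2)
  have hB2 := Nat.floor_le (show 0 ≤ mu y (1 / 4000) + 1 / 2 by linarith)
  set A' : ℕ := ⌊mu y (-(1 / 2000)) + 1 / 2⌋₊ with hA'
  set B : ℕ := ⌊mu y (1 / 4000) + 1 / 2⌋₊ with hB'
  have ha : ((A' + 1 : ℕ) : ℝ) - 1 / 2 ∈ Set.Icc (mu y (-(1 / 2000))) (mu y (-(1 / 4000))) := by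
    push_cast
    constructor <;> linarith
  have hb : (B : ℝ) + 1 / 2 ∈ Set.Icc (mu y (1 / 4000)) (mu y (1 / 2000)) := by
    constructor <;> linarith
  obtain ⟨a, ha1, ha2⟩ := intermediate_value_Icc (by norm_num : (-(1 / 2000) : ℝ) ≤ -(1 / 4000))
    hcont.continuousOn ha
  obtain ⟨b, hb1, hb2⟩ := intermediate_value_Icc (by norm_num : (1 / 4000 : ℝ) ≤ 1 / 2000)
    hcont.continuousOn hb
  refine ⟨a, b, A' + 1, B, ha1.1, ha1.2, hb1.1, hb1.2, ha2, hb2, by omega, ?_, ?_⟩
  · have h6 : ((A' + 1 : ℕ) : ℝ) < B + 1 := by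
      have h7 := ha.2
      have h8 := hb.1
      linarith
    have h7 : A' + 1 < B + 1 := by exact_mod_cast h6
    omega
  · have h6 := mu_lt hy hv1 b
    rw [hb2] at h6
    have h7 : (B : ℝ) < n := by linarith
    have h8 : B < n := by exact_mod_cast h7
    omega

lemma cf_nonneg' (hy : ∀ l, 0 < y l) (k : ℕ) : 0 ≤ cf y k := by
  rcases le_or_gt k n with h | h
  · exact (cf_pos hy h).le
  · rw [cf_eq_zero h]

lemma cf_exp_le (hy : ∀ l, 0 < y l) (k : ℕ) (hk : k ≤ n) (x : ℝ) :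
    cf y k * Real.exp (k * x) ≤ ∏ l, (1 + y l * Real.exp x) := by
  have hdeg : (∏ l, (1 + C (y l) * X) : ℝ[X]).natDegree < n + 1 := by
    refine Nat.lt_succ_of_le ((natDegree_prod_le _ _).trans ?_)
    calc ∑ l : Fin n, (1 + C (y l) * X : ℝ[X]).natDegree ≤ ∑ l : Fin n, 1 := by
          refine Finset.sum_le_sum fun l _ => ?_
          compute_degree
      _ = n := by simp
  have h1 : (∏ l, (1 + C (y l) * X) : ℝ[X]).eval (Real.exp x) = ∏ l, (1 + y l * Real.exp x) := by
    rw [eval_prod]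
    simp
  rw [← h1, eval_eq_sum_range' hdeg]
  have h2 : cf y k * Real.exp (k * x) = (∏ l, (1 + C (y l) * X) : ℝ[X]).coeff k * Real.exp x ^ k := by
    rw [← Real.exp_nat_mul]
    rfl
  rw [h2]
  refine Finset.single_le_sum (f := fun i => (∏ l, (1 + C (y l) * X) : ℝ[X]).coeff i *
    Real.exp x ^ i) (fun i _ => ?_) (Finset.mem_range.2 (by omega))
  exact mul_nonneg (cf_nonneg' hy i) (pow_nonneg (Real.exp_pos x).le _)

lemma log_cf_le (hy : ∀ l, 0 < y l) (k : ℕ) (hk : k ≤ n) (x : ℝ) :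
    Real.log (cf y k) ≤ ∑ l, Real.log (1 + y l * Real.exp x) - k * x := by
  have h1 := cf_exp_le hy k hk x
  have hc := cf_pos hy hk
  have h2 := Real.log_le_log (mul_pos hc (Real.exp_pos _)) h1
  rw [Real.log_mul hc.ne' (Real.exp_pos _).ne', Real.log_exp,
    Real.log_prod (fun l _ => by have := hy l; have := Real.exp_pos x; positivity)] at h2
  linarith

variable (hy : ∀ l, 0 < y l) (hv : 1 ≤ vv y 0)
variable {η : ℝ} (hη : η ≤ 1 / 1000000) (hη0 : 0 < η)
  (hK : ∀ z : ℂ, ‖z‖ < 1 / 400 → ‖KK y z - 1‖ ≤ η)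
variable {r : ℝ} (hr : 10 ^ 18 ≤ r) (hv2 : 49 / 100 * r ≤ vv y 0)

include hy hv hη hη0 hK hr hv2

lemma tail_bound {x : ℝ} (hx : 1 / 4000 ≤ |x|) (hx' : |x| ≤ 1 / 2000) {k : ℕ} (hk : k ≤ n)
    (hkx : 0 ≤ (k - mu y x) * x) :
    cf y k ^ r ≤ ‖cexp (Lam y r ((Real.pi / r : ℝ) * I))‖ *
      Real.exp (-(r * vv y 0 * x ^ 2 / 4) + r * (Real.log (vv y 0) + 2)) := by
  have hr0 : 0 < r := lt_of_lt_of_le (by norm_num) hr
  have hα0 := (alpha_bounds hr).1
  have hc := cf_pos hy hk
  have h1 := log_cf_le hy k hk x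
  have h2 := side_bound hy hv hη hη0 hK hr hv2 hx hx' le_rfl hα0.le
  have h3 := le_re_BB hy hv hη hη0 hK (x := x) (by linarith)
  have hz : ‖(x : ℂ)‖ < 1 / 400 := by
    rw [Complex.norm_real, Real.norm_eq_abs]; linarith
  rw [ofReal_zero, zero_mul, add_zero, Complex.norm_exp] at h2
  have h4 : (Lam y r x).re = r * (∑ l, Real.log (1 + y l * Real.exp x) - x * mu y x + (BB y x).re) +
      Real.log (vv y x) := by
    have hvx := vv_pos_all hy hv x
    unfold Lam EE
    rw [LL_ofReal hy, UU_ofReal, VV_ofReal hy, ← Complex.ofReal_log hvx.le]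
    have e1 : (I * Real.pi * (mu y x : ℂ)).re = 0 := by
      have : (I * Real.pi * (mu y x : ℂ)) = ((Real.pi * mu y x : ℝ) : ℂ) * I := by push_cast; ring
      rw [this, Complex.re_ofReal_mul, Complex.I_re, mul_zero]
    rw [Complex.add_re, Complex.add_re, e1, Complex.re_ofReal_mul, Complex.add_re, Complex.sub_re,
      Complex.ofReal_re, Complex.ofReal_re, ← Complex.ofReal_mul, Complex.ofReal_re]
    ring
  have h5 : 0 ≤ Real.log (vv y x) := by
    apply Real.log_nonneg
    have h6 := (vv_near hy (x := x) (by linarith)).1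
    nlinarith
  have h6 : r * Real.log (cf y k) ≤ (Lam y r x).re + r * (Real.log (vv y 0) + 2) := by
    have h7 : Real.log (cf y k) ≤ ∑ l, Real.log (1 + y l * Real.exp x) - x * mu y x := by linarith
    have h8 : Real.log (cf y k) ≤ (∑ l, Real.log (1 + y l * Real.exp x) - x * mu y x +
      (BB y x).re) + (Real.log (vv y 0) + 2) := by linarith
    have h9 := mul_le_mul_of_nonneg_left h8 hr0.le
    rw [h4]
    linarith
  have h10 : cf y k ^ r = Real.exp (r * Real.log (cf y k)) := by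
    rw [Real.rpow_def_of_pos hc, mul_comm]
  rw [h10]
  calc Real.exp (r * Real.log (cf y k)) ≤
        Real.exp ((Lam y r x).re + r * (Real.log (vv y 0) + 2)) := Real.exp_le_exp.2 h6
    _ = Real.exp (Lam y r x).re * Real.exp (r * (Real.log (vv y 0) + 2)) := Real.exp_add _ _
    _ ≤ (‖cexp (Lam y r ((Real.pi / r : ℝ) * I))‖ * Real.exp (-(r * vv y 0 * x ^ 2 / 4))) *
        Real.exp (r * (Real.log (vv y 0) + 2)) := mul_le_mul_of_nonneg_right h2 (Real.exp_pos _).le
    _ = _ := by rw [mul_assoc, ← Real.exp_add]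

omit hη hη0 hK in
/-- numerical estimates for the errors -/
lemma num_est : 8 * (Real.pi / r) * Real.exp (-(r * vv y 0 / 64000000)) ≤
      1 / 100 / Real.sqrt (r * vv y 0) ∧
    2 * Real.exp (-(r * vv y 0 / 64000000) + r * (Real.log (vv y 0) + 2)) ≤
      1 / 100 / Real.sqrt (r * vv y 0) := by
  obtain ⟨hα0, hα⟩ := alpha_bounds hr
  have hr0 : 0 < r := lt_of_lt_of_le (by norm_num) hr
  have hv0 : 0 < vv y 0 := by linarith
  set v := vv y 0 with hvdef
  set N : ℝ := r * v with hN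
  have hNpos : 0 < N := by positivity
  set S := Real.sqrt N with hS
  have hS0 : 0 < S := Real.sqrt_pos.2 hNpos
  have hS2 : S ^ 2 = N := Real.sq_sqrt hNpos.le
  have hN1 : 1 ≤ N := by rw [hN]; nlinarith
  have hS1 : 1 ≤ S := by rw [hS]; exact Real.one_le_sqrt.2 hN1
  have hSN : S ≤ N := by rw [← hS2]; nlinarith
  constructor
  · have h1 : Real.exp (-(N / 64000000)) ≤ 64000000 / N := by
      rw [Real.exp_neg, ← inv_div N 64000000]
      apply inv_anti₀ (by positivity)
      have := Real.add_one_le_exp (N / 64000000)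
      linarith
    have h2 : 64000000 / N ≤ 64000000 / S := div_le_div_of_nonneg_left (by norm_num) hS0 hSN
    calc 8 * (Real.pi / r) * Real.exp (-(N / 64000000)) ≤ 8 * (1 / 10 ^ 17) * (64000000 / S) :=
          mul_le_mul (by linarith) (h1.trans h2) (Real.exp_pos _).le (by norm_num)
      _ = (8 * (1 / 10 ^ 17) * 64000000) / S := by ring
      _ ≤ 1 / 100 / S := div_le_div_of_nonneg_right (by norm_num) hS0.le
  · set s := Real.sqrt v with hs
    have hs2 : s ^ 2 = v := Real.sq_sqrt hv0.le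
    have hs0 : 0 < s := Real.sqrt_pos.2 hv0
    have hsbig : 7 * 10 ^ 8 ≤ s := by
      rw [hs]
      apply Real.le_sqrt_of_sq_le
      refine le_trans (by norm_num) (le_trans (mul_le_mul_of_nonneg_left hr (by norm_num : (0 : ℝ) ≤ 49 / 100)) hv2)
    have hlog : Real.log v ≤ 2 * s := by
      rw [← hs2, Real.log_pow]
      have := Real.log_le_sub_one_of_pos hs0
      push_cast
      linarith
    have h1 : -(N / 64000000) + r * (Real.log v + 2) ≤ -(r * s) := by
      have h2 : Real.log v + 2 + s ≤ v / 64000000 := by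
        rw [← hs2] at hlog ⊢
        nlinarith
      have h3 := mul_le_mul_of_nonneg_left h2 hr0.le
      rw [hN]
      linarith
    have hrs : 10 ^ 9 * S ≤ r * s := by
      have h2 : (10 ^ 9 * S) ^ 2 ≤ (r * s) ^ 2 := by
        rw [mul_pow, mul_pow, hS2, hs2, hN]
        have h3 : (10 : ℝ) ^ 18 * (r * v) ≤ r * (r * v) :=
          mul_le_mul_of_nonneg_right hr (by positivity)
        calc ((10 : ℝ) ^ 9) ^ 2 * (r * v) = 10 ^ 18 * (r * v) := by norm_num
          _ ≤ r * (r * v) := h3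
          _ = r ^ 2 * v := by ring
      exact le_of_sq_le_sq h2 (by positivity)
    have h3 : Real.exp (-(r * s)) ≤ 1 / (10 ^ 9 * S) := by
      rw [Real.exp_neg, one_div]
      apply inv_anti₀ (by positivity)
      have := Real.add_one_le_exp (r * s)
      linarith
    calc 2 * Real.exp (-(N / 64000000) + r * (Real.log v + 2)) ≤ 2 * (1 / (10 ^ 9 * S)) :=
          mul_le_mul_of_nonneg_left ((Real.exp_le_exp.2 h1).trans h3) (by norm_num)
      _ = (2 / 10 ^ 9) / S := by field_simp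
      _ ≤ 1 / 100 / S := div_le_div_of_nonneg_right (by norm_num) hS0.le

end

end Pool.Agent.LExp
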