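import Mathlib
import Pool.Agent.LExp.Main5

/-!
# Module CaseBMain: large variance, the sign of `ff` from its phase
-/

open Finset Complex Polynomial

namespace Pool.Agent.LExp

section

variable {n : ℕ} {y : Fin n → ℝ}
variable (hy : ∀ l, 0 < y l) (hv : 1 ≤ vv y 0)
variable {η : ℝ} (hη : η ≤ 1 / 1000000) (hη0 : 0 < η)
  (hK : ∀ z : ℂ, ‖z‖ < 1 / 400 → ‖KK y z - 1‖ ≤ η)
variable {r : ℝ} (hr : 10 ^ 18 ≤ r) (hv2 : 49 / 100 * r ≤ vv y 0)

include hy hv hη hη0 hK hr hv2

/-- real part of the main term -/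
lemma main_re {j : ℕ} (hj : |Ph y r 0 - j * Real.pi| ≤ 1 / 2) {a b : ℝ} (ha : -(1 / 2000) ≤ a)
    (ha' : a ≤ -(1 / 4000)) (hb' : 1 / 4000 ≤ b) (hb : b ≤ 1 / 2000) :
    ‖cexp (Lam y r ((Real.pi / r : ℝ) * I))‖ * (21 / 100 / Real.sqrt (r * vv y 0)) ≤
      (-1) ^ j * (∫ x in a..b, GG y r ((Real.pi / r : ℝ) * I + x)).re := by
  obtain ⟨G, hG1, hG2⟩ := top_int hy hv hη hη0 hK hr hv2 ha ha' hb' hb
  have him := Lam_im hy hv hr
  set M : ℂ := ∫ x in a..b, GG y r ((Real.pi / r : ℝ) * I + x) with hM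
  set L : ℂ := Lam y r ((Real.pi / r : ℝ) * I) with hL
  set S : ℝ := Real.sqrt (r * vv y 0) with hS
  have hr0 : 0 < r := lt_of_lt_of_le (by norm_num) hr
  have hS0 : 0 < S := Real.sqrt_pos.2 (by nlinarith)
  have hg : 0 < ‖cexp L‖ := norm_pos_iff.2 (Complex.exp_ne_zero _)
  have h1 : (-1) ^ j * (cexp L * (G : ℂ)).re = ‖cexp L‖ * (G * Real.cos (Ph y r 0 - j * Real.pi)) := by
    rw [mul_comm (cexp L), Complex.re_ofReal_mul, Complex.exp_re, Complex.norm_exp, him,
      Real.cos_sub_nat_mul_pi]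
    ring
  have hcos : 875 / 1000 ≤ Real.cos (Ph y r 0 - j * Real.pi) := by
    have h2 := Real.one_sub_sq_div_two_le_cos (x := Ph y r 0 - j * Real.pi)
    have h3 : (Ph y r 0 - j * Real.pi) ^ 2 ≤ 1 / 4 := by
      rw [← sq_abs]
      have := abs_nonneg (Ph y r 0 - j * Real.pi)
      nlinarith
    linarith
  have h2 : |(-1) ^ j * (M - cexp L * (G : ℂ)).re| ≤ ‖cexp L‖ * (24 / 1000 / S) := by
    rw [abs_mul, abs_pow, abs_neg, abs_one, one_pow, one_mul]
    exact (Complex.abs_re_le_norm _).trans hG2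
  have h3 := (abs_le.1 h2).1
  rw [Complex.sub_re, mul_sub, h1] at h3
  have hG0 : 0 < G := lt_of_lt_of_le (by positivity) hG1
  have h4 : 875 / 1000 * (27 / 100 / S) ≤ G * Real.cos (Ph y r 0 - j * Real.pi) := by
    calc 875 / 1000 * (27 / 100 / S) ≤ 875 / 1000 * G := mul_le_mul_of_nonneg_left hG1 (by norm_num)
      _ = G * (875 / 1000) := mul_comm _ _
      _ ≤ _ := mul_le_mul_of_nonneg_left hcos hG0.le
  have h5 := mul_le_mul_of_nonneg_left h4 hg.le
  have h6 : ‖cexp L‖ * (21 / 100 / S) + ‖cexp L‖ * (24 / 1000 / S) ≤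
      ‖cexp L‖ * (875 / 1000 * (27 / 100 / S)) := by
    rw [← mul_add]
    apply mul_le_mul_of_nonneg_left _ hg.le
    have e : 875 / 1000 * (27 / 100 / S) = (875 / 1000 * (27 / 100)) / S := by ring
    rw [e, ← add_div]
    exact div_le_div_of_nonneg_right (by norm_num) hS0.le
  linarith

lemma ff_pos {j : ℕ} (hj : |Ph y r 0 - j * Real.pi| ≤ 1 / 2) : 0 < (-1) ^ j * ff y r 0 := by
  have hr0 : 0 < r := lt_of_lt_of_le (by norm_num) hr
  obtain ⟨hα0, hα⟩ := alpha_bounds hr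
  have hpi := Real.pi_pos
  obtain ⟨a, b, A, B, ha, ha', hb', hb, hmA, hmB, hA1, hAB, hBn⟩ :=
    exists_window hy (show 8000 ≤ vv y 0 by linarith)
  have hab : a < b := by linarith
  have hmono := strictMono_mu hy hv
  have hball : ∀ z : ℂ, -(1 / 1000) < z.re → z.re < 1 / 1000 → |z.im| < 1 / 1000 →
      ‖z‖ < 1 / 400 := by
    intro z h1 h2 h3
    refine lt_of_le_of_lt (Complex.norm_le_abs_re_add_abs_im z) ?_
    have := abs_lt.2 ⟨h1, h2⟩
    linarith
  -- the contour integral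
  obtain ⟨ζ, hζ, hsum⟩ := contour (U := UU y) (U' := VV y) (H := fun z => cexp (EE y r z))
    (a := a) (b := b) (a' := -(1 / 1000)) (b' := 1 / 1000) (h := Real.pi / r) (h' := 1 / 1000)
    (A := A) (B := B) (by linarith) hab (by linarith) hα0 (by linarith)
    (fun z h1 h2 h3 => hasDerivAt_UU hy (by linarith))
    (fun z h1 h2 h3 => (hasDerivAt_EE hy hv hη hη0 hK r (hball z h1 h2 h3)).differentiableAt.cexp)
    (fun z h1 h2 h3 => re_VV_pos hy hv (hball z h1 h2 h3))
    (fun x _ _ => by rw [UU_ofReal, ofReal_im])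
    (by rw [UU_ofReal, hmA]; push_cast; rfl)
    (by rw [UU_ofReal, hmB]; push_cast; rfl)
  have hev := rect_eval hy hv hη hη0 hK hr hv2 ha hab.le hb
  have hFF : (fun z : ℂ => cexp (EE y r z) * VV y z * (Real.pi / Complex.sin (Real.pi * UU y z))) =
      FF y r := rfl
  rw [hFF, hev] at hsum
  have hW : ∑ k ∈ Finset.Icc A B, (-1) ^ k * cexp (EE y r (ζ k)) =
      ((∑ k ∈ Finset.Icc A B, (-1) ^ k * cf y k ^ r : ℝ) : ℂ) := by
    rw [Complex.ofReal_sum]
    refine Finset.sum_congr rfl fun k hk => ?_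
    obtain ⟨h1, h2, h3⟩ := hζ k hk
    rw [UU_ofReal] at h3
    have h4 : mu y (ζ k) = k := by exact_mod_cast h3
    have h5 : k ≤ n := by
      have := (Finset.mem_Icc.1 hk).2
      omega
    have h6 := exp_eq_cf_rpow hy hv hη hη0 hK (x := ζ k)
      (abs_lt.2 ⟨by linarith, by linarith⟩) h4 h5 r
    unfold EE
    rw [h6]
    push_cast
    rfl
  rw [hW] at hsum
  set W : ℝ := ∑ k ∈ Finset.Icc A B, (-1) ^ k * cf y k ^ r with hWdef
  set M : ℂ := ∫ x in a..b, GG y r ((Real.pi / r : ℝ) * I + x) with hM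
  set T1 : ℂ := ∫ t in (-(Real.pi / r))..(Real.pi / r), FF y r (b + t * I) with hT1
  set T2 : ℂ := ∫ t in (-(Real.pi / r))..(Real.pi / r), FF y r (a + t * I) with hT2
  have hWM : |W - 2 * M.re| ≤ ‖(1 / (2 * Real.pi) * (T1 - T2) : ℂ)‖ := by
    have h1 : (((W - 2 * M.re : ℝ)) : ℂ) = 1 / (2 * Real.pi) * (T1 - T2) := by
      push_cast
      push_cast at hsum
      linear_combination hsum
    rw [← h1, Complex.norm_real, Real.norm_eq_abs]
  -- the sides
  have habs_a : |a| = -a := abs_of_nonpos (by linarith)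
  have habs_b : |b| = b := abs_of_nonneg (by linarith)
  have hs1 := side_int hy hv hη hη0 hK hr hv2 (x := b) (by rw [habs_b]; exact hb')
    (by rw [habs_b]; exact hb) (k := (B : ℤ)) (by rw [hmB]; push_cast; rfl)
  have hs2 := side_int hy hv hη hη0 hK hr hv2 (x := a) (by rw [habs_a]; linarith)
    (by rw [habs_a]; linarith) (k := (A : ℤ) - 1) (by rw [hmA]; push_cast; ring)
  rw [← hT1] at hs1
  rw [← hT2] at hs2
  -- the tails
  have ht1 := tail_bound hy hv hη hη0 hK hr hv2 (x := b) (by rw [habs_b]; exact hb')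
    (by rw [habs_b]; exact hb) (k := B + 1) hBn
    (by rw [hmB]; push_cast; nlinarith)
  have ht2 := tail_bound hy hv hη hη0 hK hr hv2 (x := a) (by rw [habs_a]; linarith)
    (by rw [habs_a]; linarith) (k := A - 1) (by omega)
    (by
      rw [hmA, Nat.cast_sub hA1]
      push_cast
      nlinarith)
  have hnum := num_est hy hv hr hv2
  have hmain := main_re hy hv hη hη0 hK hr hv2 hj ha ha' hb' hb
  rw [← hM] at hmain
  set g : ℝ := ‖cexp (Lam y r ((Real.pi / r : ℝ) * I))‖ with hg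
  have hg0 : 0 < g := norm_pos_iff.2 (Complex.exp_ne_zero _)
  set N : ℝ := r * vv y 0 with hN
  have hN0 : 0 < N := by nlinarith
  set S : ℝ := Real.sqrt N with hS
  have hS0 : 0 < S := Real.sqrt_pos.2 hN0
  have hsq : ∀ x : ℝ, 1 / 4000 ≤ |x| → N / 64000000 ≤ N * x ^ 2 / 4 := by
    intro x hx
    have h1 : (1 / 4000 : ℝ) ^ 2 ≤ x ^ 2 := by
      rw [← sq_abs x]
      exact pow_le_pow_left₀ (by norm_num) hx 2
    nlinarith
  have hqb := hsq b (by rw [habs_b]; exact hb')
  have hqa := hsq a (by rw [habs_a]; linarith)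
  set e0 : ℝ := Real.exp (-(N / 64000000)) with he0
  have hside : |W - 2 * M.re| ≤ g * (1 / 100 / S) := by
    refine hWM.trans ?_
    have h1 : ‖(1 / (2 * Real.pi) : ℂ)‖ = 1 / (2 * Real.pi) := by
      rw [norm_div, norm_one, norm_mul, Complex.norm_ofNat, Complex.norm_real,
        Real.norm_of_nonneg hpi.le]
    rw [norm_mul, h1]
    have h2 : ‖T1‖ ≤ 8 * Real.pi * (Real.pi / r) * (g * e0) := by
      refine hs1.trans ?_
      apply mul_le_mul_of_nonneg_left _ (by positivity)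
      apply mul_le_mul_of_nonneg_left _ hg0.le
      exact Real.exp_le_exp.2 (by linarith)
    have h3 : ‖T2‖ ≤ 8 * Real.pi * (Real.pi / r) * (g * e0) := by
      refine hs2.trans ?_
      apply mul_le_mul_of_nonneg_left _ (by positivity)
      apply mul_le_mul_of_nonneg_left _ hg0.le
      exact Real.exp_le_exp.2 (by linarith)
    have h4 : ‖T1 - T2‖ ≤ 2 * (8 * Real.pi * (Real.pi / r) * (g * e0)) :=
      (norm_sub_le _ _).trans (by linarith)
    calc 1 / (2 * Real.pi) * ‖T1 - T2‖ ≤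
          1 / (2 * Real.pi) * (2 * (8 * Real.pi * (Real.pi / r) * (g * e0))) :=
          mul_le_mul_of_nonneg_left h4 (by positivity)
      _ = g * (8 * (Real.pi / r) * e0) := by
          field_simp
      _ ≤ g * (1 / 100 / S) := mul_le_mul_of_nonneg_left hnum.1 hg0.le
  have htail : cf y (A - 1) ^ r + cf y (B + 1) ^ r ≤ g * (1 / 100 / S) := by
    have h1 : cf y (B + 1) ^ r ≤ g * Real.exp (-(N / 64000000) + r * (Real.log (vv y 0) + 2)) := by
      refine ht1.trans (mul_le_mul_of_nonneg_left (Real.exp_le_exp.2 ?_) hg0.le)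
      linarith
    have h2 : cf y (A - 1) ^ r ≤ g * Real.exp (-(N / 64000000) + r * (Real.log (vv y 0) + 2)) := by
      refine ht2.trans (mul_le_mul_of_nonneg_left (Real.exp_le_exp.2 ?_) hg0.le)
      linarith
    have h3 := mul_le_mul_of_nonneg_left hnum.2 hg0.le
    linarith
  -- monotonicity outside the window
  have hout := outer_sums_le hy hr0 hA1 hAB hBn
    (fun k hk => by
      have hkn : k + 1 ≤ n := by omega
      have h1 := mu_le hy hkn
      have h2 : ((k : ℝ) + 1) ≤ A - 1 := by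
        have : k + 1 + 1 ≤ A := hk
        have : ((k + 1 + 1 : ℕ) : ℝ) ≤ A := by exact_mod_cast this
        push_cast at this
        linarith
      have h3 : mu y (Real.log (cf y k / cf y (k + 1))) < mu y 0 := by
        have h4 : mu y a < mu y 0 := hmono (by linarith)
        linarith
      have h5 := hmono.lt_iff_lt.1 h3
      have hc1 := cf_pos hy (k := k) (by omega)
      have hc2 := cf_pos hy hkn
      rw [Real.log_div hc1.ne' hc2.ne'] at h5
      exact ((Real.log_lt_log_iff hc1 hc2).1 (by linarith)).le)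
    (fun k hk hkn => by
      have h1 := le_mu hy hkn
      have h2 : (B : ℝ) + 1 ≤ k := by exact_mod_cast hk
      have h3 : mu y 0 < mu y (Real.log (cf y k / cf y (k + 1))) := by
        have h4 : mu y 0 < mu y b := hmono (by linarith)
        linarith
      have h5 := hmono.lt_iff_lt.1 h3
      have hc1 := cf_pos hy (k := k) (by omega)
      have hc2 := cf_pos hy hkn
      rw [Real.log_div hc1.ne' hc2.ne'] at h5
      exact ((Real.log_lt_log_iff hc2 hc1).1 (by linarith)).le)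
  rw [← hWdef] at hout
  have hs : ∀ w : ℝ, |(-1) ^ j * w| = |w| := by
    intro w
    rw [abs_mul, abs_pow, abs_neg, abs_one, one_pow, one_mul]
  have h1 := (abs_le.1 ((hs (ff y r 0 - W)).trans_le (hout.trans htail))).1
  have h2 := (abs_le.1 ((hs (W - 2 * M.re)).trans_le hside)).1
  have e : (-1) ^ j * ff y r 0 = (-1) ^ j * (ff y r 0 - W) + (-1) ^ j * (W - 2 * M.re) +
      2 * ((-1) ^ j * M.re) := by ring
  rw [e]
  have h3 : 0 < g / S := by positivity
  have h4 : g * (1 / 100 / S) = 1 / 100 * (g / S) := by ring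
  have h5 : g * (21 / 100 / S) = 21 / 100 * (g / S) := by ring
  rw [h4] at h1 h2
  rw [h5] at hmain
  linarith

end

/-- explicit form -/
theorem caseB_main' (r : ℝ) (hr : 10 ^ 23 ≤ r) (n : ℕ) (y : Fin n → ℝ) (hy : ∀ l, 0 < y l)
    (hv2 : 49 / 100 * r ≤ vv y 0) (j : ℕ) (hj : |Ph y r 0 - j * Real.pi| ≤ 1 / 2) :
    0 < (-1) ^ j * ff y r 0 := by
  have hV : 2 * 10 ^ 22 ≤ vv y 0 := by linarith
  exact ff_pos hy (by linarith) le_rfl (by norm_num) (good_of_large n y hy hV) (by linarith) hv2 hj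

theorem caseB_main : ∃ R : ℝ, ∀ r : ℝ, R ≤ r → ∀ (n : ℕ) (y : Fin n → ℝ), (∀ l, 0 < y l) →
    49 / 100 * r ≤ vv y 0 → ∀ j : ℕ, |Ph y r 0 - j * Real.pi| ≤ 1 / 2 →
    0 < (-1) ^ j * ff y r 0 := ⟨10 ^ 23, caseB_main'⟩

end Pool.Agent.LExp
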