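import Mathlib
import Pool.Agent.LExp.CaseBMain

/-!
# Module CaseB: choice of the sample point for large variance

PAPER PROOF.  `α = π/r`, `r ≥ R` large.  Take `s₋ < s₀ < s₊` with `Th s_± = (j+1) α ± α/2`
(`exists_Th_eq`, `strictMono_Th`).  As `Th' ≥ sin α * vv` and `vv (s) ≥ e^{-|s-s₀|} vv s₀`,
`|s - s₀| ≤ 2/r` on `[s₋,s₊]` and there `vv s ≥ 0.49 r`.
`Ph` is continuous on `[s₋,s₊]` (`DD` is differentiable there: `KK` is differentiable by
`differentiableAt_JJ`, and `‖KK - 1‖ ≤ 1/2` by `KK_est`).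
`DD` is real on the real axis (`JJ_conj` gives `JJ` real, `KK` real and near `1`), differentiable on
the ball of radius `1/800` about `s`, where `‖DD‖ ≤ 4 C/√r`; Cauchy's estimate
(`Complex.norm_deriv_le_of_forall_mem_sphere_norm_le`) gives `‖DD'‖ ≤ 1600 * 4 C/√r` on the ball of
radius `1/1600`, so `r |Im DD (s + iα)| ≤ π * 6400 C/√r ≤ 1/8`.
By `abs_arg_VV_le`, `|(r/2 - 1) Im log VV| ≤ π/2`.  So `Ph s₊ ≥ (j+1) π - 1/8`, `Ph s₋ ≤ (j+1) π + 1/8`, and
by the intermediate value theorem some `s ∈ [s₋,s₊]` has `|Ph s - (j+1) π| ≤ 1/8`.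
Apply `caseB_main` to the tilted data `y_l e^s` (the `_tilt` lemmas in `ThProp`).
-/

open Finset Complex Polynomial

namespace Pool.Agent.LExp

section caseB

variable {n : ℕ} {y : Fin n → ℝ}

private lemma cb_vv_ge (hy : ∀ l, 0 < y l) (s t : ℝ) :
    Real.exp (-|t - s|) * vv y s ≤ vv y t := by
  have h := vv_shift hy t (s - t)
  rw [add_sub_cancel, abs_sub_comm] at h
  calc Real.exp (-|t - s|) * vv y s ≤ Real.exp (-|t - s|) * (Real.exp |t - s| * vv y t) :=
        mul_le_mul_of_nonneg_left h (Real.exp_pos _).le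
    _ = vv y t := by rw [← mul_assoc, ← Real.exp_add, neg_add_cancel, Real.exp_zero, one_mul]

private lemma cb_re_VV (hy : ∀ l, 0 < y l) {z : ℂ} (hz : |z.im| ≤ 1) (hv : 0 < vv y z.re) :
    0 < (VV y z).re :=
  lt_of_lt_of_le (mul_pos (cos_pos_of hz) hv) (le_re_VV hy hz)

private lemma cb_slit (hy : ∀ l, 0 < y l) {z : ℂ} (hz : |z.im| ≤ 1) (hv : 0 < vv y z.re) :
    2 * (Real.pi : ℂ) * VV y z ∈ slitPlane := by
  refine Or.inl ?_
  have e : 2 * (Real.pi : ℂ) * VV y z = ((2 * Real.pi : ℝ) : ℂ) * VV y z := by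
    push_cast
    rfl
  rw [e, re_ofReal_mul]
  have := cb_re_VV hy hz hv
  have := Real.pi_pos
  positivity

private lemma cb_diff_KK (hy : ∀ l, 0 < y l) {z : ℂ} (hz : |z.im| < 1) (hv : 0 < vv y z.re) :
    DifferentiableAt ℂ (KK y) z := by
  have h1 := differentiableAt_JJ hy hz
  have h2 := (hasDerivAt_VV hy hz.le).differentiableAt
  have h3 : DifferentiableAt ℂ (fun z => 2 * (Real.pi : ℂ) * VV y z) z := h2.const_mul _
  exact h1.mul (((h3.clog (cb_slit hy hz.le hv)).div_const 2).cexp)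

private lemma cb_KK_im (hy : ∀ l, 0 < y l) {s : ℝ} (hv : 0 < vv y s) :
    (KK y (s : ℂ)).im = 0 := by
  have h1 : (JJ y (s : ℂ)).im = 0 := by
    have h2 := JJ_conj hy (z := (s : ℂ)) (by simp)
    rw [conj_ofReal] at h2
    exact conj_eq_iff_im.mp h2.symm
  have h3 : cexp (Complex.log (2 * Real.pi * VV y (s : ℂ)) / 2) =
      ((Real.exp (Real.log (2 * Real.pi * vv y s) / 2) : ℝ) : ℂ) := by
    have h4 : 0 ≤ 2 * Real.pi * vv y s := by
      have := Real.pi_pos
      positivity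
    rw [VV_ofReal hy, ofReal_exp, ofReal_div, ofReal_log h4]
    push_cast
    rfl
  unfold KK
  rw [h3, im_mul_ofReal, h1, zero_mul]

/-- the estimate for `KK` on small balls -/
private lemma cb_KK {C V₁ : ℝ} (hC : 0 < C)
    (hK : ∀ (n : ℕ) (y : Fin n → ℝ), (∀ l, 0 < y l) →
      ∀ z : ℂ, |z.im| ≤ 1 / 400 → V₁ ≤ vv y z.re → ‖KK y z - 1‖ ≤ C / Real.sqrt (vv y z.re))
    {r : ℝ} (hr : 0 < r) (hr1 : V₁ ≤ 2 / 5 * r) (hr2 : (100000 * C) ^ 2 ≤ 2 / 5 * r)
    (hy : ∀ l, 0 < y l) {s : ℝ} (hs : 49 / 100 * r ≤ vv y s) {z : ℂ} (hz : ‖z - s‖ ≤ 1 / 800) :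
    |z.im| ≤ 1 / 800 ∧ 0 < vv y z.re ∧ ‖KK y z - 1‖ ≤ 1 / 100000 := by
  have him : |z.im| ≤ 1 / 800 := by
    have h1 := abs_im_le_norm (z - s)
    rw [sub_im, ofReal_im, sub_zero] at h1
    exact h1.trans hz
  have hre : |z.re - s| ≤ 1 / 800 := by
    have h1 := abs_re_le_norm (z - s)
    rw [sub_re, ofReal_re] at h1
    exact h1.trans hz
  have hv : 2 / 5 * r ≤ vv y z.re := by
    have h1 := cb_vv_ge hy s z.re
    have h2 : 799 / 800 ≤ Real.exp (-|z.re - s|) := by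
      have h3 := Real.add_one_le_exp (-|z.re - s|)
      linarith
    calc 2 / 5 * r ≤ 799 / 800 * (49 / 100 * r) := by nlinarith
      _ ≤ Real.exp (-|z.re - s|) * vv y s := by
          refine mul_le_mul h2 hs (by positivity) (Real.exp_pos _).le
      _ ≤ _ := h1
  refine ⟨him, lt_of_lt_of_le (by positivity) hv, ?_⟩
  refine (hK n y hy z (him.trans (by norm_num)) (hr1.trans hv)).trans ?_
  have h4 : 100000 * C ≤ Real.sqrt (vv y z.re) :=
    Real.le_sqrt_of_sq_le (hr2.trans hv)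
  have h5 : 0 < Real.sqrt (vv y z.re) := lt_of_lt_of_le (by positivity) h4
  rw [div_le_div_iff₀ h5 (by norm_num)]
  linarith

/-- the imaginary part of `DD` is small -/
private lemma cb_im_DD {C V₁ : ℝ} (hC : 0 < C)
    (hK : ∀ (n : ℕ) (y : Fin n → ℝ), (∀ l, 0 < y l) →
      ∀ z : ℂ, |z.im| ≤ 1 / 400 → V₁ ≤ vv y z.re → ‖KK y z - 1‖ ≤ C / Real.sqrt (vv y z.re))
    {r : ℝ} (hr : 0 < r) (hr1 : V₁ ≤ 2 / 5 * r) (hr2 : (100000 * C) ^ 2 ≤ 2 / 5 * r)
    (hy : ∀ l, 0 < y l) {s : ℝ} (hs : 49 / 100 * r ≤ vv y s) {α : ℝ} (hα0 : 0 ≤ α)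
    (hα : α < 1 / 800) :
    |(DD y (s + α * I)).im| ≤ 4 / 125 * α ∧ ContinuousAt (DD y) (s + α * I) := by
  have key : ∀ z : ℂ, ‖z - s‖ ≤ 1 / 800 → DifferentiableAt ℂ (DD y) z ∧ ‖DD y z‖ ≤ 3 / 200000 := by
    intro z hz
    obtain ⟨h1, h2, h3⟩ := cb_KK hC hK hr hr1 hr2 hy hs hz
    have e : KK y z = 1 + (KK y z - 1) := by ring
    constructor
    · refine (cb_diff_KK hy (lt_of_le_of_lt h1 (by norm_num)) h2).clog ?_
      rw [e]
      exact mem_slitPlane_of_norm_lt_one (lt_of_le_of_lt h3 (by norm_num))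
    · unfold DD
      rw [e]
      refine (norm_log_one_add_half_le_self (h3.trans (by norm_num))).trans ?_
      linarith
  have h0 : ‖((s : ℂ) + α * I) - s‖ = α := by
    rw [add_sub_cancel_left, norm_mul, norm_I, mul_one, norm_real, Real.norm_of_nonneg hα0]
  have hreal : (DD y (s : ℂ)).im = 0 := by
    obtain ⟨h1, h2, h3⟩ := cb_KK hC hK hr hr1 hr2 hy hs (z := (s : ℂ)) (by simp)
    rw [ofReal_re] at h2
    unfold DD
    rw [log_im, arg_eq_zero_iff]
    refine ⟨?_, cb_KK_im hy h2⟩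
    have h4 := abs_re_le_norm (KK y (s : ℂ) - 1)
    rw [sub_re, one_re] at h4
    have h5 := (abs_le.1 (h4.trans h3)).1
    linarith
  constructor
  · have hd : DifferentiableOn ℂ (DD y) (Metric.ball (s : ℂ) (1 / 800)) := fun z hz =>
      (key z (by
        rw [Metric.mem_ball, dist_eq_norm] at hz
        exact hz.le)).1.differentiableWithinAt
    have hm : Set.MapsTo (DD y) (Metric.ball (s : ℂ) (1 / 800))
        (Metric.closedBall (DD y (s : ℂ)) (1 / 25000)) := by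
      intro z hz
      rw [Metric.mem_ball, dist_eq_norm] at hz
      rw [Metric.mem_closedBall, dist_eq_norm]
      have h1 := (key z hz.le).2
      have h2 := (key (s : ℂ) (by simp)).2
      have h3 := norm_sub_le (DD y z) (DD y (s : ℂ))
      linarith
    have h1 := dist_le_div_mul_dist_of_mapsTo_ball hd hm (z := (s : ℂ) + α * I) (by
      rw [Metric.mem_ball, dist_eq_norm, h0]
      exact hα)
    rw [dist_eq_norm, dist_eq_norm, h0] at h1
    have h2 := abs_im_le_norm (DD y ((s : ℂ) + α * I) - DD y (s : ℂ))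
    rw [sub_im, hreal, sub_zero] at h2
    refine h2.trans (h1.trans (le_of_eq ?_))
    norm_num
  · exact (key _ (by rw [h0]; exact hα.le)).1.continuousAt

end caseB

/-- explicit form -/
theorem caseB' (r : ℝ) (hr : 10 ^ 23 ≤ r) (n : ℕ) (y : Fin n → ℝ) (hy : ∀ l, 0 < y l)
    (j : ℕ) (hj : j + 2 ≤ n) (s₀ : ℝ) (hs₀ : Th y (Real.pi / r) s₀ = (j + 1) * (Real.pi / r))
    (hv₀ : r / 2 ≤ vv y s₀) :
    ∃ s : ℝ, |Th y (Real.pi / r) s - (j + 1) * (Real.pi / r)| ≤ Real.pi / r / 2 ∧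
      0 < (-1) ^ (j + 1) * ff y r s := by
  have hmain := caseB_main' r hr
  obtain ⟨C, hCdef⟩ : ∃ C : ℝ, C = 100000 := ⟨_, rfl⟩
  obtain ⟨V₁, hV₁def⟩ : ∃ V₁ : ℝ, V₁ = 1 := ⟨_, rfl⟩
  have hC : 0 < C := by rw [hCdef]; norm_num
  have hK : ∀ (n : ℕ) (y : Fin n → ℝ), (∀ l, 0 < y l) →
      ∀ z : ℂ, |z.im| ≤ 1 / 400 → V₁ ≤ vv y z.re → ‖KK y z - 1‖ ≤ C / Real.sqrt (vv y z.re) := by
    rw [hCdef, hV₁def]
    exact KK_est'
  have hr3 : 3000 ≤ r := by linarith
  have hrV : V₁ ≤ 2 / 5 * r := by rw [hV₁def]; linarith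
  have hrC : (100000 * C) ^ 2 ≤ 2 / 5 * r := by
    rw [hCdef]
    refine le_trans (by norm_num) (mul_le_mul_of_nonneg_left hr (by norm_num))
  have hr0 : 0 < r := by linarith
  have hn : 0 < n := by omega
  have hpi := Real.pi_pos
  have hpi4 : Real.pi < 3.15 := Real.pi_lt_d2
  obtain ⟨α, hα⟩ : ∃ α, α = Real.pi / r := ⟨_, rfl⟩
  rw [← hα] at hs₀ ⊢
  have hα0 : 0 < α := by rw [hα]; positivity
  have hrα : r * α = Real.pi := by rw [hα]; field_simp
  have hα800 : α < 1 / 800 := by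
    rw [hα, div_lt_div_iff₀ hr0 (by norm_num)]
    linarith
  have hα1 : α ≤ 1 := by linarith
  have hsin : 2 / Real.pi * α ≤ Real.sin α := Real.mul_le_sin hα0.le (by linarith [Real.pi_gt_three])
  have hmono := strictMono_Th hn hy hα0 hα1
  -- the increment of `Th` over an interval of length `2/r`
  have hinc : ∀ a b : ℝ, b - a = 2 / r → (∀ c, a ≤ c → c ≤ b → |c - s₀| ≤ 2 / r) →
      α / 2 < Th y α b - Th y α a := by
    intro a b hab hc
    have hab' : a < b := by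
      have : 0 < 2 / r := by positivity
      linarith
    obtain ⟨c, hc1, hc2⟩ := exists_hasDerivAt_eq_slope (Th y α) (fun s => (UU y (s + α * I)).im) hab'
      (fun x _ => (hasDerivAt_Th hy hα0 hα1 x).continuousAt.continuousWithinAt)
      (fun x _ => hasDerivAt_Th hy hα0 hα1 x)
    have h1 := le_im_UU hy hα0 hα1 c
    have h2 := cb_vv_ge hy s₀ c
    have h3 : 9 / 10 ≤ Real.exp (-|c - s₀|) := by
      have h4 := Real.add_one_le_exp (-|c - s₀|)
      have h5 := hc c hc1.1.le hc1.2.le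
      have h6 : 2 / r ≤ 1 / 10 := by
        rw [div_le_div_iff₀ hr0 (by norm_num)]
        linarith
      linarith
    have h4 : 9 / 20 * r ≤ vv y c := by
      calc 9 / 20 * r = 9 / 10 * (r / 2) := by ring
        _ ≤ Real.exp (-|c - s₀|) * vv y s₀ := mul_le_mul h3 hv₀ (by positivity) (Real.exp_pos _).le
        _ ≤ _ := h2
    have h5 : Th y α b - Th y α a = (UU y (c + α * I)).im * (2 / r) := by
      rw [hc2, hab]
      field_simp
    rw [h5]
    have hs0 : 0 ≤ Real.sin α := (by positivity : (0 : ℝ) ≤ 2 / Real.pi * α).trans hsin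
    have h6 : 2 / Real.pi * α * (9 / 20 * r) ≤ (UU y (c + α * I)).im :=
      (mul_le_mul hsin h4 (by positivity) hs0).trans h1
    have h7 : 2 / Real.pi * α * (9 / 20 * r) * (2 / r) = 9 / 5 * α / Real.pi := by
      field_simp
      ring
    have h8 : 2 / Real.pi * α * (9 / 20 * r) * (2 / r) ≤ (UU y (c + α * I)).im * (2 / r) :=
      mul_le_mul_of_nonneg_right h6 (by positivity)
    rw [h7] at h8
    refine lt_of_lt_of_le ?_ h8
    rw [div_lt_div_iff₀ (by norm_num) hpi]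
    nlinarith
  have hjn : (j : ℝ) + 2 ≤ n := by exact_mod_cast hj
  obtain ⟨sm, hsm⟩ := exists_Th_eq hy hα0 hα1 (t := (j + 1 / 2) * α) (by positivity) (by nlinarith)
  obtain ⟨sp, hsp⟩ := exists_Th_eq hy hα0 hα1 (t := (j + 3 / 2) * α) (by positivity) (by nlinarith)
  have hr2 : 0 < 2 / r := by positivity
  have hm0 : sm < s₀ := by
    rw [← hmono.lt_iff_lt, hsm, hs₀]
    nlinarith
  have hp0 : s₀ < sp := by
    rw [← hmono.lt_iff_lt, hsp, hs₀]
    nlinarith
  have hp2 : sp < s₀ + 2 / r := by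
    rw [← hmono.lt_iff_lt, hsp]
    have h1 := hinc s₀ (s₀ + 2 / r) (by ring) (fun c h1 h2 => by
      rw [abs_of_nonneg (by linarith)]
      linarith)
    rw [hs₀] at h1
    linarith
  have hm2 : s₀ - 2 / r < sm := by
    rw [← hmono.lt_iff_lt, hsm]
    have h1 := hinc (s₀ - 2 / r) s₀ (by ring) (fun c h1 h2 => by
      rw [abs_of_nonpos (by linarith)]
      linarith)
    rw [hs₀] at h1
    linarith
  have hvs : ∀ s ∈ Set.Icc sm sp, 49 / 100 * r ≤ vv y s := by
    intro s hs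
    have h1 := cb_vv_ge hy s₀ s
    have h2 : |s - s₀| ≤ 2 / r := abs_le.2 ⟨by linarith [hs.1], by linarith [hs.2]⟩
    have h3 := Real.add_one_le_exp (-|s - s₀|)
    have h4 : (1 - 2 / r) * (r / 2) ≤ vv y s :=
      (mul_le_mul (by linarith) hv₀ (by positivity) (Real.exp_pos _).le).trans h1
    have h5 : (1 - 2 / r) * (r / 2) = r / 2 - 1 := by
      field_simp
    rw [h5] at h4
    linarith
  have hTh : ∀ s ∈ Set.Icc sm sp, |Th y α s - (j + 1) * α| ≤ α / 2 := by
    intro s hs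
    have h1 := hmono.monotone hs.1
    have h2 := hmono.monotone hs.2
    rw [hsm] at h1
    rw [hsp] at h2
    rw [abs_le]
    constructor <;> linarith
  -- the phase
  have hPh : ∀ s, Ph y r s = r * Th y α s - (r / 2 - 1) * (Complex.log (VV y (s + α * I))).im +
      r * (DD y (s + α * I)).im := by
    intro s
    rw [Ph, hα]
  have hcont : ContinuousOn (Ph y r) (Set.Icc sm sp) := by
    intro s hs
    refine ContinuousAt.continuousWithinAt ?_
    have e : Ph y r = fun s : ℝ => r * Th y α s - (r / 2 - 1) *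
        (Complex.log (VV y (s + α * I))).im + r * (DD y (s + α * I)).im := funext hPh
    rw [e]
    have hz : |((s : ℂ) + α * I).im| ≤ 1 := by
      simp only [add_im, ofReal_im, mul_im, ofReal_re, I_im, mul_one, I_re, mul_zero, add_zero,
        zero_add]
      rw [abs_of_pos hα0]
      exact hα1
    have hre : ((s : ℂ) + α * I).re = s := by
      simp
    have hv : 0 < vv y ((s : ℂ) + α * I).re := by
      rw [hre]
      exact lt_of_lt_of_le (by positivity) (hvs s hs)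
    have hc0 : ContinuousAt (fun s : ℝ => (s : ℂ) + α * I) s := by fun_prop
    have hc1 : ContinuousAt (Th y α) s := (hasDerivAt_Th hy hα0 hα1 s).continuousAt
    have hc2 : ContinuousAt (fun s : ℝ => VV y (s + α * I)) s :=
      ContinuousAt.comp (g := VV y) (hasDerivAt_VV hy hz).continuousAt hc0
    have hc3 : ContinuousAt (fun s : ℝ => Complex.log (VV y (s + α * I))) s :=
      hc2.clog (Or.inl (cb_re_VV hy hz hv))
    have hc4 : ContinuousAt (fun s : ℝ => DD y (s + α * I)) s :=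
      ContinuousAt.comp (g := DD y)
        (cb_im_DD hC hK hr0 hrV hrC hy (hvs s hs) hα0.le hα800).2 hc0
    have hc5 : ContinuousAt (fun s : ℝ => (Complex.log (VV y (s + α * I))).im) s :=
      continuous_im.continuousAt.comp hc3
    have hc6 : ContinuousAt (fun s : ℝ => (DD y (s + α * I)).im) s :=
      continuous_im.continuousAt.comp hc4
    exact ((continuousAt_const.mul hc1).sub (continuousAt_const.mul hc5)).add
      (continuousAt_const.mul hc6)
  have hlog : ∀ s : ℝ, |(r / 2 - 1) * (Complex.log (VV y (s + α * I))).im| ≤ Real.pi / 2 := by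
    intro s
    rw [abs_mul, abs_of_nonneg (by linarith : 0 ≤ r / 2 - 1)]
    have h1 := abs_arg_VV_le hn hy hα0 hα1 s
    calc (r / 2 - 1) * |(Complex.log (VV y (s + α * I))).im| ≤ (r / 2 - 1) * α :=
          mul_le_mul_of_nonneg_left h1 (by linarith)
      _ ≤ Real.pi / 2 := by
          rw [← hrα]
          nlinarith
  have hDD : ∀ s ∈ Set.Icc sm sp, |r * (DD y (s + α * I)).im| ≤ 1 / 8 := by
    intro s hs
    rw [abs_mul, abs_of_pos hr0]
    have h1 := (cb_im_DD hC hK hr0 hrV hrC hy (hvs s hs) hα0.le hα800).1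
    calc r * |(DD y (s + α * I)).im| ≤ r * (4 / 125 * α) := mul_le_mul_of_nonneg_left h1 hr0.le
      _ = 4 / 125 * Real.pi := by rw [← hrα]; ring
      _ ≤ 1 / 8 := by linarith
  have hmp : sm ≤ sp := (hm0.trans hp0).le
  have hPm : Ph y r sm ≤ (j + 1) * Real.pi + 1 / 8 := by
    have h1 := (abs_le.1 (hlog sm)).1
    have h2 := (abs_le.1 (hDD sm ⟨le_refl _, hmp⟩)).2
    rw [hPh, hsm]
    have h3 : r * ((j + 1 / 2) * α) = (j + 1 / 2) * Real.pi := by rw [← hrα]; ring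
    rw [h3]
    linarith
  have hPp : (j + 1) * Real.pi - 1 / 8 ≤ Ph y r sp := by
    have h1 := (abs_le.1 (hlog sp)).2
    have h2 := (abs_le.1 (hDD sp ⟨hmp, le_refl _⟩)).1
    rw [hPh, hsp]
    have h3 : r * ((j + 3 / 2) * α) = (j + 3 / 2) * Real.pi := by rw [← hrα]; ring
    rw [h3]
    linarith
  obtain ⟨s, hs, hsP⟩ : ∃ s ∈ Set.Icc sm sp, |Ph y r s - ((j + 1 : ℕ) : ℝ) * Real.pi| ≤ 1 / 2 := by
    push_cast
    rcases le_or_gt ((j + 1) * Real.pi - 1 / 8) (Ph y r sm) with h1 | h1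
    · refine ⟨sm, ⟨le_refl _, hmp⟩, ?_⟩
      rw [abs_le]
      constructor <;> linarith
    · obtain ⟨s, hs, hs1⟩ := intermediate_value_Icc hmp hcont ⟨h1.le, hPp⟩
      refine ⟨s, hs, ?_⟩
      rw [hs1, abs_le]
      constructor <;> linarith
  refine ⟨s, hTh s hs, ?_⟩
  have hyt : ∀ l, 0 < y l * Real.exp s := fun l => mul_pos (hy l) (Real.exp_pos _)
  have h1 := hmain n (fun l => y l * Real.exp s) hyt (by
    rw [vv_tilt, add_zero]
    exact hvs s hs) (j + 1) (by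
    rw [Ph_tilt, add_zero]
    exact hsP)
  rw [ff_tilt hy, add_zero] at h1
  exact h1

theorem caseB : ∃ R : ℝ, ∀ r : ℝ, R ≤ r → ∀ (n : ℕ) (y : Fin n → ℝ), (∀ l, 0 < y l) →
    ∀ j : ℕ, j + 2 ≤ n → ∀ s₀ : ℝ, Th y (Real.pi / r) s₀ = (j + 1) * (Real.pi / r) →
    r / 2 ≤ vv y s₀ →
    ∃ s : ℝ, |Th y (Real.pi / r) s - (j + 1) * (Real.pi / r)| ≤ Real.pi / r / 2 ∧
      0 < (-1) ^ (j + 1) * ff y r s := ⟨10 ^ 23, caseB'⟩

end Pool.Agent.LExp
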