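import Mathlib
import Pool.Agent.LExp.CaseA
import Pool.Agent.LExp.CaseB
import Pool.Agent.H49.RRDefs

/-!
# Module Final: assembly

PAPER PROOF.  `PF n a`: by `PF.exists_roots` (H62LR/Basic) `a k = a 0 * cf y k` for some `y : Fin n → ℝ`,
`y > 0` (list the multiset).  For `j = 0, …, n-2` `caseA` or `caseB` (by the size of `vv y s₀`,
`s₀` from `exists_Th_eq`) gives `s_{j+1}` with `|Th s_{j+1} - (j+1) α| ≤ α/2` and
`(-1)^{j+1} ff y r s_{j+1} > 0`.  The intervals `{|Th - jα| ≤ α/2}` tile the line in order, so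
`s_j ≤ s_{j+1}`, and the strict opposite signs give `s_j < s_{j+1}`.
For `s → -∞`, `ff → cf 0 ^ r > 0`; for `s → ∞`, `(-1)^n ff > 0`.  So `ff` has `n` sign changes,
`∑ (a k)^r x^k` has `n` distinct negative zeros `-e^{rs}` (intermediate value theorem), and
`pf_of_roots` (H62LR/Homotopy) finishes (compare the proof of `pf_of_kurtz` in H62LR/Small).
-/

open Finset Complex Polynomial

namespace Pool.Agent.LExp

open Pool.Agent.H49.RR

/-- alternating signs at `n + 1` points give real-rootedness -/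
private lemma fin_pf_of_signs {n : ℕ} {a : ℕ → ℝ} (ha : ∀ k ≤ n, 0 < a k) (x : ℕ → ℝ)
    (hstep : ∀ k, k < n → x k < x (k + 1))
    (hsign : ∀ k, k ≤ n → 0 < (-1 : ℝ) ^ k * (Pool.Agent.H62LR.poly n a).eval (-(x k))) :
    Pool.Agent.H62LR.PF n a := by
  set q : ℝ → ℝ := fun t => (Pool.Agent.H62LR.poly n a).eval (-t) with hq
  have hqc : Continuous q := by
    rw [hq]
    exact (Pool.Agent.H62LR.poly n a).continuous.comp continuous_neg
  have hroot : ∀ k, k < n → ∃ z, x k < z ∧ z < x (k + 1) ∧ q z = 0 := by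
    intro k hk
    have h1 := hsign k (by omega)
    have h2 := hsign (k + 1) (by omega)
    have hg : ContinuousOn (fun x => (-1 : ℝ) ^ k * q x) (Set.Icc (x k) (x (k + 1))) :=
      (continuous_const.mul hqc).continuousOn
    have h3 : (-1 : ℝ) ^ k * q (x (k + 1)) < 0 := by
      rw [pow_succ] at h2
      simp only [hq]
      linarith
    obtain ⟨z, hz, hz0⟩ := intermediate_value_Ioo' (hstep k hk).le hg ⟨h3, h1⟩
    refine ⟨z, hz.1, hz.2, ?_⟩
    have : (-1 : ℝ) ^ k ≠ 0 := by positivity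
    exact (mul_eq_zero.1 hz0).resolve_left this
  choose! z hz1 hz2 hz3 using hroot
  have hmono : ∀ i j, i < j → j < n → z i < z j := by
    intro i j hij hj
    have hyy : ∀ d, i + 1 + d ≤ n → x (i + 1) ≤ x (i + 1 + d) := by
      intro d
      induction d with
      | zero => intro _; exact le_rfl
      | succ d ih =>
        intro hd
        exact (ih (by omega)).trans (hstep (i + 1 + d) (by omega)).le
    have h1 := hyy (j - (i + 1)) (by omega)
    rw [show i + 1 + (j - (i + 1)) = j by omega] at h1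
    exact (hz2 i (by omega)).trans_le (h1.trans (hz1 j hj).le)
  refine Pool.Agent.H62LR.pf_of_roots ha ((range n).image (fun k => -z k)) ?_ ?_
  · rw [Finset.card_image_of_injOn, Finset.card_range]
    intro i hi j hj hij
    have hi' : i < n := by simpa using hi
    have hj' : j < n := by simpa using hj
    simp only [neg_inj] at hij
    rcases lt_trichotomy i j with h1 | h1 | h1
    · exact absurd hij (hmono i j h1 hj').ne
    · exact h1
    · exact absurd hij (hmono j i h1 hi').ne'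
  · intro w hw
    obtain ⟨k, hk, rfl⟩ := Finset.mem_image.1 hw
    exact hz3 k (Finset.mem_range.1 hk)

/-- the sign at large points -/
private lemma fin_last {n : ℕ} (hn : 0 < n) {a : ℕ → ℝ} (ha : ∀ k ≤ n, 0 < a k) (B : ℝ) :
    ∃ Y : ℝ, B < Y ∧ 0 < Y ∧ 0 < (-1 : ℝ) ^ n * (Pool.Agent.H62LR.poly n a).eval (-Y) := by
  obtain ⟨m, rfl⟩ := Nat.exists_eq_succ_of_ne_zero hn.ne'
  obtain ⟨Y, hYdef⟩ : ∃ Y : ℝ, Y = 1 + |B| + ∑ j ∈ range (m + 1), a j / a (j + 1) := ⟨_, rfl⟩
  have hnn1 : ∀ j ∈ range (m + 1), 0 ≤ a j / a (j + 1) := by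
    intro j hj
    have hj' := Finset.mem_range.1 hj
    exact (div_pos (ha j (by omega)) (ha _ (by omega))).le
  have hs1 := Finset.sum_nonneg hnn1
  have hB := le_abs_self B
  have hB0 := abs_nonneg B
  have hY0 : 0 < Y := by rw [hYdef]; linarith
  refine ⟨Y, by rw [hYdef]; linarith, hY0, ?_⟩
  set T : ℕ → ℝ := fun j => a j * Y ^ j with hT
  have hlt : ∀ j, j < m + 1 → T j < T (j + 1) := by
    intro j hj
    have h1 := Finset.single_le_sum hnn1 (Finset.mem_range.2 hj)
    have h2 : a j / a (j + 1) < Y := by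
      rw [hYdef]; linarith
    rw [div_lt_iff₀ (ha _ (by omega))] at h2
    simp only [hT]
    rw [pow_succ]
    have := pow_pos hY0 j
    nlinarith
  have hA := Pool.Agent.H62LR.alt_inc T m (by
    simp only [hT, pow_zero, mul_one]
    exact (ha 0 (by omega)).le) (fun j hj => (hlt j (by omega)).le)
  have h3 := hlt m (by omega)
  have e : ∀ j, a j * (-Y) ^ j = (-1) ^ j * T j := by
    intro j
    simp only [hT]
    rw [neg_pow]
    ring
  have e1 : (-1 : ℝ) ^ (m + 1) * ((-1) ^ (m + 1) * T (m + 1)) = T (m + 1) := by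
    rw [← mul_assoc, ← mul_pow]
    norm_num
  simp only [Pool.Agent.H62LR.eval_poly, e]
  rw [Nat.succ_eq_add_one, Finset.sum_range_succ, mul_add, e1]
  have e2 : (-1 : ℝ) ^ (m + 1) * ∑ j ∈ range (m + 1), (-1) ^ j * T j =
      -((-1) ^ m * ∑ j ∈ range (m + 1), (-1) ^ j * T j) := by rw [pow_succ]; ring
  rw [e2]
  linarith [hA.2]

/-- the tilted parameters of a sequence in `PF` -/
private lemma fin_roots {n : ℕ} {a : ℕ → ℝ} (ha : Pool.Agent.H62LR.PF n a) :
    ∃ y : Fin n → ℝ, (∀ l, 0 < y l) ∧ ∀ k ≤ n, a k = a 0 * cf y k := by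
  obtain ⟨m, hcard, hpos, hprod⟩ := ha.exists_roots
  obtain ⟨L, rfl⟩ : ∃ L : List ℝ, (L : Multiset ℝ) = m := Quot.exists_rep m
  have hlen : L.length = n := by simpa using hcard
  subst hlen
  refine ⟨fun i => L.get i, fun l => hpos _ (by simp), fun k hk => ?_⟩
  have h1 := congrArg (fun q => q.coeff k) hprod
  simp only [coeff_C_mul] at h1
  rw [Pool.Agent.H62LR.coeff_poly, if_pos hk] at h1
  rw [h1]
  congr 1
  unfold cf
  congr 1
  rw [Multiset.map_coe, Multiset.prod_coe, ← List.prod_ofFn]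
  congr 1
  conv_lhs => rw [← List.ofFn_get L, List.map_ofFn]
  rfl

private lemma fin_eval {n : ℕ} {a : ℕ → ℝ} {y : Fin n → ℝ} (hy : ∀ l, 0 < y l) (ha0 : 0 < a 0)
    (hay : ∀ k ≤ n, a k = a 0 * cf y k) (r s : ℝ) :
    (Pool.Agent.H62LR.poly n (fun k => a k ^ r)).eval (-(Real.exp (r * s))) =
      a 0 ^ r * ff y r s := by
  rw [Pool.Agent.H62LR.eval_poly]
  unfold ff
  rw [Finset.mul_sum]
  refine Finset.sum_congr rfl (fun k hk => ?_)
  have hk' : k ≤ n := by simpa [Nat.lt_succ_iff] using hk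
  rw [hay k hk', Real.mul_rpow ha0.le (cf_pos hy hk').le, neg_pow, ← Real.exp_nat_mul]
  have e : (k : ℝ) * (r * s) = r * k * s := by ring
  rw [e]
  ring

/-- explicit form -/
theorem pf_rpow' (r : ℝ) (hr : 10 ^ 23 ≤ r) (n : ℕ) (a : ℕ → ℝ) (ha : Pool.Agent.H62LR.PF n a) :
    Pool.Agent.H62LR.PF n (fun k => a k ^ r) := by
  have hA := caseA' r (by linarith)
  have hB := caseB' r hr
  have hr4 : 4 ≤ r := by linarith
  have hr0 : 0 < r := by linarith
  have hpos : ∀ k ≤ n, 0 < a k ^ r := fun k hk => Real.rpow_pos_of_pos (ha.1 k hk) r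
  rcases Nat.eq_zero_or_pos n with h0 | hn
  · subst h0
    exact Pool.Agent.H62LR.PF.zero (hpos 0 le_rfl)
  obtain ⟨y, hy, hay⟩ := fin_roots ha
  have ha0 := ha.1 0 (Nat.zero_le _)
  have heval := fun s => fin_eval hy ha0 hay r s
  have ha0r : 0 < a 0 ^ r := Real.rpow_pos_of_pos ha0 r
  obtain ⟨α, hα⟩ : ∃ α, α = Real.pi / r := ⟨_, rfl⟩
  have hpi := Real.pi_pos
  have hpi4 : Real.pi < 3.15 := Real.pi_lt_d2
  have hα0 : 0 < α := by rw [hα]; positivity
  have hα1 : α ≤ 1 := by
    rw [hα, div_le_one hr0]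
    linarith
  have hmono := strictMono_Th hn hy hα0 hα1
  -- the interior points
  have hpt : ∀ j : ℕ, j + 2 ≤ n → ∃ s : ℝ, |Th y α s - (j + 1) * α| ≤ α / 2 ∧
      0 < (-1) ^ (j + 1) * ff y r s := by
    intro j hj
    have hjn : (j : ℝ) + 2 ≤ n := by exact_mod_cast hj
    obtain ⟨s₀, hs₀⟩ := exists_Th_eq hy hα0 hα1 (t := (j + 1) * α) (by positivity) (by nlinarith)
    rw [hα] at hs₀ ⊢
    rcases le_total (vv y s₀) (r / 2) with hv | hv
    · exact hA n y hy j hj s₀ hs₀ hv
    · exact hB n y hy j hj s₀ hs₀ hv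
  choose! s hs1 hs2 using hpt
  obtain ⟨Y, hY1, hY2, hY3⟩ := fin_last hn hpos (Real.exp (r * s (n - 2)))
  set x : ℕ → ℝ := fun k => if k = 0 then 0 else if k < n then Real.exp (r * s (k - 1)) else Y
    with hx
  have hx0 : x 0 = 0 := by simp [hx]
  have hxk : ∀ k, k + 2 ≤ n → x (k + 1) = Real.exp (r * s k) := by
    intro k hk
    simp only [hx]
    rw [if_neg (by omega), if_pos (by omega)]
    rfl
  have hxn : x n = Y := by
    simp only [hx]
    rw [if_neg (by omega), if_neg (by omega)]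
  refine fin_pf_of_signs hpos x ?_ ?_
  · intro k hk
    rcases Nat.eq_zero_or_pos k with h0 | h0
    · subst h0
      rw [hx0]
      rcases Nat.lt_or_ge 1 n with h1 | h1
      · rw [hxk 0 (by omega)]
        exact Real.exp_pos _
      · rw [zero_add, show (1 : ℕ) = n by omega, hxn]
        exact hY2
    · obtain ⟨j, rfl⟩ := Nat.exists_eq_succ_of_ne_zero h0.ne'
      rw [Nat.succ_eq_add_one] at hk ⊢
      rcases Nat.lt_or_ge (j + 1 + 1) n with h1 | h1
      · rw [hxk j (by omega), hxk (j + 1) (by omega)]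
        apply Real.exp_lt_exp.2
        apply mul_lt_mul_of_pos_left _ hr0
        have p1 := (abs_le.1 (hs1 j (by omega))).2
        have p2 := (abs_le.1 (hs1 (j + 1) (by omega))).1
        push_cast at p2
        have p3 : Th y α (s j) ≤ Th y α (s (j + 1)) := by linarith
        have p4 : s j ≤ s (j + 1) := hmono.le_iff_le.1 p3
        refine lt_of_le_of_ne p4 (fun h => ?_)
        have p5 := hs2 j (by omega)
        have p6 := hs2 (j + 1) (by omega)
        rw [← h, pow_succ] at p6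
        linarith
      · have : j + 1 + 1 = n := by omega
        rw [this, hxn, hxk j (by omega)]
        rw [show n - 2 = j by omega] at hY1
        exact hY1
  · intro k hk
    rcases Nat.eq_zero_or_pos k with h0 | h0
    · subst h0
      rw [hx0, neg_zero, pow_zero, one_mul, ← coeff_zero_eq_eval_zero,
        Pool.Agent.H62LR.coeff_poly, if_pos (Nat.zero_le _)]
      exact ha0r
    · obtain ⟨j, rfl⟩ := Nat.exists_eq_succ_of_ne_zero h0.ne'
      rw [Nat.succ_eq_add_one] at hk ⊢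
      rcases Nat.lt_or_ge (j + 1) n with h1 | h1
      · rw [hxk j (by omega), heval]
        have := hs2 j (by omega)
        have h2 := mul_pos ha0r this
        calc 0 < a 0 ^ r * ((-1) ^ (j + 1) * ff y r (s j)) := h2
          _ = _ := by ring
      · have : j + 1 = n := by omega
        rw [this, hxn]
        exact hY3

theorem pf_rpow : ∃ R : ℝ, ∀ r : ℝ, R ≤ r → ∀ (n : ℕ) (a : ℕ → ℝ), Pool.Agent.H62LR.PF n a →
    Pool.Agent.H62LR.PF n (fun k => a k ^ r) := ⟨10 ^ 23, pf_rpow'⟩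

/-- explicit form -/
theorem preserves_rpow' (r : ℝ) (hr : 10 ^ 23 ≤ r) (c : ℝ) (hc : 0 < c) :
    Preserves (fun t => c * t ^ r) := by
  intro p hp
  have h1 := (pf_rpow' r hr _ _ (Pool.Agent.H62LR.pf_of_pplus hp)).const_mul hc
  exact h1.realRooted

theorem preserves_rpow : ∃ R : ℝ, ∀ r : ℝ, R ≤ r → ∀ c : ℝ, 0 < c →
    Preserves (fun t => c * t ^ r) := ⟨10 ^ 23, preserves_rpow'⟩

end Pool.Agent.LExp
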